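import Pool.Agent.Lib.P5135n.Defs2

/-!
# Module P5135n.AutM: the number of automorphisms of the planted matching

An `a` with `(a u).1 = (a v).1 ↔ u.1 = v.1` induces a permutation `σ` of `Fin k` and for every `i` a
permutation (identity or swap) of `Bool`: `a (i, c) = (σ i, xor c (ε i))`. The map `(σ, ε) ↦ a` is a
bijection from `Equiv.Perm (Fin k) × (Fin k → Bool)`.
-/

set_option autoImplicit false

namespace Pool.Agent.Lib.P5135n

namespace AutMAux

/-- The permutation given by a permutation of the edges and the set of swapped edges. -/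
def mk {k : ℕ} (q : Equiv.Perm (Fin k) × (Fin k → Bool)) : Equiv.Perm (Fin k × Bool) where
  toFun u := (q.1 u.1, xor u.2 (q.2 u.1))
  invFun u := (q.1.symm u.1, xor u.2 (q.2 (q.1.symm u.1)))
  left_inv u := by
    obtain ⟨i, c⟩ := u
    simp
  right_inv u := by
    obtain ⟨i, c⟩ := u
    simp

theorem mk_apply {k : ℕ} (q : Equiv.Perm (Fin k) × (Fin k → Bool)) (i : Fin k) (c : Bool) :
    mk q (i, c) = (q.1 i, xor c (q.2 i)) := rfl

theorem mk_mem {k : ℕ} (q : Equiv.Perm (Fin k) × (Fin k → Bool)) (u v : Fin k × Bool) :
    (mk q u).1 = (mk q v).1 ↔ u.1 = v.1 := by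
  obtain ⟨i, c⟩ := u
  obtain ⟨j, d⟩ := v
  rw [mk_apply, mk_apply]
  exact q.1.injective.eq_iff

theorem xor_of_ne : ∀ x y : Bool, x ≠ y → xor true y = x := by decide

theorem bij (k : ℕ) : Function.Bijective
    (fun q : Equiv.Perm (Fin k) × (Fin k → Bool) =>
      (⟨mk q, mk_mem q⟩ : {a : Equiv.Perm (Fin k × Bool) // ∀ u v, (a u).1 = (a v).1 ↔ u.1 = v.1})) := by
  constructor
  · intro q q' h
    have h0 : mk q = mk q' := congrArg Subtype.val h
    have h1 : ∀ i, (q.1 i, q.2 i) = (q'.1 i, q'.2 i) := by
      intro i
      have h2 := congrArg (fun e : Equiv.Perm (Fin k × Bool) => e (i, false)) h0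
      simpa [mk_apply] using h2
    apply Prod.ext
    · ext1 i
      exact congrArg Prod.fst (h1 i)
    · funext i
      exact congrArg Prod.snd (h1 i)
  · rintro ⟨a, ha⟩
    have hinj : Function.Injective fun i : Fin k => (a (i, false)).1 := by
      intro i j hij
      exact (ha (i, false) (j, false)).1 hij
    have hbij : Function.Bijective fun i : Fin k => (a (i, false)).1 :=
      Finite.injective_iff_bijective.1 hinj
    refine ⟨(Equiv.ofBijective _ hbij, fun i => (a (i, false)).2), ?_⟩
    apply Subtype.ext
    apply Equiv.ext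
    rintro ⟨i, c⟩
    rw [mk_apply]
    cases c with
    | false =>
      apply Prod.ext
      · rfl
      · simp
    | true =>
      have h1 : (a (i, true)).1 = (a (i, false)).1 := (ha (i, true) (i, false)).2 rfl
      have h2 : (a (i, true)).2 ≠ (a (i, false)).2 := by
        intro h3
        have h4 : a (i, true) = a (i, false) := Prod.ext h1 h3
        have h5 := a.injective h4
        simp at h5
      apply Prod.ext
      · exact h1.symm
      · exact xor_of_ne _ _ h2

end AutMAux

theorem autM_eq (k : ℕ) : autM k = k.factorial * 2 ^ k := by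
  unfold autM
  rw [← Nat.card_congr (Equiv.ofBijective _ (AutMAux.bij k)), Nat.card_prod,
    Nat.card_eq_fintype_card, Nat.card_eq_fintype_card, Fintype.card_perm, Fintype.card_fun,
    Fintype.card_bool, Fintype.card_fin]

end Pool.Agent.Lib.P5135n
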