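import Pool.Agent.Lib.P5135n.Defs

/-!
# Almost all graphs with the structure are extremal: definitions
-/

set_option autoImplicit false

namespace Pool.Agent.Lib.P5135n

open Pool.Agent.Lib.P5135a5

/-- Every further vertex is joined to both ends of a planted edge. -/
def Full (k r : ℕ) (ω : Om k r) : Prop := ∀ x, ∃ i, ω.1 x i true = true ∧ ω.1 x i false = true

/-- Two further vertices which miss a common end of all but fewer than `b₀` planted edges. -/
def BadP (k r b₀ : ℕ) (ω : Om k r) : Prop :=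
  ∃ x y : Fin r, x ≠ y ∧ ∃ A : Finset (Fin k), k + 1 ≤ A.card + b₀ ∧
    ∀ i ∈ A, ∃ c, ω.1 x i c = false ∧ ω.1 y i c = false

/-- The non-adjacencies of an irredundant family. -/
def IrrD {V : Type} (G : SimpleGraph V) {m : ℕ} (s p : Fin m → V) : Prop :=
  Function.Injective s ∧ Function.Injective p ∧ ∀ i j, i ≠ j → p j ≠ s i ∧ ¬ G.Adj (p j) (s i)

/-- The non-adjacencies of an irredundant family of size `k + 1` with more than `b₀` further vertices. -/
def Bad2D (k r b₀ : ℕ) (ω : Om k r) : Prop :=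
  ∃ s p : Fin (k + 1) → VV k r, IrrD (mkG ω) s p ∧ b₀ < (rest s p).card

/-- A second set of `2 k` vertices in which every vertex has at most one neighbour. -/
def Bad3D (k r : ℕ) (ω : Om k r) : Prop :=
  ∃ T : Finset (VV k r), T.card = 2 * k ∧ T ≠ planted k r ∧
    ∃ τ : VV k r → VV k r, ∀ v ∈ T, ∀ u ∈ T, u ≠ τ v → ¬ (mkG ω).Adj v u

/-- The structure with `k` edges: `T` is the vertex set of an induced matching with `k` edges and every other vertex is
joined to both ends of one of its edges. -/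
def SkG {V : Type} (G : SimpleGraph V) (k : ℕ) : Prop :=
  ∃ T : Finset V, T.card = 2 * k ∧ IsInducedMatchingSet G T ∧
    ∀ v, v ∉ T → ∃ u ∈ T, ∃ w ∈ T, G.Adj u w ∧ G.Adj v u ∧ G.Adj v w

/-- The structure. -/
def SG {V : Type} (G : SimpleGraph V) : Prop :=
  ∃ T : Finset V, IsInducedMatchingSet G T ∧
    ∀ v, v ∉ T → ∃ u ∈ T, ∃ w ∈ T, G.Adj u w ∧ G.Adj v u ∧ G.Adj v w

/-- `G` is extremal with `Γ = k` and has exactly one induced matching with `k` edges. -/
def GoodG {V : Type} (G : SimpleGraph V) (k : ℕ) : Prop :=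
  Ext G ∧ upperDom G = k ∧ ∃! T : Finset V, IsInducedMatchingSet G T ∧ T.card = 2 * k

/-- The number of automorphisms of the planted matching. -/
noncomputable def autM (k : ℕ) : ℕ :=
  Nat.card {a : Equiv.Perm (Fin k × Bool) // ∀ u v, (a u).1 = (a v).1 ↔ u.1 = v.1}

end Pool.Agent.Lib.P5135n
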