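import Pool.Agent.Lib.P5135n.NonAdj
import Pool.Agent.Lib.P5135n.Defs2

/-!
# Module P5135n.CntB2: the number of `ω` with `Bad2D`

PROOF. As in CntB (module 10656, `P5135n_CntB_done.lean`), which proves the same for `Bad2`, `k = 2 m`; now only `2 m ≤ k` (so the sets `N x` with `k`
elements have at least `2 m`), `Irr` is replaced by `IrrD` (the adjacency of `s j` and `p j` was used only for the
injectivity of `p`, which is now part of the definition), and the conclusion is stated without the factor `8`.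
-/

set_option autoImplicit false

namespace Pool.Agent.Lib.P5135n

namespace CntB2Aux

/-- The further vertices of a pair. -/
def fv {k r : ℕ} (q : VV k r × VV k r) : Finset (Fin r) :=
  Finset.univ.filter fun x => q.1 = Sum.inr x ∨ q.2 = Sum.inr x

theorem mem_fv {k r : ℕ} (q : VV k r × VV k r) (x : Fin r) :
    x ∈ fv q ↔ (q.1 = Sum.inr x ∨ q.2 = Sum.inr x) := by
  simp [fv]

theorem mem_rest {k r m : ℕ} (s p : Fin m → VV k r) (x : Fin r) :
    x ∈ rest s p ↔ ∃ j, s j = Sum.inr x ∨ p j = Sum.inr x := by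
  simp [rest]

theorem rest_eq {k r m : ℕ} (s p : Fin m → VV k r) :
    rest s p = Finset.univ.biUnion fun j => fv (s j, p j) := by
  ext x
  rw [mem_rest, Finset.mem_biUnion]
  constructor
  · rintro ⟨j, hj⟩
    exact ⟨j, Finset.mem_univ _, (mem_fv _ _).2 hj⟩
  · rintro ⟨j, -, hj⟩
    exact ⟨j, (mem_fv _ _).1 hj⟩

theorem card_rest {k r m : ℕ} {G : SimpleGraph (VV k r)} {s p : Fin m → VV k r}
    (h : IrrD G s p) :
    (rest s p).card = ∑ j, (fv (s j, p j)).card := by
  rw [rest_eq, Finset.card_biUnion]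
  intro i _ j _ hij
  refine Finset.disjoint_left.2 ?_
  intro x hx hy
  rw [mem_fv] at hx hy
  obtain ⟨hs, hp, h2⟩ := h
  rcases hx with hx | hx <;> rcases hy with hy | hy
  · exact hij (hs (hx.trans hy.symm))
  · exact (h2 i j hij).1 (hy.trans hx.symm)
  · exact (h2 j i hij.symm).1 (hx.trans hy.symm)
  · exact hij (hp (hx.trans hy.symm))

theorem card_irr {k r m : ℕ} (hk : 2 * m ≤ k) {s p : Fin (k + 1) → VV k r}
    {ω₀ : Om k r} (h0 : IrrD (mkG ω₀) s p) :
    Nat.card {ω : Om k r // IrrD (mkG ω) s p} * 2 ^ (m * (rest s p).card) ≤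
      2 ^ (2 * k * r + r.choose 2) := by
  classical
  have hs := h0.1
  have hp := h0.2.1
  -- an index for each further vertex
  have hex : ∀ x : Fin r, ∃ N : Finset (VV k r), x ∈ rest s p →
      (Sum.inr x ∉ N ∧ 2 * m ≤ N.card ∧
        ∀ ω : Om k r, IrrD (mkG ω) s p → ∀ y ∈ N, ¬ (mkG ω).Adj (Sum.inr x) y) := by
    intro x
    by_cases hx : x ∈ rest s p
    · obtain ⟨j, hj⟩ := (mem_rest s p x).1 hx
      have hc : ∀ f : Fin (k + 1) → VV k r, Function.Injective f →
          2 * m ≤ ((Finset.univ.erase j).image f).card := by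
        intro f hf
        rw [Finset.card_image_of_injective _ hf, Finset.card_erase_of_mem (Finset.mem_univ _),
          Finset.card_univ, Fintype.card_fin]
        omega
      rcases hj with hj | hj
      · refine ⟨(Finset.univ.erase j).image p, fun _ => ⟨?_, hc p hp, ?_⟩⟩
        · intro hmem
          obtain ⟨i, hi, hi2⟩ := Finset.mem_image.1 hmem
          have hij : j ≠ i := (Finset.ne_of_mem_erase hi).symm
          exact (h0.2.2 j i hij).1 (hi2.trans hj.symm)
        · intro ω hω y hy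
          obtain ⟨i, hi, rfl⟩ := Finset.mem_image.1 hy
          have hij : j ≠ i := (Finset.ne_of_mem_erase hi).symm
          intro hadj
          apply (hω.2.2 j i hij).2
          rw [hj]
          exact hadj.symm
      · refine ⟨(Finset.univ.erase j).image s, fun _ => ⟨?_, hc s hs, ?_⟩⟩
        · intro hmem
          obtain ⟨i, hi, hi2⟩ := Finset.mem_image.1 hmem
          have hij : i ≠ j := Finset.ne_of_mem_erase hi
          exact (h0.2.2 i j hij).1 (hj.trans hi2.symm)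
        · intro ω hω y hy
          obtain ⟨i, hi, rfl⟩ := Finset.mem_image.1 hy
          have hij : i ≠ j := Finset.ne_of_mem_erase hi
          intro hadj
          apply (hω.2.2 i j hij).2
          rw [hj]
          exact hadj
    · exact ⟨∅, fun h => absurd h hx⟩
  choose N hN using hex
  refine le_trans (Nat.mul_le_mul_right _ ?_)
    (nonAdj (k := k) (r := r) m (rest s p) N (fun x hx => (hN x hx).1) (fun x hx => (hN x hx).2.1))
  apply Nat.card_mono (Set.toFinite _)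
  intro ω hω x hx y hy
  exact (hN x hx).2.2 ω hω y hy

theorem real_bound {k r b₀ m l d : ℕ} (hk : 2 * m ≤ k) (hm : m = l + d)
    (s p : Fin (k + 1) → VV k r) :
    (Nat.card {ω : Om k r // IrrD (mkG ω) s p ∧ b₀ < (rest s p).card} : ℝ) ≤
      2 ^ (2 * k * r + r.choose 2) * ((2 : ℝ) ^ (d * (b₀ + 1)))⁻¹ *
        ∏ j, (((2 : ℝ) ^ l)⁻¹) ^ (fv (s j, p j)).card := by
  classical
  by_cases h : ∃ ω : Om k r, IrrD (mkG ω) s p ∧ b₀ < (rest s p).card
  · obtain ⟨ω₀, h0, hb⟩ := h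
    have h1 := card_irr hk h0
    have h2 : Nat.card {ω : Om k r // IrrD (mkG ω) s p ∧
        b₀ < (rest s p).card} ≤ Nat.card {ω : Om k r // IrrD (mkG ω) s p} := by
      apply Nat.card_mono (Set.toFinite _)
      intro ω hω
      exact hω.1
    have h3 : (Nat.card {ω : Om k r // IrrD (mkG ω) s p} : ℝ) * 2 ^ (m * (rest s p).card) ≤
        2 ^ (2 * k * r + r.choose 2) := by exact_mod_cast h1
    rw [Finset.prod_pow_eq_pow_sum, ← card_rest h0]
    set w := (rest s p).card with hw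
    have h4 : (2 : ℝ) ^ (m * w) = 2 ^ (d * w) * (2 ^ l) ^ w := by
      rw [hm, ← pow_mul, ← pow_add]
      congr 1
      ring
    have h5 : (2 : ℝ) ^ (d * (b₀ + 1)) ≤ 2 ^ (d * w) :=
      pow_le_pow_right₀ (by norm_num) (Nat.mul_le_mul_left _ hb)
    have h6 : (0 : ℝ) < 2 ^ (d * (b₀ + 1)) := by positivity
    have h7 : (0 : ℝ) < (2 ^ l) ^ w := by positivity
    rw [inv_pow, mul_assoc, ← mul_inv, ← div_eq_mul_inv, le_div_iff₀ (mul_pos h6 h7)]
    calc (Nat.card {ω : Om k r // IrrD (mkG ω) s p ∧ b₀ < w} : ℝ) *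
          (2 ^ (d * (b₀ + 1)) * (2 ^ l) ^ w)
        ≤ (Nat.card {ω : Om k r // IrrD (mkG ω) s p} : ℝ) * (2 ^ (d * w) * (2 ^ l) ^ w) := by
          apply mul_le_mul
          · exact_mod_cast h2
          · exact mul_le_mul_of_nonneg_right h5 h7.le
          · positivity
          · positivity
      _ = (Nat.card {ω : Om k r // IrrD (mkG ω) s p} : ℝ) * 2 ^ (m * w) := by rw [h4]
      _ ≤ 2 ^ (2 * k * r + r.choose 2) := h3
  · have : IsEmpty {ω : Om k r // IrrD (mkG ω) s p ∧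
        b₀ < (rest s p).card} := ⟨fun ω => h ⟨ω.1, ω.2⟩⟩
    rw [Nat.card_of_isEmpty]
    have h8 : (0 : ℝ) ≤ ∏ j, (((2 : ℝ) ^ l)⁻¹) ^ (fv (s j, p j)).card :=
      Finset.prod_nonneg fun j _ => by positivity
    push_cast
    positivity

/-- The weight of a vertex. -/
noncomputable def wv {k r : ℕ} (l : ℕ) : VV k r → ℝ
  | .inl _ => 1
  | .inr _ => ((2 : ℝ) ^ l)⁻¹

/-- The diagonal correction. -/
noncomputable def dg {k r : ℕ} (l : ℕ) : VV k r → VV k r → ℝ
  | .inr x, .inr y => if x = y then ((2 : ℝ) ^ l)⁻¹ else 0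
  | _, _ => 0

theorem weight_le {k r : ℕ} (l : ℕ) (u v : VV k r) :
    (((2 : ℝ) ^ l)⁻¹) ^ (fv (u, v)).card ≤ wv l u * wv l v + dg l u v := by
  have ha : (0 : ℝ) < ((2 : ℝ) ^ l)⁻¹ := by positivity
  rcases u with u | x <;> rcases v with v | y
  · have : fv ((Sum.inl u, Sum.inl v) : VV k r × VV k r) = ∅ := by
      ext z; simp [mem_fv]
    rw [this]
    simp [wv, dg]
  · have : fv ((Sum.inl u, Sum.inr y) : VV k r × VV k r) = {y} := by
      ext z; simp [mem_fv, eq_comm]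
    rw [this]
    simp [wv, dg]
  · have : fv ((Sum.inr x, Sum.inl v) : VV k r × VV k r) = {x} := by
      ext z; simp [mem_fv, eq_comm]
    rw [this]
    simp [wv, dg]
  · by_cases hxy : x = y
    · subst hxy
      have : fv ((Sum.inr x, Sum.inr x) : VV k r × VV k r) = {x} := by
        ext z; simp [mem_fv, eq_comm]
      rw [this, Finset.card_singleton, pow_one]
      simp only [wv, dg, if_true]
      nlinarith [mul_pos ha ha]
    · have : fv ((Sum.inr x, Sum.inr y) : VV k r × VV k r) = {x, y} := by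
        ext z; simp [mem_fv, eq_comm]
      rw [this, Finset.card_pair hxy]
      simp only [wv, dg, if_neg hxy]
      rw [pow_two, add_zero]

theorem sum_wv {k r : ℕ} (l : ℕ) :
    ∑ u : VV k r, wv l u = 2 * k + r * ((2 : ℝ) ^ l)⁻¹ := by
  rw [Fintype.sum_sum_type]
  simp only [wv, Finset.sum_const, Finset.card_univ, nsmul_eq_mul, mul_one]
  rw [Fintype.card_prod, Fintype.card_fin, Fintype.card_bool, Fintype.card_fin]
  push_cast
  ring

theorem sum_dg {k r : ℕ} (l : ℕ) :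
    ∑ u : VV k r, ∑ v : VV k r, dg l u v = r * ((2 : ℝ) ^ l)⁻¹ := by
  rw [Fintype.sum_sum_type]
  have h1 : ∀ u : Fin k × Bool, ∑ v : VV k r, dg l (Sum.inl u) v = 0 := by
    intro u
    apply Finset.sum_eq_zero
    intro v _
    rcases v with v | v <;> rfl
  have h2 : ∀ x : Fin r, ∑ v : VV k r, dg l (Sum.inr x) v = ((2 : ℝ) ^ l)⁻¹ := by
    intro x
    rw [Fintype.sum_sum_type]
    simp [dg]
  simp only [h1, h2, Finset.sum_const_zero, zero_add, Finset.sum_const, Finset.card_univ,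
    nsmul_eq_mul, Fintype.card_fin]

theorem sum_weight {k r l : ℕ} (hr : r ≤ 2 ^ l) :
    ∑ q : VV k r × VV k r, (((2 : ℝ) ^ l)⁻¹) ^ (fv q).card ≤ (2 * k + 2) ^ 2 := by
  have ha : (0 : ℝ) < (2 : ℝ) ^ l := by positivity
  have hr' : (r : ℝ) * ((2 : ℝ) ^ l)⁻¹ ≤ 1 := by
    rw [← div_eq_mul_inv, div_le_one ha]
    exact_mod_cast hr
  have hr0 : 0 ≤ (r : ℝ) * ((2 : ℝ) ^ l)⁻¹ := by positivity
  have hk0 : (0 : ℝ) ≤ k := Nat.cast_nonneg k
  rw [Fintype.sum_prod_type]
  calc ∑ u : VV k r, ∑ v : VV k r, (((2 : ℝ) ^ l)⁻¹) ^ (fv (u, v)).card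
      ≤ ∑ u : VV k r, ∑ v : VV k r, (wv l u * wv l v + dg l u v) :=
        Finset.sum_le_sum fun u _ => Finset.sum_le_sum fun v _ => weight_le l u v
    _ = (∑ u : VV k r, wv l u) * (∑ v : VV k r, wv l v) +
          ∑ u : VV k r, ∑ v : VV k r, dg l u v := by
        simp only [Finset.sum_add_distrib, Finset.sum_mul_sum]
    _ = (2 * k + r * ((2 : ℝ) ^ l)⁻¹) * (2 * k + r * ((2 : ℝ) ^ l)⁻¹) +
          r * ((2 : ℝ) ^ l)⁻¹ := by rw [sum_wv, sum_dg]
    _ ≤ (2 * k + 2) ^ 2 := by nlinarith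

end CntB2Aux

open CntB2Aux in
theorem card_bad2D {k r b₀ m l d : ℕ} (hk : 2 * m ≤ k) (hm : m = l + d) (hr : r ≤ 2 ^ l) :
    (Nat.card {ω : Om k r // Bad2D k r b₀ ω} : ℝ) * 2 ^ (d * (b₀ + 1)) ≤
      (2 * k + 2 : ℝ) ^ (2 * (k + 1)) * 2 ^ (2 * k * r + r.choose 2) := by
  classical
  -- the union bound
  have h1 : (Nat.card {ω : Om k r // Bad2D k r b₀ ω} : ℝ) ≤
      ∑ q : Fin (k + 1) → VV k r × VV k r,
        (Nat.card {ω : Om k r // IrrD (mkG ω) (fun j => (q j).1) (fun j => (q j).2) ∧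
          b₀ < (rest (fun j => (q j).1) (fun j => (q j).2)).card} : ℝ) := by
    have h2 : Nat.card {ω : Om k r // Bad2D k r b₀ ω} ≤
        ∑ q : Fin (k + 1) → VV k r × VV k r,
          Nat.card {ω : Om k r // IrrD (mkG ω) (fun j => (q j).1) (fun j => (q j).2) ∧
            b₀ < (rest (fun j => (q j).1) (fun j => (q j).2)).card} := by
      simp only [Nat.card_eq_fintype_card, Fintype.card_subtype]
      refine le_trans (Finset.card_le_card ?_) Finset.card_biUnion_le
      intro ω hω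
      obtain ⟨s, p, h⟩ := (Finset.mem_filter.1 hω).2
      rw [Finset.mem_biUnion]
      exact ⟨fun j => (s j, p j), Finset.mem_univ _,
        Finset.mem_filter.2 ⟨Finset.mem_univ _, h⟩⟩
    exact_mod_cast h2
  have hd : (0 : ℝ) < 2 ^ (d * (b₀ + 1)) := by positivity
  have hOm : (0 : ℝ) < 2 ^ (2 * k * r + r.choose 2) := by positivity
  have h3 : ∑ q : Fin (k + 1) → VV k r × VV k r, ∏ j, (((2 : ℝ) ^ l)⁻¹) ^ (fv (q j)).card =
      (∑ q : VV k r × VV k r, (((2 : ℝ) ^ l)⁻¹) ^ (fv q).card) ^ (k + 1) := by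
    have h4 := Finset.prod_univ_sum (fun _ : Fin (k + 1) => (Finset.univ : Finset (VV k r × VV k r)))
      (fun _ q => (((2 : ℝ) ^ l)⁻¹) ^ (fv q).card)
    rw [Finset.prod_const, Finset.card_univ, Fintype.card_fin, Fintype.piFinset_univ] at h4
    exact h4.symm
  have h5 : (∑ q : VV k r × VV k r, (((2 : ℝ) ^ l)⁻¹) ^ (fv q).card) ^ (k + 1) ≤
      (2 * k + 2) ^ (2 * (k + 1)) := by
    rw [pow_mul]
    apply pow_le_pow_left₀ _ (sum_weight hr)
    exact Finset.sum_nonneg fun q _ => by positivity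
  rw [← le_div_iff₀ hd]
  calc (Nat.card {ω : Om k r // Bad2D k r b₀ ω} : ℝ)
      ≤ _ := h1
    _ ≤ ∑ q : Fin (k + 1) → VV k r × VV k r,
          2 ^ (2 * k * r + r.choose 2) * ((2 : ℝ) ^ (d * (b₀ + 1)))⁻¹ *
            ∏ j, (((2 : ℝ) ^ l)⁻¹) ^ (fv (q j)).card :=
        Finset.sum_le_sum fun q _ => real_bound hk hm _ _
    _ = 2 ^ (2 * k * r + r.choose 2) * ((2 : ℝ) ^ (d * (b₀ + 1)))⁻¹ *
          (∑ q : VV k r × VV k r, (((2 : ℝ) ^ l)⁻¹) ^ (fv q).card) ^ (k + 1) := by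
        rw [← Finset.mul_sum, h3]
    _ ≤ 2 ^ (2 * k * r + r.choose 2) * ((2 : ℝ) ^ (d * (b₀ + 1)))⁻¹ *
          (2 * k + 2) ^ (2 * (k + 1)) :=
        mul_le_mul_of_nonneg_left h5 (by positivity)
    _ = (2 * k + 2 : ℝ) ^ (2 * (k + 1)) * 2 ^ (2 * k * r + r.choose 2) /
          2 ^ (d * (b₀ + 1)) := by
        rw [div_eq_mul_inv]
        ring

end Pool.Agent.Lib.P5135n
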