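import Pool.Agent.Lib.P5135n.NonAdj
import Pool.Agent.Lib.P5135n.Defs2

/-!
# Module P5135n.CntC2: the number of `ω` with `Bad3D`

PROOF. As in CntC (module 10657, `P5135n_CntC_done.lean`), which proves the same for `Bad3` with the constants `1/8`; now `τ` is given by
the definition (`T \ {inr x, τ x}` has at least `2 k - 2` elements, none adjacent to `x`). With
`q = r (2 k) (2 k + r) / 2 ^ (k - 1) ≤ 1/2` the proportion is at most `∑_{w ≥ 1} q ^ w ≤ 2 q`.
-/

set_option autoImplicit false

namespace Pool.Agent.Lib.P5135n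

open Pool.Agent.Lib.P5135a5

namespace CntC2Aux

/-- the set `T` given by `W` and `Z` -/
def TT {k r : ℕ} (W : Finset (Fin r)) (Z : Finset (Fin k × Bool)) : Finset (VV k r) :=
  Finset.disjSum Zᶜ W

theorem card_TT {k r : ℕ} (W : Finset (Fin r)) (Z : Finset (Fin k × Bool))
    (h : Z.card = W.card) : (TT W Z).card = 2 * k := by
  unfold TT
  rw [Finset.card_disjSum, Finset.card_compl]
  have h1 : Z.card ≤ Fintype.card (Fin k × Bool) := Finset.card_le_univ Z
  have h2 : Fintype.card (Fin k × Bool) = 2 * k := by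
    rw [Fintype.card_prod, Fintype.card_fin, Fintype.card_bool, mul_comm]
  omega

/-- the forbidden neighbours -/
noncomputable def NN {k r : ℕ} (W : Finset (Fin r)) (Z : Finset (Fin k × Bool)) (τ : W → VV k r)
    (x : Fin r) : Finset (VV k r) :=
  open Classical in
  if h : x ∈ W then ((TT W Z).erase (Sum.inr x)).erase (τ ⟨x, h⟩) else ∅

/-- the event of `(W, Z, τ)` -/
def Ev {k r : ℕ} (W : Finset (Fin r)) (Z : Finset (Fin k × Bool)) (τ : W → VV k r)
    (ω : Om k r) : Prop :=
  ∀ x ∈ W, ∀ y ∈ NN W Z τ x, ¬ (mkG ω).Adj (Sum.inr x) y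

theorem card_Ev {k r : ℕ} (W : Finset (Fin r)) (Z : Finset (Fin k × Bool)) (τ : W → VV k r)
    (h : Z.card = W.card) :
    Nat.card {ω : Om k r // Ev W Z τ ω} * 2 ^ ((k - 1) * W.card) ≤
      2 ^ (2 * k * r + r.choose 2) := by
  refine nonAdj (k - 1) W (NN W Z τ) (fun x hx => ?_) (fun x hx => ?_)
  · unfold NN
    rw [dif_pos hx]
    intro hmem
    have := Finset.mem_of_mem_erase hmem
    exact Finset.notMem_erase _ _ this
  · unfold NN
    rw [dif_pos hx]
    have h1 := Finset.pred_card_le_card_erase (s := TT W Z) (a := Sum.inr x)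
    have h2 := Finset.pred_card_le_card_erase (s := (TT W Z).erase (Sum.inr x))
      (a := τ ⟨x, hx⟩)
    rw [card_TT W Z h] at h1
    omega

theorem bad3D_ev {k r : ℕ} {ω : Om k r} (h : Bad3D k r ω) :
    ∃ (W : Finset (Fin r)) (Z : Finset (Fin k × Bool)) (τ : W → VV k r),
      W ≠ ∅ ∧ Z.card = W.card ∧ Ev W Z τ ω := by
  classical
  obtain ⟨T, hT, hne, τ, hI⟩ := h
  set W : Finset (Fin r) := Finset.univ.filter fun x => (Sum.inr x : VV k r) ∈ T with hW
  set Z : Finset (Fin k × Bool) := Finset.univ.filter fun p => (Sum.inl p : VV k r) ∉ T with hZ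
  have hTT : TT W Z = T := by
    unfold TT
    ext v
    rcases v with p | x
    · rw [Finset.inl_mem_disjSum, Finset.mem_compl, hZ, Finset.mem_filter]
      simp
    · rw [Finset.inr_mem_disjSum, hW, Finset.mem_filter]
      simp
  have hcard : Z.card = W.card := by
    have h1 : (TT W Z).card = 2 * k := by rw [hTT]; exact hT
    unfold TT at h1
    rw [Finset.card_disjSum, Finset.card_compl] at h1
    have h2 : Fintype.card (Fin k × Bool) = 2 * k := by
      rw [Fintype.card_prod, Fintype.card_fin, Fintype.card_bool, mul_comm]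
    have h3 : Z.card ≤ Fintype.card (Fin k × Bool) := Finset.card_le_univ Z
    omega
  have hWne : W ≠ ∅ := by
    intro h0
    apply hne
    have hZ0 : Z = ∅ := by
      rw [← Finset.card_eq_zero, hcard, h0, Finset.card_empty]
    rw [← hTT, h0, hZ0]
    ext v
    unfold TT planted
    rcases v with p | x
    · simp
    · simp
  refine ⟨W, Z, fun x => τ (Sum.inr x.1), hWne, hcard, ?_⟩
  intro x hx y hy hadj
  unfold NN at hy
  rw [dif_pos hx, hTT] at hy
  have h1 : y ≠ τ (Sum.inr x) := Finset.ne_of_mem_erase hy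
  have h2 : y ∈ T := Finset.mem_of_mem_erase (Finset.mem_of_mem_erase hy)
  have hxT : (Sum.inr x : VV k r) ∈ T := (Finset.mem_filter.mp hx).2
  exact hI _ hxT _ h2 h1 hadj

theorem sum_bound {r : ℕ} {c q : ℝ} (hc : 0 ≤ c) (hq : r * c ≤ q) (hq1 : q ≤ 1 / 2) :
    ∑ W ∈ (Finset.univ : Finset (Finset (Fin r))).erase ∅, c ^ W.card ≤ 2 * q := by
  have hq0 : 0 ≤ q := le_trans (by positivity) hq
  have h1 : ∑ W : Finset (Fin r), c ^ W.card = (c + 1) ^ r := by
    have := Fintype.sum_pow_mul_eq_add_pow (Fin r) c 1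
    simpa using this
  have h2 : ∑ W ∈ (Finset.univ : Finset (Finset (Fin r))).erase ∅, c ^ W.card + 1 = (c + 1) ^ r := by
    rw [← h1, ← Finset.sum_erase_add _ _ (Finset.mem_univ (∅ : Finset (Fin r)))]
    simp
  have h3 : (c + 1) ^ r ≤ Real.exp (r * c) := by
    have h4 : c + 1 ≤ Real.exp c := Real.add_one_le_exp c
    calc (c + 1) ^ r ≤ (Real.exp c) ^ r := pow_le_pow_left₀ (by positivity) h4 r
      _ = Real.exp (r * c) := by rw [← Real.exp_nat_mul]
  have h5 : Real.exp (r * c) ≤ 1 + 2 * q := by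
    have h6 : Real.exp (r * c) ≤ Real.exp q := Real.exp_le_exp.mpr hq
    have h7 : 1 - q ≤ Real.exp (-q) := by
      have := Real.add_one_le_exp (-q)
      linarith
    have h8 : Real.exp q * Real.exp (-q) = 1 := by
      rw [← Real.exp_add]; simp
    have h9 : 0 < Real.exp q := Real.exp_pos _
    have h10 : Real.exp q * (1 - q) ≤ 1 := by
      calc Real.exp q * (1 - q) ≤ Real.exp q * Real.exp (-q) :=
            mul_le_mul_of_nonneg_left h7 h9.le
        _ = 1 := h8
    have h11 : 0 < 1 - q := by linarith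
    have h12 : 1 ≤ (1 + 2 * q) * (1 - q) := by nlinarith
    have h13 : Real.exp q * (1 - q) ≤ (1 + 2 * q) * (1 - q) := h10.trans h12
    exact h6.trans (le_of_mul_le_mul_right h13 h11)
  linarith

end CntC2Aux

open CntC2Aux

theorem card_bad3D {k r : ℕ} (hk : 1 ≤ k) {q : ℝ} (hq : (r * (2 * k) * (2 * k + r) : ℝ) ≤ q * 2 ^ (k - 1)) (hq1 : q ≤ 1 / 2) :
    (Nat.card {ω : Om k r // Bad3D k r ω} : ℝ) ≤ 2 * q * 2 ^ (2 * k * r + r.choose 2) := by
  classical
  set Ω : ℝ := 2 ^ (2 * k * r + r.choose 2) with hΩ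
  have hΩ0 : 0 < Ω := by positivity
  set s0 : Finset (Finset (Fin r)) := (Finset.univ : Finset (Finset (Fin r))).erase ∅ with hs0
  set EE : (W : Finset (Fin r)) → Finset (Fin k × Bool) → (W → VV k r) → Finset (Om k r) :=
    fun W Z τ => Finset.univ.filter fun ω => Ev W Z τ ω with hEE
  have hsub : (Finset.univ.filter fun ω : Om k r => Bad3D k r ω) ⊆
      s0.biUnion fun W => (Finset.powersetCard W.card (Finset.univ : Finset (Fin k × Bool))).biUnion
        fun Z => (Finset.univ : Finset (W → VV k r)).biUnion fun τ => EE W Z τ := by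
    intro ω hω
    rw [Finset.mem_filter] at hω
    obtain ⟨W, Z, τ, h1, h2, h3⟩ := bad3D_ev hω.2
    rw [Finset.mem_biUnion]
    refine ⟨W, ?_, ?_⟩
    · rw [hs0, Finset.mem_erase]
      exact ⟨h1, Finset.mem_univ _⟩
    · rw [Finset.mem_biUnion]
      refine ⟨Z, ?_, ?_⟩
      · rw [Finset.mem_powersetCard]
        exact ⟨Finset.subset_univ _, h2⟩
      · rw [Finset.mem_biUnion]
        refine ⟨τ, Finset.mem_univ _, ?_⟩
        rw [hEE]
        simp only [Finset.mem_filter, Finset.mem_univ, true_and]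
        exact h3
  have hcardEq : Nat.card {ω : Om k r // Bad3D k r ω} =
      (Finset.univ.filter fun ω : Om k r => Bad3D k r ω).card := by
    rw [Nat.card_eq_fintype_card, Fintype.card_subtype]
  have hEcard : ∀ (W : Finset (Fin r)) (Z : Finset (Fin k × Bool)) (τ : W → VV k r),
      Z.card = W.card → ((EE W Z τ).card : ℝ) ≤ Ω * (1 / 2 ^ (k - 1)) ^ W.card := by
    intro W Z τ h
    have h1 := card_Ev W Z τ h
    have h2 : Nat.card {ω : Om k r // Ev W Z τ ω} = (EE W Z τ).card := by
      rw [Nat.card_eq_fintype_card, Fintype.card_subtype]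
    rw [h2] at h1
    have h3 : ((EE W Z τ).card : ℝ) * 2 ^ ((k - 1) * W.card) ≤ Ω := by
      rw [hΩ]
      exact_mod_cast h1
    rw [one_div, inv_pow, ← pow_mul, ← div_eq_mul_inv, le_div_iff₀ (by positivity)]
    exact h3
  set c : ℝ := (2 * k) * (2 * k + r) / 2 ^ (k - 1) with hc
  have hc0 : 0 ≤ c := by positivity
  have hqc : r * c ≤ q := by
    rw [hc, mul_div_assoc', div_le_iff₀ (by positivity)]
    linarith
  have hVV : Fintype.card (VV k r) = 2 * k + r := by
    rw [Fintype.card_sum, Fintype.card_prod, Fintype.card_fin, Fintype.card_fin,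
      Fintype.card_bool, mul_comm k 2]
  have hW : ∀ W : Finset (Fin r),
      (((Finset.powersetCard W.card (Finset.univ : Finset (Fin k × Bool))).biUnion
        fun Z => (Finset.univ : Finset (W → VV k r)).biUnion fun τ => EE W Z τ).card : ℝ) ≤
        Ω * c ^ W.card := by
    intro W
    have b1 : (((Finset.powersetCard W.card (Finset.univ : Finset (Fin k × Bool))).biUnion
        fun Z => (Finset.univ : Finset (W → VV k r)).biUnion fun τ => EE W Z τ).card : ℝ) ≤
        ∑ Z ∈ Finset.powersetCard W.card (Finset.univ : Finset (Fin k × Bool)),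
          ∑ τ : W → VV k r, ((EE W Z τ).card : ℝ) := by
      have h1 := Finset.card_biUnion_le
        (s := Finset.powersetCard W.card (Finset.univ : Finset (Fin k × Bool)))
        (t := fun Z => (Finset.univ : Finset (W → VV k r)).biUnion fun τ => EE W Z τ)
      have h2 : ∑ Z ∈ Finset.powersetCard W.card (Finset.univ : Finset (Fin k × Bool)),
          ((Finset.univ : Finset (W → VV k r)).biUnion fun τ => EE W Z τ).card ≤
          ∑ Z ∈ Finset.powersetCard W.card (Finset.univ : Finset (Fin k × Bool)),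
            ∑ τ : W → VV k r, (EE W Z τ).card :=
        Finset.sum_le_sum fun Z _ => Finset.card_biUnion_le
      have h3 := h1.trans h2
      exact_mod_cast h3
    refine b1.trans ?_
    have b2 : ∑ Z ∈ Finset.powersetCard W.card (Finset.univ : Finset (Fin k × Bool)),
          ∑ τ : W → VV k r, ((EE W Z τ).card : ℝ) ≤
        ∑ Z ∈ Finset.powersetCard W.card (Finset.univ : Finset (Fin k × Bool)),
          (2 * k + r : ℝ) ^ W.card * (Ω * (1 / 2 ^ (k - 1)) ^ W.card) := by
      refine Finset.sum_le_sum fun Z hZ => ?_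
      rw [Finset.mem_powersetCard] at hZ
      have h1 : ∑ τ : W → VV k r, ((EE W Z τ).card : ℝ) ≤
          ∑ τ : W → VV k r, Ω * (1 / 2 ^ (k - 1)) ^ W.card :=
        Finset.sum_le_sum fun τ _ => hEcard W Z τ hZ.2
      refine h1.trans (le_of_eq ?_)
      rw [Finset.sum_const, nsmul_eq_mul, Finset.card_univ, Fintype.card_fun, hVV,
        Fintype.card_coe]
      push_cast
      ring
    refine b2.trans ?_
    rw [Finset.sum_const, nsmul_eq_mul, Finset.card_powersetCard, Finset.card_univ,
      Fintype.card_prod, Fintype.card_fin, Fintype.card_bool]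
    have h4 : ((k * 2).choose W.card : ℝ) ≤ (2 * k : ℝ) ^ W.card := by
      have : (k * 2).choose W.card ≤ (k * 2) ^ W.card := Nat.choose_le_pow _ _
      calc ((k * 2).choose W.card : ℝ) ≤ (((k * 2) ^ W.card : ℕ) : ℝ) := by exact_mod_cast this
        _ = (2 * k : ℝ) ^ W.card := by push_cast; ring
    calc ((k * 2).choose W.card : ℝ) * ((2 * k + r : ℝ) ^ W.card * (Ω * (1 / 2 ^ (k - 1)) ^ W.card))
        ≤ (2 * k : ℝ) ^ W.card * ((2 * k + r : ℝ) ^ W.card * (Ω * (1 / 2 ^ (k - 1)) ^ W.card)) := by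
          gcongr
      _ = Ω * c ^ W.card := by
          have hcw : c ^ W.card = (2 * k : ℝ) ^ W.card * (2 * k + r : ℝ) ^ W.card *
              (1 / 2 ^ (k - 1)) ^ W.card := by
            rw [hc, ← mul_pow, ← mul_pow, div_eq_mul_one_div]
          rw [hcw]
          generalize (1 / 2 ^ (k - 1) : ℝ) ^ W.card = u
          generalize (2 * k : ℝ) ^ W.card = v
          generalize (2 * k + r : ℝ) ^ W.card = w
          ring
  rw [hcardEq]
  calc ((Finset.univ.filter fun ω : Om k r => Bad3D k r ω).card : ℝ)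
      ≤ ((s0.biUnion fun W => (Finset.powersetCard W.card
          (Finset.univ : Finset (Fin k × Bool))).biUnion
        fun Z => (Finset.univ : Finset (W → VV k r)).biUnion fun τ => EE W Z τ).card : ℝ) := by
        exact_mod_cast Finset.card_le_card hsub
    _ ≤ ∑ W ∈ s0, (((Finset.powersetCard W.card (Finset.univ : Finset (Fin k × Bool))).biUnion
        fun Z => (Finset.univ : Finset (W → VV k r)).biUnion fun τ => EE W Z τ).card : ℝ) := by
        exact_mod_cast Finset.card_biUnion_le
    _ ≤ ∑ W ∈ s0, Ω * c ^ W.card := Finset.sum_le_sum fun W _ => hW W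
    _ = Ω * ∑ W ∈ s0, c ^ W.card := by rw [Finset.mul_sum]
    _ ≤ Ω * (2 * q) := mul_le_mul_of_nonneg_left (sum_bound (r := r) hc0 hqc hq1) hΩ0.le
    _ = 2 * q * Ω := by ring

end Pool.Agent.Lib.P5135n
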