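import Pool.Agent.Lib.P5135n.Defs2

/-!
# Module P5135n.CntP: the number of `ω` with `BadP`

PROOF. We may shrink `A` to `A.card = k + 1 - b₀`. For fixed `x ≠ y` and `A` the number of `ω` such that `x`, `y` miss a common end of
every `i ∈ A` is `(7/16) ^ |A|` times the number of all `ω` (of the 16 pairs of functions `Bool → Bool` at the places `(x, i)`,
`(y, i)`, 7 have a common zero; pattern of CntA), and `7/16 ≤ 1/2`. There are at most `r ^ 2` pairs `(x, y)` and
`choose k (k + 1 - b₀) = choose k (b₀ - 1) ≤ k ^ (b₀ - 1) ≤ k ^ b₀` sets `A`.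

(In the Lean: union bound over the `2 ^ |A|` choices of the common end `c i`, `i ∈ A`; for each choice the proportion is
`(1/4) ^ |A|`.)
-/

set_option autoImplicit false

namespace Pool.Agent.Lib.P5135n

/-- The functions allowed at the place `(z, i)`. -/
private def cntP_T {k r : ℕ} (X : Finset (Fin r)) (A : Finset (Fin k)) (c : Fin k → Bool) (z : Fin r) (i : Fin k) :
    Finset (Bool → Bool) :=
  if z ∈ X ∧ i ∈ A then Finset.univ.filter (fun f => f (c i) = false) else Finset.univ

private theorem cntP_T_card {k r : ℕ} (X : Finset (Fin r)) (A : Finset (Fin k)) (c : Fin k → Bool) (z : Fin r)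
    (i : Fin k) :
    ((cntP_T X A c z i).card : ℝ) = 4 * (if z ∈ X then (if i ∈ A then (1 / 2 : ℝ) else 1) else 1) := by
  unfold cntP_T
  by_cases hx : z ∈ X
  · by_cases hi : i ∈ A
    · rw [if_pos ⟨hx, hi⟩, if_pos hx, if_pos hi]
      have h : ∀ b : Bool, (Finset.univ.filter (fun f : Bool → Bool => f b = false)).card = 2 := by
        decide
      rw [h]
      norm_num
    · rw [if_neg (fun h => hi h.2), if_pos hx, if_neg hi]
      have h : (Finset.univ : Finset (Bool → Bool)).card = 4 := by decide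
      rw [h]
      norm_num
  · rw [if_neg (fun h => hx h.1), if_neg hx]
    have h : (Finset.univ : Finset (Bool → Bool)).card = 4 := by decide
    rw [h]
    norm_num

/-- The `g` allowed by `(X, A, c)`. -/
private def cntP_S {k r : ℕ} (X : Finset (Fin r)) (A : Finset (Fin k)) (c : Fin k → Bool) : Finset (OmG k r) :=
  Fintype.piFinset fun x => Fintype.piFinset fun i => cntP_T X A c x i

private theorem cntP_S_card {k r : ℕ} (X : Finset (Fin r)) (A : Finset (Fin k)) (c : Fin k → Bool) :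
    ((cntP_S X A c).card : ℝ) = 2 ^ (2 * k * r) * (1 / 2 : ℝ) ^ (X.card * A.card) := by
  unfold cntP_S
  rw [Fintype.card_piFinset]
  have h1 : ∀ x : Fin r, ((Fintype.piFinset fun i => cntP_T X A c x i).card : ℝ)
      = 4 ^ k * (if x ∈ X then (1 / 2 : ℝ) ^ A.card else 1) := by
    intro x
    rw [Fintype.card_piFinset, Nat.cast_prod]
    simp_rw [cntP_T_card]
    rw [Finset.prod_mul_distrib, Finset.prod_const, Finset.card_univ, Fintype.card_fin]
    congr 1
    by_cases hx : x ∈ X
    · simp only [if_pos hx]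
      rw [Finset.prod_ite_mem, Finset.univ_inter, Finset.prod_const]
    · simp only [if_neg hx, Finset.prod_const_one]
  rw [Nat.cast_prod]
  simp_rw [h1]
  rw [Finset.prod_mul_distrib, Finset.prod_const, Finset.card_univ, Fintype.card_fin, Finset.prod_ite_mem,
    Finset.univ_inter, Finset.prod_const, ← pow_mul, ← pow_mul, mul_comm A.card X.card]
  congr 1
  rw [mul_assoc, pow_mul 2 2 (k * r)]
  norm_num

private theorem cntP_SS_card {k r : ℕ} (X : Finset (Fin r)) (A : Finset (Fin k)) (c : Fin k → Bool) :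
    ((cntP_S X A c ×ˢ (Finset.univ : Finset (OmH r))).card : ℝ)
      = (1 / 2 : ℝ) ^ (X.card * A.card) * 2 ^ (2 * k * r + r.choose 2) := by
  rw [Finset.card_product, Nat.cast_mul, cntP_S_card, Finset.card_univ, Fintype.card_fun,
    Sym2.card_subtype_not_diag, Fintype.card_fin, Fintype.card_bool, pow_add]
  push_cast
  ring

/-- The choices of the common ends. -/
private def cntP_C {k : ℕ} (A : Finset (Fin k)) : Finset (Fin k → Bool) :=
  Fintype.piFinset fun i => if i ∈ A then Finset.univ else {true}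

private theorem cntP_C_card {k : ℕ} (A : Finset (Fin k)) : (cntP_C A).card = 2 ^ A.card := by
  unfold cntP_C
  rw [Fintype.card_piFinset]
  have h : ∀ i : Fin k, (if i ∈ A then (Finset.univ : Finset Bool) else {true}).card = if i ∈ A then 2 else 1 := by
    intro i
    by_cases hi : i ∈ A
    · rw [if_pos hi, if_pos hi]
      decide
    · rw [if_neg hi, if_neg hi]
      decide
  simp_rw [h]
  rw [Finset.prod_ite_mem, Finset.univ_inter, Finset.prod_const]

private theorem cntP_mem {k r : ℕ} (x y : Fin r) (A : Finset (Fin k)) (g : OmG k r)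
    (h : ∀ i ∈ A, ∃ c, g x i c = false ∧ g y i c = false) : ∃ c ∈ cntP_C A, g ∈ cntP_S {x, y} A c := by
  classical
  have h' : ∀ i, ∃ c : Bool, (i ∈ A → g x i c = false ∧ g y i c = false) ∧ (i ∉ A → c = true) := by
    intro i
    by_cases hi : i ∈ A
    · obtain ⟨c, hc⟩ := h i hi
      exact ⟨c, fun _ => hc, fun h0 => (h0 hi).elim⟩
    · exact ⟨true, fun h0 => (hi h0).elim, fun _ => rfl⟩
  choose c hc using h'
  refine ⟨c, ?_, ?_⟩
  · unfold cntP_C
    rw [Fintype.mem_piFinset]
    intro i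
    by_cases hi : i ∈ A
    · rw [if_pos hi]
      exact Finset.mem_univ _
    · rw [if_neg hi, Finset.mem_singleton]
      exact (hc i).2 hi
  · unfold cntP_S
    rw [Fintype.mem_piFinset]
    intro z
    rw [Fintype.mem_piFinset]
    intro i
    unfold cntP_T
    by_cases hzi : z ∈ ({x, y} : Finset (Fin r)) ∧ i ∈ A
    · rw [if_pos hzi, Finset.mem_filter]
      refine ⟨Finset.mem_univ _, ?_⟩
      have h1 := (hc i).1 hzi.2
      have h2 := hzi.1
      rw [Finset.mem_insert, Finset.mem_singleton] at h2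
      rcases h2 with h2 | h2
      · rw [h2]
        exact h1.1
      · rw [h2]
        exact h1.2
    · rw [if_neg hzi]
      exact Finset.mem_univ _

theorem card_badP {k r b₀ : ℕ} (hk : 1 ≤ k) (hb1 : 1 ≤ b₀) (hb : b₀ ≤ k) :
    (Nat.card {ω : Om k r // BadP k r b₀ ω} : ℝ) ≤
      (r : ℝ) ^ 2 * (k : ℝ) ^ b₀ * (1 / 2 : ℝ) ^ (k + 1 - b₀) * 2 ^ (2 * k * r + r.choose 2) := by
  classical
  have hN : (0 : ℝ) < 2 ^ (2 * k * r + r.choose 2) := by positivity
  have hsub : (Finset.univ.filter fun ω : Om k r => BadP k r b₀ ω) ⊆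
      (Finset.univ.filter fun p : Fin r × Fin r => p.1 ≠ p.2).biUnion fun p =>
        (Finset.powersetCard (k + 1 - b₀) (Finset.univ : Finset (Fin k))).biUnion fun A =>
          (cntP_C A).biUnion fun c => cntP_S {p.1, p.2} A c ×ˢ (Finset.univ : Finset (OmH r)) := by
    intro ω hω
    rw [Finset.mem_filter] at hω
    obtain ⟨_, x, y, hxy, A, hA, h⟩ := hω
    obtain ⟨B, hBA, hB⟩ := Finset.exists_subset_card_eq (show k + 1 - b₀ ≤ A.card by omega)
    obtain ⟨c, hc, hg⟩ := cntP_mem x y B ω.1 fun i hi => h i (hBA hi)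
    rw [Finset.mem_biUnion]
    refine ⟨(x, y), ?_, ?_⟩
    · rw [Finset.mem_filter]
      exact ⟨Finset.mem_univ _, hxy⟩
    · rw [Finset.mem_biUnion]
      refine ⟨B, ?_, ?_⟩
      · rw [Finset.mem_powersetCard]
        exact ⟨Finset.subset_univ _, hB⟩
      · rw [Finset.mem_biUnion]
        refine ⟨c, hc, ?_⟩
        rw [Finset.mem_product]
        exact ⟨hg, Finset.mem_univ _⟩
  have hcard : (Nat.card {ω : Om k r // BadP k r b₀ ω} : ℝ)
      = ((Finset.univ.filter fun ω : Om k r => BadP k r b₀ ω).card : ℝ) := by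
    rw [Nat.card_eq_fintype_card, Fintype.card_subtype]
  rw [hcard]
  have hle : ((Finset.univ.filter fun ω : Om k r => BadP k r b₀ ω).card : ℝ) ≤
      ∑ p ∈ Finset.univ.filter (fun p : Fin r × Fin r => p.1 ≠ p.2),
        ∑ A ∈ Finset.powersetCard (k + 1 - b₀) (Finset.univ : Finset (Fin k)),
          ∑ c ∈ cntP_C A, ((cntP_S {p.1, p.2} A c ×ˢ (Finset.univ : Finset (OmH r))).card : ℝ) := by
    have h1 : (Finset.univ.filter fun ω : Om k r => BadP k r b₀ ω).card ≤
      ∑ p ∈ Finset.univ.filter (fun p : Fin r × Fin r => p.1 ≠ p.2),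
        ∑ A ∈ Finset.powersetCard (k + 1 - b₀) (Finset.univ : Finset (Fin k)),
          ∑ c ∈ cntP_C A, (cntP_S {p.1, p.2} A c ×ˢ (Finset.univ : Finset (OmH r))).card := by
      refine (Finset.card_le_card hsub).trans ?_
      refine Finset.card_biUnion_le.trans ?_
      refine Finset.sum_le_sum fun p _ => ?_
      refine Finset.card_biUnion_le.trans ?_
      refine Finset.sum_le_sum fun A _ => ?_
      exact Finset.card_biUnion_le
    exact_mod_cast h1
  refine hle.trans ?_
  have hterm : ∀ p ∈ Finset.univ.filter (fun p : Fin r × Fin r => p.1 ≠ p.2),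
      ∑ A ∈ Finset.powersetCard (k + 1 - b₀) (Finset.univ : Finset (Fin k)),
          ∑ c ∈ cntP_C A, ((cntP_S {p.1, p.2} A c ×ˢ (Finset.univ : Finset (OmH r))).card : ℝ)
      = (k.choose (k + 1 - b₀) : ℝ) * ((1 / 2 : ℝ) ^ (k + 1 - b₀) * 2 ^ (2 * k * r + r.choose 2)) := by
    intro p hp
    rw [Finset.mem_filter] at hp
    have h1 : ∀ A ∈ Finset.powersetCard (k + 1 - b₀) (Finset.univ : Finset (Fin k)),
        ∑ c ∈ cntP_C A, ((cntP_S {p.1, p.2} A c ×ˢ (Finset.univ : Finset (OmH r))).card : ℝ)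
        = (1 / 2 : ℝ) ^ (k + 1 - b₀) * 2 ^ (2 * k * r + r.choose 2) := by
      intro A hA
      simp_rw [cntP_SS_card]
      rw [Finset.sum_const, cntP_C_card, Finset.card_pair hp.2, (Finset.mem_powersetCard.mp hA).2, nsmul_eq_mul,
        pow_mul]
      push_cast
      rw [← mul_assoc, ← mul_pow]
      norm_num
    rw [Finset.sum_congr rfl h1, Finset.sum_const, Finset.card_powersetCard, Finset.card_univ, Fintype.card_fin,
      nsmul_eq_mul]
  rw [Finset.sum_congr rfl hterm, Finset.sum_const, nsmul_eq_mul]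
  have h2 : ((Finset.univ.filter fun p : Fin r × Fin r => p.1 ≠ p.2).card : ℝ) ≤ (r : ℝ) ^ 2 := by
    have h5 : (Finset.univ.filter fun p : Fin r × Fin r => p.1 ≠ p.2).card ≤ r ^ 2 := by
      refine (Finset.card_filter_le _ _).trans ?_
      rw [Finset.card_univ, Fintype.card_prod, Fintype.card_fin, sq]
    exact_mod_cast h5
  have h3 : (k.choose (k + 1 - b₀) : ℝ) ≤ (k : ℝ) ^ b₀ := by
    have e : k.choose (k + 1 - b₀) = k.choose (b₀ - 1) := by
      rw [← Nat.choose_symm (show k + 1 - b₀ ≤ k by omega)]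
      congr 1
      omega
    have h4 : k.choose (b₀ - 1) ≤ k ^ (b₀ - 1) := Nat.choose_le_pow k (b₀ - 1)
    have h5 : k ^ (b₀ - 1) ≤ k ^ b₀ := Nat.pow_le_pow_right hk (by omega)
    rw [e]
    exact_mod_cast h4.trans h5
  calc ((Finset.univ.filter fun p : Fin r × Fin r => p.1 ≠ p.2).card : ℝ) *
      ((k.choose (k + 1 - b₀) : ℝ) * ((1 / 2 : ℝ) ^ (k + 1 - b₀) * 2 ^ (2 * k * r + r.choose 2)))
      ≤ (r : ℝ) ^ 2 * ((k : ℝ) ^ b₀ * ((1 / 2 : ℝ) ^ (k + 1 - b₀) * 2 ^ (2 * k * r + r.choose 2))) := by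
        refine mul_le_mul h2 (mul_le_mul_of_nonneg_right h3 (by positivity)) (by positivity) (by positivity)
    _ = (r : ℝ) ^ 2 * (k : ℝ) ^ b₀ * (1 / 2 : ℝ) ^ (k + 1 - b₀) * 2 ^ (2 * k * r + r.choose 2) := by ring

end Pool.Agent.Lib.P5135n
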