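import Pool.Agent.Lib.P5135n.Det

/-!
# Module P5135n.Place: all positions of the planted edges

PROOF. `exists_ext`: for injective `f : Fin k × Bool → Fin n`, `n = 2 k + r`, the complement of the range has `r` elements; take
a bijection with `Fin r`. `ext_iso`: `Ext` is invariant under isomorphism (`IsDominating` etc. are transported by `Finset.map`; all
sets in the `sSup` agree). `mkG_inj`: `mkG` is injective. `places`: consider the pairs `(f, ω)`, `f : Fin k × Bool ↪ Fin n`,
`ω` with `P ω` (good), and the graph `G_{f, ω}` on `Fin n`, the image of `mkG ω` under the bijection of `exists_ext` chosen for `f`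
(e.g. `(mkG ω).map e.toEmbedding` or `comap e.symm`). It is extremal. For a fixed graph `G` all `f` with `G = G_{f, ω}` for a good
`ω` have the same range `T` (`T` is the only induced matching set with `2 k` elements, since `¬ Bad3`), so there are at most
`(2 k) ^ (2 k)` such `f`, and `ω` is determined by `f` and `G`. So `#f * #good ≤ extCount n * (2 k) ^ (2 k)`, and the number of
injective `f` is `n.descFactorial (2 k)` (`Fintype.card_embedding_eq`).
-/

set_option autoImplicit false

namespace Pool.Agent.Lib.P5135n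

open Pool.Agent.Lib.P5135a5

theorem exists_ext {k r n : ℕ} (hn : n = 2 * k + r) (f : Fin k × Bool → Fin n) (hf : Function.Injective f) :
    ∃ e : VV k r ≃ Fin n, ∀ a, e (Sum.inl a) = f a := by
  classical
  have hc : Fintype.card (Fin r) = Fintype.card ↥(Set.range f)ᶜ := by
    rw [Fintype.card_compl_set, Set.card_range_of_injective hf, Fintype.card_prod, Fintype.card_fin,
      Fintype.card_fin, Fintype.card_fin, Fintype.card_bool]
    omega
  let g : Fin r ≃ ↥(Set.range f)ᶜ := Fintype.equivOfCardEq hc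
  refine ⟨(Equiv.sumCongr (Equiv.ofInjective f hf) g).trans (Equiv.Set.sumCompl (Set.range f)), ?_⟩
  intro a
  simp

private theorem place_min {V V' : Type} (e : V ≃ V') (P : Finset V → Prop) (P' : Finset V' → Prop)
    (h1 : ∀ S, P S → P' (S.map e.toEmbedding)) (h2 : ∀ T, P' T → P (T.map e.symm.toEmbedding)) (n : ℕ)
    (h : ∃ S : Finset V, Minimal P S ∧ S.card = n) : ∃ S : Finset V', Minimal P' S ∧ S.card = n := by
  obtain ⟨S, hS, hn⟩ := h
  refine ⟨S.map e.toEmbedding, ⟨h1 S hS.prop, ?_⟩, by rw [Finset.card_map]; exact hn⟩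
  intro T hT hTS
  have hT' : T.map e.symm.toEmbedding ≤ S := by
    intro x hx
    rw [Finset.mem_map_equiv, Equiv.symm_symm] at hx
    have h3 := hTS hx
    rw [Finset.mem_map_equiv, Equiv.symm_apply_apply] at h3
    exact h3
  have h4 := hS.le_of_le (h2 T hT) hT'
  intro y hy
  rw [Finset.mem_map_equiv] at hy
  have h5 := h4 hy
  rw [Finset.mem_map_equiv, Equiv.symm_symm, Equiv.apply_symm_apply] at h5
  exact h5

private theorem place_dom {V V' : Type} {G : SimpleGraph V} {G' : SimpleGraph V'} (e : V ≃ V')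
    (he : ∀ a b, G'.Adj (e a) (e b) ↔ G.Adj a b) (S : Finset V) (h : IsDominating G S) :
    IsDominating G' (S.map e.toEmbedding) := by
  intro v hv
  rw [Finset.mem_map_equiv] at hv
  obtain ⟨u, hu, huv⟩ := h _ hv
  refine ⟨e u, by rw [Finset.mem_map_equiv, Equiv.symm_apply_apply]; exact hu, ?_⟩
  rw [← he, Equiv.apply_symm_apply] at huv
  exact huv

private theorem place_tdom {V V' : Type} {G : SimpleGraph V} {G' : SimpleGraph V'} (e : V ≃ V')
    (he : ∀ a b, G'.Adj (e a) (e b) ↔ G.Adj a b) (S : Finset V) (h : IsTotalDominating G S) :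
    IsTotalDominating G' (S.map e.toEmbedding) := by
  intro v
  obtain ⟨u, hu, huv⟩ := h (e.symm v)
  refine ⟨e u, by rw [Finset.mem_map_equiv, Equiv.symm_apply_apply]; exact hu, ?_⟩
  rw [← he, Equiv.apply_symm_apply] at huv
  exact huv

private theorem place_im {V V' : Type} {G : SimpleGraph V} {G' : SimpleGraph V'} (e : V ≃ V')
    (he : ∀ a b, G'.Adj (e a) (e b) ↔ G.Adj a b) (S : Finset V) (h : IsInducedMatchingSet G S) :
    IsInducedMatchingSet G' (S.map e.toEmbedding) := by
  intro v hv
  rw [Finset.mem_map_equiv] at hv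
  obtain ⟨w, ⟨hw, hvw⟩, hu⟩ := h _ hv
  refine ⟨e w, ⟨by rw [Finset.mem_map_equiv, Equiv.symm_apply_apply]; exact hw, ?_⟩, ?_⟩
  · rw [← he, Equiv.apply_symm_apply] at hvw
    exact hvw
  · rintro z ⟨hz, hvz⟩
    rw [Finset.mem_map_equiv] at hz
    have h1 : G.Adj (e.symm v) (e.symm z) := by
      rw [← he, Equiv.apply_symm_apply, Equiv.apply_symm_apply]
      exact hvz
    rw [← hu _ ⟨hz, h1⟩, Equiv.apply_symm_apply]

private theorem place_symm {V V' : Type} {G : SimpleGraph V} {G' : SimpleGraph V'} (e : V ≃ V')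
    (he : ∀ a b, G'.Adj (e a) (e b) ↔ G.Adj a b) (a b : V') : G.Adj (e.symm a) (e.symm b) ↔ G'.Adj a b := by
  rw [← he, Equiv.apply_symm_apply, Equiv.apply_symm_apply]

theorem ext_iso {V V' : Type} {G : SimpleGraph V} {G' : SimpleGraph V'} (e : G ≃g G') (h : Ext G) : Ext G' := by
  have he : ∀ a b, G'.Adj (e.toEquiv a) (e.toEquiv b) ↔ G.Adj a b := fun a b => e.map_rel_iff
  have he' := place_symm e.toEquiv he
  have d : upperDom G = upperDom G' := by
    unfold upperDom
    congr 1
    ext n
    exact ⟨place_min e.toEquiv _ _ (place_dom e.toEquiv he) (place_dom e.toEquiv.symm he') n,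
      place_min e.toEquiv.symm _ _ (place_dom e.toEquiv.symm he') (place_dom e.toEquiv he) n⟩
  have t : upperTotalDom G = upperTotalDom G' := by
    unfold upperTotalDom
    congr 1
    ext n
    exact ⟨place_min e.toEquiv _ _ (place_tdom e.toEquiv he) (place_tdom e.toEquiv.symm he') n,
      place_min e.toEquiv.symm _ _ (place_tdom e.toEquiv.symm he') (place_tdom e.toEquiv he) n⟩
  refine ⟨fun v => ?_, by rw [← d, ← t]; exact h.2⟩
  obtain ⟨w, hw⟩ := h.1 (e.toEquiv.symm v)
  refine ⟨e.toEquiv w, ?_⟩
  rw [← he, Equiv.apply_symm_apply] at hw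
  exact hw

theorem mkG_inj {k r : ℕ} : Function.Injective (mkG : Om k r → SimpleGraph (VV k r)) := by
  intro ω ω' h
  have ha : ∀ u v, adjG ω u v ↔ adjG ω' u v := by
    intro u v
    have h1 : (mkG ω).Adj u v ↔ (mkG ω').Adj u v := by rw [h]
    exact h1
  apply Prod.ext
  · funext x i c
    have h1 : ω.1 x i c = true ↔ ω'.1 x i c = true := ha (Sum.inr x) (Sum.inl (i, c))
    exact Bool.eq_iff_iff.mpr h1
  · funext q
    obtain ⟨q, hq⟩ := q
    induction q using Sym2.ind with
    | _ x y =>
      have h1 : (∃ h : ¬ (s(x, y)).IsDiag, ω.2 ⟨s(x, y), h⟩ = true) ↔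
          ∃ h : ¬ (s(x, y)).IsDiag, ω'.2 ⟨s(x, y), h⟩ = true := ha (Sum.inr x) (Sum.inr y)
      apply Bool.eq_iff_iff.mpr
      constructor
      · intro h2
        obtain ⟨_, h3⟩ := h1.mp ⟨hq, h2⟩
        exact h3
      · intro h2
        obtain ⟨_, h3⟩ := h1.mpr ⟨hq, h2⟩
        exact h3

private theorem place_mem {k r : ℕ} (v : VV k r) : v ∈ planted k r ↔ ∃ a, v = Sum.inl a := by
  unfold planted
  rw [Finset.mem_filter]
  constructor
  · rintro ⟨_, h⟩
    rcases v with a | x
    · exact ⟨a, rfl⟩
    · simp at h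
  · rintro ⟨a, rfl⟩
    simp

/-- The planted vertices form an induced matching. -/
theorem planted_im {k r : ℕ} (ω : Om k r) : IsInducedMatchingSet (mkG ω) (planted k r) ∧ (planted k r).card = 2 * k := by
  constructor
  · intro v hv
    obtain ⟨⟨i, c⟩, rfl⟩ := (place_mem v).mp hv
    refine ⟨Sum.inl (i, !c), ⟨(place_mem _).mpr ⟨_, rfl⟩, ?_⟩, ?_⟩
    · have : i = i ∧ c ≠ !c := ⟨rfl, by cases c <;> simp⟩
      exact this
    · rintro w ⟨hw, hvw⟩
      obtain ⟨⟨j, d⟩, rfl⟩ := (place_mem w).mp hw
      have h1 : i = j ∧ c ≠ d := hvw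
      obtain ⟨rfl, h2⟩ := h1
      have : d = !c := by cases c <;> cases d <;> simp_all
      rw [this]
  · have : planted k r = (Finset.univ : Finset (Fin k × Bool)).map ⟨Sum.inl, Sum.inl_injective⟩ := by
      ext v
      rw [place_mem, Finset.mem_map]
      constructor
      · rintro ⟨a, rfl⟩
        exact ⟨a, Finset.mem_univ _, rfl⟩
      · rintro ⟨a, _, rfl⟩
        exact ⟨a, rfl⟩
    rw [this, Finset.card_map, Finset.card_univ, Fintype.card_prod, Fintype.card_fin, Fintype.card_bool]
    ring

theorem places {k r n : ℕ} (hn : n = 2 * k + r) (P : Om k r → Prop) (hP : ∀ ω, P ω → Ext (mkG ω))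
    (hP3 : ∀ ω, P ω → ¬ Bad3 k r ω) :
    n.descFactorial (2 * k) * Nat.card {ω : Om k r // P ω} ≤ extCount n * (2 * k) ^ (2 * k) := by
  classical
  choose E hE using fun f : (Fin k × Bool) ↪ Fin n => exists_ext hn f f.injective
  let Gf : ((Fin k × Bool) ↪ Fin n) × {ω : Om k r // P ω} → {G : SimpleGraph (Fin n) // Ext G} := fun x =>
    ⟨(mkG x.2.1).comap (E x.1).symm,
      ext_iso (SimpleGraph.Iso.comap (E x.1).symm (mkG x.2.1)).symm (hP _ x.2.2)⟩
  have : Fintype {G : SimpleGraph (Fin n) // Ext G} := Fintype.ofFinite _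
  -- the places of the planted vertices are determined by the graph
  have key : ∀ x x0, Gf x = Gf x0 → ∀ a, ∃ b, x.1 a = x0.1 b := by
    intro x x0 hx a
    have h0 : (mkG x.2.1).comap (E x.1).symm = (mkG x0.2.1).comap (E x0.1).symm := congrArg Subtype.val hx
    have e1 : ∀ u v, ((mkG x.2.1).comap (E x.1).symm).Adj ((E x.1) u) ((E x.1) v) ↔ (mkG x.2.1).Adj u v := by
      intro u v
      rw [SimpleGraph.comap_adj, Equiv.symm_apply_apply, Equiv.symm_apply_apply]
    have e2 : ∀ u v, (mkG x0.2.1).Adj ((E x0.1).symm u) ((E x0.1).symm v) ↔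
        ((mkG x.2.1).comap (E x.1).symm).Adj u v := by
      intro u v
      rw [h0, SimpleGraph.comap_adj]
    have i1 := place_im (E x.1) e1 _ (planted_im x.2.1).1
    have i2 := place_im (E x0.1).symm e2 _ i1
    have c2 : (((planted k r).map (E x.1).toEmbedding).map (E x0.1).symm.toEmbedding).card = 2 * k := by
      rw [Finset.card_map, Finset.card_map]
      exact (planted_im x.2.1).2
    have h3 : ((planted k r).map (E x.1).toEmbedding).map (E x0.1).symm.toEmbedding = planted k r := by
      by_contra hne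
      exact hP3 _ x0.2.2 ⟨_, c2, hne, i2⟩
    have h4 : (E x0.1).symm (x.1 a) ∈ planted k r := by
      rw [← h3, Finset.mem_map_equiv, Equiv.symm_symm, Equiv.apply_symm_apply, Finset.mem_map_equiv, ← hE,
        Equiv.symm_apply_apply]
      exact (place_mem _).mpr ⟨a, rfl⟩
    obtain ⟨b, hb⟩ := (place_mem _).mp h4
    refine ⟨b, ?_⟩
    rw [← hE x0.1 b, ← hb, Equiv.apply_symm_apply]
  have fib : ∀ G ∈ (Finset.univ : Finset {G : SimpleGraph (Fin n) // Ext G}),
      (Finset.univ.filter (fun x => Gf x = G)).card ≤ (2 * k) ^ (2 * k) := by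
    intro G _
    by_cases hne : ∃ x0, Gf x0 = G
    · obtain ⟨x0, hx0⟩ := hne
      let T : Finset (Fin n) := Finset.univ.map x0.1
      have hT : ∀ x : {x // Gf x = G}, ∀ a, x.1.1 a ∈ T := by
        intro x a
        obtain ⟨b, hb⟩ := key x.1 x0 (x.2.trans hx0.symm) a
        rw [hb]
        exact Finset.mem_map_of_mem _ (Finset.mem_univ _)
      let F : {x // Gf x = G} → (Fin k × Bool → T) := fun x a => ⟨x.1.1 a, hT x a⟩
      have hF : Function.Injective F := by
        rintro ⟨⟨f, ω⟩, hx⟩ ⟨⟨f', ω'⟩, hx'⟩ h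
        have hf : f = f' := by
          ext1 a
          have := congrArg Subtype.val (congrFun h a)
          exact this
        subst hf
        have hω : (mkG ω.1).comap (E f).symm = (mkG ω'.1).comap (E f).symm :=
          congrArg Subtype.val (hx.trans hx'.symm)
        have hω2 : mkG ω.1 = mkG ω'.1 := by
          ext u v
          have h5 : ((mkG ω.1).comap (E f).symm).Adj (E f u) (E f v) ↔
              ((mkG ω'.1).comap (E f).symm).Adj (E f u) (E f v) := by rw [hω]
          rw [SimpleGraph.comap_adj, SimpleGraph.comap_adj, Equiv.symm_apply_apply, Equiv.symm_apply_apply] at h5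
          exact h5
        have hω3 : ω = ω' := Subtype.ext (mkG_inj hω2)
        subst hω3
        rfl
      have h6 := Fintype.card_le_of_injective F hF
      have h7 : Fintype.card (Fin k × Bool → T) = (2 * k) ^ (2 * k) := by
        rw [Fintype.card_fun, Fintype.card_coe, Finset.card_map, Finset.card_univ, Fintype.card_prod,
          Fintype.card_fin, Fintype.card_bool, mul_comm k 2]
      rw [h7, Fintype.card_subtype] at h6
      exact h6
    · have : Finset.univ.filter (fun x => Gf x = G) = ∅ := by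
        rw [Finset.filter_eq_empty_iff]
        intro x _ hx
        exact hne ⟨x, hx⟩
      rw [this, Finset.card_empty]
      exact Nat.zero_le _
  have main := Finset.card_le_mul_card_image_of_maps_to (s := Finset.univ)
    (t := (Finset.univ : Finset {G : SimpleGraph (Fin n) // Ext G})) (f := Gf)
    (fun _ _ => Finset.mem_univ _) _ fib
  rw [Finset.card_univ, Finset.card_univ, Fintype.card_prod, Fintype.card_embedding_eq, Fintype.card_fin,
    Fintype.card_prod, Fintype.card_fin, Fintype.card_bool, mul_comm k 2] at main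
  unfold extCount
  rw [Nat.card_eq_fintype_card, Nat.card_eq_fintype_card, mul_comm (Fintype.card _) ((2 * k) ^ (2 * k))]
  exact main

end Pool.Agent.Lib.P5135n
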