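import Pool.Agent.Lib.P5135n.Det
import Pool.Agent.Lib.P5135n.Place
import Pool.Agent.Lib.P5135n.Defs2

/-!
# Module P5135n.Det2: the good points give extremal graphs

PROOF. As in Det (module 10658, `P5135n_Det_done.lean`). Let `a i = inl (i, true)`, `b i = inl (i, false)`, `c (inr x)` an edge with both ends
adjacent to `x` (`Full`). Suppose some minimal dominating set has at least `k + 1` elements and take `s`, `p` as in `exists_irr`
(`Irr` and `s` injective give `IrrD`: `p` is injective, see `CntBAux.irr_pinj`). By `¬ Bad2D`, `(rest s p).card ≤ b₀`. Let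
`J = {j | s j, p j both planted}`, `e : J → Fin k` the (injective) edge, `A = e '' J`, `B = univ \ J`, `|B| = b`, `|A| = k + 1 - b`,
`1 ≤ b ≤ b₀`. FACTS: (i) if `j ∈ B` and `s j` is further, then `s j` is not adjacent to `p j'` for all `j' ∈ J`; if `p j` is further, it is
not adjacent to `s j'`. So if two different `j, j' ∈ B` both have `s` further, then `x = s j`, `y = s j'` miss the common end
`p j''` of every `e j''`: `BadP`. The same if both have `p` further. (ii) If `b = 1`, `B = {j}`, then `A = univ` and the further vertex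
of `{s j, p j}` misses an end of every planted edge, contradicting `Full`. (iii) If `b ≥ 2` and (i) does not apply, then at most one
`j ∈ B` has `s` further and at most one has `p` further, so `B = {j₁, j₂}`, `s j₁` and `p j₂` are further, `p j₁`, `s j₂` planted. The edge of
`p j₁` is not in `A` (`p j₁` is equal or adjacent to `s j` if `e j` is its edge), that of `s j₂` neither, and `|A| = k - 1`: they are in the
same planted edge, so `p j₁` is equal or adjacent to `s j₂`, contradicting `Irr`. So every minimal dominating set has at most `k`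
elements, and `ext_of_structure` gives `Ext`; `upperDom ≤ k`, and `k ≤ inducedMatchingNum ≤ upperDom` by `planted_im` and
`inducedMatchingNum_le`. Uniqueness: another induced matching set `T` with `2 k` vertices is `Bad3D` (`τ v` the neighbour of `v` in `T`).
-/

set_option autoImplicit false

namespace Pool.Agent.Lib.P5135n

open Pool.Agent.Lib.P5135a5

theorem good_of_full {k r b₀ : ℕ} (hk : 1 ≤ k) (hb : 1 ≤ b₀) (ω : Om k r) (hF : Full k r ω) (hP : ¬ BadP k r b₀ ω)
    (h2 : ¬ Bad2D k r b₀ ω) (h3 : ¬ Bad3D k r ω) : GoodG (mkG ω) k := by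
  classical
  have hiso : ∀ v, ∃ w, (mkG ω).Adj v w := by
    rintro (⟨i, c⟩ | x)
    · refine ⟨Sum.inl (i, !c), ?_⟩
      show i = i ∧ c ≠ !c
      refine ⟨rfl, ?_⟩
      cases c <;> simp
    · obtain ⟨i, hi⟩ := hF x
      exact ⟨Sum.inl (i, true), hi.1⟩
  choose cx hcx using hF
  have h5 : ∀ S, Minimal (IsDominating (mkG ω)) S → S.card ≤ k := by
    intro S hS
    by_contra hcon
    obtain ⟨s, p, hs, hirr⟩ := exists_irr (mkG ω) (k := k) S hS (not_le.1 hcon)
    obtain ⟨hi1, hi2⟩ := hirr
    have hpinj : Function.Injective p := by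
      intro i j hij
      by_contra hne
      obtain ⟨g1, g2⟩ := hi2 i j hne
      rcases hi1 i with b1 | b1
      · exact g1 (hij.symm.trans b1)
      · rw [hij] at b1
        exact g2 b1.symm
    have hrest : (rest s p).card ≤ b₀ := by
      by_contra hc
      exact h2 ⟨s, p, ⟨hs, hpinj, hi2⟩, not_le.1 hc⟩
    obtain ⟨ed, hed⟩ : ∃ ed : VV k r → Fin k, (∀ q, ed (Sum.inl q) = q.1) :=
      ⟨fun v => Sum.elim (fun q => q.1) cx v, fun _ => rfl⟩
    set J : Finset (Fin (k + 1)) := Finset.univ.filter fun j =>
      ∃ q q' : Fin k × Bool, s j = Sum.inl q ∧ p j = Sum.inl q' with hJ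
    have hJe : ∀ j ∈ J, ∃ c d : Bool, s j = Sum.inl (ed (s j), c) ∧ p j = Sum.inl (ed (s j), d) := by
      intro j hj
      rw [hJ, Finset.mem_filter] at hj
      obtain ⟨_, ⟨i, c⟩, ⟨i', d⟩, e1, e2⟩ := hj
      have hii : i' = i := by
        rcases hi1 j with h | h
        · rw [e1, e2] at h
          exact congrArg Prod.fst (Sum.inl.inj h)
        · rw [e1, e2] at h
          exact h.1.symm
      subst hii
      refine ⟨c, d, ?_, ?_⟩
      · rw [e1, hed]
      · rw [e1, hed, e2]
    have hJinj : ∀ i ∈ J, ∀ j ∈ J, ed (s i) = ed (s j) → i = j := by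
      intro i hi j hj hij
      by_contra hne
      obtain ⟨c, d, e1, e2⟩ := hJe i hi
      obtain ⟨c', d', e3, e4⟩ := hJe j hj
      obtain ⟨g1, g2⟩ := hi2 i j hne
      rw [e4, e1, hij] at g1 g2
      by_cases hdc : d' = c
      · apply g1
        rw [hdc]
      · exact g2 ⟨rfl, hdc⟩
    have hJcard : (J.image fun j => ed (s j)).card = J.card :=
      Finset.card_image_of_injOn (fun i hi j hj h => hJinj i hi j hj h)
    have hJk : J.card ≤ k := by
      rw [← hJcard]
      refine (Finset.card_le_univ _).trans ?_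
      rw [Fintype.card_fin]
    have hcomp : (Finset.univ \ J).card = k + 1 - J.card := by
      rw [Finset.card_sdiff_of_subset (Finset.subset_univ J), Finset.card_univ, Fintype.card_fin]
    have hBne : (Finset.univ \ J).Nonempty := by
      rw [← Finset.card_pos, hcomp]
      omega
    have hB : ∀ j ∈ Finset.univ \ J, ∃ x : Fin r, s j = Sum.inr x ∨ p j = Sum.inr x := by
      intro j hj
      rw [Finset.mem_sdiff, hJ, Finset.mem_filter] at hj
      rcases hsj : s j with q | x
      · rcases hpj : p j with q' | x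
        · exact absurd ⟨Finset.mem_univ j, q, q', hsj, hpj⟩ hj.2
        · exact ⟨x, Or.inr rfl⟩
      · exact ⟨x, Or.inl rfl⟩
    have hrne : Nonempty (Fin r) := by
      obtain ⟨j, hj⟩ := hBne
      obtain ⟨x, _⟩ := hB j hj
      exact ⟨x⟩
    have hBcard : (Finset.univ \ J).card ≤ b₀ := by
      have hB' := hB
      choose! xf hxf using hB'
      have hxinj : ∀ i ∈ Finset.univ \ J, ∀ j ∈ Finset.univ \ J, xf i = xf j → i = j := by
        intro i hi j hj hij
        by_contra hne
        obtain ⟨g1, g2⟩ := hi2 i j hne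
        obtain ⟨g3, g4⟩ := hi2 j i (Ne.symm hne)
        rcases hxf i hi with a1 | a1 <;> rcases hxf j hj with a2 | a2
        · exact hne (hs (a1.trans ((congrArg Sum.inr hij).trans a2.symm)))
        · exact g1 (a2.trans ((congrArg Sum.inr hij.symm).trans a1.symm))
        · exact g3 (a1.trans ((congrArg Sum.inr hij).trans a2.symm))
        · exact hne (hpinj (a1.trans ((congrArg Sum.inr hij).trans a2.symm)))
      have hXcard : ((Finset.univ \ J).image xf).card = (Finset.univ \ J).card :=
        Finset.card_image_of_injOn (fun i hi j hj h => hxinj i hi j hj h)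
      rw [← hXcard]
      refine (Finset.card_le_card ?_).trans hrest
      intro x hx
      rw [Finset.mem_image] at hx
      obtain ⟨j, hj, rfl⟩ := hx
      rw [rest, Finset.mem_filter]
      exact ⟨Finset.mem_univ _, j, hxf j hj⟩
    -- misses
    have hmissS : ∀ j ∈ Finset.univ \ J, ∀ x, s j = Sum.inr x → ∀ l ∈ J, ∀ d,
        p l = Sum.inl (ed (s l), d) → ω.1 x (ed (s l)) d = false := by
      intro j hj x hx l hl d hd
      have hjl : j ≠ l := by
        rintro rfl
        exact (Finset.mem_sdiff.1 hj).2 hl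
      obtain ⟨_, g2⟩ := hi2 j l hjl
      rw [hx, hd] at g2
      exact Bool.eq_false_iff.2 g2
    have hmissP : ∀ j ∈ Finset.univ \ J, ∀ x, p j = Sum.inr x → ∀ l ∈ J, ∀ c,
        s l = Sum.inl (ed (s l), c) → ω.1 x (ed (s l)) c = false := by
      intro j hj x hx l hl c hc
      have hjl : j ≠ l := by
        rintro rfl
        exact (Finset.mem_sdiff.1 hj).2 hl
      obtain ⟨_, g2⟩ := hi2 l j (Ne.symm hjl)
      rw [hx, hc] at g2
      exact Bool.eq_false_iff.2 g2
    have hcardA : k + 1 ≤ (J.image fun j => ed (s j)).card + b₀ := by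
      rw [hJcard]
      omega
    have hSS : ∀ j ∈ Finset.univ \ J, ∀ j' ∈ Finset.univ \ J, j ≠ j' → ∀ x y, s j = Sum.inr x →
        s j' = Sum.inr y → False := by
      intro j hj j' hj' hne x y hx hy
      refine hP ⟨x, y, ?_, J.image fun j => ed (s j), hcardA, ?_⟩
      · rintro rfl
        exact hne (hs (hx.trans hy.symm))
      · intro i hi
        obtain ⟨l, hl, rfl⟩ := Finset.mem_image.1 hi
        obtain ⟨c, d, e1, e2⟩ := hJe l hl
        exact ⟨d, hmissS j hj x hx l hl d e2, hmissS j' hj' y hy l hl d e2⟩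
    have hPP : ∀ j ∈ Finset.univ \ J, ∀ j' ∈ Finset.univ \ J, j ≠ j' → ∀ x y, p j = Sum.inr x →
        p j' = Sum.inr y → False := by
      intro j hj j' hj' hne x y hx hy
      refine hP ⟨x, y, ?_, J.image fun j => ed (s j), hcardA, ?_⟩
      · rintro rfl
        exact hne (hpinj (hx.trans hy.symm))
      · intro i hi
        obtain ⟨l, hl, rfl⟩ := Finset.mem_image.1 hi
        obtain ⟨c, d, e1, e2⟩ := hJe l hl
        exact ⟨c, hmissP j hj x hx l hl c e1, hmissP j' hj' y hy l hl c e1⟩
    obtain ⟨j₀, hj₀⟩ := hBne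
    by_cases hone : (Finset.univ \ J).card = 1
    · have hJk' : (J.image fun j => ed (s j)).card = k := by
        rw [hJcard]
        omega
      have hAuniv : (J.image fun j => ed (s j)) = Finset.univ := by
        apply Finset.eq_univ_of_card
        rw [hJk', Fintype.card_fin]
      obtain ⟨x, hx⟩ := hB j₀ hj₀
      have hmem : cx x ∈ J.image fun j => ed (s j) := by
        rw [hAuniv]
        exact Finset.mem_univ _
      obtain ⟨l, hl, hlx⟩ := Finset.mem_image.1 hmem
      obtain ⟨c, d, e1, e2⟩ := hJe l hl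
      have hall : ∀ c : Bool, ω.1 x (ed (s l)) c = true := by
        intro c
        have hlx' : ed (s l) = cx x := hlx
        rw [hlx']
        cases c
        · exact (hcx x).2
        · exact (hcx x).1
      rcases hx with hx | hx
      · have := hmissS j₀ hj₀ x hx l hl d e2
        rw [hall d] at this
        exact Bool.noConfusion this
      · have := hmissP j₀ hj₀ x hx l hl c e1
        rw [hall c] at this
        exact Bool.noConfusion this
    · have hcard2 : 2 ≤ (Finset.univ \ J).card := by
        have : 0 < (Finset.univ \ J).card := Finset.card_pos.2 ⟨j₀, hj₀⟩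
        omega
      -- two indices with the two kinds
      obtain ⟨j₁, hj₁, j₂, hj₂, hne, x₁, x₂, hx₁, hx₂⟩ : ∃ j₁ ∈ Finset.univ \ J, ∃ j₂ ∈ Finset.univ \ J,
          j₁ ≠ j₂ ∧ ∃ x₁ x₂, s j₁ = Sum.inr x₁ ∧ p j₂ = Sum.inr x₂ := by
        obtain ⟨a, ha, b, hb', hab⟩ := Finset.one_lt_card.1 hcard2
        obtain ⟨x, hx⟩ := hB a ha
        obtain ⟨y, hy⟩ := hB b hb'
        rcases hx with hx | hx <;> rcases hy with hy | hy
        · exact absurd (hSS a ha b hb' hab x y hx hy) (fun h => h)
        · exact ⟨a, ha, b, hb', hab, x, y, hx, hy⟩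
        · exact ⟨b, hb', a, ha, Ne.symm hab, y, x, hy, hx⟩
        · exact absurd (hPP a ha b hb' hab x y hx hy) (fun h => h)
      have hp1 : ∃ q, p j₁ = Sum.inl q := by
        rcases hh : p j₁ with q | x
        · exact ⟨q, rfl⟩
        · exact absurd (hPP j₁ hj₁ j₂ hj₂ hne x x₂ hh hx₂) (fun h => h)
      have hs2 : ∃ q, s j₂ = Sum.inl q := by
        rcases hh : s j₂ with q | x
        · exact ⟨q, rfl⟩
        · exact absurd (hSS j₁ hj₁ j₂ hj₂ hne x₁ x hx₁ hh) (fun h => h)
      obtain ⟨⟨u, d⟩, hp1⟩ := hp1
      obtain ⟨⟨v, c⟩, hs2⟩ := hs2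
      have hBeq : Finset.univ \ J = {j₁, j₂} := by
        refine Finset.Subset.antisymm ?_ ?_
        · intro j hj
          rw [Finset.mem_insert, Finset.mem_singleton]
          by_contra hcc
          push Not at hcc
          obtain ⟨x, hx⟩ := hB j hj
          rcases hx with hx | hx
          · exact hSS j hj j₁ hj₁ hcc.1 x x₁ hx hx₁
          · exact hPP j hj j₂ hj₂ hcc.2 x x₂ hx hx₂
        · intro j hj
          rw [Finset.mem_insert, Finset.mem_singleton] at hj
          rcases hj with rfl | rfl
          · exact hj₁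
          · exact hj₂
      have hB2 : (Finset.univ \ J).card = 2 := by
        rw [hBeq, Finset.card_pair hne]
      have hAcard : (J.image fun j => ed (s j)).card + 1 = k := by
        rw [hJcard]
        omega
      have huA : u ∉ J.image fun j => ed (s j) := by
        intro hu
        obtain ⟨l, hl, hlu⟩ := Finset.mem_image.1 hu
        have hlu' : ed (s l) = u := hlu
        obtain ⟨c', d', e1, e2⟩ := hJe l hl
        have hl1 : l ≠ j₁ := by
          rintro rfl
          exact (Finset.mem_sdiff.1 hj₁).2 hl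
        obtain ⟨g1, g2⟩ := hi2 l j₁ hl1
        rw [hp1, e1, hlu'] at g1 g2
        by_cases hdc : d = c'
        · exact g1 (by rw [hdc])
        · exact g2 ⟨rfl, hdc⟩
      have hvA : v ∉ J.image fun j => ed (s j) := by
        intro hv
        obtain ⟨l, hl, hlv⟩ := Finset.mem_image.1 hv
        have hlv' : ed (s l) = v := hlv
        obtain ⟨c', d', e1, e2⟩ := hJe l hl
        have hl2 : j₂ ≠ l := by
          rintro rfl
          exact (Finset.mem_sdiff.1 hj₂).2 hl
        obtain ⟨g1, g2⟩ := hi2 j₂ l hl2
        rw [hs2, e2, hlv'] at g1 g2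
        by_cases hdc : d' = c
        · exact g1 (by rw [hdc])
        · exact g2 ⟨rfl, hdc⟩
      have huv : u = v := by
        by_contra huv
        have h6 : (insert u (insert v (J.image fun j => ed (s j)))).card ≤ k := by
          refine (Finset.card_le_univ _).trans ?_
          rw [Fintype.card_fin]
        rw [Finset.card_insert_of_notMem, Finset.card_insert_of_notMem hvA] at h6
        · omega
        · rw [Finset.mem_insert]
          push Not
          exact ⟨huv, huA⟩
      obtain ⟨g1, g2⟩ := hi2 j₂ j₁ (Ne.symm hne)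
      rw [hp1, hs2, huv] at g1 g2
      by_cases hdc : d = c
      · exact g1 (by rw [hdc])
      · exact g2 ⟨rfl, hdc⟩
  have hExt : Ext (mkG ω) := by
    refine ext_of_structure (k := k) (mkG ω) hiso (fun i => Sum.inl (i, true)) (fun i => Sum.inl (i, false))
      (fun v => Sum.elim (fun q => q.1) cx v) ?_ ?_ ?_ h5
    · intro i
      show i = i ∧ true ≠ false
      exact ⟨rfl, by simp⟩
    · intro i
      exact ⟨rfl, rfl⟩
    · intro i j hij
      exact ⟨fun h => hij h.1, fun h => hij h.1, fun h => hij h.1⟩
  have him : IsInducedMatchingSet (mkG ω) (planted k r) := (planted_im ω).1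
  have hcardp : (planted k r).card = 2 * k := (planted_im ω).2
  refine ⟨hExt, le_antisymm ?_ ?_, planted k r, ⟨him, hcardp⟩, ?_⟩
  · obtain ⟨S, hS, hcard⟩ := exists_upperDom (mkG ω)
    rw [← hcard]
    exact h5 S hS
  · exact (card_le_inducedMatchingNum (mkG ω) him hcardp).trans (inducedMatchingNum_le (mkG ω))
  · rintro T ⟨hT, hTc⟩
    by_contra hne
    apply h3
    have hτ : ∀ v : VV k r, ∃ w, v ∈ T → ∀ u, u ∈ T ∧ (mkG ω).Adj v u → u = w := by
      intro v
      by_cases hv : v ∈ T
      · obtain ⟨w, _, hw⟩ := hT v hv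
        exact ⟨w, fun _ => hw⟩
      · exact ⟨v, fun h => absurd h hv⟩
    choose τ hτ using hτ
    refine ⟨T, hTc, hne, τ, ?_⟩
    intro v hv u hu huτ hadj
    exact huτ (hτ v hv u ⟨hu, hadj⟩)

end Pool.Agent.Lib.P5135n
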