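import Pool.Agent.Lib.P5135n.NumWd

/-!
# Choice of `k` for the lower bound
-/

set_option autoImplicit false

open Filter

namespace Pool.Agent.Lib.P5135n

theorem beta_gt' : 12 / 5 < beta := by
  unfold beta
  have h1 : 0 < Real.log (4 / 3 : ℝ) := Real.log_pos (by norm_num)
  rw [lt_div_iff₀ h1]
  have h2 : 12 * Real.log (4 / 3 : ℝ) < 5 * Real.log 2 := by
    have e1 : 12 * Real.log (4 / 3 : ℝ) = Real.log ((4 / 3 : ℝ) ^ 12) := by rw [Real.log_pow]; norm_num
    have e2 : 5 * Real.log (2 : ℝ) = Real.log ((2 : ℝ) ^ 5) := by rw [Real.log_pow]; norm_num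
    rw [e1, e2]
    exact Real.log_lt_log (by positivity) (by norm_num)
  linarith

/-- `(3/4) ^ (β x) = 2 ^ (-x)`. -/
theorem three_quarters_rpow (x : ℝ) : (3 / 4 : ℝ) ^ (beta * x) = (2 : ℝ) ^ (-x) := by
  have h1 : 0 < Real.log (4 / 3) := Real.log_pos (by norm_num)
  have h2 : Real.log (3 / 4 : ℝ) = -Real.log (4 / 3) := by
    rw [← Real.log_inv]
    norm_num
  rw [Real.rpow_def_of_pos (by norm_num), Real.rpow_def_of_pos (by norm_num), h2]
  congr 1
  unfold beta
  field_simp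

theorem num_low2 {ε : ℝ} (hε : 0 < ε) : ∀ᶠ n : ℕ in atTop, ∃ k : ℕ,
    23 / 10 * Real.logb 2 n ≤ k ∧ (k : ℝ) ≤ 31 / 10 * Real.logb 2 n ∧ 1 ≤ k ∧ 2 * k ≤ n ∧
    (n : ℝ) * (3 / 4 : ℝ) ^ k ≤ 1 / 2 ∧
    (2 : ℝ) ^ (-(2 * beta * (beta - 1) + ε) * (Real.logb 2 n) ^ 2) * (4 * (2 * k : ℝ) ^ (2 * k)) * 2 ^ (k * (2 * k - 1)) ≤
      ((n : ℝ) - 2 * k) ^ (2 * k) := by
  have hb1 := beta_gt'
  have hb2 := beta_lt_three
  set δ : ℝ := min (ε / 100) (1 / 20) with hδ
  have hδ0 : 0 < δ := lt_min (by positivity) (by norm_num)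
  have hδ1 : δ ≤ ε / 100 := min_le_left _ _
  have hδ2 : δ ≤ 1 / 20 := min_le_right _ _
  filter_upwards [tendsto_logb.eventually (numWd_ev (100 / ε)), tendsto_logb.eventually_ge_atTop (3 / δ),
    eventually_ge_atTop 1] with n hx hx2 hn
  set L := Real.logb 2 (n : ℝ) with hL
  obtain ⟨hu1, hs, hL1⟩ := hx
  set s := Real.sqrt L with hsd
  have hL0 : 0 ≤ L := by linarith
  have hss : s * s = L := Real.mul_self_sqrt hL0
  have h100 : 0 < 100 / ε := by positivity
  have hs10 : 10 ≤ s := by linarith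
  have hsε : 100 ≤ ε * s := by
    have : 100 / ε ≤ s := by linarith
    rw [div_le_iff₀ hε] at this
    linarith
  have hL100 : 100 ≤ L := by nlinarith
  set u := Real.logb 2 (13 * L) with hu
  have hu2 : (2 : ℝ) ^ u = 13 * L := Real.rpow_logb (by norm_num) (by norm_num) (by linarith)
  have hu0 : 0 ≤ u := Real.logb_nonneg (by norm_num) (by linarith)
  have hnL : (2 : ℝ) ^ L = n := two_rpow_logb hn
  have h21 : (1 : ℝ) ≤ 2 := by norm_num
  set k := ⌈(beta + δ) * L⌉₊ with hk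
  have hγL : 0 ≤ (beta + δ) * L := by positivity
  have hk1 : (beta + δ) * L ≤ k := Nat.le_ceil _
  have hk2 : (k : ℝ) < (beta + δ) * L + 1 := Nat.ceil_lt_add_one hγL
  have hk23 : 23 / 10 * L ≤ k := by nlinarith
  have hk31 : (k : ℝ) ≤ 31 / 10 * L := by nlinarith
  have hk0 : (100 : ℝ) ≤ k := by nlinarith
  have hk1' : 1 ≤ k := by
    have : (1 : ℝ) ≤ k := by linarith
    exact_mod_cast this
  -- `4 k ≤ n`
  have h4k : 4 * (k : ℝ) ≤ n := by
    rw [← hnL]
    calc 4 * (k : ℝ) ≤ 13 * L := by linarith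
      _ = (2 : ℝ) ^ u := hu2.symm
      _ ≤ (2 : ℝ) ^ L := Real.rpow_le_rpow_of_exponent_le h21 (by nlinarith)
  have h2k : 2 * k ≤ n := by
    have : (2 * (k : ℝ)) ≤ n := by linarith
    exact_mod_cast this
  refine ⟨k, hk23, hk31, hk1', h2k, ?_, ?_⟩
  · have e1 : (3 / 4 : ℝ) ^ k ≤ (3 / 4 : ℝ) ^ ((beta + δ) * L) := by
      rw [← Real.rpow_natCast]
      exact Real.rpow_le_rpow_of_exponent_ge (by norm_num) (by norm_num) hk1
    have e2 : (beta + δ) * L = beta * (L + δ / beta * L) := by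
      have : beta ≠ 0 := by linarith
      field_simp
    rw [e2, three_quarters_rpow] at e1
    calc (n : ℝ) * (3 / 4 : ℝ) ^ k ≤ (2 : ℝ) ^ L * (2 : ℝ) ^ (-(L + δ / beta * L)) := by
          rw [hnL]
          exact mul_le_mul_of_nonneg_left e1 (Nat.cast_nonneg n)
      _ = (2 : ℝ) ^ (-(δ / beta * L)) := by
          rw [← Real.rpow_add (by norm_num)]
          congr 1
          ring
      _ ≤ (2 : ℝ) ^ (-1 : ℝ) := by
          refine Real.rpow_le_rpow_of_exponent_le h21 ?_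
          have h3 : 3 ≤ δ * L := by
            rw [div_le_iff₀ hδ0] at hx2
            linarith
          have h4 : 1 ≤ δ / beta * L := by
            rw [div_mul_eq_mul_div, le_div_iff₀ (by linarith)]
            linarith
          linarith
      _ = 1 / 2 := by
          rw [Real.rpow_neg_one]
          norm_num
  · -- the sizes in base 2
    have e1 : (2 * k : ℝ) ^ (2 * k) ≤ (2 : ℝ) ^ (u * (2 * k)) := by
      calc (2 * k : ℝ) ^ (2 * k) ≤ ((2 : ℝ) ^ u) ^ (2 * k) :=
            pow_le_pow_left₀ (by linarith) (by rw [hu2]; linarith) _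
        _ = (2 : ℝ) ^ (u * (2 * k)) := by
            rw [← Real.rpow_natCast, ← Real.rpow_mul (by norm_num)]
            push_cast
            rfl
    have e2 : (2 : ℝ) ^ (k * (2 * k - 1)) = (2 : ℝ) ^ ((k : ℝ) * (2 * k - 1)) := by
      rw [← Real.rpow_natCast]
      congr 1
      rw [Nat.cast_mul, Nat.cast_sub (by omega)]
      push_cast
      ring
    have e3 : (2 : ℝ) ^ ((L - 1) * (2 * k)) ≤ ((n : ℝ) - 2 * k) ^ (2 * k) := by
      have h5 : (2 : ℝ) ^ (L - 1) ≤ (n : ℝ) - 2 * k := by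
        rw [Real.rpow_sub (by norm_num), hnL, Real.rpow_one]
        linarith
      calc (2 : ℝ) ^ ((L - 1) * (2 * k)) = ((2 : ℝ) ^ (L - 1)) ^ (2 * k) := by
            rw [← Real.rpow_natCast, ← Real.rpow_mul (by norm_num)]
            push_cast
            rfl
        _ ≤ _ := pow_le_pow_left₀ (by positivity) h5 _
    refine le_trans ?_ e3
    have e4 : (4 : ℝ) = (2 : ℝ) ^ (2 : ℝ) := by norm_num
    calc (2 : ℝ) ^ (-(2 * beta * (beta - 1) + ε) * L ^ 2) * (4 * (2 * k : ℝ) ^ (2 * k)) * 2 ^ (k * (2 * k - 1))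
        ≤ (2 : ℝ) ^ (-(2 * beta * (beta - 1) + ε) * L ^ 2) * ((2 : ℝ) ^ (2 : ℝ) * (2 : ℝ) ^ (u * (2 * k))) *
          (2 : ℝ) ^ ((k : ℝ) * (2 * k - 1)) := by
          rw [e2, ← e4]
          gcongr
      _ = (2 : ℝ) ^ (-(2 * beta * (beta - 1) + ε) * L ^ 2 + (2 + u * (2 * k)) + (k : ℝ) * (2 * k - 1)) := by
          rw [Real.rpow_add (by norm_num), Real.rpow_add (by norm_num), Real.rpow_add (by norm_num)]
      _ ≤ _ := by
          refine Real.rpow_le_rpow_of_exponent_le h21 ?_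
          -- `2 k (k - L) ≤ 2 (γ L + 1) ((γ - 1) L + 1)`
          have h6 : (k : ℝ) * (k - L) ≤ ((beta + δ) * L + 1) * ((beta + δ - 1) * L + 1) := by
            refine mul_le_mul hk2.le (by linarith) ?_ (by positivity)
            nlinarith
          have h7 : u * (2 * k) ≤ s / 100 * (62 / 10 * L) :=
            mul_le_mul hu1 (by linarith) (by linarith) (by linarith)
          have h8 : s * L ≤ ε * L ^ 2 / 100 := by
            have : 100 * (s * L) ≤ ε * L ^ 2 := by
              calc 100 * (s * L) ≤ (ε * s) * (s * L) := mul_le_mul_of_nonneg_right hsε (by positivity)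
                _ = ε * (s * s) * L := by ring
                _ = ε * L ^ 2 := by rw [hss]; ring
            linarith
          have h9 : 10 * L ≤ s * L := mul_le_mul_of_nonneg_right hs10 hL0
          have h10 : δ * L ^ 2 ≤ ε / 100 * L ^ 2 := mul_le_mul_of_nonneg_right hδ1 (by positivity)
          have h11 : beta * (δ * L ^ 2) ≤ 3 * (ε / 100 * L ^ 2) :=
            mul_le_mul hb2.le h10 (by positivity) (by norm_num)
          have h12 : δ * (δ * L ^ 2) ≤ 1 / 20 * (ε / 100 * L ^ 2) :=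
            mul_le_mul hδ2 h10 (by positivity) (by norm_num)
          have h13 : beta * L ≤ 3 * L := mul_le_mul_of_nonneg_right hb2.le hL0
          have h14 : δ * L ≤ 1 / 20 * L := mul_le_mul_of_nonneg_right hδ2 hL0
          have h15 : 0 ≤ δ * L ^ 2 := by positivity
          nlinarith

end Pool.Agent.Lib.P5135n
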