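import Pool.Agent.Lib.P5135n.Up
import Pool.Agent.Lib.P5135n.Defs2

/-!
# Module P5135n.Rep: representing graphs by points

PROOF. `exists_enum`: choose one end of every edge of the matching on `T` (`exists_choice` as in `UpAux.structure_of_matching`; or induct on `k`:
pick `v ∈ T`, its neighbour `w`, remove both). `card_even_of_matching`: an induced matching set has an even number of vertices (same).
`exists_rep`: take `ω.1 x i c := decide (G.Adj (e (inr x)) (f (i, c)))`, `ω.2` from the edges between further vertices; this is in the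
proof of `UpAux.cover`. `ext_SkG`: from `UpAux.ext_structure` with `T = {a i, b i}` (`v ∉ T` is adjacent to `a (c v)` and `b (c v)`).
-/

set_option autoImplicit false

namespace Pool.Agent.Lib.P5135n

open Pool.Agent.Lib.P5135a5

theorem enum_aux {V : Type} [Fintype V] {G : SimpleGraph V} {T : Finset V}
    (hT : IsInducedMatchingSet G T) :
    ∃ k, T.card = 2 * k ∧ ∃ f : Fin k × Bool → V, Function.Injective f ∧
      (∀ v, v ∈ T ↔ ∃ u, f u = v) ∧ ∀ u v, G.Adj (f u) (f v) ↔ u.1 = v.1 ∧ u.2 ≠ v.2 := by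
  classical
  obtain ⟨C, hCT, _, hCI, hle⟩ := exists_choice G T hT (fun _ => True)
    (fun _ _ _ _ _ => Or.inl trivial)
  have hp : ∀ v : V, ∃ w, v ∈ T → (w ∈ T ∧ G.Adj v w) ∧ ∀ z, z ∈ T ∧ G.Adj v z → z = w := by
    intro v
    by_cases hv : v ∈ T
    · obtain ⟨w, h1, h2⟩ := hT v hv
      exact ⟨w, fun _ => ⟨h1, h2⟩⟩
    · exact ⟨v, fun h => absurd h hv⟩
  choose π hπ using hp
  have hππ : ∀ v ∈ T, π (π v) = v := by
    intro v hv
    obtain ⟨⟨h1, h2⟩, _⟩ := hπ v hv
    exact ((hπ _ h1).2 v ⟨hv, h2.symm⟩).symm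
  have hπinj : ∀ v ∈ T, ∀ w ∈ T, π v = π w → v = w := by
    intro v hv w hw h
    rw [← hππ v hv, ← hππ w hw, h]
  have hdisj : ∀ x ∈ C, ∀ y ∈ C, x ≠ π y := by
    intro x hx y hy h
    have h2 := (hπ y (hCT hy)).1.2
    rw [← h] at h2
    exact hCI y hy x hx h2
  have hdisj' : Disjoint C (C.image π) := by
    rw [Finset.disjoint_left]
    intro x hx hx'
    obtain ⟨y, hy, hyx⟩ := Finset.mem_image.mp hx'
    exact hdisj x hx y hy hyx.symm
  have himg : (C.image π).card = C.card :=
    Finset.card_image_of_injOn (fun v hv w hw h => hπinj v (hCT hv) w (hCT hw) h)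
  have hsub : C ∪ C.image π ⊆ T := by
    intro x hx
    rcases Finset.mem_union.mp hx with h | h
    · exact hCT h
    · obtain ⟨y, hy, rfl⟩ := Finset.mem_image.mp h
      exact (hπ y (hCT hy)).1.1
  have hucard : (C ∪ C.image π).card = 2 * C.card := by
    rw [Finset.card_union_of_disjoint hdisj', himg]
    ring
  have hunion : C ∪ C.image π = T :=
    Finset.eq_of_subset_of_card_le hsub (by rw [hucard]; exact hle)
  have hcard : T.card = 2 * C.card := by rw [← hunion, hucard]
  have hedge : ∀ v w, v ∈ T → w ∈ T → G.Adj v w → π v = w := by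
    intro v w hv hw hvw
    exact ((hπ v hv).2 w ⟨hw, hvw⟩).symm
  let e : Fin C.card ≃ C := C.equivFin.symm
  refine ⟨C.card, hcard, fun q => if q.2 = true then (e q.1 : V) else π (e q.1), ?_, ?_, ?_⟩
  · rintro ⟨i, ci⟩ ⟨j, cj⟩ hij
    rcases ci with _ | _ <;> rcases cj with _ | _
    · have h1 : π (e i) = π (e j) := by simpa using hij
      have h2 := e.injective (Subtype.ext (hπinj _ (hCT (e i).2) _ (hCT (e j).2) h1))
      rw [h2]
    · have h1 : π (e i) = (e j : V) := by simpa using hij
      exact absurd h1.symm (hdisj _ (e j).2 _ (e i).2)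
    · have h1 : (e i : V) = π (e j) := by simpa using hij
      exact absurd h1 (hdisj _ (e i).2 _ (e j).2)
    · have h1 : (e i : V) = (e j : V) := by simpa using hij
      have h2 := e.injective (Subtype.ext h1)
      rw [h2]
  · intro v
    constructor
    · intro hv
      rw [← hunion] at hv
      rcases Finset.mem_union.mp hv with h | h
      · refine ⟨(e.symm ⟨v, h⟩, true), ?_⟩
        simp
      · obtain ⟨y, hy, rfl⟩ := Finset.mem_image.mp h
        refine ⟨(e.symm ⟨y, hy⟩, false), ?_⟩
        simp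
    · rintro ⟨⟨i, c⟩, rfl⟩
      rcases c with _ | _
      · simpa using (hπ _ (hCT (e i).2)).1.1
      · simpa using hCT (e i).2
  · rintro ⟨i, ci⟩ ⟨j, cj⟩
    have hiT := hCT (e i).2
    have hjT := hCT (e j).2
    rcases ci with _ | _ <;> rcases cj with _ | _
    · have h1 : ¬ G.Adj (π (e i)) (π (e j)) := by
        intro h
        have h3 := hedge _ _ (hπ _ hiT).1.1 (hπ _ hjT).1.1 h
        rw [hππ _ hiT] at h3
        exact hdisj _ (e i).2 _ (e j).2 h3
      simpa using h1
    · have h1 : G.Adj (π (e i)) (e j) ↔ i = j := by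
        constructor
        · intro h
          have h3 := hedge _ _ (hπ _ hiT).1.1 hjT h
          rw [hππ _ hiT] at h3
          exact e.injective (Subtype.ext h3)
        · rintro rfl
          exact (hπ _ hiT).1.2.symm
      simpa using h1
    · have h1 : G.Adj (e i) (π (e j)) ↔ i = j := by
        constructor
        · intro h
          have h3 := hedge _ _ hiT (hπ _ hjT).1.1 h
          exact e.injective (Subtype.ext (hπinj _ hiT _ hjT h3))
        · rintro rfl
          exact (hπ _ hiT).1.2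
      simpa using h1
    · have h1 : ¬ G.Adj (e i) (e j) := hCI _ (e i).2 _ (e j).2
      simpa using h1

theorem exists_enum {V : Type} [Fintype V] {G : SimpleGraph V} {T : Finset V} (hT : IsInducedMatchingSet G T) {k : ℕ}
    (hk : T.card = 2 * k) : ∃ f : Fin k × Bool → V, Function.Injective f ∧ (∀ v, v ∈ T ↔ ∃ u, f u = v) ∧
      ∀ u v, G.Adj (f u) (f v) ↔ u.1 = v.1 ∧ u.2 ≠ v.2 := by
  obtain ⟨k', hk', f, hf⟩ := enum_aux hT
  have h : k' = k := by omega
  subst h
  exact ⟨f, hf⟩

theorem card_even_of_matching {V : Type} [Fintype V] {G : SimpleGraph V} {T : Finset V} (hT : IsInducedMatchingSet G T) :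
    ∃ k, T.card = 2 * k := by
  obtain ⟨k, hk, _⟩ := enum_aux hT
  exact ⟨k, hk⟩

theorem exists_rep {V : Type} {G : SimpleGraph V} {k r : ℕ} (e : VV k r ≃ V)
    (h : ∀ u v : Fin k × Bool, G.Adj (e (Sum.inl u)) (e (Sum.inl v)) ↔ u.1 = v.1 ∧ u.2 ≠ v.2) :
    ∃ ω : Om k r, (mkG ω).comap e.symm = G := by
  classical
  set ω : Om k r :=
    (fun x i d => decide (G.Adj (e (Sum.inr x)) (e (Sum.inl (i, d)))),
      fun q => decide (q.1 ∈ (G.comap (fun x => e (Sum.inr x))).edgeSet)) with hω
  refine ⟨ω, ?_⟩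
  have key : ∀ p q : VV k r, (mkG ω).Adj p q ↔ G.Adj (e p) (e q) := by
    rintro (⟨i, ci⟩ | x) (⟨j, cj⟩ | y)
    · show (i = j ∧ ci ≠ cj) ↔ _
      rw [h]
    · show decide (G.Adj (e (Sum.inr y)) (e (Sum.inl (i, ci)))) = true ↔ _
      rw [decide_eq_true_eq, G.adj_comm]
    · show decide (G.Adj (e (Sum.inr x)) (e (Sum.inl (j, cj)))) = true ↔ _
      rw [decide_eq_true_eq]
    · show (∃ h : ¬ (s(x, y)).IsDiag,
        decide (s(x, y) ∈ (G.comap (fun x => e (Sum.inr x))).edgeSet) = true) ↔ _
      rw [decide_eq_true_eq, SimpleGraph.mem_edgeSet, SimpleGraph.comap_adj]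
      constructor
      · rintro ⟨_, h⟩; exact h
      · intro h
        refine ⟨?_, h⟩
        intro hd
        have hxy : x = y := by simpa using hd
        subst hxy
        exact h.ne rfl
  ext u v
  rw [SimpleGraph.comap_adj]
  show (mkG ω).Adj (e.symm u) (e.symm v) ↔ _
  rw [key, Equiv.apply_symm_apply, Equiv.apply_symm_apply]

theorem ext_SkG {V : Type} [Fintype V] {G : SimpleGraph V} (hG : Ext G) : SkG G (upperDom G) := by
  have h := (characterization G hG.1).1 hG.2
  obtain ⟨S, hS, hcard⟩ := exists_inducedMatchingNum G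
  rw [h] at hcard
  refine ⟨S, hcard, hS, ?_⟩
  intro v hv
  obtain ⟨x, hx, y, hy, hxy, h1, h2⟩ := outside G S hS hcard v hv
  exact ⟨x, hx, y, hy, hxy, h1, h2⟩

end Pool.Agent.Lib.P5135n
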