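import Pool.Agent.Lib.P5135n.Iso
import Pool.Agent.Lib.P5135n.Rep

/-!
# Module P5135n.PlAll: the number of graphs with the structure and a property

Map from `{(a, G)}`, `a` an automorphism as in `autM k`, `G` with `SkG G k ∧ Q G`, to the pairs `(f, ω)`,
`f : Fin k × Bool ↪ Fin n`, `Full k r ω ∧ Q' ω`: choose for `G` a set `T` as in `SkG` and `f₀ = f₀(G)` by `exists_enum`, put
`f = f₀ ∘ a`, `e = E f` (`exists_ext` chosen for `f`), `ω` by `exists_rep`. The map is injective. The number of `f` is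
`n.descFactorial (2 k)`.
-/

set_option autoImplicit false

namespace Pool.Agent.Lib.P5135n

open Pool.Agent.Lib.P5135a5

theorem places_gen {k r n : ℕ} (hn : n = 2 * k + r) (Q : SimpleGraph (Fin n) → Prop) (Q' : Om k r → Prop)
    (hQ : ∀ (e : VV k r ≃ Fin n) (ω : Om k r), Q ((mkG ω).comap e.symm) → Q' ω) :
    autM k * Nat.card {G : SimpleGraph (Fin n) // SkG G k ∧ Q G} ≤
      n.descFactorial (2 * k) * Nat.card {ω : Om k r // Full k r ω ∧ Q' ω} := by
  classical
  choose E hE using fun f : (Fin k × Bool) ↪ Fin n => exists_ext hn f f.injective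
  -- an enumeration of the planted vertices of a graph
  have hT : ∀ G : {G : SimpleGraph (Fin n) // SkG G k ∧ Q G}, ∃ f : (Fin k × Bool) ↪ Fin n,
      (∀ v, (∀ u, f u ≠ v) → ∃ i, G.1.Adj v (f (i, true)) ∧ G.1.Adj v (f (i, false))) ∧
      ∀ u v, G.1.Adj (f u) (f v) ↔ u.1 = v.1 ∧ u.2 ≠ v.2 := by
    rintro ⟨G, ⟨T, hT1, hT2, hT3⟩, _⟩
    obtain ⟨f, hf1, hf2, hf3⟩ := exists_enum hT2 hT1
    refine ⟨⟨f, hf1⟩, ?_, hf3⟩
    intro v hv
    obtain ⟨u, hu, w, hw, huw, hvu, hvw⟩ := hT3 v (fun h => by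
      obtain ⟨u, hu⟩ := (hf2 v).mp h
      exact hv u hu)
    obtain ⟨⟨i, c⟩, rfl⟩ := (hf2 u).mp hu
    obtain ⟨⟨j, d⟩, rfl⟩ := (hf2 w).mp hw
    obtain ⟨h1, h2⟩ := (hf3 _ _).mp huw
    change i = j at h1
    change c ≠ d at h2
    subst h1
    refine ⟨i, ?_⟩
    cases c <;> cases d
    · exact absurd rfl h2
    · exact ⟨hvw, hvu⟩
    · exact ⟨hvu, hvw⟩
    · exact absurd rfl h2
  choose F hF1 hF2 using hT
  let ff : {a : Equiv.Perm (Fin k × Bool) // ∀ u v, (a u).1 = (a v).1 ↔ u.1 = v.1} →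
      {G : SimpleGraph (Fin n) // SkG G k ∧ Q G} → (Fin k × Bool) ↪ Fin n :=
    fun a G => a.1.toEmbedding.trans (F G)
  have hff0 : ∀ a G u, ff a G u = F G (a.1 u) := fun a G u => rfl
  have hff : ∀ (a : {a : Equiv.Perm (Fin k × Bool) // ∀ u v, (a u).1 = (a v).1 ↔ u.1 = v.1})
      (G : {G : SimpleGraph (Fin n) // SkG G k ∧ Q G}) (u v : Fin k × Bool),
      G.1.Adj (ff a G u) (ff a G v) ↔ u.1 = v.1 ∧ u.2 ≠ v.2 := by
    intro a G u v
    rw [hff0, hff0, hF2]
    constructor
    · rintro ⟨h1, h2⟩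
      have h3 := (a.2 u v).mp h1
      refine ⟨h3, fun h4 => h2 ?_⟩
      have h5 : u = v := Prod.ext h3 h4
      rw [h5]
    · rintro ⟨h1, h2⟩
      have h3 := (a.2 u v).mpr h1
      refine ⟨h3, fun h4 => h2 ?_⟩
      have h5 : a.1 u = a.1 v := Prod.ext h3 h4
      rw [a.1.injective h5]
  have hrep : ∀ (a : {a : Equiv.Perm (Fin k × Bool) // ∀ u v, (a u).1 = (a v).1 ↔ u.1 = v.1})
      (G : {G : SimpleGraph (Fin n) // SkG G k ∧ Q G}),
      ∃ ω : Om k r, (mkG ω).comap (E (ff a G)).symm = G.1 := by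
    intro a G
    apply exists_rep
    intro u v
    rw [hE, hE]
    exact hff a G u v
  choose W hW using hrep
  have hWa : ∀ (a : {a : Equiv.Perm (Fin k × Bool) // ∀ u v, (a u).1 = (a v).1 ↔ u.1 = v.1})
      (G : {G : SimpleGraph (Fin n) // SkG G k ∧ Q G}) (x : Fin r) (u : Fin k × Bool),
      (W a G).1 x u.1 u.2 = true ↔ G.1.Adj (E (ff a G) (Sum.inr x)) (F G (a.1 u)) := by
    intro a G x u
    rw [← hff0, ← hE (ff a G) u]
    have h1 : G.1.Adj (E (ff a G) (Sum.inr x)) (E (ff a G) (Sum.inl u)) ↔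
        ((mkG (W a G)).comap (E (ff a G)).symm).Adj (E (ff a G) (Sum.inr x)) (E (ff a G) (Sum.inl u)) := by
      rw [hW a G]
    rw [h1, SimpleGraph.comap_adj, Equiv.symm_apply_apply, Equiv.symm_apply_apply]
    exact Iff.rfl
  have hWp : ∀ a G, Full k r (W a G) ∧ Q' (W a G) := by
    intro a G
    constructor
    · intro x
      have h1 : ∀ u, F G u ≠ E (ff a G) (Sum.inr x) := by
        intro u hu
        have h2 : E (ff a G) (Sum.inl (a.1.symm u)) = E (ff a G) (Sum.inr x) := by
          rw [hE, hff0, Equiv.apply_symm_apply, hu]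
        have h3 := (E (ff a G)).injective h2
        simp at h3
      obtain ⟨i, h2, h3⟩ := hF1 G _ h1
      have e1 : (a.1.symm (i, true)).1 = (a.1.symm (i, false)).1 := by
        rw [← a.2, Equiv.apply_symm_apply, Equiv.apply_symm_apply]
      have e2 : (a.1.symm (i, true)).2 ≠ (a.1.symm (i, false)).2 := by
        intro h
        have h4 : a.1.symm (i, true) = a.1.symm (i, false) := Prod.ext e1 h
        have h5 := a.1.symm.injective h4
        simp at h5
      have g1 : (W a G).1 x (a.1.symm (i, true)).1 (a.1.symm (i, true)).2 = true := by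
        rw [hWa, Equiv.apply_symm_apply]
        exact h2
      have g2 : (W a G).1 x (a.1.symm (i, false)).1 (a.1.symm (i, false)).2 = true := by
        rw [hWa, Equiv.apply_symm_apply]
        exact h3
      rw [← e1] at g2
      refine ⟨(a.1.symm (i, true)).1, ?_⟩
      generalize (a.1.symm (i, true)).1 = j at *
      generalize (a.1.symm (i, true)).2 = c at *
      generalize (a.1.symm (i, false)).2 = d at *
      cases c <;> cases d
      · exact absurd rfl e2
      · exact ⟨g2, g1⟩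
      · exact ⟨g1, g2⟩
      · exact absurd rfl e2
    · refine hQ (E (ff a G)) (W a G) ?_
      rw [hW a G]
      exact G.2.2
  let Φ : {a : Equiv.Perm (Fin k × Bool) // ∀ u v, (a u).1 = (a v).1 ↔ u.1 = v.1} ×
      {G : SimpleGraph (Fin n) // SkG G k ∧ Q G} →
      ((Fin k × Bool) ↪ Fin n) × {ω : Om k r // Full k r ω ∧ Q' ω} :=
    fun x => (ff x.1 x.2, ⟨W x.1 x.2, hWp x.1 x.2⟩)
  have hΦ : Function.Injective Φ := by
    rintro ⟨a, G⟩ ⟨a', G'⟩ h
    have h1 : ff a G = ff a' G' := congrArg Prod.fst h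
    have h2 : W a G = W a' G' := congrArg Subtype.val (congrArg Prod.snd h)
    have h3 : G = G' := by
      apply Subtype.ext
      rw [← hW a G, ← hW a' G', h1, h2]
    subst h3
    have h4 : a = a' := by
      apply Subtype.ext
      apply Equiv.ext
      intro u
      have h5 : ff a G u = ff a' G u := by rw [h1]
      rw [hff0, hff0] at h5
      exact (F G).injective h5
    rw [h4]
  have main := Nat.card_le_card_of_injective Φ hΦ
  rw [Nat.card_prod, Nat.card_prod] at main
  have h8 : Nat.card ((Fin k × Bool) ↪ Fin n) = n.descFactorial (2 * k) := by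
    rw [Nat.card_eq_fintype_card, Fintype.card_embedding_eq, Fintype.card_fin, Fintype.card_prod, Fintype.card_fin,
      Fintype.card_bool, mul_comm k 2]
  rw [h8] at main
  exact main

theorem places_up {k r n : ℕ} (hn : n = 2 * k + r) :
    autM k * Nat.card {G : SimpleGraph (Fin n) // SkG G k ∧ ¬ GoodG G k} ≤
      n.descFactorial (2 * k) * Nat.card {ω : Om k r // Full k r ω ∧ ¬ GoodG (mkG ω) k} :=
  places_gen hn (fun G => ¬ GoodG G k) (fun ω => ¬ GoodG (mkG ω) k)
    (fun e ω h hg => h (goodG_iso (SimpleGraph.Iso.comap e.symm (mkG ω)).symm hg))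

theorem places_all {k r n : ℕ} (hn : n = 2 * k + r) :
    autM k * Nat.card {G : SimpleGraph (Fin n) // SkG G k} ≤
      n.descFactorial (2 * k) * Nat.card {ω : Om k r // Full k r ω} := by
  have h := places_gen hn (fun _ => True) (fun _ => True) (fun _ _ _ => trivial) (k := k)
  simpa only [and_true] using h

end Pool.Agent.Lib.P5135n
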