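import Pool.Agent.Lib.P5135n.Iso

/-!
# Module P5135n.PlLow: many points give many graphs

PROOF. As `places` (Place), with the exact number `autM k` instead of `(2 k) ^ (2 k)`. Pairs `(f, ω)`, `f : Fin k × Bool ↪ Fin n`,
`GoodG (mkG ω) k`; `G_{f, ω} = (mkG ω).comap (E f).symm`, `E f` chosen by `exists_ext`. It satisfies `GoodG _ k` (`goodG_iso`). Fix `G` and one
pair `(f₀, ω₀)` with `G_{f₀, ω₀} = G`. For every other pair `(f, ω)` with the same `G`, the range of `f` and that of `f₀` are
induced matching sets with `2 k` vertices (`planted_im`, `im_iso`), so they agree (uniqueness in `GoodG`), and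
`a = f₀⁻¹ ∘ f` is a permutation of `Fin k × Bool` with `(a u).1 = (a v).1 ↔ u.1 = v.1` (for `u ≠ v`, `u.1 = v.1` iff `f u`, `f v` are adjacent in
`G`). `(f, ω)` is determined by `a` (`f = f₀ ∘ a`, `ω` by `mkG_inj`). So at most `autM k` pairs.
-/

set_option autoImplicit false

namespace Pool.Agent.Lib.P5135n

open Pool.Agent.Lib.P5135a5

private theorem pllow_mem {k r : ℕ} (v : VV k r) : v ∈ planted k r ↔ ∃ a, v = Sum.inl a := by
  unfold planted
  rw [Finset.mem_filter]
  constructor
  · rintro ⟨_, h⟩
    rcases v with a | x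
    · exact ⟨a, rfl⟩
    · simp at h
  · rintro ⟨a, rfl⟩
    simp

private theorem pllow_adj {k r : ℕ} (ω : Om k r) (u v : Fin k × Bool) :
    (mkG ω).Adj (Sum.inl u) (Sum.inl v) ↔ u.1 = v.1 ∧ u.2 ≠ v.2 := by
  obtain ⟨i, c⟩ := u
  obtain ⟨j, d⟩ := v
  exact Iff.rfl

private theorem pllow_cast {V : Type} {H H' : SimpleGraph V} {S : Finset V} (e : H = H')
    (h : IsInducedMatchingSet H S) : IsInducedMatchingSet H' S := by
  subst e
  exact h

theorem places_low {k r n : ℕ} (hn : n = 2 * k + r) :
    n.descFactorial (2 * k) * Nat.card {ω : Om k r // Full k r ω ∧ GoodG (mkG ω) k} ≤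
      autM k * Nat.card {G : SimpleGraph (Fin n) // GoodG G k} := by
  classical
  choose E hE using fun f : (Fin k × Bool) ↪ Fin n => exists_ext hn f f.injective
  let Gi : ∀ x : ((Fin k × Bool) ↪ Fin n) × {ω : Om k r // Full k r ω ∧ GoodG (mkG ω) k},
      mkG x.2.1 ≃g (mkG x.2.1).comap (E x.1).symm := fun x =>
    (SimpleGraph.Iso.comap (E x.1).symm (mkG x.2.1)).symm
  have hGi : ∀ x u, (Gi x).toEquiv u = E x.1 u := fun x u => rfl
  let Gf : ((Fin k × Bool) ↪ Fin n) × {ω : Om k r // Full k r ω ∧ GoodG (mkG ω) k} →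
      {G : SimpleGraph (Fin n) // GoodG G k} := fun x =>
    ⟨(mkG x.2.1).comap (E x.1).symm, goodG_iso (Gi x) x.2.2.2⟩
  have : Fintype {G : SimpleGraph (Fin n) // GoodG G k} := Fintype.ofFinite _
  -- adjacency of planted vertices
  have adj : ∀ x u v, (Gf x).1.Adj (x.1 u) (x.1 v) ↔ u.1 = v.1 ∧ u.2 ≠ v.2 := by
    intro x u v
    rw [← pllow_adj x.2.1 u v]
    change ((mkG x.2.1).comap (E x.1).symm).Adj (x.1 u) (x.1 v) ↔ _
    rw [SimpleGraph.comap_adj, ← hE x.1 u, ← hE x.1 v, Equiv.symm_apply_apply, Equiv.symm_apply_apply]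
  -- the places of the planted vertices are determined by the graph
  have key : ∀ x x0, Gf x = Gf x0 → ∀ a, ∃ b, x.1 a = x0.1 b := by
    intro x x0 hx a
    obtain ⟨T, _, hu⟩ := (Gf x0).2.2.2
    have i1 : (planted k r).map (Gi x).toEquiv.toEmbedding = T := by
      refine hu _ ⟨?_, ?_⟩
      · have h1 := im_iso (Gi x) (planted_im x.2.1).1
        have h2 : (mkG x.2.1).comap (E x.1).symm = (Gf x0).1 := congrArg Subtype.val hx
        exact pllow_cast h2 h1
      · rw [Finset.card_map]
        exact (planted_im x.2.1).2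
    have i2 : (planted k r).map (Gi x0).toEquiv.toEmbedding = T := by
      refine hu _ ⟨im_iso (Gi x0) (planted_im x0.2.1).1, ?_⟩
      rw [Finset.card_map]
      exact (planted_im x0.2.1).2
    have h3 : E x.1 (Sum.inl a) ∈ (planted k r).map (Gi x0).toEquiv.toEmbedding := by
      rw [i2, ← i1]
      exact Finset.mem_map_of_mem (Gi x).toEquiv.toEmbedding ((pllow_mem _).mpr ⟨a, rfl⟩)
    obtain ⟨w, hw, hw2⟩ := Finset.mem_map.mp h3
    obtain ⟨b, rfl⟩ := (pllow_mem w).mp hw
    refine ⟨b, ?_⟩
    rw [← hE x.1 a, ← hE x0.1 b]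
    exact hw2.symm
  have fib : ∀ G ∈ (Finset.univ : Finset {G : SimpleGraph (Fin n) // GoodG G k}),
      (Finset.univ.filter (fun x => Gf x = G)).card ≤ autM k := by
    intro G _
    by_cases hne : ∃ x0, Gf x0 = G
    · obtain ⟨x0, hx0⟩ := hne
      choose al hal using fun x : {x // Gf x = G} => key x.1 x0 (x.2.trans hx0.symm)
      have hinj : ∀ x : {x // Gf x = G}, Function.Injective (al x) := by
        intro x u v huv
        apply x.1.1.injective
        rw [hal x u, hal x v, huv]
      have hbij : ∀ x : {x // Gf x = G}, Function.Bijective (al x) := fun x =>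
        Finite.injective_iff_bijective.mp (hinj x)
      let F : {x // Gf x = G} →
          {a : Equiv.Perm (Fin k × Bool) // ∀ u v, (a u).1 = (a v).1 ↔ u.1 = v.1} := fun x =>
        ⟨Equiv.ofBijective (al x) (hbij x), by
          intro u v
          change (al x u).1 = (al x v).1 ↔ u.1 = v.1
          by_cases huv : u = v
          · subst huv
            simp
          · have hauv : al x u ≠ al x v := fun h => huv (hinj x h)
            have h1 := adj x.1 u v
            have h2 := adj x0 (al x u) (al x v)
            have hg : Gf x0 = Gf x.1 := hx0.trans x.2.symm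
            rw [← hal x u, ← hal x v, hg] at h2
            have h3 := h2.symm.trans h1
            constructor
            · intro h4
              exact (h3.mp ⟨h4, fun h5 => hauv (Prod.ext h4 h5)⟩).1
            · intro h4
              exact (h3.mpr ⟨h4, fun h5 => huv (Prod.ext h4 h5)⟩).1⟩
      have hF : Function.Injective F := by
        intro x x' h
        have h0 : ∀ a, al x a = al x' a := by
          intro a
          have h1 := congrArg (fun p => p.1 a) h
          exact h1
        have hf : x.1.1 = x'.1.1 := by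
          ext1 a
          rw [hal x a, hal x' a, h0 a]
        obtain ⟨⟨f, ω⟩, hx⟩ := x
        obtain ⟨⟨f', ω'⟩, hx'⟩ := x'
        have hf' : f = f' := hf
        subst hf'
        have hω : (mkG ω.1).comap (E f).symm = (mkG ω'.1).comap (E f).symm :=
          congrArg Subtype.val (hx.trans hx'.symm)
        have hω2 : mkG ω.1 = mkG ω'.1 := by
          ext u v
          have h5 : ((mkG ω.1).comap (E f).symm).Adj (E f u) (E f v) ↔
              ((mkG ω'.1).comap (E f).symm).Adj (E f u) (E f v) := by rw [hω]
          rw [SimpleGraph.comap_adj, SimpleGraph.comap_adj, Equiv.symm_apply_apply, Equiv.symm_apply_apply] at h5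
          exact h5
        have hω3 : ω = ω' := Subtype.ext (mkG_inj hω2)
        subst hω3
        rfl
      have h6 := Fintype.card_le_of_injective F hF
      rw [Fintype.card_subtype] at h6
      unfold autM
      rw [Nat.card_eq_fintype_card]
      exact h6
    · have : Finset.univ.filter (fun x => Gf x = G) = ∅ := by
        rw [Finset.filter_eq_empty_iff]
        intro x _ hx
        exact hne ⟨x, hx⟩
      rw [this, Finset.card_empty]
      exact Nat.zero_le _
  have main := Finset.card_le_mul_card_image_of_maps_to (s := Finset.univ)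
    (t := (Finset.univ : Finset {G : SimpleGraph (Fin n) // GoodG G k})) (f := Gf)
    (fun _ _ => Finset.mem_univ _) _ fib
  rw [Finset.card_univ, Finset.card_univ, Fintype.card_prod, Fintype.card_embedding_eq, Fintype.card_fin,
    Fintype.card_prod, Fintype.card_fin, Fintype.card_bool, mul_comm k 2] at main
  rw [Nat.card_eq_fintype_card, Nat.card_eq_fintype_card]
  exact main

end Pool.Agent.Lib.P5135n
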