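import Pool.Agent.Lib.P5135n.Harris
import Pool.Agent.Lib.P5135n.CntP
import Pool.Agent.Lib.P5135n.CntB2
import Pool.Agent.Lib.P5135n.CntC2
import Pool.Agent.Lib.P5135n.Det2
import Pool.Agent.Lib.P5135n.PlLow
import Pool.Agent.Lib.P5135n.PlAll
import Pool.Agent.Lib.P5135n.AutM
import Pool.Agent.Lib.P5135n.NumLow2

/-!
# For `k` near `β log₂ n` almost all graphs with the structure are extremal; the lower bound
-/

set_option autoImplicit false

open Filter Topology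

namespace Pool.Agent.Lib.P5135n

open Pool.Agent.Lib.P5135a5

theorem card_le_sum {α : Type} [Finite α] (P : α → Prop) (s : Finset ℕ) (Q : ℕ → α → Prop)
    (h : ∀ x, P x → ∃ k ∈ s, Q k x) : Nat.card {x // P x} ≤ ∑ k ∈ s, Nat.card {x // Q k x} := by
  classical
  have := Fintype.ofFinite α
  simp only [Nat.card_eq_fintype_card, Fintype.card_subtype]
  refine le_trans (Finset.card_le_card ?_) Finset.card_biUnion_le
  intro x hx
  obtain ⟨k, hk, hq⟩ := h x (Finset.mem_filter.1 hx).2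
  exact Finset.mem_biUnion.2 ⟨k, hk, Finset.mem_filter.2 ⟨Finset.mem_univ _, hq⟩⟩

theorem sum_le_card {α : Type} [Finite α] (P : α → Prop) (s : Finset ℕ) (Q : ℕ → α → Prop)
    (h : ∀ x k, Q k x → P x) (h2 : ∀ x k k', Q k x → Q k' x → k = k') :
    ∑ k ∈ s, Nat.card {x // Q k x} ≤ Nat.card {x // P x} := by
  classical
  have := Fintype.ofFinite α
  simp only [Nat.card_eq_fintype_card, Fintype.card_subtype]
  rw [← Finset.card_biUnion]
  · refine Finset.card_le_card ?_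
    intro x hx
    obtain ⟨k, hk, hq⟩ := Finset.mem_biUnion.1 hx
    exact Finset.mem_filter.2 ⟨Finset.mem_univ _, h x k (Finset.mem_filter.1 hq).2⟩
  · intro k _ k' _ hkk
    rw [Function.onFun, Finset.disjoint_left]
    intro x hx hx'
    exact hkk (h2 x k k' (Finset.mem_filter.1 hx).2 (Finset.mem_filter.1 hx').2)

theorem card_or_le {α : Type} [Finite α] (P Q R : α → Prop) (h : ∀ x, P x → Q x ∨ R x) :
    Nat.card {x // P x} ≤ Nat.card {x // Q x} + Nat.card {x // R x} := by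
  classical
  have := Fintype.ofFinite α
  simp only [Nat.card_eq_fintype_card, Fintype.card_subtype]
  refine le_trans (Finset.card_le_card ?_) (Finset.card_union_le _ _)
  intro x hx
  rw [Finset.mem_union, Finset.mem_filter, Finset.mem_filter]
  rcases h x (Finset.mem_filter.1 hx).2 with h | h
  · exact Or.inl ⟨Finset.mem_univ _, h⟩
  · exact Or.inr ⟨Finset.mem_univ _, h⟩

theorem card_mono' {α : Type} [Finite α] (P Q : α → Prop) (h : ∀ x, P x → Q x) :
    Nat.card {x // P x} ≤ Nat.card {x // Q x} := by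
  classical
  have := Fintype.ofFinite α
  simp only [Nat.card_eq_fintype_card, Fintype.card_subtype]
  refine Finset.card_le_card ?_
  intro x hx
  exact Finset.mem_filter.2 ⟨Finset.mem_univ _, h x (Finset.mem_filter.1 hx).2⟩

theorem autM_pos (k : ℕ) : 0 < autM k := by
  unfold autM
  rw [Nat.card_pos_iff]
  exact ⟨⟨⟨1, fun u v => Iff.rfl⟩⟩, inferInstance⟩

/-- For `k` in the window almost all graphs with the structure are good. -/
theorem window_bad {ε : ℝ} (hε : 0 < ε) (hε1 : ε ≤ 1 / 2) : ∀ᶠ n : ℕ in atTop, ∀ k : ℕ,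
    23 / 10 * Real.logb 2 n ≤ k → (k : ℝ) ≤ 31 / 10 * Real.logb 2 n →
    (Nat.card {G : SimpleGraph (Fin n) // SkG G k ∧ ¬ GoodG G k} : ℝ) ≤
      ε * Nat.card {G : SimpleGraph (Fin n) // GoodG G k} ∧
    (n.descFactorial (2 * k) : ℝ) * Nat.card {ω : Om k (n - 2 * k) // Full k (n - 2 * k) ω} ≤
      (1 + ε) * ((autM k : ℝ) * Nat.card {G : SimpleGraph (Fin n) // GoodG G k}) := by
  filter_upwards [num_wd (show 0 < ε / 16 by positivity)] with n hn k hk1 hk2
  obtain ⟨r, b₀, m, l, d, hnk, h1k, hb1, hb, hmk, hm, hr, g1, g2, g3⟩ := hn k hk1 hk2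
  obtain rfl : r = n - 2 * k := by omega
  set r := n - 2 * k with hrdef
  set N : ℝ := 2 ^ (2 * k * r + r.choose 2) with hN
  have hNpos : 0 < N := by positivity
  set F : ℝ := (Nat.card {ω : Om k r // Full k r ω} : ℝ) with hF
  have hF0 : 0 ≤ F := Nat.cast_nonneg _
  -- the three bad events
  have b1 : (Nat.card {ω : Om k r // BadP k r b₀ ω} : ℝ) ≤ ε / 16 * N :=
    (card_badP h1k hb1 hb).trans (mul_le_mul_of_nonneg_right g1 hNpos.le)
  have b2 : (Nat.card {ω : Om k r // Bad2D k r b₀ ω} : ℝ) ≤ ε / 16 * N := by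
    have h5 := (card_bad2D (b₀ := b₀) hmk hm hr).trans (mul_le_mul_of_nonneg_right g2 hNpos.le)
    have h6 : (0 : ℝ) < 2 ^ (d * (b₀ + 1)) := by positivity
    refine le_of_mul_le_mul_right (h5.trans (le_of_eq ?_)) h6
    ring
  have b3 : (Nat.card {ω : Om k r // Bad3D k r ω} : ℝ) ≤ 2 * (ε / 16) * N := card_bad3D h1k g3 (by linarith)
  have hcond : ∀ (Q : Om k r → Prop) (c : ℝ), (∀ ω ω', ω ≤ ω' → Q ω' → Q ω) →
      (Nat.card {ω : Om k r // Q ω} : ℝ) ≤ c * N → (Nat.card {ω : Om k r // Full k r ω ∧ Q ω} : ℝ) ≤ c * F := by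
    intro Q c hQ hc
    have h5 := harris (Full k r) Q full_mono hQ
    have h6 : (Nat.card {ω : Om k r // Full k r ω ∧ Q ω} : ℝ) * N ≤ F * (Nat.card {ω : Om k r // Q ω} : ℝ) := by
      rw [hN, hF]
      exact_mod_cast h5
    refine le_of_mul_le_mul_right ?_ hNpos
    calc _ ≤ F * (Nat.card {ω : Om k r // Q ω} : ℝ) := h6
      _ ≤ F * (c * N) := mul_le_mul_of_nonneg_left hc hF0
      _ = c * F * N := by ring
  have c1 := hcond _ _ badP_anti b1
  have c2 := hcond _ _ bad2D_anti b2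
  have c3 := hcond _ _ bad3D_anti b3
  have c4 : (Nat.card {ω : Om k r // Full k r ω ∧ ¬ GoodG (mkG ω) k} : ℝ) ≤ ε / 4 * F := by
    have e1 : Nat.card {ω : Om k r // Full k r ω ∧ ¬ GoodG (mkG ω) k} ≤
        Nat.card {ω : Om k r // Full k r ω ∧ BadP k r b₀ ω} +
        (Nat.card {ω : Om k r // Full k r ω ∧ Bad2D k r b₀ ω} + Nat.card {ω : Om k r // Full k r ω ∧ Bad3D k r ω}) := by
      refine (card_or_le _ _ (fun ω => (Full k r ω ∧ Bad2D k r b₀ ω) ∨ (Full k r ω ∧ Bad3D k r ω)) ?_).trans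
        (Nat.add_le_add_left (card_or_le _ _ _ fun ω h => h) _)
      rintro ω ⟨h5, h6⟩
      by_contra hcon
      push Not at hcon
      exact h6 (good_of_full h1k hb1 ω h5 (fun h => hcon.1 h5 h) (fun h => hcon.2.1 h5 h) (fun h => hcon.2.2 h5 h))
    have e2 : (Nat.card {ω : Om k r // Full k r ω ∧ ¬ GoodG (mkG ω) k} : ℝ) ≤
        (Nat.card {ω : Om k r // Full k r ω ∧ BadP k r b₀ ω} : ℝ) +
        ((Nat.card {ω : Om k r // Full k r ω ∧ Bad2D k r b₀ ω} : ℝ) +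
          (Nat.card {ω : Om k r // Full k r ω ∧ Bad3D k r ω} : ℝ)) := by
      exact_mod_cast e1
    linarith
  have c5 : F ≤ (Nat.card {ω : Om k r // Full k r ω ∧ GoodG (mkG ω) k} : ℝ) +
      (Nat.card {ω : Om k r // Full k r ω ∧ ¬ GoodG (mkG ω) k} : ℝ) := by
    have e1 := card_or_le (Full k r) (fun ω => Full k r ω ∧ GoodG (mkG ω) k) (fun ω => Full k r ω ∧ ¬ GoodG (mkG ω) k)
      (fun ω h => by tauto)
    rw [hF]
    exact_mod_cast e1
  have p1 := places_low (k := k) (r := r) hnk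
  have p2 := places_up (k := k) (r := r) hnk
  have p1' : (n.descFactorial (2 * k) : ℝ) * (Nat.card {ω : Om k r // Full k r ω ∧ GoodG (mkG ω) k} : ℝ) ≤
      (autM k : ℝ) * (Nat.card {G : SimpleGraph (Fin n) // GoodG G k} : ℝ) := by exact_mod_cast p1
  have p2' : (autM k : ℝ) * (Nat.card {G : SimpleGraph (Fin n) // SkG G k ∧ ¬ GoodG G k} : ℝ) ≤
      (n.descFactorial (2 * k) : ℝ) * (Nat.card {ω : Om k r // Full k r ω ∧ ¬ GoodG (mkG ω) k} : ℝ) := by exact_mod_cast p2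
  have ha : (0 : ℝ) < autM k := by exact_mod_cast autM_pos k
  have hD : (0 : ℝ) ≤ n.descFactorial (2 * k) := Nat.cast_nonneg _
  set X := (Nat.card {ω : Om k r // Full k r ω ∧ GoodG (mkG ω) k} : ℝ) with hX
  set Y := (Nat.card {ω : Om k r // Full k r ω ∧ ¬ GoodG (mkG ω) k} : ℝ) with hY
  have hYX : Y ≤ ε * X := by nlinarith
  have hFX : F ≤ (1 + ε) * X := by nlinarith
  refine ⟨le_of_mul_le_mul_left (p2'.trans ?_) ha, ?_⟩
  swap
  · calc (n.descFactorial (2 * k) : ℝ) * F ≤ (n.descFactorial (2 * k) : ℝ) * ((1 + ε) * X) :=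
          mul_le_mul_of_nonneg_left hFX hD
      _ = (1 + ε) * ((n.descFactorial (2 * k) : ℝ) * X) := by ring
      _ ≤ _ := mul_le_mul_of_nonneg_left p1' (by linarith)
  calc (n.descFactorial (2 * k) : ℝ) * Y ≤ (n.descFactorial (2 * k) : ℝ) * (ε * X) := mul_le_mul_of_nonneg_left hYX hD
    _ = ε * ((n.descFactorial (2 * k) : ℝ) * X) := by ring
    _ ≤ ε * ((autM k : ℝ) * (Nat.card {G : SimpleGraph (Fin n) // GoodG G k} : ℝ)) := mul_le_mul_of_nonneg_left p1' hε.le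
    _ = _ := by ring

theorem card_Full (k r : ℕ) : (Nat.card {ω : Om k r // Full k r ω} : ℝ) = ((4 : ℝ) ^ k - 3 ^ k) ^ r * 2 ^ (r.choose 2) := by
  have h : Nat.card {ω : Om k r // Full k r ω} = Nat.card (UpAux.Good k r) := rfl
  rw [h, Nat.card_eq_fintype_card, UpAux.card_Good]
  have h34 : (3 : ℕ) ^ k ≤ 4 ^ k := Nat.pow_le_pow_left (by norm_num) k
  push_cast [Nat.cast_sub h34]
  ring

/-- The lower bound. -/
theorem extCount_ge {ε : ℝ} (hε : 0 < ε) : ∀ᶠ n : ℕ in atTop,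
    (2 : ℝ) ^ (-(2 * beta * (beta - 1) + ε) * (Real.logb 2 n) ^ 2) * 2 ^ (n.choose 2) ≤ extCount n := by
  filter_upwards [num_low2 hε, window_bad (show (0 : ℝ) < 1 / 2 by norm_num) le_rfl] with n hn hw
  obtain ⟨k, hk1, hk2, hk, h2k, h3, h4⟩ := hn
  have hw' := (hw k hk1 hk2).2
  obtain ⟨r, hr⟩ := Nat.exists_eq_add_of_le h2k
  have hr' : n - 2 * k = r := by omega
  rw [hr', card_Full] at hw'
  have hgood : (Nat.card {G : SimpleGraph (Fin n) // GoodG G k} : ℝ) ≤ extCount n := by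
    exact_mod_cast card_mono' (α := SimpleGraph (Fin n)) (fun G => GoodG G k) Ext (fun G h => h.1)
  have hdesc : ((n : ℝ) - 2 * k) ^ (2 * k) ≤ ((n.descFactorial (2 * k) : ℕ) : ℝ) := by
    have h5 : (n - 2 * k) ^ (2 * k) ≤ n.descFactorial (2 * k) :=
      le_trans (Nat.pow_le_pow_left (by omega) _) (Nat.pow_sub_le_descFactorial n (2 * k))
    have h6 : (((n - 2 * k : ℕ) : ℝ)) ^ (2 * k) ≤ ((n.descFactorial (2 * k) : ℕ) : ℝ) := by exact_mod_cast h5
    have h7 : ((n - 2 * k : ℕ) : ℝ) = (n : ℝ) - 2 * k := by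
      rw [Nat.cast_sub h2k]
      push_cast
      ring
    rwa [h7] at h6
  -- at least half of the points are full
  have hF : (1 / 2 : ℝ) * 2 ^ (2 * k * r + r.choose 2) ≤ ((4 : ℝ) ^ k - 3 ^ k) ^ r * 2 ^ (r.choose 2) := by
    have e1 : (4 : ℝ) ^ k - 3 ^ k = 2 ^ (2 * k) * (1 - (3 / 4 : ℝ) ^ k) := by
      rw [pow_mul, div_pow]
      norm_num
      field_simp
    have hy : (3 / 4 : ℝ) ^ k ≤ 1 := pow_le_one₀ (by norm_num) (by norm_num)
    have e2 : (1 / 2 : ℝ) ≤ (1 - (3 / 4 : ℝ) ^ k) ^ r := by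
      have h5 := one_add_mul_le_pow (a := -(3 / 4 : ℝ) ^ k) (by linarith) r
      have h6 : (r : ℝ) * (3 / 4 : ℝ) ^ k ≤ (n : ℝ) * (3 / 4 : ℝ) ^ k := by
        refine mul_le_mul_of_nonneg_right ?_ (by positivity)
        exact_mod_cast (by omega : r ≤ n)
      calc (1 / 2 : ℝ) ≤ 1 + r * -(3 / 4 : ℝ) ^ k := by linarith
        _ ≤ (1 + -(3 / 4 : ℝ) ^ k) ^ r := h5
        _ = _ := by rw [← sub_eq_add_neg]
    rw [e1, mul_pow, pow_add, ← pow_mul]
    calc (1 / 2 : ℝ) * (2 ^ (2 * k * r) * 2 ^ (r.choose 2)) ≤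
        (1 - (3 / 4 : ℝ) ^ k) ^ r * (2 ^ (2 * k * r) * 2 ^ (r.choose 2)) := mul_le_mul_of_nonneg_right e2 (by positivity)
      _ = _ := by ring
  have ha : (autM k : ℝ) ≤ (2 * k : ℝ) ^ (2 * k) := by
    rw [autM_eq]
    have h5 : k.factorial * 2 ^ k ≤ (2 * k) ^ (2 * k) := by
      calc k.factorial * 2 ^ k ≤ k ^ k * 2 ^ k := Nat.mul_le_mul_right _ (Nat.factorial_le_pow k)
        _ = (2 * k) ^ k := by rw [mul_comm, mul_pow]
        _ ≤ (2 * k) ^ (2 * k) := Nat.pow_le_pow_right (by omega) (by omega)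
    exact_mod_cast h5
  have hkpos : (0 : ℝ) < (2 * k : ℝ) ^ (2 * k) := by
    have : (0 : ℝ) < k := by exact_mod_cast hk
    positivity
  have hE0 : (0 : ℝ) ≤ extCount n := Nat.cast_nonneg _
  set Q : ℝ := (2 : ℝ) ^ (-(2 * beta * (beta - 1) + ε) * (Real.logb 2 n) ^ 2) with hQ
  have hsplit : n.choose 2 = k * (2 * k - 1) + (2 * k * r + r.choose 2) := by
    rw [hr, UpAux.choose_form]
    ring
  have e1 : Q * (4 * (2 * k : ℝ) ^ (2 * k)) * 2 ^ (k * (2 * k - 1)) * (1 / 2 * 2 ^ (2 * k * r + r.choose 2)) ≤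
      (1 + 1 / 2) * ((2 * k : ℝ) ^ (2 * k) * extCount n) := by
    refine le_trans (mul_le_mul (h4.trans hdesc) hF (by positivity) (by positivity)) (hw'.trans ?_)
    exact mul_le_mul_of_nonneg_left (mul_le_mul ha hgood (Nat.cast_nonneg _) hkpos.le) (by norm_num)
  have e2 : Q * (4 * (2 * k : ℝ) ^ (2 * k)) * 2 ^ (k * (2 * k - 1)) * (1 / 2 * 2 ^ (2 * k * r + r.choose 2)) =
      2 * (Q * 2 ^ (n.choose 2)) * (2 * k : ℝ) ^ (2 * k) := by
    rw [hsplit, pow_add]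
    ring
  rw [e2] at e1
  have e3 : 2 * (Q * 2 ^ (n.choose 2)) * (2 * k : ℝ) ^ (2 * k) ≤ (3 / 2 * (extCount n : ℝ)) * (2 * k : ℝ) ^ (2 * k) := by
    refine e1.trans (le_of_eq ?_)
    ring
  have e4 := le_of_mul_le_mul_right e3 hkpos
  linarith

end Pool.Agent.Lib.P5135n
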