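import Mathlib
import Pool.Agent.Lib.P5135a5.Main

/-!
# How many graphs have `Γ_t = 2 Γ`: definitions

Vertex type `VV k r = (Fin k × Bool) ⊕ Fin r`: the `k` planted edges `(i, true)(i, false)` and `r` further vertices.
A point `ω = (g, h)` of `Om k r` gives the graph `mkG ω`: the planted vertices span exactly the `k` planted edges,
`g x i c` says whether `x` is joined to `(i, c)`, and `h` gives the edges between the further vertices.
-/

set_option autoImplicit false

namespace Pool.Agent.Lib.P5135n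

open Pool.Agent.Lib.P5135a5

/-- `G` has no isolated vertex and `Γ_t(G) = 2 Γ(G)`. -/
def Ext {V : Type} (G : SimpleGraph V) : Prop :=
  (∀ v, ∃ w, G.Adj v w) ∧ upperTotalDom G = 2 * upperDom G

/-- The number of graphs on the vertex set `Fin n` without isolated vertices with `Γ_t = 2 Γ`. -/
noncomputable def extCount (n : ℕ) : ℕ := Nat.card {G : SimpleGraph (Fin n) // Ext G}

/-- The vertices: `k` planted edges and `r` further vertices. -/
abbrev VV (k r : ℕ) := (Fin k × Bool) ⊕ Fin r

/-- Adjacencies between the further vertices and the planted ones. -/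
abbrev OmG (k r : ℕ) := Fin r → Fin k → Bool → Bool

/-- Adjacencies between the further vertices. -/
abbrev OmH (r : ℕ) := {q : Sym2 (Fin r) // ¬ q.IsDiag} → Bool

abbrev Om (k r : ℕ) := OmG k r × OmH r

/-- The adjacency of `mkG ω`. -/
def adjG {k r : ℕ} (ω : Om k r) : VV k r → VV k r → Prop
  | .inl (i, c), .inl (j, d) => i = j ∧ c ≠ d
  | .inl (i, c), .inr x => ω.1 x i c = true
  | .inr x, .inl (i, c) => ω.1 x i c = true
  | .inr x, .inr y => ∃ h : ¬ (s(x, y)).IsDiag, ω.2 ⟨s(x, y), h⟩ = true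

theorem adjG_symm {k r : ℕ} (ω : Om k r) (u v : VV k r) (h : adjG ω u v) : adjG ω v u := by
  rcases u with ⟨i, c⟩ | x <;> rcases v with ⟨j, d⟩ | y
  · exact ⟨h.1.symm, h.2.symm⟩
  · exact h
  · exact h
  · obtain ⟨h1, h2⟩ := h
    have e : s(y, x) = s(x, y) := Sym2.eq_swap
    have h3 : ¬ (s(y, x)).IsDiag := by rw [e]; exact h1
    have h4 : (⟨s(y, x), h3⟩ : {q : Sym2 (Fin r) // ¬ q.IsDiag}) = ⟨s(x, y), h1⟩ := Subtype.ext e
    exact ⟨h3, by rw [h4]; exact h2⟩

theorem adjG_irrefl {k r : ℕ} (ω : Om k r) (u : VV k r) : ¬ adjG ω u u := by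
  rcases u with ⟨i, c⟩ | x
  · intro h
    exact h.2 rfl
  · rintro ⟨h, _⟩
    exact h (by simp)

/-- The graph with the planted edges and the adjacencies of `ω`. -/
def mkG {k r : ℕ} (ω : Om k r) : SimpleGraph (VV k r) where
  Adj := adjG ω
  symm := ⟨fun u v h => adjG_symm ω u v h⟩
  loopless := ⟨fun u h => adjG_irrefl ω u h⟩

theorem card_Om (k r : ℕ) : Fintype.card (Om k r) = 2 ^ (2 * k * r + r.choose 2) := by
  rw [Fintype.card_prod, Fintype.card_fun, Fintype.card_fun, Fintype.card_fun, Fintype.card_fun,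
    Sym2.card_subtype_not_diag, Fintype.card_fin, Fintype.card_fin, Fintype.card_bool, pow_add]
  congr 1
  rw [← pow_mul, ← pow_mul, mul_assoc]

/-- Some set of `b ≤ b₀` further vertices and some `k + 1 - b` planted edges: every one of the vertices misses an end of
every one of the edges. -/
def Bad1 (k r b₀ : ℕ) (ω : Om k r) : Prop :=
  ∃ (X : Finset (Fin r)) (A : Finset (Fin k)), X.Nonempty ∧ X.card ≤ b₀ ∧ X.card + A.card = k + 1 ∧
    ∀ x ∈ X, ∀ i ∈ A, ¬ (ω.1 x i true = true ∧ ω.1 x i false = true)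

/-- `s`, `p` form an irredundant family: `p j` is a private neighbour of `s j`. -/
def Irr {V : Type} (G : SimpleGraph V) {m : ℕ} (s p : Fin m → V) : Prop :=
  (∀ j, p j = s j ∨ G.Adj (s j) (p j)) ∧ ∀ i j, i ≠ j → p j ≠ s i ∧ ¬ G.Adj (p j) (s i)

/-- The further vertices among the `s j`, `p j`. -/
def rest {k r m : ℕ} (s p : Fin m → VV k r) : Finset (Fin r) :=
  Finset.univ.filter fun x => ∃ j, s j = Sum.inr x ∨ p j = Sum.inr x

/-- An irredundant family of size `k + 1` with more than `b₀` further vertices. -/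
def Bad2 (k r b₀ : ℕ) (ω : Om k r) : Prop :=
  ∃ s p : Fin (k + 1) → VV k r, Function.Injective s ∧ Irr (mkG ω) s p ∧ b₀ < (rest s p).card

/-- The planted vertices. -/
def planted (k r : ℕ) : Finset (VV k r) := Finset.univ.filter fun v => v.isLeft = true

/-- A second induced matching with `k` edges. -/
def Bad3 (k r : ℕ) (ω : Om k r) : Prop :=
  ∃ T : Finset (VV k r), T.card = 2 * k ∧ T ≠ planted k r ∧ IsInducedMatchingSet (mkG ω) T

end Pool.Agent.Lib.P5135n
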