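import Pool.Agent.Lib.P5135n.Defs

/-!
# Module P5135n.Det: without `Bad1` and `Bad2` the graph is extremal

PROOF. `ext_of_structure`: this is the direction 3 → 1 of `Pool.Agent.Results.MP_5135a5_co.Characterization.result`; copy its proof
(do not import the Results file): `hΓ : upperDom G ≤ k`, the induced matching `image a ∪ image b` with `2 k` vertices gives
`k ≤ inducedMatchingNum G`, `inducedMatchingNum_le : inducedMatchingNum G ≤ upperDom G`, `characterization G hG`.
`exists_irr`: `S` minimal dominating with at least `k + 1` elements, `s : Fin (k + 1) → V` an injective enumeration of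
`k + 1` of them. `S \ {s j}` is not dominating: some `p j ∉ S \ {s j}` has no neighbour in `S \ {s j}`; either `p j = s j`, or
`p j ∉ S` and, `S` being dominating, `p j` is adjacent to `s j`.
`ext_mkG`: `a i = inl (i, true)`, `b i = inl (i, false)`; for `x : Fin r` let `c (inr x)` be an edge with both ends adjacent to `x`
(exists: otherwise `X = {x}`, `A = univ` is `Bad1`; here `1 ≤ b₀`), `c (inl (i, _)) = i`. No isolated vertices: clear. Let `S` be
minimal dominating with more than `k` elements, `s, p` as above, so `Irr (mkG ω) s p`. If `(rest s p).card > b₀` this is `Bad2`.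
Otherwise let `J = {j | s j, p j both planted}`; for `j ∈ J` both lie in one planted edge `e j`, and `e` is injective on `J`
(`p j` is equal or adjacent to every vertex of its edge, so `s i` is not in this edge for `i ≠ j`). So `|J| ≤ k` and
`B = univ \ J` is not empty; for `j ∈ B` let `x j` be the vertex of `s j` if `s j = inr _`, else that of `p j`. These are distinct
(`p i ≠ s j`, `s` injective, and `p i ≠ p j`), so `X = x '' B` has `|B|` elements, `|B| ≤ (rest s p).card ≤ b₀`; `A = e '' J`,
`|A| = k + 1 - |B|`. Every `x ∈ X` misses an end of every `e i`, `i ∈ J`: if `x = s j` it is not adjacent to `p i`, if `x = p j` it is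
not adjacent to `s i`. This is `Bad1`.
-/

set_option autoImplicit false

namespace Pool.Agent.Lib.P5135n

open Pool.Agent.Lib.P5135a5

theorem ext_of_structure {V : Type} [Fintype V] (G : SimpleGraph V) (hG : ∀ v, ∃ w, G.Adj v w) {k : ℕ}
    (a b : Fin k → V) (c : V → Fin k) (h1 : ∀ i, G.Adj (a i) (b i)) (h2 : ∀ i, c (a i) = i ∧ c (b i) = i)
    (h3 : ∀ i j, i ≠ j → ¬ G.Adj (a i) (a j) ∧ ¬ G.Adj (a i) (b j) ∧ ¬ G.Adj (b i) (b j))
    (h5 : ∀ S, Minimal (IsDominating G) S → S.card ≤ k) : Ext G := by
  classical
  refine ⟨hG, (characterization G hG).2 ?_⟩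
  have hΓ : upperDom G ≤ k := by
    obtain ⟨S, hS, hcard⟩ := exists_upperDom G
    rw [← hcard]
    exact h5 S hS
  have ha : Function.Injective a := by
    intro i j hij
    rw [← (h2 i).1, ← (h2 j).1, hij]
  have hb : Function.Injective b := by
    intro i j hij
    rw [← (h2 i).2, ← (h2 j).2, hij]
  have hab : ∀ i j, a i ≠ b j := by
    intro i j hij
    have : i = j := by rw [← (h2 i).1, ← (h2 j).2, hij]
    subst this
    exact (h1 i).ne hij
  have hcardS : (Finset.univ.image a ∪ Finset.univ.image b).card = 2 * k := by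
    rw [Finset.card_union_of_disjoint, Finset.card_image_of_injective _ ha,
      Finset.card_image_of_injective _ hb, Finset.card_univ, Fintype.card_fin]
    · ring
    · rw [Finset.disjoint_left]
      intro x hx hx'
      obtain ⟨i, _, rfl⟩ := Finset.mem_image.mp hx
      obtain ⟨j, _, hj⟩ := Finset.mem_image.mp hx'
      exact hab i j hj.symm
  have hIM : IsInducedMatchingSet G (Finset.univ.image a ∪ Finset.univ.image b) := by
    intro v hv
    rcases Finset.mem_union.mp hv with hv | hv
    · obtain ⟨i, _, rfl⟩ := Finset.mem_image.mp hv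
      refine ⟨b i, ⟨?_, h1 i⟩, ?_⟩
      · rw [Finset.mem_union]
        exact Or.inr (Finset.mem_image_of_mem _ (Finset.mem_univ i))
      · rintro y ⟨hy1, hy2⟩
        rcases Finset.mem_union.mp hy1 with hy | hy
        · obtain ⟨j, _, rfl⟩ := Finset.mem_image.mp hy
          by_cases hij : i = j
          · subst hij
            exact absurd hy2 (fun h => h.ne rfl)
          · exact absurd hy2 (h3 i j hij).1
        · obtain ⟨j, _, rfl⟩ := Finset.mem_image.mp hy
          by_cases hij : i = j
          · rw [hij]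
          · exact absurd hy2 (h3 i j hij).2.1
    · obtain ⟨i, _, rfl⟩ := Finset.mem_image.mp hv
      refine ⟨a i, ⟨?_, (h1 i).symm⟩, ?_⟩
      · rw [Finset.mem_union]
        exact Or.inl (Finset.mem_image_of_mem _ (Finset.mem_univ i))
      · rintro y ⟨hy1, hy2⟩
        rcases Finset.mem_union.mp hy1 with hy | hy
        · obtain ⟨j, _, rfl⟩ := Finset.mem_image.mp hy
          by_cases hij : j = i
          · rw [hij]
          · exact absurd hy2.symm (h3 j i hij).2.1
        · obtain ⟨j, _, rfl⟩ := Finset.mem_image.mp hy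
          by_cases hij : i = j
          · subst hij
            exact absurd hy2 (fun h => h.ne rfl)
          · exact absurd hy2 (h3 i j hij).2.2
  have hk := card_le_inducedMatchingNum G hIM hcardS
  have := inducedMatchingNum_le G
  omega

theorem exists_irr {V : Type} [Fintype V] (G : SimpleGraph V) {k : ℕ} (S : Finset V) (hS : Minimal (IsDominating G) S)
    (hk : k < S.card) : ∃ s p : Fin (k + 1) → V, Function.Injective s ∧ Irr G s p := by
  classical
  obtain ⟨e⟩ : Nonempty (Fin (k + 1) ↪ S) := by
    refine Function.Embedding.nonempty_of_card_le ?_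
    rw [Fintype.card_fin, Fintype.card_coe]
    exact hk
  have hp : ∀ v : S, ∃ p : V, p ∉ S.erase v ∧ (∀ u ∈ S.erase (v : V), ¬ G.Adj p u) ∧
      (p = v ∨ G.Adj v p) := by
    rintro ⟨v, hv⟩
    have hnd : ¬ IsDominating G (S.erase v) := by
      intro hd
      have h1 := hS.le_of_le hd (Finset.erase_subset v S)
      exact Finset.notMem_erase v S (h1 hv)
    unfold IsDominating at hnd
    push Not at hnd
    obtain ⟨p, hp1, hp2⟩ := hnd
    refine ⟨p, hp1, hp2, ?_⟩
    by_cases hpv : p = v
    · exact Or.inl hpv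
    · right
      have hpS : p ∉ S := fun h => hp1 (Finset.mem_erase.2 ⟨hpv, h⟩)
      obtain ⟨u, hu, hpu⟩ := hS.prop p hpS
      by_cases huv : u = v
      · subst huv
        exact hpu.symm
      · exact absurd hpu (hp2 u (Finset.mem_erase.2 ⟨huv, hu⟩))
  choose p hp1 hp2 hp3 using hp
  refine ⟨fun j => (e j : V), fun j => p (e j), ?_, ?_, ?_⟩
  · intro i j hij
    exact e.injective (Subtype.ext hij)
  · intro j
    exact hp3 (e j)
  · intro i j hij
    have hne : (e i : V) ≠ e j := fun h => hij (e.injective (Subtype.ext h))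
    have hmem : (e i : V) ∈ S.erase (e j : V) := Finset.mem_erase.2 ⟨hne, (e i).2⟩
    refine ⟨?_, hp2 (e j) _ hmem⟩
    intro h
    have h' : p (e j) = (e i : V) := h
    exact hp1 (e j) (by rw [h']; exact hmem)

theorem ext_mkG {k r b₀ : ℕ} (hk : 1 ≤ k) (hb : 1 ≤ b₀) (ω : Om k r) (h1 : ¬ Bad1 k r b₀ ω) (h2 : ¬ Bad2 k r b₀ ω) :
    Ext (mkG ω) := by
  classical
  have hx : ∀ x : Fin r, ∃ i : Fin k, ω.1 x i true = true ∧ ω.1 x i false = true := by
    intro x
    by_contra hcon
    apply h1
    refine ⟨{x}, Finset.univ, Finset.singleton_nonempty x, ?_, ?_, ?_⟩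
    · rw [Finset.card_singleton]
      exact hb
    · rw [Finset.card_singleton, Finset.card_univ, Fintype.card_fin, add_comm]
    · intro y hy i _ h
      rw [Finset.mem_singleton] at hy
      subst hy
      exact hcon ⟨i, h⟩
  choose cx hcx using hx
  refine ext_of_structure (k := k) (mkG ω) ?_ (fun i => Sum.inl (i, true)) (fun i => Sum.inl (i, false))
    (fun v => Sum.elim (fun q => q.1) cx v) ?_ ?_ ?_ ?_
  · rintro (⟨i, c⟩ | x)
    · refine ⟨Sum.inl (i, !c), ?_⟩
      show i = i ∧ c ≠ !c
      refine ⟨rfl, ?_⟩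
      cases c <;> simp
    · exact ⟨Sum.inl (cx x, true), (hcx x).1⟩
  · intro i
    show i = i ∧ true ≠ false
    exact ⟨rfl, by simp⟩
  · intro i
    exact ⟨rfl, rfl⟩
  · intro i j hij
    exact ⟨fun h => hij h.1, fun h => hij h.1, fun h => hij h.1⟩
  · intro S hS
    by_contra hcon
    obtain ⟨s, p, hs, hirr⟩ := exists_irr (mkG ω) (k := k) S hS (not_le.1 hcon)
    have hrest : (rest s p).card ≤ b₀ := by
      by_contra hc
      exact h2 ⟨s, p, hs, hirr, not_le.1 hc⟩
    obtain ⟨hi1, hi2⟩ := hirr
    obtain ⟨ed, hed, hedr⟩ : ∃ ed : VV k r → Fin k, (∀ q, ed (Sum.inl q) = q.1) ∧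
        ∀ x, ed (Sum.inr x) = cx x := ⟨fun v => Sum.elim (fun q => q.1) cx v, fun _ => rfl, fun _ => rfl⟩
    set J : Finset (Fin (k + 1)) := Finset.univ.filter fun j =>
      ∃ q q' : Fin k × Bool, s j = Sum.inl q ∧ p j = Sum.inl q' with hJ
    have hJe : ∀ j ∈ J, ∃ c d : Bool, s j = Sum.inl (ed (s j), c) ∧ p j = Sum.inl (ed (s j), d) := by
      intro j hj
      rw [hJ, Finset.mem_filter] at hj
      obtain ⟨_, ⟨i, c⟩, ⟨i', d⟩, e1, e2⟩ := hj
      have hii : i' = i := by
        rcases hi1 j with h | h
        · rw [e1, e2] at h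
          exact congrArg Prod.fst (Sum.inl.inj h)
        · rw [e1, e2] at h
          exact h.1.symm
      subst hii
      refine ⟨c, d, ?_, ?_⟩
      · rw [e1, hed]
      · rw [e1, hed, e2]
    have hJinj : ∀ i ∈ J, ∀ j ∈ J, ed (s i) = ed (s j) → i = j := by
      intro i hi j hj hij
      by_contra hne
      obtain ⟨c, d, e1, e2⟩ := hJe i hi
      obtain ⟨c', d', e3, e4⟩ := hJe j hj
      obtain ⟨g1, g2⟩ := hi2 i j hne
      rw [e4, e1, hij] at g1 g2
      by_cases hdc : d' = c
      · apply g1
        rw [hdc]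
      · exact g2 ⟨rfl, hdc⟩
    have hJcard : (J.image fun j => ed (s j)).card = J.card :=
      Finset.card_image_of_injOn (fun i hi j hj h => hJinj i hi j hj h)
    have hJk : J.card ≤ k := by
      rw [← hJcard]
      refine (Finset.card_le_univ _).trans ?_
      rw [Fintype.card_fin]
    have hBne : (Finset.univ \ J).Nonempty := by
      rw [← Finset.card_pos, Finset.card_sdiff_of_subset (Finset.subset_univ J), Finset.card_univ,
        Fintype.card_fin]
      omega
    have hB : ∀ j ∈ Finset.univ \ J, ∃ x : Fin r, s j = Sum.inr x ∨ p j = Sum.inr x := by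
      intro j hj
      rw [Finset.mem_sdiff, hJ, Finset.mem_filter] at hj
      rcases hsj : s j with q | x
      · rcases hpj : p j with q' | x
        · exact absurd ⟨Finset.mem_univ j, q, q', hsj, hpj⟩ hj.2
        · exact ⟨x, Or.inr rfl⟩
      · exact ⟨x, Or.inl rfl⟩
    have hrne : Nonempty (Fin r) := by
      obtain ⟨j, hj⟩ := hBne
      obtain ⟨x, _⟩ := hB j hj
      exact ⟨x⟩
    choose! xf hxf using hB
    have hxinj : ∀ i ∈ Finset.univ \ J, ∀ j ∈ Finset.univ \ J, xf i = xf j → i = j := by
      intro i hi j hj hij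
      by_contra hne
      obtain ⟨g1, g2⟩ := hi2 i j hne
      obtain ⟨g3, g4⟩ := hi2 j i (Ne.symm hne)
      rcases hxf i hi with a1 | a1 <;> rcases hxf j hj with a2 | a2
      · exact hne (hs (a1.trans ((congrArg Sum.inr hij).trans a2.symm)))
      · exact g1 (a2.trans ((congrArg Sum.inr hij.symm).trans a1.symm))
      · exact g3 (a1.trans ((congrArg Sum.inr hij).trans a2.symm))
      · have hpp : p i = p j := a1.trans ((congrArg Sum.inr hij).trans a2.symm)
        rcases hi1 i with b1 | b1
        · exact g1 (hpp.symm.trans b1)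
        · rw [hpp] at b1
          exact g2 b1.symm
    have hXcard : ((Finset.univ \ J).image xf).card = (Finset.univ \ J).card :=
      Finset.card_image_of_injOn (fun i hi j hj h => hxinj i hi j hj h)
    apply h1
    refine ⟨(Finset.univ \ J).image xf, J.image fun j => ed (s j), hBne.image _, ?_, ?_, ?_⟩
    · refine (Finset.card_le_card ?_).trans hrest
      intro x hx
      rw [Finset.mem_image] at hx
      obtain ⟨j, hj, rfl⟩ := hx
      rw [rest, Finset.mem_filter]
      exact ⟨Finset.mem_univ _, j, hxf j hj⟩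
    · rw [hXcard, hJcard, Finset.card_sdiff_of_subset (Finset.subset_univ J), Finset.card_univ,
        Fintype.card_fin]
      omega
    · rintro x hx i hi ⟨ht, hf⟩
      rw [Finset.mem_image] at hx hi
      obtain ⟨j, hj, rfl⟩ := hx
      obtain ⟨l, hl, rfl⟩ := hi
      have hjl : j ≠ l := by
        rintro rfl
        exact (Finset.mem_sdiff.1 hj).2 hl
      have hall : ∀ c : Bool, ω.1 (xf j) (ed (s l)) c = true := by
        intro c
        cases c
        · exact hf
        · exact ht
      obtain ⟨c, d, e1, e2⟩ := hJe l hl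
      rcases hxf j hj with a1 | a1
      · obtain ⟨_, g2⟩ := hi2 j l hjl
        rw [a1, e2] at g2
        exact g2 (hall d)
      · obtain ⟨_, g2⟩ := hi2 l j (Ne.symm hjl)
        rw [a1, e1] at g2
        exact g2 (hall c)

end Pool.Agent.Lib.P5135n
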