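import Mathlib

/-!
# Module P5135n.Diam: few graphs have two vertices at distance more than two

PROOF. Fix `u ≠ v`. A graph `G` on `Fin n` without common neighbour of `u` and `v` is determined by the pairs
`(G.Adj u w, G.Adj v w)`, `w ∉ {u, v}`, each in one of 3 states, and by the remaining `n.choose 2 - 2 (n - 2)` possible
edges: there are at most `3 ^ (n - 2) * 2 ^ (n.choose 2 - 2 (n - 2)) = (3/4) ^ (n - 2) * 2 ^ (n.choose 2)` of them. Sum over the at
most `n ^ 2` pairs `(u, v)`.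
-/

set_option autoImplicit false

namespace Pool.Agent.Lib.P5135n

/-- The vertices different from `u` and `v`. -/
private def diamW {n : ℕ} (u v : Fin n) : Finset (Fin n) := (Finset.univ.erase u).erase v

private theorem diamW_card {n : ℕ} {u v : Fin n} (huv : u ≠ v) : (diamW u v).card = n - 2 := by
  unfold diamW
  rw [Finset.card_erase_of_mem (by simp [huv.symm]), Finset.card_erase_of_mem (Finset.mem_univ _),
    Finset.card_univ, Fintype.card_fin]
  omega

private theorem diamW_mem {n : ℕ} {u v w : Fin n} : w ∈ diamW u v ↔ w ≠ u ∧ w ≠ v := by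
  unfold diamW
  simp only [Finset.mem_erase, Finset.mem_univ, and_true]
  tauto

/-- The possible edges at `u` and `v`, without `uv`. -/
private def diamF {n : ℕ} (u v : Fin n) : Finset (Sym2 (Fin n)) :=
  (diamW u v).image (fun w => s(u, w)) ∪ (diamW u v).image (fun w => s(v, w))

private theorem diamF_card {n : ℕ} {u v : Fin n} (huv : u ≠ v) : (diamF u v).card = 2 * (n - 2) := by
  unfold diamF
  rw [Finset.card_union_of_disjoint, Finset.card_image_of_injective, Finset.card_image_of_injective,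
    diamW_card huv]
  · ring
  · intro x y h
    exact (Sym2.congr_right).mp h
  · intro x y h
    exact (Sym2.congr_right).mp h
  · rw [Finset.disjoint_left]
    intro q h1 h2
    rw [Finset.mem_image] at h1 h2
    obtain ⟨x, hx, rfl⟩ := h1
    obtain ⟨y, hy, h⟩ := h2
    rw [diamW_mem] at hx hy
    rw [Sym2.eq_iff] at h
    rcases h with ⟨h, _⟩ | ⟨h, _⟩
    · exact huv h.symm
    · exact hx.2 h.symm

/-- The other possible edges. -/
private def diamR {n : ℕ} (u v : Fin n) : Finset (Sym2 (Fin n)) :=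
  (Finset.univ.filter fun q => ¬ q.IsDiag) \ diamF u v

private theorem diamE_card (n : ℕ) :
    (Finset.univ.filter fun q : Sym2 (Fin n) => ¬ q.IsDiag).card = n.choose 2 := by
  have h := Sym2.card_subtype_not_diag (α := Fin n)
  rw [Fintype.card_subtype, Fintype.card_fin] at h
  exact h

private theorem diamF_sub {n : ℕ} (u v : Fin n) :
    diamF u v ⊆ Finset.univ.filter fun q : Sym2 (Fin n) => ¬ q.IsDiag := by
  intro q hq
  unfold diamF at hq
  rw [Finset.mem_union, Finset.mem_image, Finset.mem_image] at hq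
  rw [Finset.mem_filter]
  refine ⟨Finset.mem_univ _, ?_⟩
  rcases hq with ⟨w, hw, rfl⟩ | ⟨w, hw, rfl⟩
  · rw [diamW_mem] at hw
    rw [Sym2.mk_isDiag_iff]
    exact fun h => hw.1 h.symm
  · rw [diamW_mem] at hw
    rw [Sym2.mk_isDiag_iff]
    exact fun h => hw.2 h.symm

private theorem diamR_card {n : ℕ} {u v : Fin n} (huv : u ≠ v) :
    2 * (n - 2) + (diamR u v).card = n.choose 2 := by
  unfold diamR
  rw [Finset.card_sdiff_of_subset (diamF_sub u v), diamE_card, diamF_card huv]
  have h := Finset.card_le_card (diamF_sub u v)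
  rw [diamE_card, diamF_card huv] at h
  omega

private theorem diam_pair {n : ℕ} {u v : Fin n} (huv : u ≠ v) :
    (Nat.card {G : SimpleGraph (Fin n) // ∀ w, ¬ (G.Adj u w ∧ G.Adj w v)} : ℝ) ≤
      (3 / 4 : ℝ) ^ (n - 2) * 2 ^ (n.choose 2) := by
  classical
  let T := {f : Bool × Bool // ¬ (f.1 = true ∧ f.2 = true)}
  have hT : Fintype.card T = 3 := by decide
  let Ψ : {G : SimpleGraph (Fin n) // ∀ w, ¬ (G.Adj u w ∧ G.Adj w v)} →
      ({w // w ∈ diamW u v} → T) × ({q // q ∈ diamR u v} → Bool) :=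
    fun G => ⟨fun w => ⟨(decide (G.1.Adj u w), decide (G.1.Adj v w)), by
      have h := G.2 w.1
      simp only [decide_eq_true_eq]
      exact fun h1 => h ⟨h1.1, h1.2.symm⟩⟩, fun q => decide (q.1 ∈ G.1.edgeSet)⟩
  have hΨ : Function.Injective Ψ := by
    intro G H h
    have h1 : ∀ w ∈ diamW u v, (G.1.Adj u w ↔ H.1.Adj u w) ∧ (G.1.Adj v w ↔ H.1.Adj v w) := by
      intro w hw
      have h2 := congrFun (congrArg Prod.fst h) ⟨w, hw⟩
      have h3 : (decide (G.1.Adj u w), decide (G.1.Adj v w)) = (decide (H.1.Adj u w), decide (H.1.Adj v w)) :=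
        congrArg Subtype.val h2
      rw [Prod.mk.injEq] at h3
      exact ⟨decide_eq_decide.mp h3.1, decide_eq_decide.mp h3.2⟩
    have h2 : ∀ q ∈ diamR u v, (q ∈ G.1.edgeSet ↔ q ∈ H.1.edgeSet) := by
      intro q hq
      have h3 : decide (q ∈ G.1.edgeSet) = decide (q ∈ H.1.edgeSet) := congrFun (congrArg Prod.snd h) ⟨q, hq⟩
      exact decide_eq_decide.mp h3
    apply Subtype.ext
    ext x y
    by_cases hxy : x = y
    · rw [hxy]
      exact ⟨fun h => (G.1.loopless.irrefl y h).elim, fun h => (H.1.loopless.irrefl y h).elim⟩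
    · rw [← SimpleGraph.mem_edgeSet, ← SimpleGraph.mem_edgeSet]
      by_cases hq : s(x, y) ∈ diamR u v
      · exact h2 _ hq
      · have hF : s(x, y) ∈ diamF u v := by
          unfold diamR at hq
          rw [Finset.mem_sdiff, Finset.mem_filter] at hq
          by_contra hc
          exact hq ⟨⟨Finset.mem_univ _, by rw [Sym2.mk_isDiag_iff]; exact hxy⟩, hc⟩
        unfold diamF at hF
        rw [Finset.mem_union, Finset.mem_image, Finset.mem_image] at hF
        rcases hF with ⟨w, hw, e⟩ | ⟨w, hw, e⟩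
        · rw [← e, SimpleGraph.mem_edgeSet, SimpleGraph.mem_edgeSet]
          exact (h1 w hw).1
        · rw [← e, SimpleGraph.mem_edgeSet, SimpleGraph.mem_edgeSet]
          exact (h1 w hw).2
  have hle : Nat.card {G : SimpleGraph (Fin n) // ∀ w, ¬ (G.Adj u w ∧ G.Adj w v)} ≤
      3 ^ (n - 2) * 2 ^ (diamR u v).card := by
    refine (Nat.card_le_card_of_injective Ψ hΨ).trans ?_
    rw [Nat.card_eq_fintype_card, Fintype.card_prod, Fintype.card_fun, Fintype.card_fun, hT,
      Fintype.card_coe, Fintype.card_coe, Fintype.card_bool, diamW_card huv]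
  have hR := diamR_card huv
  have hcast : (Nat.card {G : SimpleGraph (Fin n) // ∀ w, ¬ (G.Adj u w ∧ G.Adj w v)} : ℝ) ≤
      3 ^ (n - 2) * 2 ^ (diamR u v).card := by exact_mod_cast hle
  refine hcast.trans (le_of_eq ?_)
  rw [← hR, pow_add, pow_mul, div_pow]
  have h4 : (4 : ℝ) ^ (n - 2) ≠ 0 := by positivity
  have h22 : ((2 : ℝ) ^ 2) = 4 := by norm_num
  rw [h22]
  field_simp

theorem card_far (n : ℕ) :
    (Nat.card {G : SimpleGraph (Fin n) // ¬ ∀ u v, u = v ∨ G.Adj u v ∨ ∃ w, G.Adj u w ∧ G.Adj w v} : ℝ) ≤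
      (n : ℝ) ^ 2 * (3 / 4 : ℝ) ^ (n - 2) * 2 ^ (n.choose 2) := by
  classical
  have : Fintype (SimpleGraph (Fin n)) := Fintype.ofFinite _
  have hsub : (Finset.univ.filter fun G : SimpleGraph (Fin n) =>
      ¬ ∀ u v, u = v ∨ G.Adj u v ∨ ∃ w, G.Adj u w ∧ G.Adj w v) ⊆
      (Finset.univ.filter fun p : Fin n × Fin n => p.1 ≠ p.2).biUnion fun p =>
        Finset.univ.filter fun G : SimpleGraph (Fin n) => ∀ w, ¬ (G.Adj p.1 w ∧ G.Adj w p.2) := by
    intro G hG
    rw [Finset.mem_filter] at hG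
    obtain ⟨_, hG⟩ := hG
    push Not at hG
    obtain ⟨u, v, huv, _, hw⟩ := hG
    rw [Finset.mem_biUnion]
    refine ⟨(u, v), ?_, ?_⟩
    · rw [Finset.mem_filter]
      exact ⟨Finset.mem_univ _, huv⟩
    · rw [Finset.mem_filter]
      exact ⟨Finset.mem_univ _, fun w h => hw w h.1 h.2⟩
  have hc : ∀ (p : SimpleGraph (Fin n) → Prop) [DecidablePred p], Nat.card {G : SimpleGraph (Fin n) // p G}
      = (Finset.univ.filter p).card := by
    intro p _
    rw [Nat.card_eq_fintype_card, Fintype.card_subtype]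
  rw [hc]
  have h1 : (Finset.univ.filter fun G : SimpleGraph (Fin n) =>
      ¬ ∀ u v, u = v ∨ G.Adj u v ∨ ∃ w, G.Adj u w ∧ G.Adj w v).card ≤
      ∑ p ∈ Finset.univ.filter fun p : Fin n × Fin n => p.1 ≠ p.2,
        (Finset.univ.filter fun G : SimpleGraph (Fin n) => ∀ w, ¬ (G.Adj p.1 w ∧ G.Adj w p.2)).card :=
    (Finset.card_le_card hsub).trans Finset.card_biUnion_le
  have h2 : ((Finset.univ.filter fun G : SimpleGraph (Fin n) =>
      ¬ ∀ u v, u = v ∨ G.Adj u v ∨ ∃ w, G.Adj u w ∧ G.Adj w v).card : ℝ) ≤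
      ∑ p ∈ Finset.univ.filter fun p : Fin n × Fin n => p.1 ≠ p.2,
        ((Finset.univ.filter fun G : SimpleGraph (Fin n) => ∀ w, ¬ (G.Adj p.1 w ∧ G.Adj w p.2)).card : ℝ) := by
    exact_mod_cast h1
  refine h2.trans ?_
  have h3 : ∀ p ∈ Finset.univ.filter (fun p : Fin n × Fin n => p.1 ≠ p.2),
      ((Finset.univ.filter fun G : SimpleGraph (Fin n) => ∀ w, ¬ (G.Adj p.1 w ∧ G.Adj w p.2)).card : ℝ) ≤
      (3 / 4 : ℝ) ^ (n - 2) * 2 ^ (n.choose 2) := by
    intro p hp
    rw [Finset.mem_filter] at hp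
    have h := diam_pair hp.2
    rw [hc] at h
    exact h
  refine (Finset.sum_le_sum h3).trans ?_
  rw [Finset.sum_const, nsmul_eq_mul]
  have h4 : ((Finset.univ.filter fun p : Fin n × Fin n => p.1 ≠ p.2).card : ℝ) ≤ (n : ℝ) ^ 2 := by
    have h5 : (Finset.univ.filter fun p : Fin n × Fin n => p.1 ≠ p.2).card ≤ n ^ 2 := by
      refine (Finset.card_filter_le _ _).trans ?_
      rw [Finset.card_univ, Fintype.card_prod, Fintype.card_fin, sq]
    exact_mod_cast h5
  rw [mul_assoc]
  exact mul_le_mul_of_nonneg_right h4 (by positivity)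

end Pool.Agent.Lib.P5135n
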