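import Pool.Agent.Lib.P5135n.Place

/-!
# Module P5135n.Up: upper bound for the number of extremal graphs

PROOF. Let `G` on `Fin n`, `n ≥ 1`, be extremal. By the direction 1 → 3 of
`Pool.Agent.Results.MP_5135a5_co.Characterization.result` (copy `structure_of_matching` and the proof of 2 → 3, or import the Results
file here) there are `k`, `a b : Fin k → Fin n`, `c`. `k ≥ 1` (apply `c` to a vertex), `a`, `b` are injective with disjoint ranges, so
`2 k ≤ n`; put `r = n - 2 k`, `f (i, true) = a i`, `f (i, false) = b i`, `e` from `exists_ext`. The graph `G` is the image of `mkG ω` under `e`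
for `g x i c = G.Adj (e (inr x)) (f (i, c))`, `h s(x, y) = G.Adj (e (inr x)) (e (inr y))`, and every `x` has an `i` with both
`g x i true` and `g x i false`. So `(f, ω) ↦ G` covers all extremal graphs:
`extCount n ≤ ∑_{k ∈ Icc 1 n, 2 k ≤ n} n ^ (2 k) * #{ω | ∀ x, ∃ i, g x i true ∧ g x i false}` and this number of `ω` is
`(4 ^ k - 3 ^ k) ^ r * 2 ^ (choose r 2)` (`Fintype.card_piFinset`, complement of three of four at every place), and
`(4 ^ k - 3 ^ k) ^ r = 2 ^ (2 k r) (1 - (3/4) ^ k) ^ r`, `choose n 2 = k (2 k - 1) + 2 k r + choose r 2`.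
-/

set_option autoImplicit false

namespace Pool.Agent.Lib.P5135n

open Pool.Agent.Lib.P5135a5

namespace UpAux

/-- Explicit description of the structure: from an induced matching with `Γ(G)` edges. -/
theorem structure_of_matching {V : Type} [Fintype V] (G : SimpleGraph V) (S : Finset V)
    (hS : IsInducedMatchingSet G S) (hcard : S.card = 2 * upperDom G) :
    ∃ (a b : Fin (upperDom G) → V) (c : V → Fin (upperDom G)),
      (∀ i, G.Adj (a i) (b i)) ∧ (∀ i, c (a i) = i ∧ c (b i) = i) ∧
      (∀ i j, i ≠ j → ¬ G.Adj (a i) (a j) ∧ ¬ G.Adj (a i) (b j) ∧ ¬ G.Adj (b i) (b j)) ∧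
      (∀ v, (v = a (c v) ∨ G.Adj v (a (c v))) ∧ (v = b (c v) ∨ G.Adj v (b (c v)))) := by
  classical
  obtain ⟨C, hCS, _, hCI, hle⟩ := exists_choice G S hS (fun _ => True)
    (fun _ _ _ _ _ => Or.inl trivial)
  have hCle := indep_card_le G C hCI
  have hCcard : C.card = upperDom G := by omega
  -- partner function
  have hp : ∀ v : V, ∃ w, v ∈ S → (w ∈ S ∧ G.Adj v w) ∧ ∀ z, z ∈ S ∧ G.Adj v z → z = w := by
    intro v
    by_cases hv : v ∈ S
    · obtain ⟨w, h1, h2⟩ := hS v hv
      exact ⟨w, fun _ => ⟨h1, h2⟩⟩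
    · exact ⟨v, fun h => absurd h hv⟩
  choose π hπ using hp
  have hππ : ∀ v ∈ S, π (π v) = v := by
    intro v hv
    obtain ⟨⟨h1, h2⟩, _⟩ := hπ v hv
    exact ((hπ _ h1).2 v ⟨hv, h2.symm⟩).symm
  have hπinj : ∀ v ∈ S, ∀ w ∈ S, π v = π w → v = w := by
    intro v hv w hw h
    rw [← hππ v hv, ← hππ w hw, h]
  -- the set `S` is `C ∪ π(C)`
  have hdisj : Disjoint C (C.image π) := by
    rw [Finset.disjoint_left]
    intro x hx hx'
    obtain ⟨y, hy, rfl⟩ := Finset.mem_image.mp hx'
    exact hCI y hy _ hx (hπ y (hCS hy)).1.2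
  have himg : (C.image π).card = C.card :=
    Finset.card_image_of_injOn (fun v hv w hw h => hπinj v (hCS hv) w (hCS hw) h)
  have hunion : C ∪ C.image π = S := by
    apply Finset.eq_of_subset_of_card_le
    · intro x hx
      rcases Finset.mem_union.mp hx with h | h
      · exact hCS h
      · obtain ⟨y, hy, rfl⟩ := Finset.mem_image.mp h
        exact (hπ y (hCS hy)).1.1
    · rw [Finset.card_union_of_disjoint hdisj, himg]
      omega
  let e : Fin (upperDom G) ≃ C := (finCongr hCcard.symm).trans C.equivFin.symm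
  have hedge : ∀ v w, v ∈ S → w ∈ S → G.Adj v w → π v = w := by
    intro v w hv hw hvw
    exact ((hπ v hv).2 w ⟨hw, hvw⟩).symm
  -- every vertex is assigned to an edge
  have hcls : ∀ v : V, ∃ i : Fin (upperDom G), (v = (e i : V) ∨ G.Adj v (e i)) ∧
      (v = π (e i) ∨ G.Adj v (π (e i))) := by
    have hin : ∀ x ∈ S, ∃ i : Fin (upperDom G), x = (e i : V) ∨ x = π (e i) := by
      intro x hx
      rw [← hunion] at hx
      rcases Finset.mem_union.mp hx with h | h
      · exact ⟨e.symm ⟨x, h⟩, Or.inl (by rw [Equiv.apply_symm_apply])⟩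
      · obtain ⟨y, hy, rfl⟩ := Finset.mem_image.mp h
        exact ⟨e.symm ⟨y, hy⟩, Or.inr (by rw [Equiv.apply_symm_apply])⟩
    intro v
    by_cases hv : v ∈ S
    · obtain ⟨i, hi | hi⟩ := hin v hv
      · refine ⟨i, Or.inl hi, Or.inr ?_⟩
        rw [hi]
        exact (hπ _ (hCS (e i).2)).1.2
      · refine ⟨i, Or.inr ?_, Or.inl hi⟩
        rw [hi]
        exact (hπ _ (hCS (e i).2)).1.2.symm
    · obtain ⟨x, hx, y, hy, hxy, h1, h2⟩ := outside G S hS hcard v hv
      obtain ⟨i, hi | hi⟩ := hin x hx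
      · refine ⟨i, Or.inr (hi ▸ h1), Or.inr ?_⟩
        rw [← hi, hedge x y hx hy hxy]
        exact h2
      · refine ⟨i, Or.inr ?_, Or.inr (hi ▸ h1)⟩
        have h5 : π x = (e i : V) := by rw [hi, hππ _ (hCS (e i).2)]
        rw [← h5, hedge x y hx hy hxy]
        exact h2
  choose c hc using hcls
  have hci : ∀ i, c (e i) = i := by
    intro i
    by_contra hne
    obtain ⟨h1, h2⟩ := hc (e i)
    rcases h1 with h1 | h1
    · exact hne (e.injective (Subtype.ext h1)).symm
    · exact hCI _ (e i).2 _ (e _).2 h1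
  have hci' : ∀ i, c (π (e i)) = i := by
    intro i
    by_contra hne
    have hiS := hCS (e i).2
    have hjS := hCS (e (c (π (e i)))).2
    obtain ⟨h1, h2⟩ := hc (π (e i))
    rcases h1 with h1 | h1
    · have h3 := (hπ _ hiS).1.2
      rw [h1] at h3
      exact hCI _ (e i).2 _ (e _).2 h3
    · have h3 := hedge _ _ (hπ _ hiS).1.1 hjS h1
      rw [hππ _ hiS] at h3
      exact hne (e.injective (Subtype.ext h3)).symm
  refine ⟨fun i => e i, fun i => π (e i), c, fun i => (hπ _ (hCS (e i).2)).1.2,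
    fun i => ⟨hci i, hci' i⟩, ?_, hc⟩
  intro i j hij
  have hiS := hCS (e i).2
  have hjS := hCS (e j).2
  refine ⟨hCI _ (e i).2 _ (e j).2, ?_, ?_⟩
  · intro h
    have h3 := hedge _ _ hiS (hπ _ hjS).1.1 h
    exact hij (e.injective (Subtype.ext (hπinj _ hiS _ hjS h3)))
  · intro h
    have h3 := hedge _ _ (hπ _ hiS).1.1 (hπ _ hjS).1.1 h
    rw [hππ _ hiS] at h3
    -- `e i = π (e j)`, so `e i` and `e j` are adjacent
    have h4 := (hπ _ hjS).1.2
    rw [← h3] at h4
    exact hCI _ (e j).2 _ (e i).2 h4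

/-- The structure of extremal graphs. -/
theorem ext_structure {V : Type} [Fintype V] (G : SimpleGraph V) (hG : Ext G) :
    ∃ (a b : Fin (upperDom G) → V) (c : V → Fin (upperDom G)),
      (∀ i, G.Adj (a i) (b i)) ∧ (∀ i, c (a i) = i ∧ c (b i) = i) ∧
      (∀ i j, i ≠ j → ¬ G.Adj (a i) (a j) ∧ ¬ G.Adj (a i) (b j) ∧ ¬ G.Adj (b i) (b j)) ∧
      (∀ v, (v = a (c v) ∨ G.Adj v (a (c v))) ∧ (v = b (c v) ∨ G.Adj v (b (c v)))) := by
  have h := (characterization G hG.1).1 hG.2
  obtain ⟨S, hS, hcard⟩ := exists_inducedMatchingNum G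
  rw [h] at hcard
  obtain ⟨a, b, c, h1, h2, h3, h4⟩ := structure_of_matching G S hS hcard
  exact ⟨a, b, c, h1, h2, h3, h4⟩

/-- The points which give graphs in which every further vertex is joined to both ends of some
planted edge. -/
abbrev Good (k r : ℕ) := {ω : Om k r // ∀ x, ∃ i, ω.1 x i true = true ∧ ω.1 x i false = true}

/-- both ends of some planted edge -/
abbrev QQ (k : ℕ) (u : Fin k → Bool → Bool) : Prop := ∃ i, u i true = true ∧ u i false = true

theorem card_QQ (k : ℕ) : Fintype.card {u : Fin k → Bool → Bool // QQ k u} = 4 ^ k - 3 ^ k := by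
  have h1 : Fintype.card {u : Fin k → Bool → Bool // ¬ QQ k u} = 3 ^ k := by
    have e1 : {u : Fin k → Bool → Bool // ¬ QQ k u} ≃
        {u : Fin k → Bool → Bool // ∀ i, ¬ (u i true = true ∧ u i false = true)} :=
      Equiv.subtypeEquivRight fun u => by
        unfold QQ
        exact not_exists
    have e2 : {u : Fin k → Bool → Bool // ∀ i, ¬ (u i true = true ∧ u i false = true)} ≃
        (Fin k → {v : Bool → Bool // ¬ (v true = true ∧ v false = true)}) :=
      Equiv.subtypePiEquivPi (p := fun _ (v : Bool → Bool) => ¬ (v true = true ∧ v false = true))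
    rw [Fintype.card_congr (e1.trans e2), Fintype.card_fun, Fintype.card_fin]
    congr 1
  have h2 : Fintype.card (Fin k → Bool → Bool) = 4 ^ k := by
    rw [Fintype.card_fun, Fintype.card_fun, Fintype.card_fin, Fintype.card_bool]
    norm_num
  have h3 := Fintype.card_subtype_compl (fun u : Fin k → Bool → Bool => QQ k u)
  have h4 := Fintype.card_subtype_le (fun u : Fin k → Bool → Bool => QQ k u)
  rw [h1, h2] at h3
  rw [h2] at h4
  omega

theorem card_Good (k r : ℕ) :
    Fintype.card (Good k r) = (4 ^ k - 3 ^ k) ^ r * 2 ^ (r.choose 2) := by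
  have e1 : Good k r ≃ {g : OmG k r // ∀ x, QQ k (g x)} × OmH r :=
    { toFun := fun ω => (⟨ω.1.1, ω.2⟩, ω.1.2)
      invFun := fun p => ⟨(p.1.1, p.2), p.1.2⟩
      left_inv := fun ω => rfl
      right_inv := fun p => rfl }
  have e2 : {g : OmG k r // ∀ x, QQ k (g x)} ≃ (Fin r → {u : Fin k → Bool → Bool // QQ k u}) :=
    Equiv.subtypePiEquivPi (p := fun _ (u : Fin k → Bool → Bool) => QQ k u)
  rw [Fintype.card_congr e1, Fintype.card_prod, Fintype.card_congr e2, Fintype.card_fun, card_QQ,
    Fintype.card_fin, Fintype.card_fun, Sym2.card_subtype_not_diag, Fintype.card_fin,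
    Fintype.card_bool]

open Classical in
/-- the graph of a position and a point -/
noncomputable def TT (n k : ℕ) (p : (Fin k × Bool → Fin n) × Good k (n - 2 * k)) :
    SimpleGraph (Fin n) :=
  if h : ∃ e : VV k (n - 2 * k) ≃ Fin n, ∀ a, e (Sum.inl a) = p.1 a then
    (mkG p.2.1).comap h.choose.symm else ⊥

theorem cover {n : ℕ} (hn : 1 ≤ n) (G : SimpleGraph (Fin n)) (hG : Ext G) :
    upperDom G ∈ (Finset.Icc 1 n).filter (fun k => 2 * k ≤ n) ∧
      ∃ p, TT n (upperDom G) p = G := by
  classical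
  obtain ⟨a, b, c, h1, h2, h3, h4⟩ := ext_structure G hG
  generalize upperDom G = k at a b c h1 h2 h3 h4 ⊢
  have ha : Function.Injective a := by
    intro i j hij
    rw [← (h2 i).1, ← (h2 j).1, hij]
  have hb : Function.Injective b := by
    intro i j hij
    rw [← (h2 i).2, ← (h2 j).2, hij]
  have hab : ∀ i j, a i ≠ b j := by
    intro i j hij
    have : i = j := by rw [← (h2 i).1, ← (h2 j).2, hij]
    subst this
    exact (h1 i).ne hij
  set f : Fin k × Bool → Fin n := fun q => if q.2 = true then a q.1 else b q.1 with hf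
  have hft : ∀ i, f (i, true) = a i := fun i => by simp [hf]
  have hff : ∀ i, f (i, false) = b i := fun i => by simp [hf]
  have hinj : Function.Injective f := by
    rintro ⟨i, ci⟩ ⟨j, cj⟩ hij
    rcases ci with _ | _ <;> rcases cj with _ | _
    · rw [hff, hff] at hij; rw [hb hij]
    · rw [hff, hft] at hij; exact absurd hij.symm (hab _ _)
    · rw [hft, hff] at hij; exact absurd hij (hab _ _)
    · rw [hft, hft] at hij; rw [ha hij]
  have hk1 : 1 ≤ k := by
    have h := (c ⟨0, by omega⟩).2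
    omega
  have hk2 : 2 * k ≤ n := by
    have h := Fintype.card_le_of_injective f hinj
    rw [Fintype.card_prod, Fintype.card_fin, Fintype.card_fin, Fintype.card_bool] at h
    omega
  have hex : ∃ e : VV k (n - 2 * k) ≃ Fin n, ∀ a, e (Sum.inl a) = f a :=
    exists_ext (by omega) f hinj
  refine ⟨Finset.mem_filter.2 ⟨Finset.mem_Icc.2 ⟨hk1, by omega⟩, hk2⟩, ?_⟩
  have he := hex.choose_spec
  generalize hee : hex.choose = e at he
  set ω : Om k (n - 2 * k) :=
    (fun x i d => decide (G.Adj (e (Sum.inr x)) (f (i, d))),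
      fun q => decide (q.1 ∈ (G.comap (fun x => e (Sum.inr x))).edgeSet)) with hω
  have hgood : ∀ x, ∃ i, ω.1 x i true = true ∧ ω.1 x i false = true := by
    intro x
    refine ⟨c (e (Sum.inr x)), ?_⟩
    obtain ⟨h5, h6⟩ := h4 (e (Sum.inr x))
    have h7 : e (Sum.inr x) ≠ a (c (e (Sum.inr x))) := by
      intro h
      rw [← hft, ← he] at h
      exact absurd (e.injective h) (by simp)
    have h8 : e (Sum.inr x) ≠ b (c (e (Sum.inr x))) := by
      intro h
      rw [← hff, ← he] at h
      exact absurd (e.injective h) (by simp)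
    constructor
    · rw [hω]
      simp only [decide_eq_true_eq]
      rw [hft]
      exact h5.resolve_left h7
    · rw [hω]
      simp only [decide_eq_true_eq]
      rw [hff]
      exact h6.resolve_left h8
  refine ⟨(f, ⟨ω, hgood⟩), ?_⟩
  have key : ∀ p q : VV k (n - 2 * k), (mkG ω).Adj p q ↔ G.Adj (e p) (e q) := by
    rintro (⟨i, ci⟩ | x) (⟨j, cj⟩ | y)
    · show (i = j ∧ ci ≠ cj) ↔ _
      rw [he, he]
      by_cases hij : i = j
      · subst hij
        rcases ci with _ | _ <;> rcases cj with _ | _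
        · simp
        · rw [hff, hft]; simp [(h1 i).symm]
        · rw [hff, hft]; simp [h1 i]
        · simp
      · have h5 := h3 i j hij
        have h6 := h3 j i (Ne.symm hij)
        rcases ci with _ | _ <;> rcases cj with _ | _
        · rw [hff, hff]; simp [hij, h5.2.2]
        · have h7 : ¬ G.Adj (b i) (a j) := fun h => h6.2.1 h.symm
          rw [hff, hft]; simp [hij, h7]
        · rw [hff, hft]; simp [hij, h5.2.1]
        · rw [hft, hft]; simp [hij, h5.1]
    · show decide (G.Adj (e (Sum.inr y)) (f (i, ci))) = true ↔ _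
      rw [decide_eq_true_eq, he, G.adj_comm]
    · show decide (G.Adj (e (Sum.inr x)) (f (j, cj))) = true ↔ _
      rw [decide_eq_true_eq, he]
    · show (∃ h : ¬ (s(x, y)).IsDiag,
        decide (s(x, y) ∈ (G.comap (fun x => e (Sum.inr x))).edgeSet) = true) ↔ _
      rw [decide_eq_true_eq, SimpleGraph.mem_edgeSet, SimpleGraph.comap_adj]
      constructor
      · rintro ⟨_, h⟩; exact h
      · intro h
        refine ⟨?_, h⟩
        intro hd
        have hxy : x = y := by simpa using hd
        subst hxy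
        exact h.ne rfl
  unfold TT
  have hex' : ∃ e : VV k (n - 2 * k) ≃ Fin n, ∀ a, e (Sum.inl a) = (f, (⟨ω, hgood⟩ : Good k (n - 2 * k))).1 a :=
    hex
  rw [dif_pos hex']
  have hch : hex'.choose = e := hee
  rw [hch]
  ext u v
  rw [SimpleGraph.comap_adj]
  show (mkG ω).Adj (e.symm u) (e.symm v) ↔ _
  rw [key, Equiv.apply_symm_apply, Equiv.apply_symm_apply]

theorem choose_form (k r : ℕ) :
    (2 * k + r).choose 2 = k * (2 * k - 1) + 2 * k * r + r.choose 2 := by
  induction r with
  | zero =>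
    rw [Nat.add_zero, Nat.choose_two_right, Nat.mul_assoc, Nat.mul_div_cancel_left _ (by norm_num)]
    simp
  | succ r ih =>
    have h1 : (2 * k + (r + 1)).choose 2 = (2 * k + r) + (2 * k + r).choose 2 := by
      rw [← Nat.add_assoc, Nat.choose_succ_succ' (2 * k + r) 1, Nat.choose_one_right]
    have h2 : (r + 1).choose 2 = r + r.choose 2 := by
      rw [Nat.choose_succ_succ' r 1, Nat.choose_one_right]
    rw [h1, h2, ih]
    ring

theorem term_eq {n k : ℕ} (hk2 : 2 * k ≤ n) :
    ((Fintype.card ((Fin k × Bool → Fin n) × Good k (n - 2 * k)) : ℕ) : ℝ) =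
      (n : ℝ) ^ (2 * k) * (1 - (3 / 4 : ℝ) ^ k) ^ (n - 2 * k) * 2 ^ (n.choose 2) /
        2 ^ (k * (2 * k - 1)) := by
  obtain ⟨r, rfl⟩ : ∃ r, n = 2 * k + r := ⟨n - 2 * k, by omega⟩
  have hr : 2 * k + r - 2 * k = r := by omega
  rw [hr, Fintype.card_prod, card_Good, Fintype.card_fun, Fintype.card_prod, Fintype.card_fin,
    Fintype.card_bool, Fintype.card_fin, choose_form k r]
  have h34 : (3 : ℕ) ^ k ≤ 4 ^ k := Nat.pow_le_pow_left (by norm_num) k
  have h4 : ((4 ^ k - 3 ^ k : ℕ) : ℝ) = 2 ^ (2 * k) * (1 - (3 / 4 : ℝ) ^ k) := by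
    rw [Nat.cast_sub h34]
    push_cast
    rw [pow_mul, div_pow]
    norm_num
    field_simp
  push_cast [h4]
  rw [mul_pow, ← pow_mul, mul_comm k 2]
  rw [eq_div_iff (by positivity)]
  rw [pow_add, pow_add]
  ring

end UpAux

open UpAux

/-- The bound for a fixed value of the upper domination number. -/
theorem extCountK_le {n : ℕ} (hn : 1 ≤ n) (k : ℕ) :
    (Nat.card {G : SimpleGraph (Fin n) // Ext G ∧ upperDom G = k} : ℝ) ≤
      if 1 ≤ k ∧ 2 * k ≤ n then
        (n : ℝ) ^ (2 * k) * (1 - (3 / 4 : ℝ) ^ k) ^ (n - 2 * k) * 2 ^ (n.choose 2) /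
          2 ^ (k * (2 * k - 1))
      else 0 := by
  classical
  have h3 : Nat.card {G : SimpleGraph (Fin n) // Ext G ∧ upperDom G = k} =
      (Finset.univ.filter (fun G : SimpleGraph (Fin n) => Ext G ∧ upperDom G = k)).card := by
    rw [Nat.card_eq_fintype_card, Fintype.card_subtype]
  rw [h3]
  split_ifs with hk
  · rw [← term_eq hk.2]
    have h2 : (Finset.univ.filter (fun G : SimpleGraph (Fin n) => Ext G ∧ upperDom G = k)) ⊆
        Finset.univ.image (TT n k) := by
      intro G hG
      obtain ⟨hG1, hG2⟩ := (Finset.mem_filter.1 hG).2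
      obtain ⟨_, p, hp⟩ := cover hn G hG1
      subst hG2
      exact Finset.mem_image.2 ⟨p, Finset.mem_univ _, hp⟩
    have h4 := (Finset.card_le_card h2).trans
      (Finset.card_image_le.trans (le_of_eq Finset.card_univ))
    exact_mod_cast h4
  · have h5 : (Finset.univ.filter (fun G : SimpleGraph (Fin n) => Ext G ∧ upperDom G = k)) = ∅ := by
      rw [Finset.filter_eq_empty_iff]
      rintro G _ ⟨hG1, hG2⟩
      obtain ⟨h6, _⟩ := cover hn G hG1
      rw [hG2, Finset.mem_filter, Finset.mem_Icc] at h6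
      exact hk ⟨h6.1.1, h6.2⟩
    rw [h5]
    simp

theorem extCount_le {n : ℕ} (hn : 1 ≤ n) :
    (extCount n : ℝ) ≤ ∑ k ∈ (Finset.Icc 1 n).filter (fun k => 2 * k ≤ n),
      (n : ℝ) ^ (2 * k) * (1 - (3 / 4 : ℝ) ^ k) ^ (n - 2 * k) * 2 ^ (n.choose 2) / 2 ^ (k * (2 * k - 1)) := by
  classical
  have h1 : extCount n ≤ ∑ k ∈ (Finset.Icc 1 n).filter (fun k => 2 * k ≤ n),
      Fintype.card ((Fin k × Bool → Fin n) × Good k (n - 2 * k)) := by
    have h2 : (Finset.univ.filter (fun G : SimpleGraph (Fin n) => Ext G)) ⊆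
        ((Finset.Icc 1 n).filter (fun k => 2 * k ≤ n)).biUnion
          (fun k => Finset.univ.image (TT n k)) := by
      intro G hG
      obtain ⟨hk, p, hp⟩ := cover hn G (Finset.mem_filter.1 hG).2
      exact Finset.mem_biUnion.2 ⟨_, hk, Finset.mem_image.2 ⟨p, Finset.mem_univ _, hp⟩⟩
    have h3 : extCount n = (Finset.univ.filter (fun G : SimpleGraph (Fin n) => Ext G)).card := by
      unfold extCount
      rw [Nat.card_eq_fintype_card, Fintype.card_subtype]
    rw [h3]
    refine (Finset.card_le_card h2).trans (Finset.card_biUnion_le.trans ?_)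
    refine Finset.sum_le_sum fun k _ => ?_
    exact Finset.card_image_le.trans (le_of_eq Finset.card_univ)
  calc (extCount n : ℝ) ≤ ((∑ k ∈ (Finset.Icc 1 n).filter (fun k => 2 * k ≤ n),
        Fintype.card ((Fin k × Bool → Fin n) × Good k (n - 2 * k)) : ℕ) : ℝ) := by exact_mod_cast h1
    _ = ∑ k ∈ (Finset.Icc 1 n).filter (fun k => 2 * k ≤ n),
        ((Fintype.card ((Fin k × Bool → Fin n) × Good k (n - 2 * k)) : ℕ) : ℝ) := by push_cast; rfl
    _ = _ := by
      refine Finset.sum_congr rfl fun k hk => ?_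
      rw [Finset.mem_filter, Finset.mem_Icc] at hk
      exact term_eq hk.2

end Pool.Agent.Lib.P5135n
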