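import Pool.Agent.Lib.P5135n.Core
import Pool.Agent.Lib.P5135n.Up

/-!
# The logarithm of the number of graphs with `Γ_t = 2 Γ`
-/

set_option autoImplicit false

open Filter Topology

namespace Pool.Agent.Lib.P5135n

open Pool.Agent.Lib.P5135a5

/-- The upper bound. -/
theorem extCount_le' {ε : ℝ} (hε : 0 < ε) : ∀ᶠ n : ℕ in atTop,
    (extCount n : ℝ) ≤ (2 : ℝ) ^ (-(2 * beta * (beta - 1) - ε) * (Real.logb 2 n) ^ 2) * 2 ^ (n.choose 2) := by
  filter_upwards [num_up hε, eventually_ge_atTop 1] with n hn h1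
  refine (extCount_le h1).trans ?_
  refine le_trans (le_of_eq ?_) (mul_le_mul_of_nonneg_right hn (by positivity))
  rw [Finset.sum_mul]
  refine Finset.sum_congr rfl fun k _ => ?_
  ring

theorem main_limit :
    Tendsto (fun n : ℕ => Real.logb 2 ((2 : ℝ) ^ (n.choose 2) / extCount n) / (Real.logb 2 n) ^ 2) atTop
      (𝓝 (2 * beta * (beta - 1))) := by
  rw [Metric.tendsto_atTop]
  intro ε hε
  have h1 := extCount_ge (half_pos hε)
  have h2 := extCount_le' (half_pos hε)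
  obtain ⟨N, hN⟩ := eventually_atTop.1 ((h1.and h2).and (eventually_ge_atTop 2))
  refine ⟨N, fun n hn => ?_⟩
  obtain ⟨⟨g1, g2⟩, g3⟩ := hN n hn
  have hL : 0 < Real.logb 2 n := Real.logb_pos (by norm_num) (by exact_mod_cast g3)
  have hL2 : 0 < (Real.logb 2 n) ^ 2 := by positivity
  have hE : (0 : ℝ) < extCount n := lt_of_lt_of_le (by positivity) g1
  have hC : (0 : ℝ) < (2 : ℝ) ^ (n.choose 2) := by positivity
  have up : Real.logb 2 ((2 : ℝ) ^ (n.choose 2) / extCount n) ≤ (2 * beta * (beta - 1) + ε / 2) * (Real.logb 2 n) ^ 2 := by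
    rw [Real.logb_le_iff_le_rpow (by norm_num) (by positivity), div_le_iff₀ hE]
    have h5 := mul_le_mul_of_nonneg_left g1
      (Real.rpow_nonneg (by norm_num : (0 : ℝ) ≤ 2) ((2 * beta * (beta - 1) + ε / 2) * (Real.logb 2 n) ^ 2))
    refine le_trans (le_of_eq ?_) h5
    rw [← mul_assoc, ← Real.rpow_add (by norm_num : (0 : ℝ) < 2)]
    rw [show (2 * beta * (beta - 1) + ε / 2) * Real.logb 2 n ^ 2 +
      -(2 * beta * (beta - 1) + ε / 2) * Real.logb 2 n ^ 2 = 0 by ring, Real.rpow_zero, one_mul]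
  have low : (2 * beta * (beta - 1) - ε / 2) * (Real.logb 2 n) ^ 2 ≤ Real.logb 2 ((2 : ℝ) ^ (n.choose 2) / extCount n) := by
    rw [Real.le_logb_iff_rpow_le (by norm_num) (by positivity), le_div_iff₀ hE]
    have h5 := mul_le_mul_of_nonneg_left g2
      (Real.rpow_nonneg (by norm_num : (0 : ℝ) ≤ 2) ((2 * beta * (beta - 1) - ε / 2) * (Real.logb 2 n) ^ 2))
    refine le_trans h5 (le_of_eq ?_)
    rw [← mul_assoc, ← Real.rpow_add (by norm_num : (0 : ℝ) < 2)]
    rw [show (2 * beta * (beta - 1) - ε / 2) * Real.logb 2 n ^ 2 +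
      -(2 * beta * (beta - 1) - ε / 2) * Real.logb 2 n ^ 2 = 0 by ring, Real.rpow_zero, one_mul]
  rw [Real.dist_eq, abs_lt]
  constructor
  · have : 2 * beta * (beta - 1) - ε / 2 ≤ Real.logb 2 ((2 : ℝ) ^ (n.choose 2) / extCount n) / (Real.logb 2 n) ^ 2 := by
      rw [le_div_iff₀ hL2]
      exact low
    linarith
  · have : Real.logb 2 ((2 : ℝ) ^ (n.choose 2) / extCount n) / (Real.logb 2 n) ^ 2 ≤ 2 * beta * (beta - 1) + ε / 2 := by
      rw [div_le_iff₀ hL2]
      exact up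
    linarith

end Pool.Agent.Lib.P5135n
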