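import Pool.Agent.Lib.P5135n.NumUp

/-!
# Module P5135n.NumWin: only `k` near `β log₂ n` matters
-/

set_option autoImplicit false

open Filter

namespace Pool.Agent.Lib.P5135n

theorem num_win {δ : ℝ} (hδ : 0 < δ) : ∃ η : ℝ, 0 < η ∧ ∀ᶠ n : ℕ in atTop,
    ∑ k ∈ (Finset.Icc 1 n).filter (fun k => 2 * k ≤ n ∧ δ * Real.logb 2 n < |(k : ℝ) - beta * Real.logb 2 n|),
      term n k ≤ (2 : ℝ) ^ (-(2 * beta * (beta - 1) + η) * (Real.logb 2 n) ^ 2) := by
  have hβ := beta_gt_two
  refine ⟨δ, hδ, ?_⟩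
  have h1 := term_small hδ (2 * beta * (beta - 1) + 2 * δ)
  have h2 := term_large (γ := beta + δ) (by linarith) (half_pos (half_pos hδ))
  filter_upwards [h1, h2, eventually_ge_atTop 2, tendsto_logb.eventually_ge_atTop (4 / δ)] with n g1 g2 g3 g4
  set L := Real.logb 2 n with hL
  have hLpos : 0 < L := Real.logb_pos (by norm_num) (by exact_mod_cast g3)
  have hterm : ∀ k ∈ (Finset.Icc 1 n).filter (fun k => 2 * k ≤ n ∧ δ * L < |(k : ℝ) - beta * L|),
      term n k ≤ (2 : ℝ) ^ (-(2 * beta * (beta - 1) + 3 / 2 * δ) * L ^ 2) := by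
    intro k hk
    rw [Finset.mem_filter, Finset.mem_Icc] at hk
    obtain ⟨⟨hk1, hkn⟩, hk2, hk3⟩ := hk
    rcases lt_abs.1 hk3 with h | h
    · refine (g2 k hk1 hk2 (by linarith)).trans ?_
      refine Real.rpow_le_rpow_of_exponent_le (by norm_num) ?_
      refine mul_le_mul_of_nonneg_right ?_ (by positivity)
      nlinarith [mul_pos hδ hδ, mul_pos hδ (by linarith : (0 : ℝ) < beta - 1)]
    · refine (g1 k hk2 (by linarith)).trans ?_
      refine Real.rpow_le_rpow_of_exponent_le (by norm_num) ?_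
      refine mul_le_mul_of_nonneg_right ?_ (by positivity)
      linarith
  refine (Finset.sum_le_card_nsmul _ _ _ hterm).trans ?_
  rw [nsmul_eq_mul]
  have hcard : (((Finset.Icc 1 n).filter (fun k => 2 * k ≤ n ∧ δ * L < |(k : ℝ) - beta * L|)).card : ℝ) ≤ n := by
    have : ((Finset.Icc 1 n).filter (fun k => 2 * k ≤ n ∧ δ * L < |(k : ℝ) - beta * L|)).card ≤ n := by
      refine (Finset.card_filter_le _ _).trans ?_
      simp
    exact_mod_cast this
  refine (mul_le_mul_of_nonneg_right hcard (by positivity)).trans ?_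
  have hn : (n : ℝ) = (2 : ℝ) ^ L := (two_rpow_logb (by omega)).symm
  rw [hn, ← Real.rpow_add (by norm_num)]
  refine Real.rpow_le_rpow_of_exponent_le (by norm_num) ?_
  have h5 : 4 ≤ δ * L := by
    rw [div_le_iff₀ hδ] at g4
    linarith
  nlinarith [mul_pos hδ hLpos]

end Pool.Agent.Lib.P5135n
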