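import Pool.Agent.Lib.P5135n.Final
import Pool.Agent.Lib.P5135n.NumWin

/-!
# Almost all extremal graphs have `Γ = (β + o(1)) log₂ n`
-/

set_option autoImplicit false

open Filter Topology

namespace Pool.Agent.Lib.P5135n

open Pool.Agent.Lib.P5135a5

/-- Extremal graphs with `Γ` in the set `A`. -/
theorem extCountSet_le {n : ℕ} (hn : 1 ≤ n) (A : ℕ → Prop) [DecidablePred A] :
    (Nat.card {G : SimpleGraph (Fin n) // Ext G ∧ A (upperDom G)} : ℝ) ≤
      (∑ k ∈ (Finset.Icc 1 n).filter (fun k => 2 * k ≤ n ∧ A k), term n k) * 2 ^ (n.choose 2) := by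
  classical
  have h1 : Nat.card {G : SimpleGraph (Fin n) // Ext G ∧ A (upperDom G)} ≤
      ∑ k ∈ (Finset.Icc 1 n).filter (fun k => 2 * k ≤ n ∧ A k),
        Nat.card {G : SimpleGraph (Fin n) // Ext G ∧ upperDom G = k} := by
    simp only [Nat.card_eq_fintype_card, Fintype.card_subtype]
    rw [← Finset.card_biUnion]
    · refine Finset.card_le_card ?_
      intro G hG
      rw [Finset.mem_filter] at hG
      obtain ⟨_, hG, hA⟩ := hG
      rw [Finset.mem_biUnion]
      have h3 := extCountK_le hn (upperDom G)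
      by_cases hc : 1 ≤ upperDom G ∧ 2 * upperDom G ≤ n
      · refine ⟨upperDom G, ?_, ?_⟩
        · rw [Finset.mem_filter, Finset.mem_Icc]
          exact ⟨⟨hc.1, by omega⟩, hc.2, hA⟩
        · rw [Finset.mem_filter]
          exact ⟨Finset.mem_univ _, hG, rfl⟩
      · exfalso
        rw [if_neg hc] at h3
        have h4 : 0 < Nat.card {G' : SimpleGraph (Fin n) // Ext G' ∧ upperDom G' = upperDom G} := by
          rw [Nat.card_pos_iff]
          exact ⟨⟨⟨G, hG, rfl⟩⟩, inferInstance⟩
        have h5 : (0 : ℝ) < (Nat.card {G' : SimpleGraph (Fin n) // Ext G' ∧ upperDom G' = upperDom G} : ℝ) := by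
          exact_mod_cast h4
        linarith
    · intro k _ k' _ hkk
      rw [Function.onFun, Finset.disjoint_left]
      intro G hG hG'
      rw [Finset.mem_filter] at hG hG'
      exact hkk (hG.2.2.symm.trans hG'.2.2)
  have h2 : (Nat.card {G : SimpleGraph (Fin n) // Ext G ∧ A (upperDom G)} : ℝ) ≤
      ∑ k ∈ (Finset.Icc 1 n).filter (fun k => 2 * k ≤ n ∧ A k),
        (Nat.card {G : SimpleGraph (Fin n) // Ext G ∧ upperDom G = k} : ℝ) := by
    exact_mod_cast h1
  refine h2.trans ?_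
  rw [Finset.sum_mul]
  refine Finset.sum_le_sum fun k hk => ?_
  rw [Finset.mem_filter, Finset.mem_Icc] at hk
  refine (extCountK_le hn k).trans (le_of_eq ?_)
  rw [if_pos ⟨hk.1.1, hk.2.1⟩, term]
  ring

theorem typical {δ : ℝ} (hδ : 0 < δ) :
    Tendsto (fun n : ℕ => (Nat.card {G : SimpleGraph (Fin n) // Ext G ∧
      δ * Real.logb 2 n < |(upperDom G : ℝ) - beta * Real.logb 2 n|} : ℝ) / extCount n) atTop (𝓝 0) := by
  classical
  obtain ⟨η, hη, h1⟩ := num_win hδ
  have h2 := extCount_ge (half_pos hη)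
  have hlim : Tendsto (fun n : ℕ => (2 : ℝ) ^ (-(η / 2) * (Real.logb 2 n) ^ 2)) atTop (𝓝 0) := by
    have h3 : Tendsto (fun n : ℕ => Real.logb 2 (n : ℝ)) atTop atTop :=
      (Real.tendsto_logb_atTop (by norm_num : (1 : ℝ) < 2)).comp tendsto_natCast_atTop_atTop
    have h4 : Tendsto (fun n : ℕ => (η / 2) * (Real.logb 2 (n : ℝ)) ^ 2) atTop atTop :=
      ((tendsto_pow_atTop (by norm_num : (2 : ℕ) ≠ 0)).comp h3).const_mul_atTop (half_pos hη)
    have h5 := (tendsto_rpow_atBot_of_base_gt_one 2 (by norm_num : (1 : ℝ) < 2)).comp (tendsto_neg_atTop_atBot.comp h4)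
    refine h5.congr fun n => ?_
    simp only [Function.comp]
    congr 1
    ring
  refine squeeze_zero' (Eventually.of_forall fun n => by positivity) ?_ hlim
  filter_upwards [h1, h2, eventually_ge_atTop 1] with n g1 g2 g3
  have hE : (0 : ℝ) < extCount n := lt_of_lt_of_le (by positivity) g2
  rw [div_le_iff₀ hE]
  refine (extCountSet_le g3 (fun k => δ * Real.logb 2 n < |(k : ℝ) - beta * Real.logb 2 n|)).trans ?_
  refine (mul_le_mul_of_nonneg_right g1 (by positivity)).trans ?_
  refine le_trans (le_of_eq ?_) (mul_le_mul_of_nonneg_left g2 (by positivity))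
  rw [← mul_assoc, ← Real.rpow_add (by norm_num : (0 : ℝ) < 2)]
  congr 2
  ring

end Pool.Agent.Lib.P5135n
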