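import Pool.Agent.Lib.P5135n.Rep

/-!
# Module P5135n.UpS: the number of graphs with the structure

PROOF. As `extCountK_le` in Up: a graph with `SkG G k` is `(mkG ω).comap e.symm` for `f` from `exists_enum`, `e` from `exists_ext`, `ω` from
`exists_rep`, and `ω` is in `UpAux.Good` (a further vertex is not in `T`, so it is joined to both ends `u`, `w` of an edge of `T`, `u = f (i, c)`,
`w = f (i, !c)`). So `G` is in the image of `UpAux.TT n k`; then `UpAux.term_eq`. `k = 0` is impossible for `n ≥ 1`, and `2 k ≤ n` as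
`T.card ≤ n`.
-/

set_option autoImplicit false

namespace Pool.Agent.Lib.P5135n

open Pool.Agent.Lib.P5135a5

open UpAux

theorem SkG_cover {n : ℕ} (hn : 1 ≤ n) {k : ℕ} (G : SimpleGraph (Fin n)) (hG : SkG G k) :
    (1 ≤ k ∧ 2 * k ≤ n) ∧ ∃ p, TT n k p = G := by
  classical
  obtain ⟨T, hTc, hT, hout⟩ := hG
  obtain ⟨f, hinj, hfT, hadj⟩ := exists_enum hT hTc
  have hk2 : 2 * k ≤ n := by
    have h := Finset.card_le_univ T
    rw [hTc, Fintype.card_fin] at h
    exact h
  have hk1 : 1 ≤ k := by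
    rcases Nat.eq_zero_or_pos k with h0 | h0
    · exfalso
      have hTe : T = ∅ := Finset.card_eq_zero.1 (by rw [hTc, h0])
      obtain ⟨u, hu, _⟩ := hout ⟨0, by omega⟩ (by rw [hTe]; exact Finset.notMem_empty _)
      rw [hTe] at hu
      exact Finset.notMem_empty _ hu
    · exact h0
  refine ⟨⟨hk1, hk2⟩, ?_⟩
  have hex : ∃ e : VV k (n - 2 * k) ≃ Fin n, ∀ a, e (Sum.inl a) = f a :=
    exists_ext (by omega) f hinj
  have he := hex.choose_spec
  generalize hee : hex.choose = e at he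
  obtain ⟨ω, hω⟩ := exists_rep (G := G) e (by
    intro u v
    rw [he, he]
    exact hadj u v)
  have hkey : ∀ p q : VV k (n - 2 * k), (mkG ω).Adj p q ↔ G.Adj (e p) (e q) := by
    intro p q
    rw [← hω, SimpleGraph.comap_adj]
    show _ ↔ (mkG ω).Adj (e.symm (e p)) (e.symm (e q))
    rw [Equiv.symm_apply_apply, Equiv.symm_apply_apply]
  have hgood : ∀ x, ∃ i, ω.1 x i true = true ∧ ω.1 x i false = true := by
    intro x
    have hx : e (Sum.inr x) ∉ T := by
      intro hx
      obtain ⟨u, hu⟩ := (hfT _).1 hx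
      rw [← he] at hu
      exact absurd (e.injective hu) (by simp)
    obtain ⟨u, hu, w, hw, huw, h1, h2⟩ := hout _ hx
    obtain ⟨⟨i, ci⟩, rfl⟩ := (hfT u).1 hu
    obtain ⟨⟨j, cj⟩, rfl⟩ := (hfT w).1 hw
    obtain ⟨h3, h4⟩ := (hadj _ _).1 huw
    change i = j at h3
    change ci ≠ cj at h4
    subst h3
    rw [← he, ← hkey] at h1 h2
    have h5 : ω.1 x i ci = true := h1
    have h6 : ω.1 x i cj = true := h2
    refine ⟨i, ?_⟩
    rcases ci with _ | _ <;> rcases cj with _ | _
    · exact absurd rfl h4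
    · exact ⟨h6, h5⟩
    · exact ⟨h5, h6⟩
    · exact absurd rfl h4
  refine ⟨(f, ⟨ω, hgood⟩), ?_⟩
  unfold TT
  have hex' : ∃ e : VV k (n - 2 * k) ≃ Fin n,
      ∀ a, e (Sum.inl a) = (f, (⟨ω, hgood⟩ : Good k (n - 2 * k))).1 a := hex
  rw [dif_pos hex']
  have hch : hex'.choose = e := hee
  rw [hch]
  exact hω

theorem card_SkG_le {n : ℕ} (hn : 1 ≤ n) (k : ℕ) :
    (Nat.card {G : SimpleGraph (Fin n) // SkG G k} : ℝ) ≤
      if 1 ≤ k ∧ 2 * k ≤ n then
        (n : ℝ) ^ (2 * k) * (1 - (3 / 4 : ℝ) ^ k) ^ (n - 2 * k) * 2 ^ (n.choose 2) / 2 ^ (k * (2 * k - 1)) else 0 := by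
  classical
  have h3 : Nat.card {G : SimpleGraph (Fin n) // SkG G k} =
      (Finset.univ.filter (fun G : SimpleGraph (Fin n) => SkG G k)).card := by
    rw [Nat.card_eq_fintype_card, Fintype.card_subtype]
  rw [h3]
  split_ifs with hk
  · rw [← term_eq hk.2]
    have h2 : (Finset.univ.filter (fun G : SimpleGraph (Fin n) => SkG G k)) ⊆
        Finset.univ.image (TT n k) := by
      intro G hG
      obtain ⟨_, p, hp⟩ := SkG_cover hn G (Finset.mem_filter.1 hG).2
      exact Finset.mem_image.2 ⟨p, Finset.mem_univ _, hp⟩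
    have h4 := (Finset.card_le_card h2).trans
      (Finset.card_image_le.trans (le_of_eq Finset.card_univ))
    exact_mod_cast h4
  · have h5 : (Finset.univ.filter (fun G : SimpleGraph (Fin n) => SkG G k)) = ∅ := by
      rw [Finset.filter_eq_empty_iff]
      intro G _ hG
      exact hk (SkG_cover hn G hG).1
    rw [h5]
    simp

end Pool.Agent.Lib.P5135n
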