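import Pool.Agent.Lib.P5135n.Final2
import Pool.Agent.Lib.P5135n.UpS

/-!
# Almost all graphs with the structure are extremal
-/

set_option autoImplicit false

open Filter Topology

namespace Pool.Agent.Lib.P5135n

open Pool.Agent.Lib.P5135a5

/-- Good in the final sense. -/
def GG {V : Type} (G : SimpleGraph V) : Prop :=
  Ext G ∧ ∃! T : Finset V, IsInducedMatchingSet G T ∧ T.card = 2 * upperDom G

theorem few_bad : Tendsto (fun n : ℕ => (Nat.card {G : SimpleGraph (Fin n) // SG G ∧ ¬ GG G} : ℝ) / extCount n) atTop (𝓝 0) := by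
  classical
  obtain ⟨η, hη, hw⟩ := num_win (show (0 : ℝ) < 1 / 10 by norm_num)
  have hlow := extCount_ge (half_pos hη)
  have hlim : Tendsto (fun n : ℕ => (2 : ℝ) ^ (-(η / 2) * (Real.logb 2 n) ^ 2)) atTop (𝓝 0) := by
    have h4 : Tendsto (fun n : ℕ => (η / 2) * (Real.logb 2 (n : ℝ)) ^ 2) atTop atTop :=
      ((tendsto_pow_atTop (by norm_num : (2 : ℕ) ≠ 0)).comp tendsto_logb).const_mul_atTop (half_pos hη)
    have h5 := (tendsto_rpow_atBot_of_base_gt_one 2 (by norm_num : (1 : ℝ) < 2)).comp (tendsto_neg_atTop_atBot.comp h4)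
    refine h5.congr fun n => ?_
    simp only [Function.comp]
    congr 1
    ring
  rw [Metric.tendsto_atTop]
  intro ε hε
  set ε' : ℝ := min (ε / 4) (1 / 2) with hε'
  have hε'0 : 0 < ε' := lt_min (by positivity) (by norm_num)
  have hε'1 : ε' ≤ 1 / 2 := min_le_right _ _
  have hε'2 : ε' ≤ ε / 4 := min_le_left _ _
  have hwb := window_bad hε'0 hε'1
  obtain ⟨N, hN⟩ := eventually_atTop.1 ((((hw.and hlow).and hwb).and (eventually_ge_atTop 1)).and
    (hlim.eventually (gt_mem_nhds (show (0 : ℝ) < ε / 4 by positivity))))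
  refine ⟨N, fun n hn => ?_⟩
  obtain ⟨⟨⟨⟨g1, g2⟩, g3⟩, g4⟩, g5⟩ := hN n hn
  have hE : (0 : ℝ) < extCount n := lt_of_lt_of_le (by positivity) g2
  set L := Real.logb 2 n with hL
  have hLnn : 0 ≤ L := Real.logb_nonneg (by norm_num) (by exact_mod_cast g4)
  -- the union over `k`
  have u1 : Nat.card {G : SimpleGraph (Fin n) // SG G ∧ ¬ GG G} ≤
      ∑ k ∈ Finset.Icc 0 n, Nat.card {G : SimpleGraph (Fin n) // SkG G k ∧ ¬ GoodG G k} := by
    refine card_le_sum _ _ _ ?_
    rintro G ⟨⟨T, hT, hout⟩, hG⟩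
    obtain ⟨k, hk⟩ := card_even_of_matching hT
    refine ⟨k, ?_, ⟨T, hk, hT, hout⟩, ?_⟩
    · rw [Finset.mem_Icc]
      have h6 : T.card ≤ n := by
        have := Finset.card_le_univ T
        rwa [Fintype.card_fin] at this
      omega
    · rintro ⟨h6, h7, h8⟩
      exact hG ⟨h6, by rw [h7]; exact h8⟩
  have u2 : (Nat.card {G : SimpleGraph (Fin n) // SG G ∧ ¬ GG G} : ℝ) ≤
      ∑ k ∈ Finset.Icc 0 n, (Nat.card {G : SimpleGraph (Fin n) // SkG G k ∧ ¬ GoodG G k} : ℝ) := by
    exact_mod_cast u1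
  rw [← Finset.sum_filter_add_sum_filter_not (Finset.Icc 0 n) (fun k : ℕ => |(k : ℝ) - beta * L| ≤ 1 / 10 * L)] at u2
  have w1 : ∑ k ∈ (Finset.Icc 0 n).filter (fun k : ℕ => |(k : ℝ) - beta * L| ≤ 1 / 10 * L),
      (Nat.card {G : SimpleGraph (Fin n) // SkG G k ∧ ¬ GoodG G k} : ℝ) ≤ ε' * extCount n := by
    have w2 : ∑ k ∈ (Finset.Icc 0 n).filter (fun k : ℕ => |(k : ℝ) - beta * L| ≤ 1 / 10 * L),
        (Nat.card {G : SimpleGraph (Fin n) // SkG G k ∧ ¬ GoodG G k} : ℝ) ≤
        ∑ k ∈ (Finset.Icc 0 n).filter (fun k : ℕ => |(k : ℝ) - beta * L| ≤ 1 / 10 * L),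
          ε' * (Nat.card {G : SimpleGraph (Fin n) // GoodG G k} : ℝ) := by
      refine Finset.sum_le_sum fun k hk => ?_
      have h6 := (Finset.mem_filter.1 hk).2
      rw [abs_le] at h6
      have h7 := beta_gt'
      have h8 := beta_lt_three
      refine (g3 k ?_ ?_).1
      · nlinarith
      · nlinarith
    refine w2.trans ?_
    rw [← Finset.mul_sum]
    refine mul_le_mul_of_nonneg_left ?_ hε'0.le
    have w3 := sum_le_card (α := SimpleGraph (Fin n)) Ext ((Finset.Icc 0 n).filter (fun k : ℕ => |(k : ℝ) - beta * L| ≤ 1 / 10 * L))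
      (fun k G => GoodG G k) (fun G k h => h.1) (fun G k k' h h' => h.2.1.symm.trans h'.2.1)
    exact_mod_cast w3
  have w4 : ∑ k ∈ (Finset.Icc 0 n).filter (fun k : ℕ => ¬ |(k : ℝ) - beta * L| ≤ 1 / 10 * L),
      (Nat.card {G : SimpleGraph (Fin n) // SkG G k ∧ ¬ GoodG G k} : ℝ) ≤ ε / 4 * extCount n := by
    have w5 : ∑ k ∈ (Finset.Icc 0 n).filter (fun k : ℕ => ¬ |(k : ℝ) - beta * L| ≤ 1 / 10 * L),
        (Nat.card {G : SimpleGraph (Fin n) // SkG G k ∧ ¬ GoodG G k} : ℝ) ≤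
        ∑ k ∈ (Finset.Icc 1 n).filter (fun k => 2 * k ≤ n ∧ 1 / 10 * L < |(k : ℝ) - beta * L|),
          term n k * 2 ^ (n.choose 2) := by
      have w6 : ∀ k ∈ (Finset.Icc 0 n).filter (fun k : ℕ => ¬ |(k : ℝ) - beta * L| ≤ 1 / 10 * L),
          (Nat.card {G : SimpleGraph (Fin n) // SkG G k ∧ ¬ GoodG G k} : ℝ) ≤
          if 1 ≤ k ∧ 2 * k ≤ n then term n k * 2 ^ (n.choose 2) else 0 := by
        intro k hk
        have h6 : (Nat.card {G : SimpleGraph (Fin n) // SkG G k ∧ ¬ GoodG G k} : ℝ) ≤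
            (Nat.card {G : SimpleGraph (Fin n) // SkG G k} : ℝ) := by
          exact_mod_cast card_mono' (α := SimpleGraph (Fin n)) (fun G => SkG G k ∧ ¬ GoodG G k) (fun G => SkG G k)
            (fun G h => h.1)
        refine h6.trans ((card_SkG_le g4 k).trans (le_of_eq ?_))
        split_ifs
        · unfold term
          ring
        · rfl
      refine (Finset.sum_le_sum w6).trans ?_
      rw [← Finset.sum_filter]
      refine le_of_eq (Finset.sum_congr ?_ fun _ _ => rfl)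
      ext k
      simp only [Finset.mem_filter, Finset.mem_Icc, not_le]
      constructor
      · rintro ⟨⟨⟨_, h1⟩, h2⟩, h3, h4⟩
        exact ⟨⟨h3, h1⟩, h4, h2⟩
      · rintro ⟨⟨h1, h2⟩, h3, h4⟩
        exact ⟨⟨⟨Nat.zero_le _, h2⟩, h4⟩, h1, h3⟩
    refine w5.trans ?_
    rw [← Finset.sum_mul]
    refine (mul_le_mul_of_nonneg_right g1 (by positivity)).trans ?_
    refine le_trans (le_of_eq ?_) (mul_le_mul g5.le g2 (by positivity) (by positivity))
    rw [← mul_assoc, ← Real.rpow_add (by norm_num : (0 : ℝ) < 2)]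
    congr 2
    ring
  rw [Real.dist_eq, sub_zero, abs_of_nonneg (by positivity), div_lt_iff₀ hE]
  nlinarith

/-- Extremal graphs have the structure. -/
theorem sg_of_ext {V : Type} [Fintype V] {G : SimpleGraph V} (h : Ext G) : SG G := by
  obtain ⟨T, _, h1, h2⟩ := ext_SkG h
  exact ⟨T, h1, h2⟩

theorem ext_eventually_pos : ∀ᶠ n : ℕ in atTop, 0 < extCount n := by
  filter_upwards [extCount_ge (show (0 : ℝ) < 1 by norm_num)] with n h
  have : (0 : ℝ) < extCount n := lt_of_lt_of_le (by positivity) h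
  exact_mod_cast this

/-- Almost every graph with the structure is extremal, with exactly one maximum induced matching. -/
theorem structure_suffices : Tendsto (fun n : ℕ => (Nat.card {G : SimpleGraph (Fin n) // SG G ∧ GG G} : ℝ) /
    Nat.card {G : SimpleGraph (Fin n) // SG G}) atTop (𝓝 1) := by
  have h := few_bad
  have h1 : Tendsto (fun n : ℕ => 1 - (Nat.card {G : SimpleGraph (Fin n) // SG G ∧ ¬ GG G} : ℝ) / extCount n) atTop (𝓝 1) := by
    simpa using tendsto_const_nhds.sub h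
  refine tendsto_of_tendsto_of_tendsto_of_le_of_le' h1 tendsto_const_nhds ?_ ?_
  · filter_upwards [ext_eventually_pos] with n hn
    have hE : (0 : ℝ) < extCount n := by exact_mod_cast hn
    have e1 : (extCount n : ℝ) ≤ Nat.card {G : SimpleGraph (Fin n) // SG G} := by
      exact_mod_cast card_mono' (α := SimpleGraph (Fin n)) Ext SG (fun G h => sg_of_ext h)
    have e2 : (Nat.card {G : SimpleGraph (Fin n) // SG G} : ℝ) ≤
        (Nat.card {G : SimpleGraph (Fin n) // SG G ∧ GG G} : ℝ) + (Nat.card {G : SimpleGraph (Fin n) // SG G ∧ ¬ GG G} : ℝ) := by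
      exact_mod_cast card_or_le (α := SimpleGraph (Fin n)) SG (fun G => SG G ∧ GG G) (fun G => SG G ∧ ¬ GG G) (fun G h => by tauto)
    have hS : (0 : ℝ) < Nat.card {G : SimpleGraph (Fin n) // SG G} := hE.trans_le e1
    rw [le_div_iff₀ hS, sub_mul, one_mul]
    have e3 : (Nat.card {G : SimpleGraph (Fin n) // SG G ∧ ¬ GG G} : ℝ) ≤
        (Nat.card {G : SimpleGraph (Fin n) // SG G ∧ ¬ GG G} : ℝ) / extCount n * Nat.card {G : SimpleGraph (Fin n) // SG G} := by
      rw [div_mul_eq_mul_div, le_div_iff₀ hE]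
      exact mul_le_mul_of_nonneg_left e1 (Nat.cast_nonneg _)
    linarith
  · refine Eventually.of_forall fun n => ?_
    refine div_le_one_of_le₀ ?_ (Nat.cast_nonneg _)
    exact_mod_cast card_mono' (α := SimpleGraph (Fin n)) (fun G => SG G ∧ GG G) SG (fun G h => h.1)

end Pool.Agent.Lib.P5135n
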