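import Pool.Agent.Lib.P5135n.Final3

/-!
# The exact asymptotics of the number of extremal graphs
-/

set_option autoImplicit false

open Filter Topology

namespace Pool.Agent.Lib.P5135n

open Pool.Agent.Lib.P5135a5

/-- The expected number of ways to plant `k` edges. -/
noncomputable def AA (n k : ℕ) : ℝ :=
  (n.factorial : ℝ) / ((n - 2 * k).factorial * k.factorial * 2 ^ k) * ((4 : ℝ) ^ k - 3 ^ k) ^ (n - 2 * k) *
    2 ^ ((n - 2 * k).choose 2)

theorem AA_mul {n k : ℕ} (h : 2 * k ≤ n) : AA n k * autM k =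
    (n.descFactorial (2 * k) : ℝ) * Nat.card {ω : Om k (n - 2 * k) // Full k (n - 2 * k) ω} := by
  rw [card_Full, AA, autM_eq]
  have h1 : ((n - 2 * k).factorial : ℝ) * (n.descFactorial (2 * k) : ℝ) = n.factorial := by
    exact_mod_cast Nat.factorial_mul_descFactorial h
  have h2 : (0 : ℝ) < (n - 2 * k).factorial := by exact_mod_cast Nat.factorial_pos _
  have h3 : (0 : ℝ) < k.factorial := by exact_mod_cast Nat.factorial_pos _
  rw [← h1]
  push_cast
  field_simp

theorem AA_nonneg (n k : ℕ) : 0 ≤ AA n k := by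
  unfold AA
  have h : (3 : ℝ) ^ k ≤ 4 ^ k := pow_le_pow_left₀ (by norm_num) (by norm_num) k
  have h2 : (0 : ℝ) ≤ ((4 : ℝ) ^ k - 3 ^ k) ^ (n - 2 * k) := pow_nonneg (by linarith) _
  positivity

theorem AA_le_term {n k : ℕ} (h : 2 * k ≤ n) : AA n k ≤ term n k * 2 ^ (n.choose 2) := by
  have h1 : (1 : ℝ) ≤ autM k := by exact_mod_cast autM_pos k
  have h2 : AA n k ≤ AA n k * autM k := le_mul_of_one_le_right (AA_nonneg n k) h1
  refine h2.trans ?_
  rw [AA_mul h]
  have h3 := UpAux.term_eq h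
  have h4 : term n k * 2 ^ (n.choose 2) =
      (n : ℝ) ^ (2 * k) * (1 - (3 / 4 : ℝ) ^ k) ^ (n - 2 * k) * 2 ^ (n.choose 2) / 2 ^ (k * (2 * k - 1)) := by
    unfold term
    ring
  rw [h4, ← h3]
  have h5 : Nat.card {ω : Om k (n - 2 * k) // Full k (n - 2 * k) ω} = Fintype.card (UpAux.Good k (n - 2 * k)) := by
    have h : Nat.card {ω : Om k (n - 2 * k) // Full k (n - 2 * k) ω} = Nat.card (UpAux.Good k (n - 2 * k)) := rfl
    rw [h, Nat.card_eq_fintype_card]
  rw [h5, Fintype.card_prod, Fintype.card_fun, Fintype.card_prod, Fintype.card_fin, Fintype.card_bool, Fintype.card_fin]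
  have h6 : n.descFactorial (2 * k) ≤ n ^ (k * 2) := by
    rw [mul_comm k 2]
    exact Nat.descFactorial_le_pow n (2 * k)
  exact_mod_cast Nat.mul_le_mul_right _ h6

theorem ext_le_sum {n : ℕ} (hn : 1 ≤ n) : (extCount n : ℝ) ≤ ∑ k ∈ Finset.Icc 1 (n / 2), AA n k := by
  have h1 : extCount n ≤ ∑ k ∈ Finset.Icc 1 (n / 2), Nat.card {G : SimpleGraph (Fin n) // SkG G k} := by
    refine card_le_sum (α := SimpleGraph (Fin n)) _ _ _ ?_
    intro G hG
    have h2 := ext_SkG hG
    refine ⟨upperDom G, ?_, h2⟩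
    obtain ⟨T, hT, hm, hout⟩ := h2
    rw [Finset.mem_Icc]
    have h3 : T.card ≤ n := by
      have := Finset.card_le_univ T
      rwa [Fintype.card_fin] at this
    have h4 : 1 ≤ T.card := by
      by_contra hcon
      have h5 : T = ∅ := by
        rw [← Finset.card_eq_zero]
        omega
      obtain ⟨u, hu, _⟩ := hout ⟨0, by omega⟩ (by rw [h5]; simp)
      rw [h5] at hu
      simp at hu
    omega
  have h2 : (extCount n : ℝ) ≤ ∑ k ∈ Finset.Icc 1 (n / 2), (Nat.card {G : SimpleGraph (Fin n) // SkG G k} : ℝ) := by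
    exact_mod_cast h1
  refine h2.trans (Finset.sum_le_sum fun k hk => ?_)
  rw [Finset.mem_Icc] at hk
  have hk2 : 2 * k ≤ n := by omega
  have ha : (0 : ℝ) < autM k := by exact_mod_cast autM_pos k
  have h3 := places_all (k := k) (r := n - 2 * k) (n := n) (by omega)
  refine le_of_mul_le_mul_right ?_ ha
  rw [AA_mul hk2, mul_comm]
  exact_mod_cast h3

theorem sum_le_ext {ε : ℝ} (hε : 0 < ε) : ∀ᶠ n : ℕ in atTop, ∑ k ∈ Finset.Icc 1 (n / 2), AA n k ≤ (1 + ε) * extCount n := by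
  classical
  obtain ⟨η, hη, hw⟩ := num_win (show (0 : ℝ) < 1 / 10 by norm_num)
  have hlow := extCount_ge (half_pos hη)
  have hlim : Tendsto (fun n : ℕ => (2 : ℝ) ^ (-(η / 2) * (Real.logb 2 n) ^ 2)) atTop (𝓝 0) := by
    have h4 : Tendsto (fun n : ℕ => (η / 2) * (Real.logb 2 (n : ℝ)) ^ 2) atTop atTop :=
      ((tendsto_pow_atTop (by norm_num : (2 : ℕ) ≠ 0)).comp tendsto_logb).const_mul_atTop (half_pos hη)
    have h5 := (tendsto_rpow_atBot_of_base_gt_one 2 (by norm_num : (1 : ℝ) < 2)).comp (tendsto_neg_atTop_atBot.comp h4)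
    refine h5.congr fun n => ?_
    simp only [Function.comp]
    congr 1
    ring
  set ε' : ℝ := min (ε / 2) (1 / 2) with hε'
  have hε'0 : 0 < ε' := lt_min (by positivity) (by norm_num)
  have hε'1 : ε' ≤ 1 / 2 := min_le_right _ _
  have hε'2 : ε' ≤ ε / 2 := min_le_left _ _
  filter_upwards [hw, hlow, window_bad hε'0 hε'1, eventually_ge_atTop 1,
    hlim.eventually (gt_mem_nhds (show (0 : ℝ) < ε / 2 by positivity))] with n g1 g2 g3 g4 g5
  have hE : (0 : ℝ) < extCount n := lt_of_lt_of_le (by positivity) g2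
  set L := Real.logb 2 n with hL
  have hLnn : 0 ≤ L := Real.logb_nonneg (by norm_num) (by exact_mod_cast g4)
  rw [← Finset.sum_filter_add_sum_filter_not (Finset.Icc 1 (n / 2)) (fun k : ℕ => |(k : ℝ) - beta * L| ≤ 1 / 10 * L)]
  have w1 : ∑ k ∈ (Finset.Icc 1 (n / 2)).filter (fun k : ℕ => |(k : ℝ) - beta * L| ≤ 1 / 10 * L), AA n k ≤
      (1 + ε') * extCount n := by
    have w2 : ∑ k ∈ (Finset.Icc 1 (n / 2)).filter (fun k : ℕ => |(k : ℝ) - beta * L| ≤ 1 / 10 * L), AA n k ≤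
        ∑ k ∈ (Finset.Icc 1 (n / 2)).filter (fun k : ℕ => |(k : ℝ) - beta * L| ≤ 1 / 10 * L),
          (1 + ε') * (Nat.card {G : SimpleGraph (Fin n) // GoodG G k} : ℝ) := by
      refine Finset.sum_le_sum fun k hk => ?_
      rw [Finset.mem_filter, Finset.mem_Icc, abs_le] at hk
      obtain ⟨⟨hk1, hk2⟩, h6⟩ := hk
      have h7 := beta_gt'
      have h8 := beta_lt_three
      have ha : (0 : ℝ) < autM k := by exact_mod_cast autM_pos k
      have h9 := (g3 k (by nlinarith) (by nlinarith)).2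
      refine le_of_mul_le_mul_right ?_ ha
      rw [AA_mul (by omega)]
      refine h9.trans (le_of_eq ?_)
      ring
    refine w2.trans ?_
    rw [← Finset.mul_sum]
    refine mul_le_mul_of_nonneg_left ?_ (by linarith)
    have w3 := sum_le_card (α := SimpleGraph (Fin n)) Ext
      ((Finset.Icc 1 (n / 2)).filter (fun k : ℕ => |(k : ℝ) - beta * L| ≤ 1 / 10 * L))
      (fun k G => GoodG G k) (fun G k h => h.1) (fun G k k' h h' => h.2.1.symm.trans h'.2.1)
    exact_mod_cast w3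
  have w4 : ∑ k ∈ (Finset.Icc 1 (n / 2)).filter (fun k : ℕ => ¬ |(k : ℝ) - beta * L| ≤ 1 / 10 * L), AA n k ≤
      ε / 2 * extCount n := by
    have w5 : ∑ k ∈ (Finset.Icc 1 (n / 2)).filter (fun k : ℕ => ¬ |(k : ℝ) - beta * L| ≤ 1 / 10 * L), AA n k ≤
        ∑ k ∈ (Finset.Icc 1 n).filter (fun k => 2 * k ≤ n ∧ 1 / 10 * L < |(k : ℝ) - beta * L|),
          term n k * 2 ^ (n.choose 2) := by
      have hset : (Finset.Icc 1 (n / 2)).filter (fun k : ℕ => ¬ |(k : ℝ) - beta * L| ≤ 1 / 10 * L) =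
          (Finset.Icc 1 n).filter (fun k => 2 * k ≤ n ∧ 1 / 10 * L < |(k : ℝ) - beta * L|) := by
        ext k
        simp only [Finset.mem_filter, Finset.mem_Icc, not_le]
        constructor
        · rintro ⟨⟨h1, h2⟩, h3⟩
          exact ⟨⟨h1, by omega⟩, by omega, h3⟩
        · rintro ⟨⟨h1, h2⟩, h3, h4⟩
          exact ⟨⟨h1, by omega⟩, h4⟩
      rw [hset]
      refine Finset.sum_le_sum fun k hk => ?_
      rw [Finset.mem_filter] at hk
      exact AA_le_term hk.2.1
    refine w5.trans ?_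
    rw [← Finset.sum_mul]
    refine (mul_le_mul_of_nonneg_right g1 (by positivity)).trans ?_
    refine le_trans (le_of_eq ?_) (mul_le_mul g5.le g2 (by positivity) (by positivity))
    rw [← mul_assoc, ← Real.rpow_add (by norm_num : (0 : ℝ) < 2)]
    congr 2
    ring
  nlinarith

theorem exact_asymptotics : Tendsto (fun n : ℕ => (extCount n : ℝ) / ∑ k ∈ Finset.Icc 1 (n / 2), AA n k) atTop (𝓝 1) := by
  rw [Metric.tendsto_atTop]
  intro ε hε
  obtain ⟨N, hN⟩ := eventually_atTop.1 (((sum_le_ext (half_pos hε)).and (eventually_ge_atTop 1)).and ext_eventually_pos)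
  refine ⟨N, fun n hn => ?_⟩
  obtain ⟨⟨g1, g2⟩, g3⟩ := hN n hn
  have hE : (0 : ℝ) < extCount n := by exact_mod_cast g3
  have h1 := ext_le_sum g2
  have hS : 0 < ∑ k ∈ Finset.Icc 1 (n / 2), AA n k := hE.trans_le h1
  have h2 : (extCount n : ℝ) / ∑ k ∈ Finset.Icc 1 (n / 2), AA n k ≤ 1 := by
    rw [div_le_one hS]
    exact h1
  have h3 : 1 - ε / 2 ≤ (extCount n : ℝ) / ∑ k ∈ Finset.Icc 1 (n / 2), AA n k := by
    rw [le_div_iff₀ hS]
    rcases le_or_gt (1 - ε / 2) 0 with h4 | h4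
    · exact (mul_nonpos_of_nonpos_of_nonneg h4 hS.le).trans hE.le
    · refine (mul_le_mul_of_nonneg_left g1 h4.le).trans ?_
      nlinarith [sq_nonneg ε]
  rw [Real.dist_eq, abs_lt]
  constructor <;> linarith

end Pool.Agent.Lib.P5135n
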