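import Pool.Agent.Lib.P5135n.Final3
import Pool.Agent.Lib.P5135n.Diam

/-!
# Almost all extremal graphs have diameter at most two
-/

set_option autoImplicit false

open Filter Topology

namespace Pool.Agent.Lib.P5135n

open Pool.Agent.Lib.P5135a5

theorem num_diam (c : ℝ) (hc : 0 ≤ c) : Tendsto (fun n : ℕ => (n : ℝ) ^ 2 * (3 / 4 : ℝ) ^ (n - 2) * (2 : ℝ) ^ (c * (Real.logb 2 n) ^ 2))
    atTop (𝓝 0) := by
  -- `c L² log 2 ≤ n log (4/3) / 4` and `2 log n ≤ n log (4/3) / 4` eventually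
  have hl2 : 0 < Real.log 2 := Real.log_pos (by norm_num)
  have hl4 : 0 < Real.log (4 / 3 : ℝ) := Real.log_pos (by norm_num)
  have h1 := (Real.isLittleO_pow_log_id_atTop (n := 2)).comp_tendsto tendsto_natCast_atTop_atTop
  have h2 := (Real.isLittleO_log_id_atTop).comp_tendsto tendsto_natCast_atTop_atTop
  have k1 := h1.def (show (0 : ℝ) < Real.log (4 / 3) / 4 * (Real.log 2 / (c + 1)) by positivity)
  have k2 := h2.def (show (0 : ℝ) < Real.log (4 / 3) / 8 by positivity)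
  have hlim : Tendsto (fun n : ℕ => Real.exp (2 * Real.log (4 / 3)) * Real.exp (-(Real.log (4 / 3) / 2) * (n : ℝ))) atTop (𝓝 0) := by
    have h3 : Tendsto (fun n : ℕ => (Real.log (4 / 3) / 2) * (n : ℝ)) atTop atTop :=
      tendsto_natCast_atTop_atTop.const_mul_atTop (by positivity)
    have h4 := Real.tendsto_exp_atBot.comp (tendsto_neg_atTop_atBot.comp h3)
    have h5 := h4.const_mul (Real.exp (2 * Real.log (4 / 3)))
    rw [mul_zero] at h5
    refine h5.congr fun n => ?_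
    simp only [Function.comp, neg_mul]
  refine squeeze_zero' (Eventually.of_forall fun n => by positivity) ?_ hlim
  filter_upwards [k1, k2, eventually_ge_atTop 2] with n g1 g2 g3
  simp only [Function.comp, id] at g1 g2
  have hn : (0 : ℝ) < n := by exact_mod_cast (by omega : 0 < n)
  have hlog : 0 ≤ Real.log (n : ℝ) := Real.log_nonneg (by exact_mod_cast (by omega : 1 ≤ n))
  rw [Real.norm_of_nonneg (by positivity), Real.norm_of_nonneg hn.le] at g1
  rw [Real.norm_of_nonneg hlog, Real.norm_of_nonneg hn.le] at g2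
  have e1 : (n : ℝ) ^ 2 = Real.exp (2 * Real.log n) := by
    rw [two_mul, Real.exp_add, Real.exp_log hn, sq]
  have e2 : (3 / 4 : ℝ) ^ (n - 2) = Real.exp (2 * Real.log (4 / 3) - Real.log (4 / 3) * n) := by
    have h5 : (3 / 4 : ℝ) = Real.exp (-Real.log (4 / 3)) := by
      rw [Real.exp_neg, Real.exp_log (by norm_num)]
      norm_num
    rw [h5, ← Real.exp_nat_mul, Nat.cast_sub g3]
    congr 1
    push_cast
    ring
  have e3 : (2 : ℝ) ^ (c * (Real.logb 2 n) ^ 2) = Real.exp (c * (Real.log n) ^ 2 / Real.log 2) := by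
    rw [Real.rpow_def_of_pos (by norm_num)]
    congr 1
    rw [Real.logb]
    field_simp
  rw [e1, e2, e3, ← Real.exp_add, ← Real.exp_add, ← Real.exp_add]
  refine Real.exp_le_exp.2 ?_
  have e4 : c * (Real.log n) ^ 2 / Real.log 2 ≤ Real.log (4 / 3) / 4 * n := by
    rw [div_le_iff₀ hl2]
    have h6 : c * Real.log n ^ 2 ≤ (c + 1) * Real.log n ^ 2 := mul_le_mul_of_nonneg_right (by linarith) (by positivity)
    refine h6.trans ?_
    have h7 := mul_le_mul_of_nonneg_left g1 (show (0 : ℝ) ≤ c + 1 by linarith)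
    refine h7.trans (le_of_eq ?_)
    have : c + 1 ≠ 0 := by linarith
    field_simp
  linarith

theorem diam_two : Tendsto (fun n : ℕ => (Nat.card {G : SimpleGraph (Fin n) // Ext G ∧
    ∀ u v, u = v ∨ G.Adj u v ∨ ∃ w, G.Adj u w ∧ G.Adj w v} : ℝ) / extCount n) atTop (𝓝 1) := by
  have hβ := beta_gt_two
  set c : ℝ := 2 * beta * (beta - 1) + 1 with hc
  have hc0 : 0 ≤ c := by nlinarith
  have hlim := num_diam c hc0
  have h1 : Tendsto (fun n : ℕ => 1 - (n : ℝ) ^ 2 * (3 / 4 : ℝ) ^ (n - 2) * (2 : ℝ) ^ (c * (Real.logb 2 n) ^ 2)) atTop (𝓝 1) := by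
    simpa using tendsto_const_nhds.sub hlim
  refine tendsto_of_tendsto_of_tendsto_of_le_of_le' h1 tendsto_const_nhds ?_ ?_
  · filter_upwards [extCount_ge (show (0 : ℝ) < 1 by norm_num)] with n hn
    rw [← hc] at hn
    have hE : (0 : ℝ) < extCount n := lt_of_lt_of_le (by positivity) hn
    rw [le_div_iff₀ hE, sub_mul, one_mul]
    have e2 : (extCount n : ℝ) ≤
        (Nat.card {G : SimpleGraph (Fin n) // Ext G ∧ ∀ u v, u = v ∨ G.Adj u v ∨ ∃ w, G.Adj u w ∧ G.Adj w v} : ℝ) +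
        (Nat.card {G : SimpleGraph (Fin n) // ¬ ∀ u v, u = v ∨ G.Adj u v ∨ ∃ w, G.Adj u w ∧ G.Adj w v} : ℝ) := by
      exact_mod_cast card_or_le (α := SimpleGraph (Fin n)) Ext
        (fun G => Ext G ∧ ∀ u v, u = v ∨ G.Adj u v ∨ ∃ w, G.Adj u w ∧ G.Adj w v)
        (fun G => ¬ ∀ u v, u = v ∨ G.Adj u v ∨ ∃ w, G.Adj u w ∧ G.Adj w v) (fun G h => by tauto)
    have e3 := card_far n
    have e4 : (n : ℝ) ^ 2 * (3 / 4 : ℝ) ^ (n - 2) * 2 ^ (n.choose 2) ≤
        (n : ℝ) ^ 2 * (3 / 4 : ℝ) ^ (n - 2) * (2 : ℝ) ^ (c * (Real.logb 2 n) ^ 2) * extCount n := by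
      refine le_trans (le_of_eq ?_) (mul_le_mul_of_nonneg_left hn (by positivity))
      have h5 : (2 : ℝ) ^ (c * Real.logb 2 n ^ 2) * (2 : ℝ) ^ (-c * Real.logb 2 n ^ 2) = 1 := by
        rw [← Real.rpow_add (by norm_num), show c * Real.logb 2 n ^ 2 + -c * Real.logb 2 n ^ 2 = 0 by ring, Real.rpow_zero]
      calc (n : ℝ) ^ 2 * (3 / 4 : ℝ) ^ (n - 2) * 2 ^ (n.choose 2) =
          (n : ℝ) ^ 2 * (3 / 4 : ℝ) ^ (n - 2) * ((2 : ℝ) ^ (c * Real.logb 2 n ^ 2) * (2 : ℝ) ^ (-c * Real.logb 2 n ^ 2)) *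
            2 ^ (n.choose 2) := by rw [h5, mul_one]
        _ = _ := by ring
    linarith
  · refine Eventually.of_forall fun n => ?_
    refine div_le_one_of_le₀ ?_ (Nat.cast_nonneg _)
    exact_mod_cast card_mono' (α := SimpleGraph (Fin n))
      (fun G => Ext G ∧ ∀ u v, u = v ∨ G.Adj u v ∨ ∃ w, G.Adj u w ∧ G.Adj w v) Ext (fun G h => h.1)

end Pool.Agent.Lib.P5135n
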