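import Pool.Agent.Lib.P5135n.Defs2

/-!
# Module P5135n.Harris: Harris' inequality on `Om k r`

PROOF. `harris`: `Om k r` is a finite distributive lattice (product of `Bool`s). Mathlib `fkg` (`Mathlib.Combinatorics.SetFamily.FourFunctions`) with
`μ = 1`, `f = 1_P`, `g = 1_{¬ Q}` (both monotone): `#P #¬Q ≤ #Om #(P ∧ ¬Q)`; subtract from `#P #Om`.
The four monotonicity statements: `Full` is increasing, `BadP`, `Bad2D`, `Bad3D` are decreasing (`ω ≤ ω'` implies
`(mkG ω).Adj u v → (mkG ω').Adj u v`).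
-/

set_option autoImplicit false

namespace Pool.Agent.Lib.P5135n

open Pool.Agent.Lib.P5135a5

private theorem true_of_le {a b : Bool} (h : a ≤ b) (ha : a = true) : b = true :=
  Bool.le_iff_imp.1 h ha

private theorem false_of_le {a b : Bool} (h : a ≤ b) (hb : b = false) : a = false := by
  cases ha : a
  · rfl
  · have := true_of_le h ha
    rw [hb] at this
    exact absurd this (by decide)

private theorem adj_mono {k r : ℕ} {ω ω' : Om k r} (h : ω ≤ ω') {u v : VV k r}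
    (ha : (mkG ω).Adj u v) : (mkG ω').Adj u v := by
  rcases u with ⟨i, c⟩ | x <;> rcases v with ⟨j, d⟩ | y
  · exact ha
  · exact true_of_le (h.1 y i c) ha
  · exact true_of_le (h.1 x j d) ha
  · obtain ⟨h1, h2⟩ := ha
    exact ⟨h1, true_of_le (h.2 _) h2⟩

theorem harris {k r : ℕ} (P Q : Om k r → Prop) (hP : ∀ ω ω', ω ≤ ω' → P ω → P ω') (hQ : ∀ ω ω', ω ≤ ω' → Q ω' → Q ω) :
    Nat.card {ω : Om k r // P ω ∧ Q ω} * 2 ^ (2 * k * r + r.choose 2) ≤
      Nat.card {ω : Om k r // P ω} * Nat.card {ω : Om k r // Q ω} := by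
  classical
  have h1 := fkg (α := Om k r) (β := ℤ) (μ := fun _ => 1) (f := fun ω => if P ω then 1 else 0)
    (g := fun ω => if Q ω then 0 else 1) (fun _ => zero_le_one)
    (fun ω => by show (0 : ℤ) ≤ if P ω then 1 else 0; split_ifs <;> norm_num)
    (fun ω => by show (0 : ℤ) ≤ if Q ω then 0 else 1; split_ifs <;> norm_num)
    (by
      intro ω ω' h
      show (if P ω then (1 : ℤ) else 0) ≤ if P ω' then 1 else 0
      by_cases h1 : P ω
      · rw [if_pos h1, if_pos (hP ω ω' h h1)]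
      · rw [if_neg h1]
        split_ifs <;> norm_num)
    (by
      intro ω ω' h
      show (if Q ω then (0 : ℤ) else 1) ≤ if Q ω' then 0 else 1
      by_cases h1 : Q ω'
      · rw [if_pos h1, if_pos (hQ ω ω' h h1)]
      · rw [if_neg h1]
        split_ifs <;> norm_num)
    (fun _ _ => le_refl _)
  have eP : ∑ ω : Om k r, (1 : ℤ) * (if P ω then 1 else 0) = (Nat.card {ω : Om k r // P ω} : ℤ) := by
    simp only [one_mul]
    rw [Finset.sum_boole, Nat.card_eq_fintype_card, Fintype.card_subtype]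
  have eQ : ∑ ω : Om k r, (1 : ℤ) * (if Q ω then 0 else 1) =
      (Fintype.card (Om k r) : ℤ) - (Nat.card {ω : Om k r // Q ω} : ℤ) := by
    have h2 : ∀ ω : Om k r, (1 : ℤ) * (if Q ω then 0 else 1) = 1 - (if Q ω then 1 else 0) := by
      intro ω
      split_ifs <;> norm_num
    rw [Finset.sum_congr rfl fun ω _ => h2 ω, Finset.sum_sub_distrib, Finset.sum_boole,
      Nat.card_eq_fintype_card, Fintype.card_subtype]
    simp
  have e1 : ∑ _ω : Om k r, (1 : ℤ) = (Fintype.card (Om k r) : ℤ) := by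
    simp
  have ePQ : ∑ ω : Om k r, (1 : ℤ) * ((if P ω then 1 else 0) * (if Q ω then 0 else 1)) =
      (Nat.card {ω : Om k r // P ω} : ℤ) - (Nat.card {ω : Om k r // P ω ∧ Q ω} : ℤ) := by
    have h2 : ∀ ω : Om k r, (1 : ℤ) * ((if P ω then 1 else 0) * (if Q ω then 0 else 1)) =
        (if P ω then 1 else 0) - (if P ω ∧ Q ω then 1 else 0) := by
      intro ω
      by_cases h3 : P ω <;> by_cases h4 : Q ω <;> simp [h3, h4]
    rw [Finset.sum_congr rfl fun ω _ => h2 ω, Finset.sum_sub_distrib, Finset.sum_boole,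
      Finset.sum_boole, Nat.card_eq_fintype_card, Fintype.card_subtype, Nat.card_eq_fintype_card,
      Fintype.card_subtype]
  rw [eP, eQ, e1, ePQ] at h1
  have h2 : (Nat.card {ω : Om k r // P ω ∧ Q ω} : ℤ) * (Fintype.card (Om k r) : ℤ) ≤
      (Nat.card {ω : Om k r // P ω} : ℤ) * (Nat.card {ω : Om k r // Q ω} : ℤ) := by
    linarith
  rw [← card_Om]
  exact_mod_cast h2

theorem full_mono {k r : ℕ} (ω ω' : Om k r) (h : ω ≤ ω') : Full k r ω → Full k r ω' := by
  intro hF x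
  obtain ⟨i, h1, h2⟩ := hF x
  exact ⟨i, true_of_le (h.1 x i true) h1, true_of_le (h.1 x i false) h2⟩

theorem badP_anti {k r b₀ : ℕ} (ω ω' : Om k r) (h : ω ≤ ω') : BadP k r b₀ ω' → BadP k r b₀ ω := by
  rintro ⟨x, y, hxy, A, hA, hc⟩
  refine ⟨x, y, hxy, A, hA, fun i hi => ?_⟩
  obtain ⟨c, h1, h2⟩ := hc i hi
  exact ⟨c, false_of_le (h.1 x i c) h1, false_of_le (h.1 y i c) h2⟩

theorem bad2D_anti {k r b₀ : ℕ} (ω ω' : Om k r) (h : ω ≤ ω') : Bad2D k r b₀ ω' → Bad2D k r b₀ ω := by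
  rintro ⟨s, p, ⟨hs, hp, hI⟩, hc⟩
  exact ⟨s, p, ⟨hs, hp, fun i j hij => ⟨(hI i j hij).1, fun ha => (hI i j hij).2 (adj_mono h ha)⟩⟩,
    hc⟩

theorem bad3D_anti {k r : ℕ} (ω ω' : Om k r) (h : ω ≤ ω') : Bad3D k r ω' → Bad3D k r ω := by
  rintro ⟨T, hT, hne, τ, hτ⟩
  exact ⟨T, hT, hne, τ, fun v hv u hu huv ha => hτ v hv u hu huv (adj_mono h ha)⟩

end Pool.Agent.Lib.P5135n
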