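import Pool.Agent.Lib.P5135n.Place
import Pool.Agent.Lib.P5135n.Defs2

/-!
# Module P5135n.Iso: invariance under isomorphism

PROOF. `ext_iso` (Place) is there; `upperDom` is invariant (`iso_min`, `iso_dom`, as in Place), and so are
induced matching sets (`im_iso`).
-/

set_option autoImplicit false

namespace Pool.Agent.Lib.P5135n

open Pool.Agent.Lib.P5135a5

private theorem iso_min {V V' : Type} (e : V ≃ V') (P : Finset V → Prop) (P' : Finset V' → Prop)
    (h1 : ∀ S, P S → P' (S.map e.toEmbedding)) (h2 : ∀ T, P' T → P (T.map e.symm.toEmbedding)) (n : ℕ)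
    (h : ∃ S : Finset V, Minimal P S ∧ S.card = n) : ∃ S : Finset V', Minimal P' S ∧ S.card = n := by
  obtain ⟨S, hS, hn⟩ := h
  refine ⟨S.map e.toEmbedding, ⟨h1 S hS.prop, ?_⟩, by rw [Finset.card_map]; exact hn⟩
  intro T hT hTS
  have hT' : T.map e.symm.toEmbedding ≤ S := by
    intro x hx
    rw [Finset.mem_map_equiv, Equiv.symm_symm] at hx
    have h3 := hTS hx
    rw [Finset.mem_map_equiv, Equiv.symm_apply_apply] at h3
    exact h3
  have h4 := hS.le_of_le (h2 T hT) hT'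
  intro y hy
  rw [Finset.mem_map_equiv] at hy
  have h5 := h4 hy
  rw [Finset.mem_map_equiv, Equiv.symm_symm, Equiv.apply_symm_apply] at h5
  exact h5

private theorem iso_dom {V V' : Type} {G : SimpleGraph V} {G' : SimpleGraph V'} (e : V ≃ V')
    (he : ∀ a b, G'.Adj (e a) (e b) ↔ G.Adj a b) (S : Finset V) (h : IsDominating G S) :
    IsDominating G' (S.map e.toEmbedding) := by
  intro v hv
  rw [Finset.mem_map_equiv] at hv
  obtain ⟨u, hu, huv⟩ := h _ hv
  refine ⟨e u, by rw [Finset.mem_map_equiv, Equiv.symm_apply_apply]; exact hu, ?_⟩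
  rw [← he, Equiv.apply_symm_apply] at huv
  exact huv

theorem im_iso {V V' : Type} {G : SimpleGraph V} {G' : SimpleGraph V'} (e : G ≃g G') {T : Finset V}
    (h : IsInducedMatchingSet G T) : IsInducedMatchingSet G' (T.map e.toEquiv.toEmbedding) := by
  have he : ∀ a b, G'.Adj (e.toEquiv a) (e.toEquiv b) ↔ G.Adj a b := fun a b => e.map_rel_iff
  intro v hv
  rw [Finset.mem_map_equiv] at hv
  obtain ⟨w, ⟨hw, hvw⟩, hu⟩ := h _ hv
  refine ⟨e.toEquiv w, ⟨by rw [Finset.mem_map_equiv, Equiv.symm_apply_apply]; exact hw, ?_⟩, ?_⟩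
  · rw [← he, Equiv.apply_symm_apply] at hvw
    exact hvw
  · rintro z ⟨hz, hvz⟩
    rw [Finset.mem_map_equiv] at hz
    have h1 : G.Adj (e.toEquiv.symm v) (e.toEquiv.symm z) := by
      rw [← he, Equiv.apply_symm_apply, Equiv.apply_symm_apply]
      exact hvz
    rw [← hu _ ⟨hz, h1⟩, Equiv.apply_symm_apply]

theorem goodG_iso {V V' : Type} {G : SimpleGraph V} {G' : SimpleGraph V'} (e : G ≃g G') {k : ℕ} (h : GoodG G k) : GoodG G' k := by
  have he : ∀ a b, G'.Adj (e.toEquiv a) (e.toEquiv b) ↔ G.Adj a b := fun a b => e.map_rel_iff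
  have he' : ∀ a b, G.Adj (e.toEquiv.symm a) (e.toEquiv.symm b) ↔ G'.Adj a b := fun a b => by
    rw [← he, Equiv.apply_symm_apply, Equiv.apply_symm_apply]
  have d : upperDom G = upperDom G' := by
    unfold upperDom
    congr 1
    ext n
    exact ⟨iso_min e.toEquiv _ _ (iso_dom e.toEquiv he) (iso_dom e.toEquiv.symm he') n,
      iso_min e.toEquiv.symm _ _ (iso_dom e.toEquiv.symm he') (iso_dom e.toEquiv he) n⟩
  obtain ⟨h1, h2, T, ⟨hT, hTc⟩, hu⟩ := h
  refine ⟨ext_iso e h1, by rw [← d]; exact h2, T.map e.toEquiv.toEmbedding,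
    ⟨im_iso e hT, by rw [Finset.card_map]; exact hTc⟩, ?_⟩
  rintro T' ⟨hT', hTc'⟩
  have h3 : T'.map e.toEquiv.symm.toEmbedding = T :=
    hu _ ⟨im_iso e.symm hT', by rw [Finset.card_map]; exact hTc'⟩
  rw [← h3]
  ext v
  rw [Finset.mem_map_equiv, Finset.mem_map_equiv, Equiv.symm_symm, Equiv.apply_symm_apply]

end Pool.Agent.Lib.P5135n
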