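import Mathlib

/-!
# Module P5135n.Rg1b: the number of permutations moving exactly `j` points
-/

set_option autoImplicit false

namespace Pool.Agent.Lib.P5135n

/-- The number of permutations moving exactly `j` points. -/
theorem card_support_le (n j : ℕ) :
    (Finset.univ.filter (fun σ : Equiv.Perm (Fin n) => σ.support.card = j)).card ≤ n ^ j := by
  classical
  have h1 : (Finset.univ.filter (fun σ : Equiv.Perm (Fin n) => σ.support.card = j)) ⊆
      (Finset.powersetCard j (Finset.univ : Finset (Fin n))).biUnion
        (fun T => Finset.univ.filter (fun σ : Equiv.Perm (Fin n) => ∀ a, a ∉ T → σ a = a)) := by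
    intro σ hσ
    rw [Finset.mem_filter] at hσ
    rw [Finset.mem_biUnion]
    refine ⟨σ.support, Finset.mem_powersetCard.2 ⟨Finset.subset_univ _, hσ.2⟩, ?_⟩
    rw [Finset.mem_filter]
    exact ⟨Finset.mem_univ _, fun a ha => Equiv.Perm.notMem_support.1 ha⟩
  refine (Finset.card_le_card h1).trans (Finset.card_biUnion_le.trans ?_)
  have h2 : ∀ T ∈ Finset.powersetCard j (Finset.univ : Finset (Fin n)),
      (Finset.univ.filter (fun σ : Equiv.Perm (Fin n) => ∀ a, a ∉ T → σ a = a)).card =
        j.factorial := by
    intro T hT
    rw [Finset.mem_powersetCard] at hT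
    rw [← Fintype.card_subtype]
    have e := Equiv.Perm.subtypeEquivSubtypePerm (fun a : Fin n => a ∈ T)
    rw [← Fintype.card_congr e, Fintype.card_perm, Fintype.card_coe, hT.2]
  rw [Finset.sum_congr rfl h2, Finset.sum_const, Finset.card_powersetCard, Finset.card_univ,
    Fintype.card_fin, smul_eq_mul, mul_comm, ← Nat.descFactorial_eq_factorial_mul_choose]
  exact Nat.descFactorial_le_pow n j

end Pool.Agent.Lib.P5135n
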