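import Pool.Agent.Lib.P5135n.Rg1

/-!
# Module P5135n.Rg2: counting isomorphism classes

PROOF. `burnside`: Burnside's lemma (`MulAction.sum_card_fixedBy_eq_card_orbits_mul_card_group`) for the group `Equiv.Perm (Fin n)` acting on
`{G // P G}` by `σ • G = G.comap σ.symm` (equivalently `map`); `σ • G = G` iff `Inv σ G`; two graphs are in the same orbit iff they
are isomorphic.
-/

set_option autoImplicit false

namespace Pool.Agent.Lib.P5135n

/-- The number of graphs on `n` vertices with `P`, up to isomorphism. -/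
noncomputable def isoCount {n : ℕ} (P : SimpleGraph (Fin n) → Prop) : ℕ :=
  Nat.card (Quot fun G H : {G : SimpleGraph (Fin n) // P G} => Nonempty (G.1 ≃g H.1))

/-- The action of the permutations on the graphs with `P`. -/
private def rgAct {n : ℕ} (P : SimpleGraph (Fin n) → Prop)
    (hP : ∀ G H : SimpleGraph (Fin n), Nonempty (G ≃g H) → P G → P H) :
    MulAction (Equiv.Perm (Fin n)) {G : SimpleGraph (Fin n) // P G} where
  smul σ G := ⟨G.1.comap ⇑(Equiv.symm σ), hP _ _ ⟨(SimpleGraph.Iso.comap (Equiv.symm σ) G.1).symm⟩ G.2⟩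
  one_smul _ := Subtype.ext (by ext u v; exact Iff.rfl)
  mul_smul _ _ _ := Subtype.ext (by ext u v; exact Iff.rfl)

theorem burnside {n : ℕ} (P : SimpleGraph (Fin n) → Prop) (hP : ∀ G H : SimpleGraph (Fin n), Nonempty (G ≃g H) → P G → P H) :
    ∑ σ : Equiv.Perm (Fin n), Nat.card {G : SimpleGraph (Fin n) // P G ∧ Inv σ G} = isoCount P * n.factorial := by
  classical
  letI : MulAction (Equiv.Perm (Fin n)) {G : SimpleGraph (Fin n) // P G} := rgAct P hP
  have hsmul : ∀ (σ : Equiv.Perm (Fin n)) (G : {G : SimpleGraph (Fin n) // P G}),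
      (σ • G).1 = G.1.comap ⇑(Equiv.symm σ) := fun _ _ => rfl
  letI : ∀ σ : Equiv.Perm (Fin n), Fintype (MulAction.fixedBy {G : SimpleGraph (Fin n) // P G} σ) :=
    fun σ => Fintype.ofFinite _
  letI : Fintype (Quotient (MulAction.orbitRel (Equiv.Perm (Fin n)) {G : SimpleGraph (Fin n) // P G})) :=
    Fintype.ofFinite _
  have hB := MulAction.sum_card_fixedBy_eq_card_orbits_mul_card_group (Equiv.Perm (Fin n))
    {G : SimpleGraph (Fin n) // P G}
  have h1 : ∀ σ : Equiv.Perm (Fin n), Nat.card {G : SimpleGraph (Fin n) // P G ∧ Inv σ G} =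
      Fintype.card (MulAction.fixedBy {G : SimpleGraph (Fin n) // P G} σ) := by
    intro σ
    rw [← Nat.card_eq_fintype_card]
    apply Nat.card_congr
    refine
      { toFun := fun G => ⟨⟨G.1, G.2.1⟩, ?_⟩
        invFun := fun G => ⟨G.1.1, G.1.2, ?_⟩
        left_inv := fun _ => rfl
        right_inv := fun _ => rfl }
    · rw [MulAction.mem_fixedBy]
      apply Subtype.ext
      rw [hsmul]
      ext u v
      rw [SimpleGraph.comap_adj, ← G.2.2 (Equiv.symm σ u) (Equiv.symm σ v), Equiv.apply_symm_apply,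
        Equiv.apply_symm_apply]
    · intro u v
      have h2 := G.2
      rw [MulAction.mem_fixedBy] at h2
      have h3 : G.1.1.comap ⇑(Equiv.symm σ) = G.1.1 := by
        rw [← hsmul, h2]
      have h4 : (G.1.1.comap ⇑(Equiv.symm σ)).Adj (σ u) (σ v) ↔ G.1.1.Adj (σ u) (σ v) := by rw [h3]
      rw [SimpleGraph.comap_adj, Equiv.symm_apply_apply, Equiv.symm_apply_apply] at h4
      exact h4.symm
  have h2 : isoCount P = Fintype.card
      (Quotient (MulAction.orbitRel (Equiv.Perm (Fin n)) {G : SimpleGraph (Fin n) // P G})) := by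
    rw [← Nat.card_eq_fintype_card]
    unfold isoCount
    have h3 : (fun G H : {G : SimpleGraph (Fin n) // P G} => Nonempty (G.1 ≃g H.1)) =
        (MulAction.orbitRel (Equiv.Perm (Fin n)) {G : SimpleGraph (Fin n) // P G}).r := by
      funext G H
      apply propext
      change _ ↔ G ∈ MulAction.orbit (Equiv.Perm (Fin n)) H
      rw [MulAction.mem_orbit_iff]
      constructor
      · rintro ⟨e⟩
        refine ⟨Equiv.symm e.toEquiv, ?_⟩
        apply Subtype.ext
        rw [hsmul]
        ext u v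
        rw [SimpleGraph.comap_adj]
        exact e.map_rel_iff
      · rintro ⟨σ, hσ⟩
        rw [← hσ, hsmul]
        exact ⟨SimpleGraph.Iso.comap (Equiv.symm σ) H.1⟩
    rw [h3]
    rfl
  rw [Finset.sum_congr rfl fun σ _ => h1 σ, hB, h2, Fintype.card_perm, Fintype.card_fin]

end Pool.Agent.Lib.P5135n
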