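import Pool.Agent.Lib.P5135n.NumUp

/-!
# Module P5135n.Rg3: the sum over the permutations is small

PROOF. For `n` large and `2 ≤ j`: `n ^ j / 2 ^ (j (n - 4) / 9) ≤ (n / 2 ^ m) ^ j ≤ (n / 2 ^ m) ^ 2` with `m = (n - 4) / 9`
(the base is at most `1`), so the sum is at most `n (n / 2 ^ m) ^ 2`, and `m ≥ n / 10`, `(log n) ^ 2 = o (n)`.
-/

set_option autoImplicit false

open Filter Topology

namespace Pool.Agent.Lib.P5135n

theorem num_rg (c : ℝ) : Tendsto (fun n : ℕ => (∑ j ∈ Finset.Icc 2 n, (n : ℝ) ^ j / 2 ^ (j * (n - 4) / 9)) *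
    (2 : ℝ) ^ (c * (Real.logb 2 n) ^ 2)) atTop (𝓝 0) := by
  have hl2 : 0 < Real.log 2 := Real.log_pos (by norm_num)
  have h1 := (Real.isLittleO_pow_log_id_atTop (n := 2)).comp_tendsto tendsto_natCast_atTop_atTop
  have h2 := (Real.isLittleO_log_id_atTop).comp_tendsto tendsto_natCast_atTop_atTop
  have hc : 0 < |c| + 1 := by positivity
  have k1 := h1.def (show (0 : ℝ) < Real.log 2 / 20 * (Real.log 2 / (|c| + 1)) by positivity)
  have k2 := h2.def (show (0 : ℝ) < Real.log 2 / 60 by positivity)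
  have hlim : Tendsto (fun n : ℕ => Real.exp (-(Real.log 2 / 10) * (n : ℝ))) atTop (𝓝 0) := by
    have h3 : Tendsto (fun n : ℕ => (Real.log 2 / 10) * (n : ℝ)) atTop atTop :=
      tendsto_natCast_atTop_atTop.const_mul_atTop (by positivity)
    have h4 := Real.tendsto_exp_atBot.comp (tendsto_neg_atTop_atBot.comp h3)
    refine h4.congr fun n => ?_
    simp only [Function.comp, neg_mul]
  refine squeeze_zero' (Eventually.of_forall fun n => by positivity) ?_ hlim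
  filter_upwards [k1, k2, eventually_ge_atTop 120] with n g1 g2 g3
  simp only [Function.comp, id] at g1 g2
  have hn : (0 : ℝ) < n := by exact_mod_cast (by omega : 0 < n)
  have hlog : 0 ≤ Real.log (n : ℝ) := Real.log_nonneg (by exact_mod_cast (by omega : 1 ≤ n))
  rw [Real.norm_of_nonneg (by positivity), Real.norm_of_nonneg hn.le] at g1
  rw [Real.norm_of_nonneg hlog, Real.norm_of_nonneg hn.le] at g2
  obtain ⟨m, hm⟩ : ∃ m, m = (n - 4) / 9 := ⟨_, rfl⟩
  have hm10 : n ≤ 10 * m := by omega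
  have hm10' : (n : ℝ) ≤ 10 * (m : ℝ) := by exact_mod_cast hm10
  have hq : (n : ℝ) / 2 ^ m = Real.exp (Real.log n - Real.log 2 * m) := by
    rw [Real.exp_sub, Real.exp_log hn, mul_comm, Real.exp_nat_mul, Real.exp_log (by norm_num)]
  have hq0 : 0 ≤ (n : ℝ) / 2 ^ m := by positivity
  have hlm : Real.log 2 * n ≤ 10 * (Real.log 2 * m) := by nlinarith
  have hq1 : (n : ℝ) / 2 ^ m ≤ 1 := by
    rw [hq, Real.exp_le_one_iff]
    nlinarith
  have hsum : ∑ j ∈ Finset.Icc 2 n, (n : ℝ) ^ j / 2 ^ (j * (n - 4) / 9) ≤ n * ((n : ℝ) / 2 ^ m) ^ 2 := by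
    have hterm : ∀ j ∈ Finset.Icc 2 n, (n : ℝ) ^ j / 2 ^ (j * (n - 4) / 9) ≤ ((n : ℝ) / 2 ^ m) ^ 2 := by
      intro j hj
      have hj2 : 2 ≤ j := (Finset.mem_Icc.1 hj).1
      have e1 : j * m ≤ j * (n - 4) / 9 := by
        rw [hm]; exact Nat.mul_div_le_mul_div_assoc _ _ _
      have e2 : (2 : ℝ) ^ (j * m) ≤ 2 ^ (j * (n - 4) / 9) := pow_le_pow_right₀ (by norm_num) e1
      calc (n : ℝ) ^ j / 2 ^ (j * (n - 4) / 9) ≤ (n : ℝ) ^ j / 2 ^ (j * m) := by gcongr
        _ = ((n : ℝ) / 2 ^ m) ^ j := by rw [div_pow, ← pow_mul, mul_comm m j]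
        _ ≤ ((n : ℝ) / 2 ^ m) ^ 2 := pow_le_pow_of_le_one hq0 hq1 hj2
    refine (Finset.sum_le_sum hterm).trans ?_
    rw [Finset.sum_const, nsmul_eq_mul]
    refine mul_le_mul_of_nonneg_right ?_ (by positivity)
    have : (Finset.Icc 2 n).card ≤ n := by rw [Nat.card_Icc]; omega
    exact_mod_cast this
  have e3 : (2 : ℝ) ^ (c * (Real.logb 2 n) ^ 2) = Real.exp (c * (Real.log n) ^ 2 / Real.log 2) := by
    rw [Real.rpow_def_of_pos (by norm_num)]
    congr 1
    rw [Real.logb]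
    field_simp
  have e4 : c * (Real.log n) ^ 2 / Real.log 2 ≤ Real.log 2 / 20 * n := by
    rw [div_le_iff₀ hl2]
    have h6 : c * Real.log n ^ 2 ≤ (|c| + 1) * Real.log n ^ 2 :=
      mul_le_mul_of_nonneg_right (by linarith [le_abs_self c]) (by positivity)
    refine h6.trans ?_
    have h7 := mul_le_mul_of_nonneg_left g1 hc.le
    refine h7.trans (le_of_eq ?_)
    have : |c| + 1 ≠ 0 := hc.ne'
    field_simp
  calc (∑ j ∈ Finset.Icc 2 n, (n : ℝ) ^ j / 2 ^ (j * (n - 4) / 9)) * (2 : ℝ) ^ (c * (Real.logb 2 n) ^ 2)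
      ≤ (n * ((n : ℝ) / 2 ^ m) ^ 2) * (2 : ℝ) ^ (c * (Real.logb 2 n) ^ 2) :=
        mul_le_mul_of_nonneg_right hsum (by positivity)
    _ = Real.exp (Real.log n + 2 * (Real.log n - Real.log 2 * m) + c * (Real.log n) ^ 2 / Real.log 2) := by
        rw [e3, Real.exp_add, Real.exp_add, Real.exp_log hn, hq, two_mul, Real.exp_add, sq]
    _ ≤ Real.exp (-(Real.log 2 / 10) * (n : ℝ)) := by
        refine Real.exp_le_exp.2 ?_
        linarith

end Pool.Agent.Lib.P5135n
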