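import Pool.Agent.Lib.P5135n.Final3
import Pool.Agent.Lib.P5135n.Rg1b
import Pool.Agent.Lib.P5135n.Rg2
import Pool.Agent.Lib.P5135n.Rg3

/-!
# The number of extremal graphs up to isomorphism
-/

set_option autoImplicit false

open Filter Topology

namespace Pool.Agent.Lib.P5135n

open Pool.Agent.Lib.P5135a5

theorem ext_of_iso {n : ℕ} (G H : SimpleGraph (Fin n)) (h : Nonempty (G ≃g H)) (hG : Ext G) : Ext H := by
  obtain ⟨e⟩ := h
  exact ext_iso e hG

theorem sg_of_iso {n : ℕ} (G H : SimpleGraph (Fin n)) (h : Nonempty (G ≃g H)) (hG : SG G) : SG H := by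
  obtain ⟨e⟩ := h
  obtain ⟨T, hT, hout⟩ := hG
  refine ⟨T.map e.toEquiv.toEmbedding, im_iso e hT, ?_⟩
  intro v hv
  have hv' : e.symm v ∉ T := by
    intro h
    apply hv
    rw [Finset.mem_map]
    exact ⟨e.symm v, h, by simp⟩
  obtain ⟨u, hu, w, hw, huw, h1, h2⟩ := hout _ hv'
  refine ⟨e u, ?_, e w, ?_, ?_, ?_, ?_⟩
  · rw [Finset.mem_map]
    exact ⟨u, hu, rfl⟩
  · rw [Finset.mem_map]
    exact ⟨w, hw, rfl⟩
  · exact (e.map_adj_iff).2 huw
  · have h3 := (e.map_adj_iff).2 h1
    rwa [e.apply_symm_apply] at h3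
  · have h3 := (e.map_adj_iff).2 h2
    rwa [e.apply_symm_apply] at h3

theorem sum_perm_le (n : ℕ) (P : SimpleGraph (Fin n) → Prop) :
    ∑ σ ∈ (Finset.univ : Finset (Equiv.Perm (Fin n))).filter (fun σ => σ ≠ 1),
      (Nat.card {G : SimpleGraph (Fin n) // P G ∧ Inv σ G} : ℝ) ≤
      2 ^ (n.choose 2) * ∑ j ∈ Finset.Icc 2 n, (n : ℝ) ^ j / 2 ^ (j * (n - 4) / 9) := by
  classical
  have h1 : ∀ σ ∈ (Finset.univ : Finset (Equiv.Perm (Fin n))).filter (fun σ => σ ≠ 1), σ.support.card ∈ Finset.Icc 2 n := by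
    intro σ hσ
    rw [Finset.mem_filter] at hσ
    rw [Finset.mem_Icc]
    refine ⟨Equiv.Perm.two_le_card_support_of_ne_one hσ.2, ?_⟩
    have := Finset.card_le_univ σ.support
    rwa [Fintype.card_fin] at this
  rw [← Finset.sum_fiberwise_of_maps_to h1, Finset.mul_sum]
  refine Finset.sum_le_sum fun j _ => ?_
  have h2 : ∀ σ ∈ ((Finset.univ : Finset (Equiv.Perm (Fin n))).filter (fun σ => σ ≠ 1)).filter (fun σ => σ.support.card = j),
      (Nat.card {G : SimpleGraph (Fin n) // P G ∧ Inv σ G} : ℝ) ≤ 2 ^ (n.choose 2) / 2 ^ (j * (n - 4) / 9) := by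
    intro σ hσ
    rw [Finset.mem_filter] at hσ
    have h3 := card_inv σ
    rw [hσ.2] at h3
    have h4 : Nat.card {G : SimpleGraph (Fin n) // P G ∧ Inv σ G} ≤ Nat.card {G : SimpleGraph (Fin n) // Inv σ G} :=
      card_mono' (α := SimpleGraph (Fin n)) (fun G => P G ∧ Inv σ G) (Inv σ) (fun G h => h.2)
    rw [le_div_iff₀ (by positivity)]
    exact_mod_cast (Nat.mul_le_mul_right _ h4).trans h3
  refine (Finset.sum_le_card_nsmul _ _ _ h2).trans ?_
  rw [nsmul_eq_mul]
  have h5 : ((((Finset.univ : Finset (Equiv.Perm (Fin n))).filter (fun σ => σ ≠ 1)).filter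
      (fun σ => σ.support.card = j)).card : ℝ) ≤ (n : ℝ) ^ j := by
    have h6 : (((Finset.univ : Finset (Equiv.Perm (Fin n))).filter (fun σ => σ ≠ 1)).filter
        (fun σ => σ.support.card = j)).card ≤ n ^ j := by
      refine (Finset.card_le_card ?_).trans (card_support_le n j)
      intro σ hσ
      rw [Finset.mem_filter] at hσ ⊢
      exact ⟨Finset.mem_univ _, hσ.2⟩
    exact_mod_cast h6
  refine (mul_le_mul_of_nonneg_right h5 (by positivity)).trans (le_of_eq ?_)
  ring

/-- For an invariant property of all extremal graphs, almost all graphs are rigid. -/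
theorem iso_gen (P : ∀ n : ℕ, SimpleGraph (Fin n) → Prop)
    (hP : ∀ (n : ℕ) (G H : SimpleGraph (Fin n)), Nonempty (G ≃g H) → P n G → P n H)
    (hE : ∀ (n : ℕ) (G : SimpleGraph (Fin n)), Ext G → P n G) :
    Tendsto (fun n : ℕ => (isoCount (P n) : ℝ) * n.factorial / Nat.card {G : SimpleGraph (Fin n) // P n G}) atTop (𝓝 1) := by
  classical
  have hβ := beta_gt_two
  set c : ℝ := 2 * beta * (beta - 1) + 1 with hc
  have hlim := num_rg c
  have h1 : Tendsto (fun n : ℕ => 1 + (∑ j ∈ Finset.Icc 2 n, (n : ℝ) ^ j / 2 ^ (j * (n - 4) / 9)) *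
      (2 : ℝ) ^ (c * (Real.logb 2 n) ^ 2)) atTop (𝓝 1) := by
    have h2 := tendsto_const_nhds (x := (1 : ℝ)) (f := (atTop : Filter ℕ)) |>.add hlim
    simpa using h2
  have key : ∀ n : ℕ, (isoCount (P n) : ℝ) * n.factorial =
      (Nat.card {G : SimpleGraph (Fin n) // P n G} : ℝ) +
        ∑ σ ∈ (Finset.univ : Finset (Equiv.Perm (Fin n))).filter (fun σ => σ ≠ 1),
        (Nat.card {G : SimpleGraph (Fin n) // P n G ∧ Inv σ G} : ℝ) := by
    intro n
    have h2 := burnside (P n) (hP n)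
    have h3 : (isoCount (P n) : ℝ) * n.factorial =
        ∑ σ : Equiv.Perm (Fin n), (Nat.card {G : SimpleGraph (Fin n) // P n G ∧ Inv σ G} : ℝ) := by
      exact_mod_cast h2.symm
    rw [h3, ← Finset.sum_filter_add_sum_filter_not Finset.univ (fun σ : Equiv.Perm (Fin n) => σ ≠ 1), add_comm]
    congr 1
    have h4 : (Finset.univ : Finset (Equiv.Perm (Fin n))).filter (fun σ => ¬ σ ≠ 1) = {1} := by
      ext σ
      simp
    rw [h4, Finset.sum_singleton]
    have h5 : Nat.card {G : SimpleGraph (Fin n) // P n G ∧ Inv 1 G} = Nat.card {G : SimpleGraph (Fin n) // P n G} := by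
      refine Nat.card_congr (Equiv.subtypeEquivRight fun G => ?_)
      constructor
      · exact fun h => h.1
      · exact fun h => ⟨h, fun u v => Iff.rfl⟩
    exact_mod_cast h5
  have hle : ∀ n : ℕ, (extCount n : ℝ) ≤ Nat.card {G : SimpleGraph (Fin n) // P n G} := by
    intro n
    exact_mod_cast card_mono' (α := SimpleGraph (Fin n)) Ext (P n) (hE n)
  refine tendsto_of_tendsto_of_tendsto_of_le_of_le' tendsto_const_nhds h1 ?_ ?_
  · filter_upwards [ext_eventually_pos] with n hn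
    have hE : (0 : ℝ) < extCount n := by exact_mod_cast hn
    rw [le_div_iff₀ (hE.trans_le (hle n)), one_mul, key]
    exact le_add_of_nonneg_right (Finset.sum_nonneg fun σ _ => Nat.cast_nonneg _)
  · filter_upwards [extCount_ge (show (0 : ℝ) < 1 by norm_num)] with n hn
    rw [← hc] at hn
    have hE : (0 : ℝ) < extCount n := lt_of_lt_of_le (by positivity) hn
    rw [div_le_iff₀ (hE.trans_le (hle n)), key, add_mul, one_mul]
    refine add_le_add le_rfl ((sum_perm_le n (P n)).trans ?_)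
    have h5 : (2 : ℝ) ^ (c * Real.logb 2 n ^ 2) * (2 : ℝ) ^ (-c * Real.logb 2 n ^ 2) = 1 := by
      rw [← Real.rpow_add (by norm_num), show c * Real.logb 2 n ^ 2 + -c * Real.logb 2 n ^ 2 = 0 by ring, Real.rpow_zero]
    have h6 : (2 : ℝ) ^ (n.choose 2) ≤ (2 : ℝ) ^ (c * Real.logb 2 n ^ 2) * Nat.card {G : SimpleGraph (Fin n) // P n G} := by
      refine le_trans (le_of_eq ?_) (mul_le_mul_of_nonneg_left (hn.trans (hle n)) (by positivity))
      rw [← mul_assoc, h5, one_mul]
    have h7 : (0 : ℝ) ≤ ∑ j ∈ Finset.Icc 2 n, (n : ℝ) ^ j / 2 ^ (j * (n - 4) / 9) :=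
      Finset.sum_nonneg fun j _ => by positivity
    calc (2 : ℝ) ^ (n.choose 2) * ∑ j ∈ Finset.Icc 2 n, (n : ℝ) ^ j / 2 ^ (j * (n - 4) / 9)
        ≤ ((2 : ℝ) ^ (c * Real.logb 2 n ^ 2) * Nat.card {G : SimpleGraph (Fin n) // P n G}) *
          ∑ j ∈ Finset.Icc 2 n, (n : ℝ) ^ j / 2 ^ (j * (n - 4) / 9) :=
          mul_le_mul_of_nonneg_right h6 h7
      _ = _ := by ring

theorem iso_asymptotics : Tendsto (fun n : ℕ => (isoCount (fun G : SimpleGraph (Fin n) => Ext G) : ℝ) * n.factorial /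
    Nat.card {G : SimpleGraph (Fin n) // Ext G}) atTop (𝓝 1) :=
  iso_gen (fun _ G => Ext G) (fun _ => ext_of_iso) (fun _ _ h => h)

/-- The number of extremal graphs over the number of graphs with the structure. -/
theorem ext_over_sg : Tendsto (fun n : ℕ => (Nat.card {G : SimpleGraph (Fin n) // Ext G} : ℝ) /
    Nat.card {G : SimpleGraph (Fin n) // SG G}) atTop (𝓝 1) := by
  refine tendsto_of_tendsto_of_tendsto_of_le_of_le' structure_suffices tendsto_const_nhds ?_ ?_
  · refine Eventually.of_forall fun n => ?_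
    refine div_le_div_of_nonneg_right ?_ (Nat.cast_nonneg _)
    exact_mod_cast card_mono' (α := SimpleGraph (Fin n)) (fun G => SG G ∧ GG G) Ext (fun G h => h.2.1)
  · refine Eventually.of_forall fun n => ?_
    refine div_le_one_of_le₀ ?_ (Nat.cast_nonneg _)
    exact_mod_cast card_mono' (α := SimpleGraph (Fin n)) Ext SG (fun G h => sg_of_ext h)

/-- Almost every isomorphism class of graphs with the structure is extremal. -/
theorem iso_ratio : Tendsto (fun n : ℕ => (isoCount (fun G : SimpleGraph (Fin n) => Ext G) : ℝ) /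
    isoCount (fun G : SimpleGraph (Fin n) => SG G)) atTop (𝓝 1) := by
  have h1 := iso_asymptotics
  have h2 := iso_gen (fun _ G => SG G) (fun _ => sg_of_iso) (fun _ _ h => sg_of_ext h)
  have h3 := (h1.mul ext_over_sg).div h2 one_ne_zero
  rw [mul_one, div_one] at h3
  refine h3.congr' ?_
  filter_upwards [ext_eventually_pos] with n hn
  have hE : (0 : ℝ) < Nat.card {G : SimpleGraph (Fin n) // Ext G} := by
    have : 0 < Nat.card {G : SimpleGraph (Fin n) // Ext G} := hn
    exact_mod_cast this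
  have hS : (0 : ℝ) < Nat.card {G : SimpleGraph (Fin n) // SG G} := by
    refine hE.trans_le ?_
    exact_mod_cast card_mono' (α := SimpleGraph (Fin n)) Ext SG (fun G h => sg_of_ext h)
  have hf : (0 : ℝ) < n.factorial := by exact_mod_cast Nat.factorial_pos n
  simp only [Pi.mul_apply, Pi.div_apply]
  field_simp

end Pool.Agent.Lib.P5135n
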