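import Pool.Agent.Lib.P5135n.TwoPt

/-!
# The asymptotic law of `Γ` on the extremal graphs
-/

set_option autoImplicit false

open Filter Topology

namespace Pool.Agent.Lib.P5135n

open Pool.Agent.Lib.P5135a5

private theorem law_term {c a E A : ℝ} (hc : 0 ≤ c) (hca : c ≤ a) (hE : 0 < E) (hEA : E ≤ A) :
    |c / E - a / A| ≤ c * ((A - E) / (E * A)) + (a - c) / A := by
  have hA : 0 < A := hE.trans_le hEA
  have h4 : c / E - a / A = c * ((A - E) / (E * A)) - (a - c) / A := by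
    field_simp
    ring
  rw [h4]
  have h5 : 0 ≤ c * ((A - E) / (E * A)) := mul_nonneg hc (div_nonneg (by linarith) (by positivity))
  have h6 : 0 ≤ (a - c) / A := div_nonneg (by linarith) hA.le
  rw [abs_le]
  constructor <;> linarith

private theorem law_sum (s : Finset ℕ) (c a : ℕ → ℝ) {E : ℝ} (hE : 0 < E) (hEA : E ≤ ∑ j ∈ s, a j)
    (hc : ∀ k ∈ s, 0 ≤ c k) (hca : ∀ k ∈ s, c k ≤ a k) (hsum : ∑ k ∈ s, c k = E) :
    ∑ k ∈ s, |c k / E - a k / ∑ j ∈ s, a j| ≤ 2 * ((∑ j ∈ s, a j - E) / E) := by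
  set A : ℝ := ∑ j ∈ s, a j with hA
  have hA0 : 0 < A := hE.trans_le hEA
  refine (Finset.sum_le_sum fun k hk => law_term (hc k hk) (hca k hk) hE hEA).trans ?_
  rw [Finset.sum_add_distrib, ← Finset.sum_mul, ← Finset.sum_div, Finset.sum_sub_distrib, hsum, ← hA]
  have h1 : E * ((A - E) / (E * A)) = (A - E) / A := by
    field_simp
  have h2 : (A - E) / A ≤ (A - E) / E := div_le_div_of_nonneg_left (by linarith) hE hEA
  rw [h1]
  linarith

theorem gamma_law : Tendsto (fun n : ℕ => ∑ k ∈ Finset.Icc 1 (n / 2),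
    |(Nat.card {G : SimpleGraph (Fin n) // Ext G ∧ upperDom G = k} : ℝ) / Nat.card {G : SimpleGraph (Fin n) // Ext G} -
      AA n k / ∑ j ∈ Finset.Icc 1 (n / 2), AA n j|) atTop (𝓝 0) := by
  rw [Metric.tendsto_atTop]
  intro ε hε
  obtain ⟨N, hN⟩ := eventually_atTop.1 (((sum_le_ext (show (0 : ℝ) < ε / 4 by positivity)).and
    (eventually_ge_atTop 1)).and ext_eventually_pos)
  refine ⟨N, fun n hn => ?_⟩
  obtain ⟨⟨g1, g2⟩, g3⟩ := hN n hn
  have hE : (0 : ℝ) < extCount n := by exact_mod_cast g3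
  have h1 := ext_le_sum g2
  have hcA : ∀ k ∈ Finset.Icc 1 (n / 2),
      (Nat.card {G : SimpleGraph (Fin n) // Ext G ∧ upperDom G = k} : ℝ) ≤ AA n k := by
    intro k hk
    rw [Finset.mem_Icc] at hk
    exact extK_le_AA (by omega)
  have hsum1 : extCount n ≤ ∑ k ∈ Finset.Icc 1 (n / 2), Nat.card {G : SimpleGraph (Fin n) // Ext G ∧ upperDom G = k} := by
    refine card_le_sum (α := SimpleGraph (Fin n)) _ _ (fun k G => Ext G ∧ upperDom G = k) ?_
    intro G hG
    obtain ⟨h6, h7⟩ := ext_range g2 hG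
    exact ⟨upperDom G, by rw [Finset.mem_Icc]; exact ⟨h6, h7⟩, hG, rfl⟩
  have hsum2 : ∑ k ∈ Finset.Icc 1 (n / 2), Nat.card {G : SimpleGraph (Fin n) // Ext G ∧ upperDom G = k} ≤ extCount n :=
    sum_le_card (α := SimpleGraph (Fin n)) Ext (Finset.Icc 1 (n / 2))
      (fun k G => Ext G ∧ upperDom G = k) (fun G k h => h.1) (fun G k k' h h' => h.2.symm.trans h'.2)
  have hsum3 := le_antisymm hsum2 hsum1
  have hsum : ∑ k ∈ Finset.Icc 1 (n / 2), (Nat.card {G : SimpleGraph (Fin n) // Ext G ∧ upperDom G = k} : ℝ) =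
      extCount n := by exact_mod_cast hsum3
  have htot := law_sum (Finset.Icc 1 (n / 2))
    (fun k => (Nat.card {G : SimpleGraph (Fin n) // Ext G ∧ upperDom G = k} : ℝ)) (AA n) hE h1
    (fun k _ => Nat.cast_nonneg _) hcA hsum
  have hfin : (∑ j ∈ Finset.Icc 1 (n / 2), AA n j - extCount n) / extCount n ≤ ε / 4 := by
    rw [div_le_iff₀ hE]
    linarith
  change dist (∑ k ∈ Finset.Icc 1 (n / 2),
    |(Nat.card {G : SimpleGraph (Fin n) // Ext G ∧ upperDom G = k} : ℝ) / (extCount n : ℝ) -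
      AA n k / ∑ j ∈ Finset.Icc 1 (n / 2), AA n j|) 0 < ε
  rw [Real.dist_eq, sub_zero, abs_of_nonneg (Finset.sum_nonneg fun k _ => abs_nonneg _)]
  linarith

end Pool.Agent.Lib.P5135n
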