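import Pool.Agent.Lib.P5135n.Defs

/-!
# Module P5135n.NonAdj: counting under many non-adjacencies

PROOF. `card_false`: for a finite type `ι` and `D : Finset ι` the number of `f : ι → Bool` with `f = false` on `D` times
`2 ^ D.card` is `2 ^ card ι` (`Fintype.card_piFinset` with `{false}` on `D`, `univ` off `D`, or induction).
`nonAdj`: let `D₁ = {(x, i, c) | x ∈ W, inl (i, c) ∈ N x}` and `D₂ = {s(x, y) | x ∈ W, inr y ∈ N x}` (not diagonal as
`inr x ∉ N x`). If no `x ∈ W` is adjacent to a vertex of `N x` then `g = false` on `D₁` and `h = false` on `D₂`, so the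
number of `ω` is at most `2 ^ (2 k r - |D₁|) * 2 ^ (choose r 2 - |D₂|)`. Handshake: `∑_{x ∈ W} |N x| = |D₁| + #{(x, y) | x ∈ W,
inr y ∈ N x} ≤ |D₁| + 2 |D₂|` (every unordered pair comes from at most two ordered ones), so
`2 d |W| ≤ |D₁| + 2 |D₂| ≤ 2 (|D₁| + |D₂|)`.
-/

set_option autoImplicit false

namespace Pool.Agent.Lib.P5135n

theorem card_false {ι : Type} [Fintype ι] [DecidableEq ι] (D : Finset ι) :
    Nat.card {f : ι → Bool // ∀ q ∈ D, f q = false} * 2 ^ D.card = 2 ^ Fintype.card ι := by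
  have e : {f : ι → Bool // ∀ q ∈ D, f q = false} ≃ ({q : ι // q ∉ D} → Bool) :=
    { toFun := fun f q => f.1 q.1
      invFun := fun g => ⟨fun q => if h : q ∈ D then false else g ⟨q, h⟩, fun q hq => dif_pos hq⟩
      left_inv := by
        intro f
        apply Subtype.ext
        funext q
        by_cases h : q ∈ D
        · simp only [dif_pos h]
          exact (f.2 q h).symm
        · simp only [dif_neg h]
      right_inv := by
        intro g
        funext q
        simp only [dif_neg q.2] }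
  have h1 : Fintype.card {q : ι // q ∉ D} = Fintype.card ι - D.card := by
    rw [Fintype.card_subtype_compl, Fintype.card_coe]
  have h2 : D.card ≤ Fintype.card ι := Finset.card_le_univ D
  rw [Nat.card_congr e, Nat.card_eq_fintype_card, Fintype.card_fun, Fintype.card_bool, h1,
    ← pow_add, Nat.sub_add_cancel h2]

theorem nonAdj {k r : ℕ} (d : ℕ) (W : Finset (Fin r)) (N : Fin r → Finset (VV k r))
    (hN : ∀ x ∈ W, Sum.inr x ∉ N x) (hd : ∀ x ∈ W, 2 * d ≤ (N x).card) :
    Nat.card {ω : Om k r // ∀ x ∈ W, ∀ y ∈ N x, ¬ (mkG ω).Adj (Sum.inr x) y} * 2 ^ (d * W.card) ≤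
      2 ^ (2 * k * r + r.choose 2) := by
  classical
  let D1 : Finset (Fin r × Fin k × Bool) :=
    Finset.univ.filter fun t => t.1 ∈ W ∧ Sum.inl (t.2.1, t.2.2) ∈ N t.1
  let P : Finset (Fin r × Fin r) := Finset.univ.filter fun t => t.1 ∈ W ∧ Sum.inr t.2 ∈ N t.1
  let D2' : Finset (Sym2 (Fin r)) := P.image fun t => s(t.1, t.2)
  let D2 : Finset {q : Sym2 (Fin r) // ¬ q.IsDiag} := D2'.subtype fun q => ¬ q.IsDiag
  have hmemP : ∀ t : Fin r × Fin r, t ∈ P ↔ t.1 ∈ W ∧ Sum.inr t.2 ∈ N t.1 := by
    intro t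
    simp only [P, Finset.mem_filter, Finset.mem_univ, true_and]
  have hmemD1 : ∀ t : Fin r × Fin k × Bool, t ∈ D1 ↔ t.1 ∈ W ∧ Sum.inl (t.2.1, t.2.2) ∈ N t.1 := by
    intro t
    simp only [D1, Finset.mem_filter, Finset.mem_univ, true_and]
  -- the double counting
  have hS : 2 * d * W.card ≤ D1.card + P.card := by
    calc 2 * d * W.card = ∑ _x ∈ W, 2 * d := by
          rw [Finset.sum_const, smul_eq_mul, mul_comm]
      _ ≤ ∑ x ∈ W, (N x).card := Finset.sum_le_sum hd
      _ = (W.sigma N).card := (Finset.card_sigma W N).symm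
      _ ≤ (D1.disjSum P).card := by
          refine Finset.card_le_card_of_injOn
            (fun t : (_ : Fin r) × VV k r => match t.2 with
              | .inl q => Sum.inl (t.1, q.1, q.2)
              | .inr y => Sum.inr (t.1, y)) ?_ ?_
          · rintro ⟨x, q | y⟩ ht
            · rw [Finset.mem_coe, Finset.mem_sigma] at ht
              refine Finset.mem_coe.2 (Finset.inl_mem_disjSum.2 ?_)
              rw [hmemD1]
              exact ht
            · rw [Finset.mem_coe, Finset.mem_sigma] at ht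
              refine Finset.mem_coe.2 (Finset.inr_mem_disjSum.2 ?_)
              rw [hmemP]
              exact ht
          · rintro ⟨x, ⟨i, c⟩ | y⟩ _ ⟨x', ⟨i', c'⟩ | y'⟩ _ h
            · simp only [Sum.inl.injEq, Prod.mk.injEq] at h
              obtain ⟨rfl, rfl, rfl⟩ := h
              rfl
            · simp only [reduceCtorEq] at h
            · simp only [reduceCtorEq] at h
            · simp only [Sum.inr.injEq, Prod.mk.injEq] at h
              obtain ⟨rfl, rfl⟩ := h
              rfl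
      _ = D1.card + P.card := Finset.card_disjSum _ _
  have hP : P.card ≤ 2 * D2'.card := by
    refine Finset.card_le_mul_card_image_of_maps_to
      (f := fun t : Fin r × Fin r => s(t.1, t.2)) (fun t ht => Finset.mem_image_of_mem _ ht) 2 ?_
    intro q hq
    obtain ⟨t, -, rfl⟩ := Finset.mem_image.1 hq
    refine le_trans (Finset.card_le_card (t := {(t.1, t.2), (t.2, t.1)}) ?_) Finset.card_le_two
    intro t' ht'
    rw [Finset.mem_filter] at ht'
    have h1 := ht'.2
    rw [Sym2.eq_iff] at h1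
    rw [Finset.mem_insert, Finset.mem_singleton]
    rcases h1 with ⟨h1, h2⟩ | ⟨h1, h2⟩
    · exact Or.inl (Prod.ext h1 h2)
    · exact Or.inr (Prod.ext h1 h2)
  have hdiag : ∀ q ∈ D2', ¬ q.IsDiag := by
    intro q hq
    obtain ⟨t, ht, rfl⟩ := Finset.mem_image.1 hq
    rw [hmemP] at ht
    rw [Sym2.mk_isDiag_iff]
    intro h
    exact hN t.1 ht.1 (by rw [h]; rw [h] at ht; exact ht.2)
  have hD2 : D2.card = D2'.card := by
    rw [Finset.card_subtype, Finset.filter_true_of_mem hdiag]
  have hle : d * W.card ≤ D1.card + D2.card := by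
    rw [hD2]
    have h1 : 2 * (d * W.card) = 2 * d * W.card := by ring
    omega
  -- the injection
  have hcard : Nat.card {ω : Om k r // ∀ x ∈ W, ∀ y ∈ N x, ¬ (mkG ω).Adj (Sum.inr x) y} ≤
      Nat.card {f : Fin r × Fin k × Bool → Bool // ∀ q ∈ D1, f q = false} *
        Nat.card {f : {q : Sym2 (Fin r) // ¬ q.IsDiag} → Bool // ∀ q ∈ D2, f q = false} := by
    rw [← Nat.card_prod]
    refine Nat.card_le_card_of_injective
      (fun ω => (⟨fun t => ω.1.1 t.1 t.2.1 t.2.2, ?_⟩, ⟨ω.1.2, ?_⟩)) ?_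
    · rintro ⟨x, i, c⟩ ht
      rw [hmemD1] at ht
      have h1 := ω.2 x ht.1 _ ht.2
      have h2 : ¬ (ω.1.1 x i c = true) := h1
      exact Bool.eq_false_of_not_eq_true h2
    · rintro ⟨q, hq⟩ ht
      have ht' : q ∈ D2' := (Finset.mem_subtype.1 ht)
      obtain ⟨t, ht2, rfl⟩ := Finset.mem_image.1 ht'
      rw [hmemP] at ht2
      have h1 := ω.2 t.1 ht2.1 _ ht2.2
      have h2 : ¬ (∃ h : ¬ (s(t.1, t.2)).IsDiag, ω.1.2 ⟨s(t.1, t.2), h⟩ = true) := h1
      push Not at h2
      exact Bool.eq_false_of_not_eq_true (h2 hq)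
    · intro ω ω' h
      apply Subtype.ext
      have h1 := congrArg (fun z => z.1.1) h
      have h2 := congrArg (fun z => z.2.1) h
      simp only at h1 h2
      refine Prod.ext ?_ h2
      funext x i c
      exact congrFun h1 (x, i, c)
  have e1 := card_false D1
  have e2 := card_false D2
  have e3 : Fintype.card (Fin r × Fin k × Bool) = 2 * k * r := by
    rw [Fintype.card_prod, Fintype.card_prod, Fintype.card_fin, Fintype.card_fin, Fintype.card_bool]
    ring
  have e4 : Fintype.card {q : Sym2 (Fin r) // ¬ q.IsDiag} = r.choose 2 := by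
    rw [Sym2.card_subtype_not_diag, Fintype.card_fin]
  rw [e3] at e1
  rw [e4] at e2
  calc Nat.card {ω : Om k r // ∀ x ∈ W, ∀ y ∈ N x, ¬ (mkG ω).Adj (Sum.inr x) y} *
        2 ^ (d * W.card)
      ≤ (Nat.card {f : Fin r × Fin k × Bool → Bool // ∀ q ∈ D1, f q = false} *
        Nat.card {f : {q : Sym2 (Fin r) // ¬ q.IsDiag} → Bool // ∀ q ∈ D2, f q = false}) *
        2 ^ (D1.card + D2.card) :=
        Nat.mul_le_mul hcard (Nat.pow_le_pow_right (by norm_num) hle)
    _ = (Nat.card {f : Fin r × Fin k × Bool → Bool // ∀ q ∈ D1, f q = false} * 2 ^ D1.card) *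
        (Nat.card {f : {q : Sym2 (Fin r) // ¬ q.IsDiag} → Bool // ∀ q ∈ D2, f q = false} *
          2 ^ D2.card) := by
        rw [pow_add]
        ring
    _ = 2 ^ (2 * k * r + r.choose 2) := by
        rw [e1, e2, pow_add]

end Pool.Agent.Lib.P5135n
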