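import Pool.Agent.Lib.P5135n.Defs

/-!
# Module P5135n.NumUp: asymptotics of the upper bound

`β = log 2 / log (4/3) = 2.409..`, `L = Real.logb 2 n`. PROOF. Let `t = 2 β (β - 1) - ε` (`ε` small, `δ > 0` with `δ < 1/4` and
`2 (β - δ) (β - δ - 1) ≥ 2 β (β - 1) - ε / 2`). Terms with `k ≤ (β - δ) L`: `(3/4) ^ k ≥ n ^ (-(1 - δ / β))`
(`(3/4) ^ L = n ^ (-1/β)`), `n - 2 k ≥ n / 2`, `(1 - y) ^ N ≤ exp (- y N)`, so the term is at most
`2 ^ (2 β L²) exp (- n ^ (δ / β) / 2)`, which is `≤ 2 ^ (- t L²) / n` eventually. Terms with `k > (β - δ) L`: the term is at most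
`2 ^ (2 k L - 2 k² + k) = 2 ^ (- 2 k (k - L - 1/2))`, `k - L - 1/2 ≥ (β - δ - 1) L - 1/2 > 0`, so it is at most
`2 ^ (- 2 (β - δ) L ((β - δ - 1) L - 1/2)) ≤ 2 ^ (-(t + ε/4) L²)` eventually. There are at most `n = 2 ^ L` terms.
-/

set_option autoImplicit false

open Filter

namespace Pool.Agent.Lib.P5135n

/-- The number `1 / log₂ (4/3)`. -/
noncomputable def beta : ℝ := Real.log 2 / Real.log (4 / 3)

/-- The terms of the upper bound. -/
noncomputable def term (n k : ℕ) : ℝ :=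
  (n : ℝ) ^ (2 * k) * (1 - (3 / 4 : ℝ) ^ k) ^ (n - 2 * k) / 2 ^ (k * (2 * k - 1))

theorem log43_pos : 0 < Real.log (4 / 3 : ℝ) := Real.log_pos (by norm_num)

theorem beta_gt_two : 2 < beta := by
  unfold beta
  rw [lt_div_iff₀ log43_pos]
  have h : (2 : ℝ) * Real.log (4 / 3) = Real.log ((4 / 3) ^ 2) := by
    rw [Real.log_pow]; norm_num
  rw [h]
  exact Real.log_lt_log (by norm_num) (by norm_num)

theorem beta_lt_three : beta < 3 := by
  unfold beta
  rw [div_lt_iff₀ log43_pos]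
  have h : (3 : ℝ) * Real.log (4 / 3) = Real.log ((4 / 3) ^ 3) := by
    rw [Real.log_pow]; norm_num
  rw [h]
  exact Real.log_lt_log (by norm_num) (by norm_num)

theorem beta_mul_log43 : beta * Real.log (4 / 3) = Real.log 2 := by
  unfold beta
  field_simp [log43_pos.ne']

theorem two_rpow_logb {n : ℕ} (hn : 1 ≤ n) : (2 : ℝ) ^ Real.logb 2 n = n :=
  Real.rpow_logb (by norm_num) (by norm_num) (by exact_mod_cast hn)

theorem npow_eq {n : ℕ} (hn : 1 ≤ n) (k : ℕ) :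
    (n : ℝ) ^ (2 * k) = (2 : ℝ) ^ (2 * (k : ℝ) * Real.logb 2 n) := by
  have h : (2 * (k : ℝ) * Real.logb 2 n) = Real.logb 2 n * ((2 * k : ℕ) : ℝ) := by
    push_cast; ring
  rw [h, Real.rpow_mul (by norm_num), two_rpow_logb hn, Real.rpow_natCast]

theorem y_mem (k : ℕ) : 0 < (3 / 4 : ℝ) ^ k ∧ (3 / 4 : ℝ) ^ k ≤ 1 :=
  ⟨by positivity, pow_le_one₀ (by norm_num) (by norm_num)⟩

theorem pow_le_one' (n k : ℕ) : (1 - (3 / 4 : ℝ) ^ k) ^ (n - 2 * k) ≤ 1 := by
  have h := y_mem k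
  exact pow_le_one₀ (by linarith [h.2]) (by linarith [h.1])

theorem tendsto_logb : Tendsto (fun n : ℕ => Real.logb 2 (n : ℝ)) atTop atTop :=
  (Real.tendsto_logb_atTop (by norm_num)).comp tendsto_natCast_atTop_atTop

theorem term_large {γ : ℝ} (hγ : 1 < γ) {ε : ℝ} (hε : 0 < ε) : ∀ᶠ n : ℕ in atTop, ∀ k : ℕ,
    1 ≤ k → 2 * k ≤ n → γ * Real.logb 2 n ≤ k →
      term n k ≤ (2 : ℝ) ^ (-(2 * γ * (γ - 1) - ε) * (Real.logb 2 n) ^ 2) := by
  have hγ1 : 0 < γ - 1 := by linarith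
  filter_upwards [tendsto_logb.eventually_ge_atTop (1 / (2 * (γ - 1))),
    tendsto_logb.eventually_ge_atTop (γ / ε), tendsto_logb.eventually_ge_atTop 1,
    eventually_ge_atTop 1] with n h1 h2 h3 hn k hk hkn hkL
  set L := Real.logb 2 (n : ℝ) with hL
  have hk' : (1 : ℝ) ≤ k := by exact_mod_cast hk
  have e1 : ((k * (2 * k - 1) : ℕ) : ℝ) = (k : ℝ) * (2 * k - 1) := by
    have h2k : 1 ≤ 2 * k := by omega
    push_cast [Nat.cast_sub h2k]
    ring
  have e2 : (2 : ℝ) ^ (k * (2 * k - 1)) = (2 : ℝ) ^ ((k : ℝ) * (2 * k - 1)) := by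
    rw [← e1, Real.rpow_natCast]
  have h4 : term n k ≤ (2 : ℝ) ^ (2 * (k : ℝ) * L - (k : ℝ) * (2 * k - 1)) := by
    rw [Real.rpow_sub (by norm_num), ← npow_eq hn, ← e2]
    unfold term
    refine div_le_div_of_nonneg_right ?_ (by positivity)
    exact mul_le_of_le_one_right (by positivity) (pow_le_one' n k)
  refine h4.trans (Real.rpow_le_rpow_of_exponent_le (by norm_num) ?_)
  have h5 : 1 ≤ 2 * (γ - 1) * L := by
    rw [div_le_iff₀ (by positivity)] at h1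
    linarith
  have h6 : γ ≤ ε * L := by
    rw [div_le_iff₀ hε] at h2
    linarith
  have h7 : 0 ≤ (k : ℝ) - γ * L := by linarith
  have h8 : 0 ≤ L := by linarith
  nlinarith [mul_nonneg h7 (by linarith : (0 : ℝ) ≤ 2 * (k : ℝ) + 2 * γ * L - 2 * L - 1),
    mul_nonneg h8 (by linarith : 0 ≤ ε * L - γ)]

theorem term_small {δ : ℝ} (hδ : 0 < δ) (C : ℝ) : ∀ᶠ n : ℕ in atTop, ∀ k : ℕ,
    2 * k ≤ n → (k : ℝ) ≤ (beta - δ) * Real.logb 2 n →
      term n k ≤ (2 : ℝ) ^ (-C * (Real.logb 2 n) ^ 2) := by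
  have hβ := beta_gt_two
  have hβ0 : 0 < beta := by linarith
  set η : ℝ := δ / beta with hη
  have hη0 : 0 < η := by positivity
  have hl2 : 0 < Real.log 2 := Real.log_pos (by norm_num)
  -- `4 β L ≤ n`
  have t1 : ∀ᶠ n : ℕ in atTop, Real.log (n : ℝ) ≤ Real.log 2 / (4 * beta) * (n : ℝ) := by
    have h := (Real.isLittleO_log_id_atTop.comp_tendsto tendsto_natCast_atTop_atTop).bound
      (show (0 : ℝ) < Real.log 2 / (4 * beta) by positivity)
    filter_upwards [h, eventually_ge_atTop 1] with n hn hn1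
    simp only [Function.comp, id, Real.norm_eq_abs] at hn
    rw [abs_of_nonneg (Real.log_nonneg (by exact_mod_cast hn1)), abs_of_nonneg (Nat.cast_nonneg n)]
      at hn
    exact hn
  -- `(|C| + 2 β) L² log 2 ≤ n ^ η / 2`
  set K : ℝ := (|C| + 2 * beta) / Real.log 2 with hK
  have hK0 : 0 < K := by positivity
  have t2 : ∀ᶠ n : ℕ in atTop, Real.log (n : ℝ) ^ (2 : ℝ) ≤ 1 / (2 * K) * (n : ℝ) ^ η := by
    have h := ((isLittleO_log_rpow_rpow_atTop 2 hη0).comp_tendsto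
      tendsto_natCast_atTop_atTop).bound (show (0 : ℝ) < 1 / (2 * K) by positivity)
    filter_upwards [h, eventually_ge_atTop 1] with n hn hn1
    simp only [Function.comp, Real.norm_eq_abs] at hn
    rw [abs_of_nonneg (Real.rpow_nonneg (Real.log_nonneg (by exact_mod_cast hn1)) _),
      abs_of_nonneg (Real.rpow_nonneg (Nat.cast_nonneg n) _)] at hn
    exact hn
  filter_upwards [t1, t2, eventually_ge_atTop 1, tendsto_logb.eventually_ge_atTop 1] with
    n h1 h2 hn hL1 k hkn hkL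
  set L := Real.logb 2 (n : ℝ) with hL
  have hn0 : (0 : ℝ) < n := by exact_mod_cast hn
  have hL0 : 0 ≤ L := by linarith
  have hLlog : L * Real.log 2 = Real.log n := by
    rw [hL, Real.logb, div_mul_cancel₀ _ hl2.ne']
  have hk0 : (0 : ℝ) ≤ k := Nat.cast_nonneg k
  have hkβ : (k : ℝ) ≤ beta * L := by nlinarith [mul_nonneg hδ.le hL0]
  -- `n - 2 k ≥ n / 2`
  have h3 : 2 * (k : ℝ) ≤ n / 2 := by
    have e : beta * L ≤ n / 4 := by
      have e1 : L * Real.log 2 ≤ Real.log 2 / (4 * beta) * n := hLlog ▸ h1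
      have e2 : Real.log 2 / (4 * beta) * n = (n / (4 * beta)) * Real.log 2 := by ring
      rw [e2] at e1
      have e3 : L ≤ n / (4 * beta) := le_of_mul_le_mul_right e1 hl2
      rw [le_div_iff₀ (by positivity)] at e3
      linarith
    linarith
  -- `(3/4) ^ k ≥ n ^ (η - 1)`
  have h4 : (n : ℝ) ^ (η - 1) ≤ (3 / 4 : ℝ) ^ k := by
    have e1 : (3 / 4 : ℝ) ^ k = Real.exp (-((k : ℝ) * Real.log (4 / 3))) := by
      have : (3 / 4 : ℝ) = Real.exp (-Real.log (4 / 3)) := by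
        rw [Real.exp_neg, Real.exp_log (by norm_num)]; norm_num
      rw [this, ← Real.exp_nat_mul, mul_neg]
    rw [e1, Real.rpow_def_of_pos hn0, Real.exp_le_exp]
    have e2 : (k : ℝ) * Real.log (4 / 3) ≤ (beta - δ) * L * Real.log (4 / 3) :=
      mul_le_mul_of_nonneg_right hkL log43_pos.le
    have e3 : (beta - δ) * L * Real.log (4 / 3) = (1 - η) * Real.log n := by
      rw [← hLlog, ← beta_mul_log43, hη]
      field_simp
    nlinarith
  have hy := y_mem k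
  have h5 : (1 - (3 / 4 : ℝ) ^ k) ^ (n - 2 * k) ≤ Real.exp (-((n : ℝ) ^ η / 2)) := by
    have e1 : 1 - (3 / 4 : ℝ) ^ k ≤ Real.exp (-(3 / 4 : ℝ) ^ k) := by
      have := Real.add_one_le_exp (-(3 / 4 : ℝ) ^ k)
      linarith
    refine (pow_le_pow_left₀ (by linarith [hy.2]) e1 _).trans ?_
    rw [← Real.exp_nat_mul, Real.exp_le_exp]
    have e2 : ((n - 2 * k : ℕ) : ℝ) = n - 2 * k := by
      push_cast [Nat.cast_sub hkn]; ring
    rw [e2]
    have e3 : (n : ℝ) ^ η = n * (n : ℝ) ^ (η - 1) := by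
      rw [Real.rpow_sub_one hn0.ne']
      field_simp
    rw [e3]
    have e4 : (n : ℝ) / 2 ≤ n - 2 * k := by linarith
    have e5 : (n : ℝ) / 2 * (n : ℝ) ^ (η - 1) ≤ (n - 2 * k) * (3 / 4 : ℝ) ^ k :=
      mul_le_mul e4 h4 (Real.rpow_nonneg hn0.le _) (by linarith)
    linarith
  have h6 : term n k ≤ (2 : ℝ) ^ (2 * (k : ℝ) * L) * Real.exp (-((n : ℝ) ^ η / 2)) := by
    rw [← npow_eq hn]
    unfold term
    refine (div_le_self (mul_nonneg (by positivity) (pow_nonneg (by linarith [hy.2]) _))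
      (one_le_pow₀ (by norm_num))).trans ?_
    exact mul_le_mul_of_nonneg_left h5 (by positivity)
  refine h6.trans ?_
  rw [Real.rpow_def_of_pos (show (0 : ℝ) < 2 by norm_num) (2 * (k : ℝ) * L),
    Real.rpow_def_of_pos (show (0 : ℝ) < 2 by norm_num) (-C * L ^ 2), ← Real.exp_add,
    Real.exp_le_exp]
  have h7 : 2 * (k : ℝ) * L ≤ 2 * beta * L ^ 2 := by nlinarith
  have h8 : (|C| + 2 * beta) * (L ^ 2 * Real.log 2) ≤ (n : ℝ) ^ η / 2 := by
    have e1 : Real.log (n : ℝ) ^ (2 : ℝ) = (L * Real.log 2) ^ 2 := by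
      rw [hLlog, ← Real.rpow_natCast]; norm_num
    rw [e1] at h2
    have e2 : (|C| + 2 * beta) * (L ^ 2 * Real.log 2) = K * (L * Real.log 2) ^ 2 := by
      rw [hK, div_mul_eq_mul_div, eq_div_iff hl2.ne']
      ring
    rw [e2]
    have e3 := mul_le_mul_of_nonneg_left h2 hK0.le
    refine e3.trans (le_of_eq ?_)
    field_simp
  have h9 : C ≤ |C| := le_abs_self C
  have h10 : 0 ≤ L ^ 2 * Real.log 2 := by positivity
  have h11 := mul_le_mul_of_nonneg_right h9 h10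
  have h12 := mul_le_mul_of_nonneg_right h7 hl2.le
  nlinarith

theorem num_up {ε : ℝ} (hε : 0 < ε) : ∀ᶠ n : ℕ in atTop,
    ∑ k ∈ (Finset.Icc 1 n).filter (fun k => 2 * k ≤ n),
      (n : ℝ) ^ (2 * k) * (1 - (3 / 4 : ℝ) ^ k) ^ (n - 2 * k) / 2 ^ (k * (2 * k - 1)) ≤
    (2 : ℝ) ^ (-(2 * beta * (beta - 1) - ε) * (Real.logb 2 n) ^ 2) := by
  have hβ := beta_gt_two
  have hβ3 := beta_lt_three
  set δ : ℝ := min (1 / 2) (ε / 40) with hδd
  have hδ : 0 < δ := lt_min (by norm_num) (by positivity)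
  have hδ1 : δ ≤ 1 / 2 := min_le_left _ _
  have hδ2 : δ ≤ ε / 40 := min_le_right _ _
  have hγ : 1 < beta - δ := by linarith
  have hC : 2 * beta * (beta - 1) - ε / 2 ≤ 2 * (beta - δ) * (beta - δ - 1) - ε / 4 := by
    nlinarith
  filter_upwards [term_small hδ (2 * beta * (beta - 1) - ε / 2),
    term_large hγ (show 0 < ε / 4 by positivity), eventually_ge_atTop 1,
    tendsto_logb.eventually_ge_atTop (2 / ε), tendsto_logb.eventually_ge_atTop 1] with
    n h1 h2 hn h3 h4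
  set L := Real.logb 2 (n : ℝ) with hL
  have key : ∀ k ∈ (Finset.Icc 1 n).filter (fun k => 2 * k ≤ n),
      (n : ℝ) ^ (2 * k) * (1 - (3 / 4 : ℝ) ^ k) ^ (n - 2 * k) / 2 ^ (k * (2 * k - 1)) ≤
      (2 : ℝ) ^ (-(2 * beta * (beta - 1) - ε / 2) * L ^ 2) := by
    intro k hk
    obtain ⟨hk1, hk2⟩ := Finset.mem_filter.1 hk
    have hk3 := (Finset.mem_Icc.1 hk1).1
    rcases le_total (k : ℝ) ((beta - δ) * L) with h | h
    · exact h1 k hk2 h
    · refine (h2 k hk3 hk2 h).trans (Real.rpow_le_rpow_of_exponent_le (by norm_num) ?_)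
      have : 0 ≤ L ^ 2 := by positivity
      nlinarith
  refine (Finset.sum_le_card_nsmul _ _ _ key).trans ?_
  rw [nsmul_eq_mul]
  have hcard : ((((Finset.Icc 1 n).filter (fun k => 2 * k ≤ n)).card : ℕ) : ℝ) ≤ n := by
    have := Finset.card_filter_le (Finset.Icc 1 n) (fun k => 2 * k ≤ n)
    rw [Nat.card_Icc, Nat.add_sub_cancel] at this
    exact_mod_cast this
  refine (mul_le_mul_of_nonneg_right hcard (by positivity)).trans ?_
  conv_lhs => rw [← two_rpow_logb hn]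
  rw [← Real.rpow_add (by norm_num)]
  refine Real.rpow_le_rpow_of_exponent_le (by norm_num) ?_
  have h5 : 2 ≤ ε * L := by
    rw [div_le_iff₀ hε] at h3
    linarith
  have h6 : 0 ≤ L := by linarith
  nlinarith

end Pool.Agent.Lib.P5135n
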