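import Pool.Agent.Lib.P5135n.NumUp

/-!
# Module P5135n.NumWd: choice of the parameters for every `k` in the window

PROOF. `L = Real.logb 2 n`, `k` in `[2.3 L, 3.1 L]`, `l = ⌈L⌉₊` (`r ≤ n ≤ 2 ^ l`, `l ≤ L + 1`), `m = k / 2` (`2 m ≥ k - 1`), `d = m - l` (`d ≥ 0.15 L - 2`),
`b₀ = ⌊√L⌋₊`. (1) `r² k ^ b₀ (1/2) ^ (k + 1 - b₀) ≤ 2 ^ (2 L + √L log₂ k + √L - 2.3 L) → 0`. (2) `(2k+2) ^ (2 (k+1)) = 2 ^ (O (L log L))` against
`2 ^ (d (b₀ + 1))`, `d (b₀ + 1) ≥ (0.15 L - 2) √L`. (3) `r (2 k) (2 k + r) ≤ n (6.2 L) n` against `2 ^ (k - 1) ≥ 2 ^ (2.3 L - 1)`.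
-/

set_option autoImplicit false

open Filter

namespace Pool.Agent.Lib.P5135n

theorem numWd_ev (c : ℝ) : ∀ᶠ x : ℝ in atTop,
    Real.logb 2 (13 * x) ≤ Real.sqrt x / 100 ∧ c + 10 ≤ Real.sqrt x ∧ 1 ≤ x := by
  have hl2 : 0 < Real.log 2 := Real.log_pos (by norm_num)
  have h1 := (isLittleO_log_rpow_atTop (show (0 : ℝ) < 1 / 2 by norm_num)).bound
    (show (0 : ℝ) < Real.log 2 / 200 by positivity)
  have h2 := (Real.tendsto_sqrt_atTop).eventually_ge_atTop (200 * Real.log 13 / Real.log 2)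
  have h3 := (Real.tendsto_sqrt_atTop).eventually_ge_atTop (c + 10)
  filter_upwards [h1, h2, h3, eventually_ge_atTop 1] with x h1 h2 h3 h4
  refine ⟨?_, h3, h4⟩
  rw [← Real.sqrt_eq_rpow] at h1
  rw [Real.norm_eq_abs, Real.norm_eq_abs, abs_of_nonneg (Real.log_nonneg h4),
    abs_of_nonneg (Real.sqrt_nonneg x)] at h1
  rw [div_le_iff₀ hl2] at h2
  rw [Real.logb, Real.log_mul (by norm_num) (by linarith), div_le_iff₀ hl2]
  nlinarith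

theorem num_wd {ε : ℝ} (hε : 0 < ε) : ∀ᶠ n : ℕ in atTop, ∀ k : ℕ, 23 / 10 * Real.logb 2 n ≤ k → (k : ℝ) ≤ 31 / 10 * Real.logb 2 n →
    ∃ r b₀ m l d : ℕ, n = 2 * k + r ∧ 1 ≤ k ∧ 1 ≤ b₀ ∧ b₀ ≤ k ∧ 2 * m ≤ k ∧ m = l + d ∧ r ≤ 2 ^ l ∧
      (r : ℝ) ^ 2 * (k : ℝ) ^ b₀ * (1 / 2 : ℝ) ^ (k + 1 - b₀) ≤ ε ∧
      (2 * k + 2 : ℝ) ^ (2 * (k + 1)) ≤ ε * 2 ^ (d * (b₀ + 1)) ∧
      (r * (2 * k) * (2 * k + r) : ℝ) ≤ ε * 2 ^ (k - 1) := by
  set Λ : ℝ := Real.logb 2 ε with hΛ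
  have hεΛ : ε = (2 : ℝ) ^ Λ := (Real.rpow_logb (by norm_num) (by norm_num) hε).symm
  filter_upwards [tendsto_logb.eventually (numWd_ev |Λ|), eventually_ge_atTop 1] with n hx hn k hk1 hk2
  set L := Real.logb 2 (n : ℝ) with hL
  obtain ⟨hu1, hs, hL1⟩ := hx
  set s := Real.sqrt L with hsd
  have hL0 : 0 ≤ L := by linarith
  have hss : s * s = L := Real.mul_self_sqrt hL0
  have hΛ0 : 0 ≤ |Λ| := abs_nonneg Λ
  have hΛ1 : -|Λ| ≤ Λ := neg_abs_le Λ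
  have hs10 : 10 ≤ s := by linarith
  have hLs : 10 * s ≤ L := by nlinarith
  have hL100 : 100 ≤ L := by linarith
  set u := Real.logb 2 (13 * L) with hu
  have hu2 : (2 : ℝ) ^ u = 13 * L := Real.rpow_logb (by norm_num) (by norm_num) (by linarith)
  have hu0 : 0 ≤ u := Real.logb_nonneg (by norm_num) (by linarith)
  have hnL : (2 : ℝ) ^ L = n := two_rpow_logb hn
  have h2pos : (0 : ℝ) < 2 := by norm_num
  have h21 : (1 : ℝ) ≤ 2 := by norm_num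
  -- `2 k ≤ n`
  have h2k : 2 * k ≤ n := by
    have e1 : (2 * (k : ℝ)) ≤ n := by
      rw [← hnL]
      calc 2 * (k : ℝ) ≤ 13 * L := by linarith
        _ = (2 : ℝ) ^ u := hu2.symm
        _ ≤ (2 : ℝ) ^ L := Real.rpow_le_rpow_of_exponent_le h21 (by linarith)
    exact_mod_cast e1
  have hk100 : (100 : ℝ) ≤ k := by linarith
  have hk1' : 1 ≤ k := by
    have : (1 : ℝ) ≤ k := by linarith
    exact_mod_cast this
  obtain ⟨r, hr⟩ := Nat.exists_eq_add_of_le h2k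
  set b₀ := ⌊s⌋₊ with hb
  have hbs : (b₀ : ℝ) ≤ s := Nat.floor_le (by linarith)
  have hbs' : s < b₀ + 1 := Nat.lt_floor_add_one s
  have hb1 : 1 ≤ b₀ := Nat.le_floor (by push_cast; linarith)
  have hbk : b₀ ≤ k := by
    have : (b₀ : ℝ) ≤ k := by linarith
    exact_mod_cast this
  set l := ⌈L⌉₊ with hl
  have hl1 : L ≤ l := Nat.le_ceil L
  have hl2 : (l : ℝ) < L + 1 := Nat.ceil_lt_add_one hL0
  have hm1 : (k : ℝ) ≤ 2 * ((k / 2 : ℕ) : ℝ) + 1 := by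
    have : k ≤ 2 * (k / 2) + 1 := by omega
    exact_mod_cast this
  have hlm : l ≤ k / 2 := by
    have : (l : ℝ) ≤ ((k / 2 : ℕ) : ℝ) := by linarith
    exact_mod_cast this
  obtain ⟨d, hd⟩ := Nat.exists_eq_add_of_le hlm
  have hdr : ((k / 2 : ℕ) : ℝ) = l + d := by
    rw [hd]; push_cast; ring
  have hrn : (r : ℝ) ≤ (2 : ℝ) ^ L := by
    rw [hnL]
    have : r ≤ n := by omega
    exact_mod_cast this
  have hr0 : (0 : ℝ) ≤ r := Nat.cast_nonneg r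
  have hk0 : (0 : ℝ) ≤ k := Nat.cast_nonneg k
  refine ⟨r, b₀, k / 2, l, d, hr, hk1', hb1, hbk, by omega, hd, ?_, ?_, ?_, ?_⟩
  · have e1 : (r : ℝ) ≤ (2 : ℝ) ^ (l : ℝ) :=
      hrn.trans (Real.rpow_le_rpow_of_exponent_le h21 hl1)
    rw [Real.rpow_natCast] at e1
    exact_mod_cast e1
  · have e1 : (r : ℝ) ^ 2 ≤ (2 : ℝ) ^ (2 * L) := by
      rw [two_mul, Real.rpow_add h2pos, sq]
      exact mul_le_mul hrn hrn hr0 (by positivity)
    have e2 : (k : ℝ) ^ b₀ ≤ (2 : ℝ) ^ (u * s) := by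
      calc (k : ℝ) ^ b₀ ≤ ((2 : ℝ) ^ u) ^ b₀ :=
            pow_le_pow_left₀ hk0 (by rw [hu2]; linarith) _
        _ = (2 : ℝ) ^ (u * b₀) := by rw [← Real.rpow_natCast, ← Real.rpow_mul h2pos.le]
        _ ≤ (2 : ℝ) ^ (u * s) :=
            Real.rpow_le_rpow_of_exponent_le h21 (mul_le_mul_of_nonneg_left hbs hu0)
    have e3 : (1 / 2 : ℝ) ^ (k + 1 - b₀) = (2 : ℝ) ^ (-((k : ℝ) + 1 - b₀)) := by
      have : (((k + 1 - b₀ : ℕ)) : ℝ) = (k : ℝ) + 1 - b₀ := by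
        rw [Nat.cast_sub (by omega)]; push_cast; ring
      rw [Real.rpow_neg h2pos.le, ← this, Real.rpow_natCast, one_div, inv_pow]
    rw [e3, hεΛ]
    calc (r : ℝ) ^ 2 * (k : ℝ) ^ b₀ * (2 : ℝ) ^ (-((k : ℝ) + 1 - b₀))
        ≤ (2 : ℝ) ^ (2 * L) * (2 : ℝ) ^ (u * s) * (2 : ℝ) ^ (-((k : ℝ) + 1 - b₀)) := by gcongr
      _ = (2 : ℝ) ^ (2 * L + u * s + -((k : ℝ) + 1 - b₀)) := by
          rw [Real.rpow_add h2pos, Real.rpow_add h2pos]
      _ ≤ (2 : ℝ) ^ Λ := by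
          refine Real.rpow_le_rpow_of_exponent_le h21 ?_
          have e4 : u * s ≤ L / 100 := by
            calc u * s ≤ s / 100 * s := mul_le_mul_of_nonneg_right hu1 (by linarith)
              _ = L / 100 := by rw [← hss]; ring
          linarith
  · have e1 : (2 * k + 2 : ℝ) ^ (2 * (k + 1)) ≤ (2 : ℝ) ^ (u * (2 * ((k : ℝ) + 1))) := by
      calc (2 * k + 2 : ℝ) ^ (2 * (k + 1)) ≤ ((2 : ℝ) ^ u) ^ (2 * (k + 1)) :=
            pow_le_pow_left₀ (by linarith) (by rw [hu2]; linarith) _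
        _ = (2 : ℝ) ^ (u * (2 * ((k : ℝ) + 1))) := by
            rw [← Real.rpow_natCast, ← Real.rpow_mul h2pos.le]
            push_cast
            ring_nf
    have e2 : ε * 2 ^ (d * (b₀ + 1)) = (2 : ℝ) ^ (Λ + (d : ℝ) * ((b₀ : ℝ) + 1)) := by
      rw [Real.rpow_add h2pos, ← hεΛ]
      congr 1
      have : (d : ℝ) * ((b₀ : ℝ) + 1) = ((d * (b₀ + 1) : ℕ) : ℝ) := by push_cast; ring
      rw [this, Real.rpow_natCast]
    rw [e2]
    refine e1.trans (Real.rpow_le_rpow_of_exponent_le h21 ?_)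
    have e3 : 15 / 100 * L - 3 / 2 ≤ d := by linarith
    have e4 : (15 / 100 * L - 3 / 2) * s ≤ (d : ℝ) * ((b₀ : ℝ) + 1) :=
      mul_le_mul e3 hbs'.le (by linarith) (Nat.cast_nonneg d)
    have e5 : u * (2 * ((k : ℝ) + 1)) ≤ s / 100 * (7 * L) :=
      mul_le_mul hu1 (by linarith) (by linarith) (by linarith)
    have e6 : 100 * s ≤ L * s := mul_le_mul_of_nonneg_right hL100 (by linarith)
    linarith
  · have e1 : (2 * (k : ℝ) + r) = n := by rw [hr]; push_cast; ring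
    have e2 : (r * (2 * k) * (2 * k + r) : ℝ) ≤ (2 : ℝ) ^ (L + u + L) := by
      rw [e1, Real.rpow_add h2pos, Real.rpow_add h2pos, hnL, hu2]
      have e3 : (r : ℝ) ≤ n := by rw [← hnL]; exact hrn
      have e4 : 2 * (k : ℝ) ≤ 13 * L := by linarith
      gcongr
    have e5 : ε * 2 ^ (k - 1) = (2 : ℝ) ^ (Λ + ((k : ℝ) - 1)) := by
      rw [Real.rpow_add h2pos, ← hεΛ]
      congr 1
      have : (k : ℝ) - 1 = ((k - 1 : ℕ) : ℝ) := by
        rw [Nat.cast_sub hk1']; push_cast; ring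
      rw [this, Real.rpow_natCast]
    rw [e5]
    refine e2.trans (Real.rpow_le_rpow_of_exponent_le h21 ?_)
    linarith

end Pool.Agent.Lib.P5135n
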