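import Pool.Agent.Lib.P5135n.Final4

/-!
# The uniform extremal graph and the uniform pair of a graph and a matching
-/

set_option autoImplicit false

open Filter Topology

namespace Pool.Agent.Lib.P5135n

open Pool.Agent.Lib.P5135a5

/-- `T` is the vertex set of an induced matching and every other vertex is joined to both ends of one of its edges. -/
def PairG {V : Type} (G : SimpleGraph V) (T : Finset V) : Prop :=
  IsInducedMatchingSet G T ∧ ∀ v, v ∉ T → ∃ u ∈ T, ∃ w ∈ T, G.Adj u w ∧ G.Adj v u ∧ G.Adj v w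

theorem pairs_gen {k r n : ℕ} (hn : n = 2 * k + r) :
    autM k * Nat.card {x : SimpleGraph (Fin n) × Finset (Fin n) // PairG x.1 x.2 ∧ x.2.card = 2 * k} ≤
      n.descFactorial (2 * k) * Nat.card {ω : Om k r // Full k r ω} := by
  classical
  choose E hE using fun f : (Fin k × Bool) ↪ Fin n => exists_ext hn f f.injective
  -- an enumeration of the planted vertices of a graph
  have hT : ∀ G : {x : SimpleGraph (Fin n) × Finset (Fin n) // PairG x.1 x.2 ∧ x.2.card = 2 * k},
      ∃ f : (Fin k × Bool) ↪ Fin n,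
      (∀ v, (∀ u, f u ≠ v) → ∃ i, G.1.1.Adj v (f (i, true)) ∧ G.1.1.Adj v (f (i, false))) ∧
      (∀ u v, G.1.1.Adj (f u) (f v) ↔ u.1 = v.1 ∧ u.2 ≠ v.2) ∧ ∀ v, v ∈ G.1.2 ↔ ∃ u, f u = v := by
    rintro ⟨⟨G, T⟩, ⟨hT2, hT3⟩, hT1⟩
    obtain ⟨f, hf1, hf2, hf3⟩ := exists_enum hT2 hT1
    refine ⟨⟨f, hf1⟩, ?_, hf3, hf2⟩
    intro v hv
    obtain ⟨u, hu, w, hw, huw, hvu, hvw⟩ := hT3 v (fun h => by
      obtain ⟨u, hu⟩ := (hf2 v).mp h
      exact hv u hu)
    obtain ⟨⟨i, c⟩, rfl⟩ := (hf2 u).mp hu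
    obtain ⟨⟨j, d⟩, rfl⟩ := (hf2 w).mp hw
    obtain ⟨h1, h2⟩ := (hf3 _ _).mp huw
    change i = j at h1
    change c ≠ d at h2
    subst h1
    refine ⟨i, ?_⟩
    cases c <;> cases d
    · exact absurd rfl h2
    · exact ⟨hvw, hvu⟩
    · exact ⟨hvu, hvw⟩
    · exact absurd rfl h2
  choose F hF1 hF2 hF3 using hT
  let ff : {a : Equiv.Perm (Fin k × Bool) // ∀ u v, (a u).1 = (a v).1 ↔ u.1 = v.1} →
      {x : SimpleGraph (Fin n) × Finset (Fin n) // PairG x.1 x.2 ∧ x.2.card = 2 * k} → (Fin k × Bool) ↪ Fin n :=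
    fun a G => a.1.toEmbedding.trans (F G)
  have hff0 : ∀ a G u, ff a G u = F G (a.1 u) := fun a G u => rfl
  have hff : ∀ (a : {a : Equiv.Perm (Fin k × Bool) // ∀ u v, (a u).1 = (a v).1 ↔ u.1 = v.1})
      (G : {x : SimpleGraph (Fin n) × Finset (Fin n) // PairG x.1 x.2 ∧ x.2.card = 2 * k}) (u v : Fin k × Bool),
      G.1.1.Adj (ff a G u) (ff a G v) ↔ u.1 = v.1 ∧ u.2 ≠ v.2 := by
    intro a G u v
    rw [hff0, hff0, hF2]
    constructor
    · rintro ⟨h1, h2⟩
      have h3 := (a.2 u v).mp h1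
      refine ⟨h3, fun h4 => h2 ?_⟩
      have h5 : u = v := Prod.ext h3 h4
      rw [h5]
    · rintro ⟨h1, h2⟩
      have h3 := (a.2 u v).mpr h1
      refine ⟨h3, fun h4 => h2 ?_⟩
      have h5 : a.1 u = a.1 v := Prod.ext h3 h4
      rw [a.1.injective h5]
  have hrep : ∀ (a : {a : Equiv.Perm (Fin k × Bool) // ∀ u v, (a u).1 = (a v).1 ↔ u.1 = v.1})
      (G : {x : SimpleGraph (Fin n) × Finset (Fin n) // PairG x.1 x.2 ∧ x.2.card = 2 * k}),
      ∃ ω : Om k r, (mkG ω).comap (E (ff a G)).symm = G.1.1 := by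
    intro a G
    apply exists_rep
    intro u v
    rw [hE, hE]
    exact hff a G u v
  choose W hW using hrep
  have hWa : ∀ (a : {a : Equiv.Perm (Fin k × Bool) // ∀ u v, (a u).1 = (a v).1 ↔ u.1 = v.1})
      (G : {x : SimpleGraph (Fin n) × Finset (Fin n) // PairG x.1 x.2 ∧ x.2.card = 2 * k}) (x : Fin r)
      (u : Fin k × Bool),
      (W a G).1 x u.1 u.2 = true ↔ G.1.1.Adj (E (ff a G) (Sum.inr x)) (F G (a.1 u)) := by
    intro a G x u
    rw [← hff0, ← hE (ff a G) u]
    have h1 : G.1.1.Adj (E (ff a G) (Sum.inr x)) (E (ff a G) (Sum.inl u)) ↔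
        ((mkG (W a G)).comap (E (ff a G)).symm).Adj (E (ff a G) (Sum.inr x)) (E (ff a G) (Sum.inl u)) := by
      rw [hW a G]
    rw [h1, SimpleGraph.comap_adj, Equiv.symm_apply_apply, Equiv.symm_apply_apply]
    exact Iff.rfl
  have hWp : ∀ a G, Full k r (W a G) := by
    intro a G x
    have h1 : ∀ u, F G u ≠ E (ff a G) (Sum.inr x) := by
      intro u hu
      have h2 : E (ff a G) (Sum.inl (a.1.symm u)) = E (ff a G) (Sum.inr x) := by
        rw [hE, hff0, Equiv.apply_symm_apply, hu]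
      have h3 := (E (ff a G)).injective h2
      simp at h3
    obtain ⟨i, h2, h3⟩ := hF1 G _ h1
    have e1 : (a.1.symm (i, true)).1 = (a.1.symm (i, false)).1 := by
      rw [← a.2, Equiv.apply_symm_apply, Equiv.apply_symm_apply]
    have e2 : (a.1.symm (i, true)).2 ≠ (a.1.symm (i, false)).2 := by
      intro h
      have h4 : a.1.symm (i, true) = a.1.symm (i, false) := Prod.ext e1 h
      have h5 := a.1.symm.injective h4
      simp at h5
    have g1 : (W a G).1 x (a.1.symm (i, true)).1 (a.1.symm (i, true)).2 = true := by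
      rw [hWa, Equiv.apply_symm_apply]
      exact h2
    have g2 : (W a G).1 x (a.1.symm (i, false)).1 (a.1.symm (i, false)).2 = true := by
      rw [hWa, Equiv.apply_symm_apply]
      exact h3
    rw [← e1] at g2
    refine ⟨(a.1.symm (i, true)).1, ?_⟩
    generalize (a.1.symm (i, true)).1 = j at *
    generalize (a.1.symm (i, true)).2 = c at *
    generalize (a.1.symm (i, false)).2 = d at *
    cases c <;> cases d
    · exact absurd rfl e2
    · exact ⟨g2, g1⟩
    · exact ⟨g1, g2⟩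
    · exact absurd rfl e2
  let Φ : {a : Equiv.Perm (Fin k × Bool) // ∀ u v, (a u).1 = (a v).1 ↔ u.1 = v.1} ×
      {x : SimpleGraph (Fin n) × Finset (Fin n) // PairG x.1 x.2 ∧ x.2.card = 2 * k} →
      ((Fin k × Bool) ↪ Fin n) × {ω : Om k r // Full k r ω} :=
    fun x => (ff x.1 x.2, ⟨W x.1 x.2, hWp x.1 x.2⟩)
  have hΦ : Function.Injective Φ := by
    rintro ⟨a, G⟩ ⟨a', G'⟩ h
    have h1 : ff a G = ff a' G' := congrArg Prod.fst h
    have h2 : W a G = W a' G' := congrArg Subtype.val (congrArg Prod.snd h)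
    have h3 : G = G' := by
      apply Subtype.ext
      apply Prod.ext
      · rw [← hW a G, ← hW a' G', h1, h2]
      · ext v
        rw [hF3 G v, hF3 G' v]
        have key : ∀ (b : {a : Equiv.Perm (Fin k × Bool) // ∀ u v, (a u).1 = (a v).1 ↔ u.1 = v.1}) H,
            (∃ u, F H u = v) ↔ ∃ u, ff b H u = v := by
          intro b H
          constructor
          · rintro ⟨u, hu⟩
            exact ⟨b.1.symm u, by rw [hff0, Equiv.apply_symm_apply, hu]⟩
          · rintro ⟨u, hu⟩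
            exact ⟨b.1 u, by rw [← hff0, hu]⟩
        rw [key a G, key a' G', h1]
    subst h3
    have h4 : a = a' := by
      apply Subtype.ext
      apply Equiv.ext
      intro u
      have h5 : ff a G u = ff a' G u := by rw [h1]
      rw [hff0, hff0] at h5
      exact (F G).injective h5
    rw [h4]
  have main := Nat.card_le_card_of_injective Φ hΦ
  rw [Nat.card_prod, Nat.card_prod] at main
  have h8 : Nat.card ((Fin k × Bool) ↪ Fin n) = n.descFactorial (2 * k) := by
    rw [Nat.card_eq_fintype_card, Fintype.card_embedding_eq, Fintype.card_fin, Fintype.card_prod, Fintype.card_fin,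
      Fintype.card_bool, mul_comm k 2]
  rw [h8] at main
  exact main

theorem pairs_le_AA {n k : ℕ} (hk2 : 2 * k ≤ n) :
    (Nat.card {x : SimpleGraph (Fin n) × Finset (Fin n) // PairG x.1 x.2 ∧ x.2.card = 2 * k} : ℝ) ≤ AA n k := by
  have ha : (0 : ℝ) < autM k := by exact_mod_cast autM_pos k
  have h3 := pairs_gen (k := k) (r := n - 2 * k) (n := n) (by omega)
  refine le_of_mul_le_mul_right ?_ ha
  rw [AA_mul hk2, mul_comm]
  exact_mod_cast h3

theorem pairs_le_sum {n : ℕ} (hn : 1 ≤ n) :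
    (Nat.card {x : SimpleGraph (Fin n) × Finset (Fin n) // PairG x.1 x.2} : ℝ) ≤ ∑ k ∈ Finset.Icc 1 (n / 2), AA n k := by
  classical
  have h1 : Nat.card {x : SimpleGraph (Fin n) × Finset (Fin n) // PairG x.1 x.2} ≤
      ∑ k ∈ Finset.Icc 1 (n / 2), Nat.card {x : SimpleGraph (Fin n) × Finset (Fin n) // PairG x.1 x.2 ∧ x.2.card = 2 * k} := by
    refine card_le_sum (α := SimpleGraph (Fin n) × Finset (Fin n)) _ _
      (fun k x => PairG x.1 x.2 ∧ x.2.card = 2 * k) ?_
    rintro ⟨G, T⟩ hx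
    obtain ⟨k, hk, _⟩ := enum_aux hx.1
    refine ⟨k, ?_, hx, hk⟩
    change T.card = 2 * k at hk
    rw [Finset.mem_Icc]
    have h3 : T.card ≤ n := by
      have := Finset.card_le_univ T
      rwa [Fintype.card_fin] at this
    have h4 : 1 ≤ T.card := by
      by_contra hcon
      have h5 : T = ∅ := by
        rw [← Finset.card_eq_zero]
        omega
      obtain ⟨u, hu, _⟩ := hx.2 ⟨0, by omega⟩ (by change _ ∉ T; rw [h5]; simp)
      change u ∈ T at hu
      rw [h5] at hu
      simp at hu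
    omega
  have h2 : (Nat.card {x : SimpleGraph (Fin n) × Finset (Fin n) // PairG x.1 x.2} : ℝ) ≤
      ∑ k ∈ Finset.Icc 1 (n / 2),
        (Nat.card {x : SimpleGraph (Fin n) × Finset (Fin n) // PairG x.1 x.2 ∧ x.2.card = 2 * k} : ℝ) := by
    exact_mod_cast h1
  refine h2.trans (Finset.sum_le_sum fun k hk => ?_)
  rw [Finset.mem_Icc] at hk
  exact pairs_le_AA (by omega)

/-- Extremal graphs with a property inject into the pairs. -/
theorem ext_le_pairs {n : ℕ} (P : SimpleGraph (Fin n) → Prop) :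
    Nat.card {G : SimpleGraph (Fin n) // Ext G ∧ P G} ≤
      Nat.card {x : SimpleGraph (Fin n) × Finset (Fin n) // PairG x.1 x.2 ∧ P x.1} := by
  classical
  have h : ∀ G : {G : SimpleGraph (Fin n) // Ext G ∧ P G}, ∃ T : Finset (Fin n), PairG G.1 T := by
    rintro ⟨G, h1, _⟩
    obtain ⟨T, _, h2, h3⟩ := ext_SkG h1
    exact ⟨T, h2, h3⟩
  choose T hT using h
  refine Nat.card_le_card_of_injective (fun G => ⟨(G.1, T G), hT G, G.2.2⟩) ?_
  intro G G' h
  have h1 := congrArg (fun x => x.1.1) h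
  exact Subtype.ext h1

end Pool.Agent.Lib.P5135n
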