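import Mathlib

/-!
# Module P5135n.Rg1: few graphs are invariant under a permutation

PROOF. Let `T = σ.support`. There is `X ⊆ T` with `X ∩ σ X = ∅` and `3 |X| ≥ |T|` (take `X` maximal with `X ∩ σ X = ∅`; every `y ∈ T \ X` has
`y ∈ σ X` or `σ y ∈ X`, so `T ⊆ X ∪ σ X ∪ σ⁻¹ X`); shrink `X` so that `|X| = x` is the least number with `3 x ≥ |T|`, so
`3 x ≤ |T| + 2`. Let `P` be the set of the pairs `s(u, w)`, `u ∈ X`, `w ∉ X ∪ σ X`: `|P| = x (n - 2 x) ≥ |T| (n - 4) / 9` (natural division),
and `P ∩ σ P = ∅` (`σ u ∈ σ X` is in neither `X` nor the complement of `X ∪ σ X`). An invariant graph is determined by its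
edges outside `P` (the pairs in `P` have the same state as their images under `σ`, which are outside `P`), so there are at most
`2 ^ (n.choose 2 - |P|)` of them. (Pattern of the counts in Diam / NonAdj.)
-/

set_option autoImplicit false

namespace Pool.Agent.Lib.P5135n

/-- `G` is invariant under `σ`. -/
def Inv {n : ℕ} (σ : Equiv.Perm (Fin n)) (G : SimpleGraph (Fin n)) : Prop := ∀ u v, G.Adj (σ u) (σ v) ↔ G.Adj u v

namespace Rg1Aux

theorem exists_X {n : ℕ} (σ : Equiv.Perm (Fin n)) :
    ∃ X : Finset (Fin n), Disjoint X (X.image σ) ∧ σ.support.card ≤ 3 * X.card ∧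
      3 * X.card ≤ σ.support.card + 2 := by
  classical
  obtain ⟨X₀, hX₀, hmax⟩ := Finset.exists_max_image
    (σ.support.powerset.filter (fun X => Disjoint X (X.image σ))) Finset.card
    ⟨∅, by simp⟩
  rw [Finset.mem_filter, Finset.mem_powerset] at hX₀
  obtain ⟨hsub, hdis⟩ := hX₀
  have hcov : σ.support ⊆ X₀ ∪ (X₀.image σ ∪ X₀.image σ.symm) := by
    intro y hy
    by_contra hne
    rw [Finset.mem_union, Finset.mem_union, not_or, not_or] at hne
    obtain ⟨h1, h2, h3⟩ := hne
    have h4 : insert y X₀ ∈ σ.support.powerset.filter (fun X => Disjoint X (X.image σ)) := by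
      rw [Finset.mem_filter, Finset.mem_powerset]
      refine ⟨Finset.insert_subset hy hsub, ?_⟩
      rw [Finset.disjoint_left]
      intro a ha hb
      obtain ⟨b, hb1, hb2⟩ := Finset.mem_image.1 hb
      rcases Finset.mem_insert.1 ha with ha | ha <;> rcases Finset.mem_insert.1 hb1 with hb3 | hb3
      · rw [ha, hb3] at hb2
        exact (Equiv.Perm.mem_support.1 hy) hb2
      · exact h2 (Finset.mem_image.2 ⟨b, hb3, by rw [hb2, ha]⟩)
      · apply h3
        refine Finset.mem_image.2 ⟨a, ha, ?_⟩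
        rw [← hb2, hb3, Equiv.symm_apply_apply]
      · exact Finset.disjoint_left.1 hdis ha (Finset.mem_image.2 ⟨b, hb3, hb2⟩)
    have h5 := hmax _ h4
    rw [Finset.card_insert_of_notMem h1] at h5
    omega
  have h3 : σ.support.card ≤ 3 * X₀.card := by
    have h6 := (Finset.card_le_card hcov).trans ((Finset.card_union_le _ _).trans
      (Nat.add_le_add_left (Finset.card_union_le _ _) _))
    have h7 : (X₀.image σ).card ≤ X₀.card := Finset.card_image_le
    have h8 : (X₀.image σ.symm).card ≤ X₀.card := Finset.card_image_le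
    omega
  obtain ⟨X, hX, hXc⟩ := Finset.exists_subset_card_eq
    (show (σ.support.card + 2) / 3 ≤ X₀.card by omega)
  refine ⟨X, ?_, by omega, by omega⟩
  exact Finset.disjoint_of_subset_left hX
    (Finset.disjoint_of_subset_right (Finset.image_subset_image hX) hdis)

end Rg1Aux

theorem card_inv {n : ℕ} (σ : Equiv.Perm (Fin n)) :
    Nat.card {G : SimpleGraph (Fin n) // Inv σ G} * 2 ^ (σ.support.card * (n - 4) / 9) ≤ 2 ^ (n.choose 2) := by
  classical
  obtain ⟨X, hdis, h1, h2⟩ := Rg1Aux.exists_X σ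
  have hY : (X.image σ).card = X.card := Finset.card_image_of_injective _ σ.injective
  have hXY : (X ∪ X.image σ).card = 2 * X.card := by
    rw [Finset.card_union_of_disjoint hdis, hY]
    ring
  have hn : 2 * X.card ≤ n := by
    rw [← hXY]
    exact (Finset.card_le_univ _).trans (by simp)
  set W : Finset (Fin n) := (X ∪ X.image σ)ᶜ with hW
  have hWc : W.card = n - 2 * X.card := by
    rw [hW, Finset.card_compl, hXY, Fintype.card_fin]
  have hWX : ∀ w ∈ W, w ∉ X ∧ w ∉ X.image σ := by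
    intro w hw
    rw [hW, Finset.mem_compl, Finset.mem_union, not_or] at hw
    exact hw
  set P : Finset (Sym2 (Fin n)) := (X ×ˢ W).image (fun p => s(p.1, p.2)) with hP
  have hmem : ∀ q, q ∈ P ↔ ∃ u ∈ X, ∃ w ∈ W, s(u, w) = q := by
    intro q
    rw [hP, Finset.mem_image]
    constructor
    · rintro ⟨⟨u, w⟩, h, rfl⟩
      rw [Finset.mem_product] at h
      exact ⟨u, h.1, w, h.2, rfl⟩
    · rintro ⟨u, hu, w, hw, rfl⟩
      exact ⟨(u, w), Finset.mem_product.2 ⟨hu, hw⟩, rfl⟩
  have hPc : P.card = X.card * (n - 2 * X.card) := by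
    rw [hP, Finset.card_image_of_injOn, Finset.card_product, hWc]
    rintro ⟨u, w⟩ h ⟨u', w'⟩ h' he
    rw [Finset.mem_coe, Finset.mem_product] at h h'
    rw [Sym2.eq_iff] at he
    rcases he with ⟨e1, e2⟩ | ⟨e1, e2⟩
    · exact Prod.ext e1 e2
    · exact absurd (e1 ▸ h.1) (hWX _ h'.2).1
  have hPd : ∀ q ∈ P, ¬ q.IsDiag := by
    intro q hq
    obtain ⟨u, hu, w, hw, rfl⟩ := (hmem q).1 hq
    rw [Sym2.mk_isDiag_iff]
    rintro rfl
    exact (hWX _ hw).1 hu
  have hPσ : ∀ u v, s(u, v) ∈ P → s(σ u, σ v) ∉ P := by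
    have key : ∀ u ∈ X, ∀ w ∈ W, s(σ u, σ w) ∉ P := by
      intro u hu w hw hq
      obtain ⟨u', hu', w', hw', he⟩ := (hmem _).1 hq
      rw [Sym2.eq_iff] at he
      rcases he with ⟨e1, _⟩ | ⟨_, e2⟩
      · exact Finset.disjoint_left.1 hdis hu' (Finset.mem_image.2 ⟨u, hu, e1.symm⟩)
      · exact (hWX _ hw').2 (Finset.mem_image.2 ⟨u, hu, e2.symm⟩)
    intro u v hq
    obtain ⟨u', hu', w', hw', he⟩ := (hmem _).1 hq
    rw [Sym2.eq_iff] at he
    rcases he with ⟨e1, e2⟩ | ⟨e1, e2⟩
    · rw [← e1, ← e2]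
      exact key _ hu' _ hw'
    · rw [← e1, ← e2, Sym2.eq_swap]
      exact key _ hu' _ hw'
  have key : Nat.card {G : SimpleGraph (Fin n) // Inv σ G} * 2 ^ P.card ≤ 2 ^ (n.choose 2) := by
    let Φ : {G : SimpleGraph (Fin n) // Inv σ G} × ({q // q ∈ P} → Bool) →
        ({q : Sym2 (Fin n) // ¬ q.IsDiag} → Bool) :=
      fun z q => if h : q.1 ∈ P then z.2 ⟨q.1, h⟩ else decide (q.1 ∈ z.1.1.edgeSet)
    have hΦ : Function.Injective Φ := by
      rintro ⟨⟨G, hG⟩, f⟩ ⟨⟨G', hG'⟩, f'⟩ he
      have hout : ∀ u v, u ≠ v → s(u, v) ∉ P → (G.Adj u v ↔ G'.Adj u v) := by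
        intro u v huv hq
        have h := congrFun he ⟨s(u, v), by rwa [Sym2.mk_isDiag_iff]⟩
        simp only [Φ, dif_neg hq, SimpleGraph.mem_edgeSet, decide_eq_decide] at h
        exact h
      have hGG : G = G' := by
        ext u v
        by_cases huv : u = v
        · subst huv
          simp
        · by_cases hq : s(u, v) ∈ P
          · rw [← hG u v, ← hG' u v]
            exact hout _ _ (fun h => huv (σ.injective h)) (hPσ u v hq)
          · exact hout u v huv hq
      have hff : f = f' := by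
        funext q
        have h := congrFun he ⟨q.1, hPd q.1 q.2⟩
        simp only [Φ, dif_pos q.2] at h
        exact h
      subst hGG
      subst hff
      rfl
    have hc := Nat.card_le_card_of_injective Φ hΦ
    rw [Nat.card_prod, Nat.card_fun, Nat.card_fun, Nat.card_eq_fintype_card (α := Bool),
      Fintype.card_bool, Nat.card_eq_fintype_card (α := {q // q ∈ P}), Fintype.card_coe,
      Nat.card_eq_fintype_card (α := {q : Sym2 (Fin n) // ¬ q.IsDiag}),
      Sym2.card_subtype_not_diag, Fintype.card_fin] at hc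
    exact hc
  refine le_trans (Nat.mul_le_mul_left _ (Nat.pow_le_pow_right (by norm_num) ?_)) key
  rw [hPc]
  apply Nat.div_le_of_le_mul
  have hT : σ.support.card ≤ n := (Finset.card_le_univ _).trans (by simp)
  obtain ⟨m, hm⟩ := Nat.exists_eq_add_of_le hn
  have e1 : n - 2 * X.card = m := by omega
  rw [e1]
  have h3 : n - 4 ≤ 3 * m := by omega
  calc σ.support.card * (n - 4) ≤ (3 * X.card) * (3 * m) := Nat.mul_le_mul h1 h3
    _ = 9 * (X.card * m) := by ring

end Pool.Agent.Lib.P5135n
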