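import Pool.Agent.Lib.P5135n.Pairs

/-!
# Total variation distance between the uniform extremal graph and the graph of the uniform pair
-/

set_option autoImplicit false

open Filter Topology

namespace Pool.Agent.Lib.P5135n

open Pool.Agent.Lib.P5135a5

theorem card_split {α : Type} [Finite α] (p q : α → Prop) :
    Nat.card {x // p x ∧ q x} + Nat.card {x // p x ∧ ¬ q x} = Nat.card {x // p x} := by
  classical
  haveI := Fintype.ofFinite α
  rw [Nat.card_eq_fintype_card, Nat.card_eq_fintype_card, Nat.card_eq_fintype_card, Fintype.card_subtype,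
    Fintype.card_subtype, Fintype.card_subtype, ← Finset.filter_filter, ← Finset.filter_filter]
  exact Finset.card_filter_add_card_filter_not _

theorem pairs_le_ext {ε : ℝ} (hε : 0 < ε) : ∀ᶠ n : ℕ in atTop,
    (Nat.card {x : SimpleGraph (Fin n) × Finset (Fin n) // PairG x.1 x.2} : ℝ) ≤ (1 + ε) * extCount n := by
  filter_upwards [sum_le_ext hε, eventually_ge_atTop 1] with n h1 h2
  exact (pairs_le_sum h2).trans h1

theorem ext_le_pairs' (n : ℕ) :
    (extCount n : ℝ) ≤ Nat.card {x : SimpleGraph (Fin n) × Finset (Fin n) // PairG x.1 x.2} := by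
  have h := ext_le_pairs (n := n) (fun _ => True)
  simp only [and_true] at h
  exact_mod_cast h

/-- The number of pairs is asymptotic to the number of extremal graphs. -/
theorem pairs_asymptotics : Tendsto (fun n : ℕ =>
    (Nat.card {x : SimpleGraph (Fin n) × Finset (Fin n) // PairG x.1 x.2} : ℝ) /
      Nat.card {G : SimpleGraph (Fin n) // Ext G}) atTop (𝓝 1) := by
  rw [Metric.tendsto_atTop]
  intro ε hε
  obtain ⟨N, hN⟩ := eventually_atTop.1 ((pairs_le_ext (half_pos hε)).and ext_eventually_pos)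
  refine ⟨N, fun n hn => ?_⟩
  obtain ⟨g1, g2⟩ := hN n hn
  have hE : (0 : ℝ) < extCount n := by exact_mod_cast g2
  have h1 := ext_le_pairs' n
  change dist ((Nat.card {x : SimpleGraph (Fin n) × Finset (Fin n) // PairG x.1 x.2} : ℝ) / (extCount n : ℝ)) 1 < ε
  rw [Real.dist_eq, abs_lt]
  constructor
  · have h2 : 1 ≤ (Nat.card {x : SimpleGraph (Fin n) × Finset (Fin n) // PairG x.1 x.2} : ℝ) / (extCount n : ℝ) := by
      rw [le_div_iff₀ hE, one_mul]
      exact h1
    linarith
  · have h2 : (Nat.card {x : SimpleGraph (Fin n) × Finset (Fin n) // PairG x.1 x.2} : ℝ) / (extCount n : ℝ) ≤ 1 + ε / 2 := by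
      rw [div_le_iff₀ hE]
      exact g1
    linarith

/-- The total variation distance tends to zero. -/
theorem tv_pairs : ∀ ε : ℝ, 0 < ε → ∀ᶠ n : ℕ in atTop, ∀ P : SimpleGraph (Fin n) → Prop,
    |(Nat.card {G : SimpleGraph (Fin n) // Ext G ∧ P G} : ℝ) / Nat.card {G : SimpleGraph (Fin n) // Ext G} -
      (Nat.card {x : SimpleGraph (Fin n) × Finset (Fin n) // PairG x.1 x.2 ∧ P x.1} : ℝ) /
        Nat.card {x : SimpleGraph (Fin n) × Finset (Fin n) // PairG x.1 x.2}| ≤ ε := by
  intro ε hε
  filter_upwards [pairs_le_ext hε, ext_eventually_pos] with n g1 g2 P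
  have hE : (0 : ℝ) < extCount n := by exact_mod_cast g2
  have hEN := ext_le_pairs' n
  have e1 := ext_le_pairs P
  have e2 := ext_le_pairs (fun G => ¬ P G)
  have e3 := card_split (α := SimpleGraph (Fin n)) Ext P
  have e4 := card_split (α := SimpleGraph (Fin n) × Finset (Fin n)) (fun x => PairG x.1 x.2) (fun x => P x.1)
  change |(Nat.card {G : SimpleGraph (Fin n) // Ext G ∧ P G} : ℝ) / (extCount n : ℝ) -
      (Nat.card {x : SimpleGraph (Fin n) × Finset (Fin n) // PairG x.1 x.2 ∧ P x.1} : ℝ) /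
        Nat.card {x : SimpleGraph (Fin n) × Finset (Fin n) // PairG x.1 x.2}| ≤ ε
  have e3' : (Nat.card {G : SimpleGraph (Fin n) // Ext G ∧ P G} : ℝ) +
      Nat.card {G : SimpleGraph (Fin n) // Ext G ∧ ¬ P G} = extCount n := by exact_mod_cast e3
  have e4' : (Nat.card {x : SimpleGraph (Fin n) × Finset (Fin n) // PairG x.1 x.2 ∧ P x.1} : ℝ) +
      Nat.card {x : SimpleGraph (Fin n) × Finset (Fin n) // PairG x.1 x.2 ∧ ¬ P x.1} =
      Nat.card {x : SimpleGraph (Fin n) × Finset (Fin n) // PairG x.1 x.2} := by exact_mod_cast e4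
  have e1' : (Nat.card {G : SimpleGraph (Fin n) // Ext G ∧ P G} : ℝ) ≤
      Nat.card {x : SimpleGraph (Fin n) × Finset (Fin n) // PairG x.1 x.2 ∧ P x.1} := by exact_mod_cast e1
  have e2' : (Nat.card {G : SimpleGraph (Fin n) // Ext G ∧ ¬ P G} : ℝ) ≤
      Nat.card {x : SimpleGraph (Fin n) × Finset (Fin n) // PairG x.1 x.2 ∧ ¬ P x.1} := by exact_mod_cast e2
  have ha0 : (0 : ℝ) ≤ Nat.card {G : SimpleGraph (Fin n) // Ext G ∧ P G} := Nat.cast_nonneg _
  have ha1 : (0 : ℝ) ≤ Nat.card {G : SimpleGraph (Fin n) // Ext G ∧ ¬ P G} := Nat.cast_nonneg _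
  generalize (Nat.card {G : SimpleGraph (Fin n) // Ext G ∧ P G} : ℝ) = a at *
  generalize (Nat.card {G : SimpleGraph (Fin n) // Ext G ∧ ¬ P G} : ℝ) = a' at *
  generalize (Nat.card {x : SimpleGraph (Fin n) × Finset (Fin n) // PairG x.1 x.2 ∧ P x.1} : ℝ) = b at *
  generalize (Nat.card {x : SimpleGraph (Fin n) × Finset (Fin n) // PairG x.1 x.2 ∧ ¬ P x.1} : ℝ) = b' at *
  generalize (Nat.card {x : SimpleGraph (Fin n) × Finset (Fin n) // PairG x.1 x.2} : ℝ) = N at *
  generalize (extCount n : ℝ) = E at *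
  have hN : 0 < N := hE.trans_le hEN
  have hD : (N - E) / E ≤ ε := by
    rw [div_le_iff₀ hE]
    linarith
  rw [abs_le]
  constructor
  · have h1 : b / N ≤ b / E := div_le_div_of_nonneg_left (by linarith) hE hEN
    have h2 : b / E - a / E ≤ (N - E) / E := by
      rw [← sub_div]
      exact div_le_div_of_nonneg_right (by linarith) hE.le
    linarith
  · have h1 : a / N ≤ b / N := div_le_div_of_nonneg_right e1' hN.le
    have h2 : a / E - a / N ≤ (N - E) / E := by
      have h3 : a / E - a / N = a * (N - E) / (E * N) := by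
        field_simp
      have h4 : (N - E) / E = N * (N - E) / (E * N) := by
        field_simp
      rw [h3, h4]
      refine div_le_div_of_nonneg_right (mul_le_mul_of_nonneg_right (by linarith) (by linarith)) (by positivity)
    linarith

end Pool.Agent.Lib.P5135n
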