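import Pool.Agent.Lib.P5135n.Final4

/-!
# Module P5135n.Tp1: strong log-concavity of the terms of the asymptotic formula

PROOF. `AA_pos`: clear. `AA_ratio`: with `m = n - 2 k`, `y j = (3/4) ^ j`:
`AA n (k + 1) / AA n k = m (m - 1) / (4 (k + 1)) * 2 ^ (- 4 k) * (1 - y (k + 1)) ^ (m - 2) / (1 - y k) ^ m`
(`n! / (n - 2 k - 2)! = m (m - 1) n! / (n - 2 k)!`, `4 ^ j - 3 ^ j = 4 ^ j (1 - y j)`,
`choose (m - 2) 2 = choose m 2 - (2 m - 3)`). `AA_lc`: dividing the ratios for `k + 1` and `k`, the quotient is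
`((m - 2) (m - 3) (k + 1)) / (m (m - 1) (k + 2)) * (1 / 16) * (1 - y (k+2)) ^ (m - 4) (1 - y k) ^ m / (1 - y (k+1)) ^ (2 m - 4)`, the first
factor is `≤ 1`, the last is `≤ ((1 - y (k+2)) (1 - y k) / (1 - y (k+1)) ^ 2) ^ m` (as `y (k+2) ≤ y (k+1)`), and with `y = y k`
`(1 - 9 y / 16) (1 - y) = (1 - 3 y / 4) ^ 2 - y / 16 ≤ (1 - 3 y / 4) ^ 2 (1 - y / 16)`.
-/

set_option autoImplicit false

namespace Pool.Agent.Lib.P5135n

theorem AA_pos {n k : ℕ} (hk : 1 ≤ k) : 0 < AA n k := by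
  unfold AA
  have h : (3 : ℝ) ^ k < 4 ^ k := pow_lt_pow_left₀ (by norm_num) (by norm_num) (by omega)
  have h2 : (0 : ℝ) < ((4 : ℝ) ^ k - 3 ^ k) ^ (n - 2 * k) := pow_pos (by linarith) _
  have h3 : (0 : ℝ) < (n.factorial : ℝ) := by exact_mod_cast Nat.factorial_pos _
  have h4 : (0 : ℝ) < ((n - 2 * k).factorial : ℝ) := by exact_mod_cast Nat.factorial_pos _
  have h5 : (0 : ℝ) < (k.factorial : ℝ) := by exact_mod_cast Nat.factorial_pos _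
  positivity

theorem Tp1_four_sub (k : ℕ) : (4 : ℝ) ^ k - 3 ^ k = 2 ^ (2 * k) * (1 - (3 / 4 : ℝ) ^ k) := by
  have h : (4 : ℝ) ^ k = 2 ^ (2 * k) := by rw [pow_mul]; norm_num
  have h4 : (4 : ℝ) ^ k ≠ 0 := pow_ne_zero _ (by norm_num)
  rw [← h, div_pow, mul_sub, mul_one, mul_div_cancel₀ _ h4]

theorem Tp1_choose (m : ℕ) : (m + 2).choose 2 = m.choose 2 + (2 * m + 1) := by
  have h1 : (m + 2).choose 2 = (m + 1).choose 1 + (m + 1).choose 2 := rfl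
  have h2 : (m + 1).choose 2 = m.choose 1 + m.choose 2 := rfl
  rw [h1, h2, Nat.choose_one_right, Nat.choose_one_right]
  omega

/-- The ratio of consecutive terms (without division). -/
theorem AA_ratio {n k : ℕ} (hk : 1 ≤ k) (h : 2 * (k + 1) ≤ n) :
    AA n (k + 1) * (4 * (k + 1) * 2 ^ (4 * k) * (1 - (3 / 4 : ℝ) ^ k) ^ (n - 2 * k)) =
      AA n k * (((n - 2 * k : ℕ) : ℝ) * (((n - 2 * k : ℕ) : ℝ) - 1) * (1 - (3 / 4 : ℝ) ^ (k + 1)) ^ (n - 2 * k - 2)) := by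
  obtain ⟨m, hm⟩ : ∃ m, n - 2 * k = m + 2 := ⟨n - 2 * k - 2, by omega⟩
  have hm2 : n - 2 * (k + 1) = m := by omega
  have hm3 : n - 2 * k - 2 = m := by omega
  unfold AA
  rw [hm3, hm2, hm, Tp1_four_sub, Tp1_four_sub, Tp1_choose]
  generalize (1 - (3 / 4 : ℝ) ^ k) = A
  generalize (1 - (3 / 4 : ℝ) ^ (k + 1)) = B
  have f1 : ((m + 2).factorial : ℝ) = ((m : ℝ) + 2) * ((m : ℝ) + 1) * (m.factorial : ℝ) := by
    rw [Nat.factorial_succ, Nat.factorial_succ]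
    push_cast
    ring
  have f2 : ((k + 1).factorial : ℝ) = ((k : ℝ) + 1) * (k.factorial : ℝ) := by
    rw [Nat.factorial_succ]
    push_cast
    ring
  rw [f1, f2]
  have h3 : (0 : ℝ) < (m.factorial : ℝ) := by exact_mod_cast Nat.factorial_pos _
  have h5 : (0 : ℝ) < (k.factorial : ℝ) := by exact_mod_cast Nat.factorial_pos _
  have hk0 : (0 : ℝ) < (k : ℝ) + 1 := by positivity
  have hm0 : (0 : ℝ) < (m : ℝ) + 1 := by positivity
  have hm1 : (0 : ℝ) < (m : ℝ) + 2 := by positivity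
  have h2k : (0 : ℝ) < (2 : ℝ) ^ k := by positivity
  have hcast : ((m + 2 : ℕ) : ℝ) - 1 = (m : ℝ) + 1 := by push_cast; ring
  rw [hcast]
  have hcast2 : ((m + 2 : ℕ) : ℝ) = (m : ℝ) + 2 := by push_cast; ring
  rw [hcast2]
  have hp1 : ((2 : ℝ) ^ (2 * (k + 1)) * B) ^ m = 2 ^ (2 * k * m) * 2 ^ (2 * m) * B ^ m := by
    rw [mul_pow, ← pow_mul, ← pow_add]
    congr 2
    ring
  have hp2 : ((2 : ℝ) ^ (2 * k) * A) ^ (m + 2) = 2 ^ (2 * k * m) * 2 ^ (4 * k) * A ^ (m + 2) := by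
    rw [mul_pow, ← pow_mul, ← pow_add]
    congr 2
    ring
  have hp3 : (2 : ℝ) ^ (m.choose 2 + (2 * m + 1)) = 2 ^ (m.choose 2) * 2 ^ (2 * m) * 2 := by
    rw [pow_add, pow_succ]
    ring
  rw [hp1, hp2, hp3, pow_succ (2 : ℝ) k]
  generalize (2 : ℝ) ^ (2 * k * m) = X1
  generalize (2 : ℝ) ^ (2 * m) = X2
  generalize (2 : ℝ) ^ (4 * k) = X3
  generalize (2 : ℝ) ^ (m.choose 2) = X4
  generalize A ^ (m + 2) = X5
  generalize B ^ m = X6
  generalize (2 : ℝ) ^ k = X7 at *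
  field_simp
  ring

theorem Tp1_pow {y : ℝ} (h0 : 0 < y) (h1 : y < 1) (j : ℕ) :
    (1 - 9 / 16 * y) ^ j * (1 - y) ^ (j + 4) ≤ (1 - y / 16) ^ (j + 4) * (1 - 3 / 4 * y) ^ (2 * j + 4) := by
  set P : ℝ := 1 - y with hP
  set Q : ℝ := 1 - 3 / 4 * y with hQ
  set R : ℝ := 1 - 9 / 16 * y with hR
  set s : ℝ := 1 - y / 16 with hs
  have P0 : 0 < P := by rw [hP]; linarith
  have Q0 : 0 < Q := by rw [hQ]; linarith
  have R0 : 0 < R := by rw [hR]; linarith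
  have s0 : 0 < s := by rw [hs]; linarith
  have Q1 : Q ≤ 1 := by rw [hQ]; linarith
  have QR : Q ≤ R := by rw [hQ, hR]; linarith
  have k1 : R * P ≤ Q ^ 2 * s := by
    have e1 : R * P = Q ^ 2 - y / 16 := by rw [hR, hP, hQ]; ring
    have e2 : Q ^ 2 * s = Q ^ 2 - Q ^ 2 * (y / 16) := by rw [hs]; ring
    rw [e1, e2]
    have : Q ^ 2 * (y / 16) ≤ 1 * (y / 16) := by
      apply mul_le_mul_of_nonneg_right _ (by linarith)
      nlinarith
    linarith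
  have k2 : P ≤ Q * s := by
    have e1 : Q * P ≤ Q * (Q * s) := by
      calc Q * P ≤ R * P := mul_le_mul_of_nonneg_right QR P0.le
        _ ≤ Q ^ 2 * s := k1
        _ = Q * (Q * s) := by ring
    exact le_of_mul_le_mul_left e1 Q0
  have k3 : (R * P) ^ j ≤ (Q ^ 2 * s) ^ j := pow_le_pow_left₀ (by positivity) k1 j
  have k4 : P ^ 4 ≤ (Q * s) ^ 4 := pow_le_pow_left₀ P0.le k2 4
  calc R ^ j * P ^ (j + 4) = (R * P) ^ j * P ^ 4 := by rw [mul_pow, pow_add]; ring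
    _ ≤ (Q ^ 2 * s) ^ j * (Q * s) ^ 4 := mul_le_mul k3 k4 (by positivity) (by positivity)
    _ = s ^ (j + 4) * Q ^ (2 * j + 4) := by
      rw [mul_pow, mul_pow, ← pow_mul, pow_add, pow_add]
      ring

theorem AA_lc {n k : ℕ} (hk : 1 ≤ k) (h : 2 * (k + 2) ≤ n) :
    AA n (k + 2) * AA n k ≤ AA n (k + 1) ^ 2 * (1 / 16 * (1 - (3 / 4 : ℝ) ^ k / 16) ^ (n - 2 * k)) := by
  have r1 := AA_ratio (n := n) (k := k) hk (by omega)
  have r2 := AA_ratio (n := n) (k := k + 1) (by omega) (by omega)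
  obtain ⟨j, hj⟩ : ∃ j, n - 2 * k = j + 4 := ⟨n - 2 * k - 4, by omega⟩
  have hj2 : n - 2 * (k + 1) = j + 2 := by omega
  have hj3 : n - 2 * k - 2 = j + 2 := by omega
  have hj4 : n - 2 * (k + 1) - 2 = j := by omega
  rw [hj3, hj] at r1
  rw [hj4, hj2] at r2
  rw [hj]
  have y1 : (3 / 4 : ℝ) ^ (k + 1) = 3 / 4 * (3 / 4 : ℝ) ^ k := by rw [pow_succ]; ring
  have y2 : (3 / 4 : ℝ) ^ (k + 1 + 1) = 9 / 16 * (3 / 4 : ℝ) ^ k := by rw [pow_succ, pow_succ]; ring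
  rw [y1] at r1
  rw [y2, y1] at r2
  have hy0 : (0 : ℝ) < (3 / 4 : ℝ) ^ k := by positivity
  have hy1 : (3 / 4 : ℝ) ^ k < 1 := pow_lt_one₀ (by norm_num) (by norm_num) (by omega)
  have hpow := Tp1_pow hy0 hy1 j
  generalize (3 / 4 : ℝ) ^ k = y at *
  have a0 : 0 < AA n k := AA_pos hk
  have a1 : 0 < AA n (k + 1) := AA_pos (by omega)
  have a2 : 0 < AA n (k + 1 + 1) := AA_pos (by omega)
  have e2 : AA n (k + 2) = AA n (k + 1 + 1) := rfl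
  rw [e2]
  generalize AA n k = a at *
  generalize AA n (k + 1) = b at *
  generalize AA n (k + 1 + 1) = c at *
  have hk0 : (0 : ℝ) ≤ (k : ℝ) := by positivity
  have hj0 : (0 : ℝ) ≤ (j : ℝ) := by positivity
  have P0 : 0 < 1 - y := by linarith
  have Q0 : 0 < 1 - 3 / 4 * y := by linarith
  have R0 : 0 < 1 - 9 / 16 * y := by linarith
  have s0 : 0 < 1 - y / 16 := by linarith
  have e4 : (2 : ℝ) ^ (4 * (k + 1)) = 16 * 2 ^ (4 * k) := by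
    rw [show 4 * (k + 1) = 4 * k + 4 from by ring, pow_add]
    ring
  push_cast at r1 r2
  rw [e4] at r2
  have z0 : (0 : ℝ) < 2 ^ (4 * k) := by positivity
  generalize (2 : ℝ) ^ (4 * k) = z at *
  set D1 : ℝ := 4 * ((k : ℝ) + 1 + 1) * (16 * z) * (1 - 3 / 4 * y) ^ (j + 2) with hD1
  set N0 : ℝ := ((j : ℝ) + 4) * ((j : ℝ) + 4 - 1) * (1 - 3 / 4 * y) ^ (j + 2) with hN0
  set D0 : ℝ := 4 * ((k : ℝ) + 1) * z * (1 - y) ^ (j + 4) with hD0
  set N1 : ℝ := ((j : ℝ) + 2) * ((j : ℝ) + 2 - 1) * (1 - 9 / 16 * y) ^ j with hN1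
  have D1p : 0 < D1 := by rw [hD1]; positivity
  have N0p : 0 < N0 := by
    rw [hN0]
    have : (0 : ℝ) < (j : ℝ) + 4 - 1 := by linarith
    positivity
  have key : N1 * D0 ≤ (1 / 16 * (1 - y / 16) ^ (j + 4)) * (D1 * N0) := by
    have l1 : N1 * D0 = 4 * z * (((j : ℝ) + 2) * ((j : ℝ) + 1) * ((k : ℝ) + 1)) * ((1 - 9 / 16 * y) ^ j * (1 - y) ^ (j + 4)) := by
      rw [hN1, hD0]; ring
    have l2 : (1 / 16 * (1 - y / 16) ^ (j + 4)) * (D1 * N0) =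
        4 * z * (((j : ℝ) + 4) * ((j : ℝ) + 3) * ((k : ℝ) + 2)) * ((1 - y / 16) ^ (j + 4) * (1 - 3 / 4 * y) ^ (2 * j + 4)) := by
      rw [hD1, hN0, show 2 * j + 4 = (j + 2) + (j + 2) from by ring, pow_add (1 - 3 / 4 * y) (j + 2) (j + 2)]; ring
    rw [l1, l2]
    have t1 : ((j : ℝ) + 2) * ((j : ℝ) + 1) * ((k : ℝ) + 1) ≤ ((j : ℝ) + 4) * ((j : ℝ) + 3) * ((k : ℝ) + 2) := by
      apply mul_le_mul _ (by linarith) (by positivity) (by positivity)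
      apply mul_le_mul (by linarith) (by linarith) (by positivity) (by positivity)
    have t2 : 4 * z * (((j : ℝ) + 2) * ((j : ℝ) + 1) * ((k : ℝ) + 1)) ≤ 4 * z * (((j : ℝ) + 4) * ((j : ℝ) + 3) * ((k : ℝ) + 2)) :=
      mul_le_mul_of_nonneg_left t1 (by positivity)
    exact mul_le_mul t2 hpow (by positivity) (by positivity)
  have hfin : c * a * (D1 * N0) ≤ b ^ 2 * (1 / 16 * (1 - y / 16) ^ (j + 4)) * (D1 * N0) := by
    calc c * a * (D1 * N0) = (c * D1) * (a * N0) := by ring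
      _ = (b * N1) * (b * D0) := by rw [r2, ← r1]
      _ = b ^ 2 * (N1 * D0) := by ring
      _ ≤ b ^ 2 * ((1 / 16 * (1 - y / 16) ^ (j + 4)) * (D1 * N0)) := mul_le_mul_of_nonneg_left key (by positivity)
      _ = b ^ 2 * (1 / 16 * (1 - y / 16) ^ (j + 4)) * (D1 * N0) := by ring
  exact le_of_mul_le_mul_right hfin (by positivity)

end Pool.Agent.Lib.P5135n
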