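import Mathlib

/-!
# Module P5135n.Tp2: strongly log-concave sequences live on two points

PROOF. `r k = a (k + 1) / a k` is decreasing by factors `≤ 1 / 16`, and by factors `≤ θ` up to `k₀`. Above: `r k₀ ≤ 1`, so
`r (k₀ + 1) ≤ θ`, `r (k₀ + j) ≤ θ / 16 ^ (j - 1)`, so `a (k₀ + 2) + a (k₀ + 3) + … ≤ θ (1 + 1/16 + …) a k₀ ≤ 2 θ a k₀`. Below: `r (k₀ - 1) ≥ 1`,
so `1 / r (k₀ - 2) ≤ θ`, `1 / r (k₀ - 1 - j) ≤ θ / 16 ^ (j - 1)`, and `a (k₀ - 2) + a (k₀ - 3) + … ≤ 2 θ a k₀`. Neighbours (if both exist):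
`a (k₀ + 1) * a (k₀ - 1) ≤ θ (a k₀) ^ 2`, so one of them is at most `√θ a k₀`; take `κ = k₀ - 1` if `a (k₀ + 1)` is small
and `κ = k₀` otherwise (`κ = k₀` also if `k₀ = 1`, `κ = k₀ - 1` if `k₀ = N`, `k₀ ≥ 2`). Total `≤ (√θ + 4 θ) a k₀ ≤ 4 √θ a k₀` as `√θ ≤ 1 / 4`.

In the Lean every term outside the two points is at most `√θ (1/4) ^ (|k - k₀| - 1) a k₀`.
-/

set_option autoImplicit false

namespace Pool.Agent.Lib.P5135n

private theorem tp2_geom (m : ℕ) : ∑ j ∈ Finset.range m, (1 / 4 : ℝ) ^ j ≤ 4 / 3 := by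
  have key : ∀ m : ℕ, ∑ j ∈ Finset.range m, (1 / 4 : ℝ) ^ j = (1 - (1 / 4 : ℝ) ^ m) * (4 / 3) := by
    intro m
    induction m with
    | zero => simp
    | succ m ih =>
      rw [Finset.sum_range_succ, ih, pow_succ]
      ring
  rw [key]
  have h : (0 : ℝ) ≤ (1 / 4 : ℝ) ^ m := by positivity
  linarith

private theorem tp2_up {N : ℕ} (a : ℕ → ℝ) (k₀ : ℕ) (h1 : 1 ≤ k₀)
    (hpos : ∀ k, 1 ≤ k → k ≤ N → 0 < a k) (hmax : ∀ k, 1 ≤ k → k ≤ N → a k ≤ a k₀)
    {θ : ℝ}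
    (hlc : ∀ k, 1 ≤ k → k + 2 ≤ N → a (k + 2) * a k ≤ a (k + 1) ^ 2 * (1 / 16))
    (hs : ∀ k, 1 ≤ k → k + 2 ≤ N → k ≤ k₀ → a (k + 2) * a k ≤ a (k + 1) ^ 2 * θ) (hθ0 : 0 ≤ θ) :
    ∀ j, k₀ + 2 + j ≤ N → a (k₀ + 2 + j) ≤ θ * (1 / 16) ^ j * a k₀ := by
  -- decreasing after the maximum
  have hdec : ∀ j, k₀ + j + 1 ≤ N → a (k₀ + j + 1) ≤ a (k₀ + j) := by
    intro j
    induction j with
    | zero =>
      intro h
      exact hmax (k₀ + 1) (by omega) h
    | succ j ih =>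
      intro h
      have h2 := ih (by omega)
      have hp0 := hpos (k₀ + j) (by omega) (by omega)
      have hp1 := hpos (k₀ + j + 1) (by omega) (by omega)
      have h3 := hlc (k₀ + j) (by omega) (by omega)
      have e : k₀ + (j + 1) + 1 = k₀ + j + 2 := by ring
      have e' : k₀ + (j + 1) = k₀ + j + 1 := by ring
      rw [e, e']
      have h4 : a (k₀ + j + 2) * a (k₀ + j) ≤ a (k₀ + j + 1) * a (k₀ + j) := by nlinarith
      exact le_of_mul_le_mul_right h4 hp0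
  intro j
  induction j with
  | zero =>
    intro h
    have hp0 := hpos k₀ h1 (by omega)
    have hp1 := hpos (k₀ + 1) (by omega) (by omega)
    have h2 := hmax (k₀ + 1) (by omega) (by omega)
    have h3 := hs k₀ h1 (by omega) le_rfl
    rw [add_zero, pow_zero, mul_one]
    have h4 : a (k₀ + 2) * a k₀ ≤ θ * a k₀ * a k₀ := by
      have h5 : a (k₀ + 1) ^ 2 ≤ a k₀ * a k₀ := by nlinarith
      nlinarith
    exact le_of_mul_le_mul_right h4 hp0
  | succ j ih =>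
    intro h
    have h2 := ih (by omega)
    have h3 := hdec (j + 1) (by omega)
    have e1 : k₀ + (j + 1) + 1 = k₀ + 2 + j := by ring
    have e2 : k₀ + (j + 1) = k₀ + j + 1 := by ring
    rw [e1, e2] at h3
    have hp0 := hpos (k₀ + j + 1) (by omega) (by omega)
    have hp1 := hpos (k₀ + 2 + j) (by omega) (by omega)
    have h4 := hlc (k₀ + j + 1) (by omega) (by omega)
    have e3 : k₀ + j + 1 + 2 = k₀ + 2 + (j + 1) := by ring
    have e4 : k₀ + j + 1 + 1 = k₀ + 2 + j := by ring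
    rw [e3, e4] at h4
    have h5 : a (k₀ + 2 + (j + 1)) * a (k₀ + j + 1) ≤ (1 / 16 * a (k₀ + 2 + j)) * a (k₀ + j + 1) := by nlinarith
    have h6 := le_of_mul_le_mul_right h5 hp0
    rw [pow_succ]
    nlinarith

private theorem tp2_down {N : ℕ} (a : ℕ → ℝ) (k₀ : ℕ) (hN : k₀ ≤ N)
    (hpos : ∀ k, 1 ≤ k → k ≤ N → 0 < a k) (hmax : ∀ k, 1 ≤ k → k ≤ N → a k ≤ a k₀)
    {θ : ℝ} (hθ0 : 0 ≤ θ) (hθ : θ ≤ 1 / 16)
    (hs : ∀ k, 1 ≤ k → k + 2 ≤ N → k ≤ k₀ → a (k + 2) * a k ≤ a (k + 1) ^ 2 * θ) :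
    ∀ j m, 1 ≤ m → m + 2 + j = k₀ → a m ≤ θ * (1 / 16) ^ j * a k₀ := by
  have hstep : ∀ m, 1 ≤ m → m + 2 ≤ k₀ → a (m + 1) ≤ a (m + 2) → a m ≤ θ * a (m + 1) := by
    intro m hm h h2
    have hp1 := hpos (m + 1) (by omega) (by omega)
    have hp2 := hpos (m + 2) (by omega) (by omega)
    have h3 := hs m hm (by omega) (by omega)
    have h4 : a m * a (m + 2) ≤ (θ * a (m + 1)) * a (m + 2) := by
      have h5 : a (m + 1) ^ 2 ≤ a (m + 1) * a (m + 2) := by nlinarith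
      nlinarith
    exact le_of_mul_le_mul_right h4 hp2
  -- increasing before the maximum
  have hinc : ∀ j m, 1 ≤ m → m + 1 + j = k₀ → a m ≤ a (m + 1) := by
    intro j
    induction j with
    | zero =>
      intro m hm h
      have e : m + 1 = k₀ := by omega
      rw [e]
      exact hmax m hm (by omega)
    | succ j ih =>
      intro m hm h
      have h2 := ih (m + 1) (by omega) (by omega)
      have h3 := hstep m hm (by omega) h2
      have hp1 := hpos (m + 1) (by omega) (by omega)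
      nlinarith
  intro j
  induction j with
  | zero =>
    intro m hm h
    have e : m + 2 = k₀ := by omega
    have h2 := hinc 0 (m + 1) (by omega) (by omega)
    have h3 := hstep m hm (by omega) h2
    have h4 := hmax (m + 1) (by omega) (by omega)
    rw [pow_zero, mul_one]
    exact h3.trans (mul_le_mul_of_nonneg_left h4 hθ0)
  | succ j ih =>
    intro m hm h
    have h2 := hinc (j + 1) (m + 1) (by omega) (by omega)
    have h3 := hstep m hm (by omega) h2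
    have h4 := ih (m + 1) (by omega) (by omega)
    have hp1 := hpos (m + 1) (by omega) (by omega)
    rw [pow_succ]
    nlinarith

theorem two_point {N : ℕ} (a : ℕ → ℝ) (k₀ : ℕ) (h1 : 1 ≤ k₀) (hN : k₀ ≤ N)
    (hpos : ∀ k, 1 ≤ k → k ≤ N → 0 < a k) (hmax : ∀ k, 1 ≤ k → k ≤ N → a k ≤ a k₀)
    {θ : ℝ} (hθ0 : 0 ≤ θ) (hθ : θ ≤ 1 / 16)
    (hlc : ∀ k, 1 ≤ k → k + 2 ≤ N → a (k + 2) * a k ≤ a (k + 1) ^ 2 * (1 / 16))
    (hs : ∀ k, 1 ≤ k → k + 2 ≤ N → k ≤ k₀ → a (k + 2) * a k ≤ a (k + 1) ^ 2 * θ) :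
    ∃ κ, (κ = k₀ ∨ κ + 1 = k₀) ∧
      ∑ k ∈ (Finset.Icc 1 N).filter (fun k => k ≠ κ ∧ k ≠ κ + 1), a k ≤ 4 * Real.sqrt θ * a k₀ := by
  obtain ⟨s, hs0, hs2, hse⟩ : ∃ s : ℝ, 0 ≤ s ∧ s * s = θ ∧ Real.sqrt θ = s :=
    ⟨Real.sqrt θ, Real.sqrt_nonneg θ, Real.mul_self_sqrt hθ0, rfl⟩
  rw [hse]
  have hs4 : s ≤ 1 / 4 := by nlinarith
  have hA := hpos k₀ h1 hN
  have hθs : θ ≤ s * (1 / 4) := by nlinarith
  have hpow : ∀ j : ℕ, θ * (1 / 16) ^ j * a k₀ ≤ s * (1 / 4) ^ (j + 1) * a k₀ := by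
    intro j
    refine mul_le_mul_of_nonneg_right ?_ hA.le
    have h2 : (1 / 16 : ℝ) ^ j ≤ (1 / 4) ^ j := pow_le_pow_left₀ (by norm_num) (by norm_num) j
    have h3 : (0 : ℝ) ≤ (1 / 16 : ℝ) ^ j := by positivity
    calc θ * (1 / 16) ^ j ≤ (s * (1 / 4)) * (1 / 4) ^ j := mul_le_mul hθs h2 h3 (by positivity)
      _ = s * (1 / 4) ^ (j + 1) := by rw [pow_succ]; ring
  have hU : ∀ k, k₀ + 2 ≤ k → k ≤ N → a k ≤ s * (1 / 4) ^ (k - (k₀ + 1)) * a k₀ := by
    intro k hk hkN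
    obtain ⟨j, rfl⟩ := Nat.exists_eq_add_of_le hk
    have e : k₀ + 2 + j - (k₀ + 1) = j + 1 := by omega
    rw [e]
    exact (tp2_up a k₀ h1 hpos hmax hlc hs hθ0 j hkN).trans (hpow j)
  have hL : ∀ k, 1 ≤ k → k + 2 ≤ k₀ → a k ≤ s * (1 / 4) ^ (k₀ - 1 - k) * a k₀ := by
    intro k hk hkN
    obtain ⟨j, hj⟩ := Nat.exists_eq_add_of_le hkN
    have e : k₀ - 1 - k = j + 1 := by omega
    rw [e]
    exact (tp2_down a k₀ hN hpos hmax hθ0 hθ hs j k hk hj.symm).trans (hpow j)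
  have hmid : (∀ k, 1 ≤ k → k + 1 = k₀ → a k ≤ s * a k₀) ∨ (k₀ + 1 ≤ N → a (k₀ + 1) ≤ s * a k₀) := by
    by_contra hc
    push Not at hc
    obtain ⟨⟨k, hk, hk0, hka⟩, hN1, hb⟩ := hc
    have h2 := hs k hk (by omega) (by omega)
    have e : k + 2 = k₀ + 1 := by omega
    rw [e, hk0] at h2
    have h3 : (s * a k₀) * (s * a k₀) < a (k₀ + 1) * a k :=
      mul_lt_mul'' hb hka (by positivity) (by positivity)
    have h4 : (s * a k₀) * (s * a k₀) = a k₀ ^ 2 * θ := by rw [← hs2]; ring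
    linarith
  -- the sum
  have hsum : ∀ F : Finset ℕ, F ⊆ Finset.Icc 1 N → k₀ ∉ F →
      (∀ k ∈ F, k + 1 = k₀ → a k ≤ s * a k₀) → (∀ k ∈ F, k = k₀ + 1 → a k ≤ s * a k₀) →
      ∑ k ∈ F, a k ≤ 4 * s * a k₀ := by
    intro F hF hk0 hlow hup
    have hb1 : ∀ k ∈ F.filter (fun k => k < k₀), a k ≤ s * (1 / 4) ^ (k₀ - 1 - k) * a k₀ := by
      intro k hk
      rw [Finset.mem_filter] at hk
      have hk1 := Finset.mem_Icc.mp (hF hk.1)
      by_cases h : k + 1 = k₀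
      · have e : k₀ - 1 - k = 0 := by omega
        rw [e, pow_zero, mul_one]
        exact hlow k hk.1 h
      · exact hL k hk1.1 (by omega)
    have hb2 : ∀ k ∈ F.filter (fun k => ¬ k < k₀), a k ≤ s * (1 / 4) ^ (k - (k₀ + 1)) * a k₀ := by
      intro k hk
      rw [Finset.mem_filter] at hk
      have hk1 := Finset.mem_Icc.mp (hF hk.1)
      have hne : k ≠ k₀ := fun h => hk0 (h ▸ hk.1)
      by_cases h : k = k₀ + 1
      · have e : k - (k₀ + 1) = 0 := by omega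
        rw [e, pow_zero, mul_one]
        exact hup k hk.1 h
      · exact hU k (by omega) hk1.2
    have hc1 : ∑ k ∈ F.filter (fun k => k < k₀), a k ≤ s * (4 / 3) * a k₀ := by
      refine (Finset.sum_le_sum hb1).trans ?_
      rw [← Finset.sum_mul, ← Finset.mul_sum]
      refine mul_le_mul_of_nonneg_right (mul_le_mul_of_nonneg_left ?_ hs0) hA.le
      have h2 : F.filter (fun k => k < k₀) ⊆ Finset.range k₀ := by
        intro k hk
        rw [Finset.mem_filter] at hk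
        exact Finset.mem_range.mpr hk.2
      refine (Finset.sum_le_sum_of_subset_of_nonneg h2 fun k _ _ => by positivity).trans ?_
      rw [Finset.sum_range_reflect (fun j => (1 / 4 : ℝ) ^ j) k₀]
      exact tp2_geom k₀
    have hc2 : ∑ k ∈ F.filter (fun k => ¬ k < k₀), a k ≤ s * (4 / 3) * a k₀ := by
      refine (Finset.sum_le_sum hb2).trans ?_
      rw [← Finset.sum_mul, ← Finset.mul_sum]
      refine mul_le_mul_of_nonneg_right (mul_le_mul_of_nonneg_left ?_ hs0) hA.le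
      have h2 : F.filter (fun k => ¬ k < k₀) ⊆ Finset.Ico (k₀ + 1) (N + 1) := by
        intro k hk
        rw [Finset.mem_filter] at hk
        have hk1 := Finset.mem_Icc.mp (hF hk.1)
        have hne : k ≠ k₀ := fun h => hk0 (h ▸ hk.1)
        rw [Finset.mem_Ico]
        omega
      refine (Finset.sum_le_sum_of_subset_of_nonneg h2 fun k _ _ => by positivity).trans ?_
      rw [Finset.sum_Ico_eq_sum_range]
      refine le_trans (le_of_eq (Finset.sum_congr rfl fun i _ => ?_)) (tp2_geom (N + 1 - (k₀ + 1)))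
      congr 1
      omega
    rw [← Finset.sum_filter_add_sum_filter_not F (fun k => k < k₀)]
    nlinarith [mul_nonneg hs0 hA.le]
  rcases hmid with hm | hm
  · refine ⟨k₀, Or.inl rfl, ?_⟩
    refine hsum _ (Finset.filter_subset _ _) ?_ ?_ ?_
    · intro h
      exact (Finset.mem_filter.mp h).2.1 rfl
    · intro k hk h
      exact hm k (Finset.mem_Icc.mp (Finset.mem_filter.mp hk).1).1 h
    · intro k hk h
      exact ((Finset.mem_filter.mp hk).2.2 h).elim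
  · refine ⟨k₀ - 1, Or.inr (by omega), ?_⟩
    refine hsum _ (Finset.filter_subset _ _) ?_ ?_ ?_
    · intro h
      exact (Finset.mem_filter.mp h).2.2 (by omega)
    · intro k hk h
      exact ((Finset.mem_filter.mp hk).2.1 (by omega)).elim
    · intro k hk h
      have hk1 := Finset.mem_Icc.mp (Finset.mem_filter.mp hk).1
      rw [h]
      exact hm (by omega)

end Pool.Agent.Lib.P5135n
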