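import Pool.Agent.Lib.P5135n.Tp1

/-!
# Module P5135n.Tp3: the gain at the maximal term

PROOF. `L = logb 2 n`, `k = k₀ - 1 ≥ 2.3 L - 1`, `m = n - 2 k`, `y = (3/4) ^ k ≤ 1/2`. `AA_ratio` for `k` and `AA n k ≤ AA n k₀` (both positive) give
`4 (k + 1) 2 ^ (4 k) (1 - y) ^ m ≤ m (m - 1) (1 - 3y/4) ^ (m - 2) ≤ n ^ 2`, so `(1 - y) ^ m ≤ n ^ 2 2 ^ (- 4 k) ≤ 16 n ^ (2 - 9.2)`. As
`1 - y ≥ exp (- 2 y)` for `0 ≤ y ≤ 1/2`, `exp (- 2 y m) ≤ 16 n ^ (-7.2)`, so `y m ≥ 3 log n` eventually, and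
`(3/4) ^ k₀ (n - 2 k₀) = (3/4) y (m - 2) ≥ 2 log n` eventually. For `1 ≤ j ≤ k₀`: `(1 - (3/4) ^ j / 16) ^ (n - 2 j) ≤
exp (- (3/4) ^ j (n - 2 j) / 16) ≤ exp (- (3/4) ^ k₀ (n - 2 k₀) / 16) ≤ n ^ (- 1 / 8)`.
-/

set_option autoImplicit false

open Filter

namespace Pool.Agent.Lib.P5135n

/-- `log₂ n` is small against `n`. -/
private theorem tp3_ev : ∀ᶠ n : ℕ in atTop, 31 / 5 * Real.logb 2 n + 4 ≤ n := by
  have h1 : ∀ᶠ x : ℝ in atTop, |Real.log x| ≤ 1 / 100 * |x| := by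
    have h := Real.isLittleO_log_id_atTop.def (show (0 : ℝ) < 1 / 100 by norm_num)
    simpa [Real.norm_eq_abs] using h
  filter_upwards [tendsto_natCast_atTop_atTop.eventually h1, eventually_ge_atTop 10] with n h2 h3
  have h4 : (10 : ℝ) ≤ n := by exact_mod_cast h3
  have h5 : Real.log (n : ℝ) ≤ 1 / 100 * n := by
    have h6 := (le_abs_self _).trans h2
    rwa [abs_of_nonneg (by linarith : (0 : ℝ) ≤ n)] at h6
  have h6 : (1 / 2 : ℝ) ≤ Real.log 2 := by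
    have := Real.log_two_gt_d9
    linarith
  have h7 : Real.logb 2 n ≤ 1 / 50 * n := by
    rw [Real.logb, div_le_iff₀ (by linarith)]
    nlinarith
  linarith

theorem num_theta : ∀ᶠ n : ℕ in atTop, ∀ k₀ : ℕ, 23 / 10 * Real.logb 2 n ≤ k₀ → (k₀ : ℝ) ≤ 31 / 10 * Real.logb 2 n →
    2 ≤ k₀ ∧ 2 * (k₀ + 2) ≤ n ∧ (AA n (k₀ - 1) ≤ AA n k₀ → ∀ j, 1 ≤ j → j ≤ k₀ →
      (1 - (3 / 4 : ℝ) ^ j / 16) ^ (n - 2 * j) ≤ (n : ℝ) ^ (-(1 / 8) : ℝ)) := by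
  filter_upwards [tp3_ev, tendsto_logb.eventually_ge_atTop 20, eventually_ge_atTop 10] with n h1 h2 h3 k₀ hk1 hk2
  set L := Real.logb 2 (n : ℝ) with hL
  have hk3 : (46 : ℝ) ≤ k₀ := by linarith
  have hk3' : 46 ≤ k₀ := by exact_mod_cast hk3
  have hk4 : 2 * (k₀ + 2) ≤ n := by
    have h4 : 2 * ((k₀ : ℝ) + 2) ≤ n := by linarith
    exact_mod_cast h4
  refine ⟨by omega, hk4, fun hle j hj1 hj2 => ?_⟩
  have hn0 : (0 : ℝ) < n := by exact_mod_cast (by omega : 0 < n)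
  have hnL : (2 : ℝ) ^ L = n := two_rpow_logb (by omega)
  -- the natural logarithm
  have hlog2 : (1 / 2 : ℝ) ≤ Real.log 2 := by
    have := Real.log_two_gt_d9
    linarith
  have hlogL : Real.log n = L * Real.log 2 := by
    rw [hL, Real.logb, div_mul_cancel₀]
    linarith
  have hlog10 : (10 : ℝ) ≤ Real.log n := by
    rw [hlogL]
    nlinarith
  obtain ⟨k, rfl⟩ : ∃ k, k₀ = k + 1 := ⟨k₀ - 1, by omega⟩
  rw [Nat.add_sub_cancel] at hle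
  have hk : 1 ≤ k := by omega
  have hkr : (23 / 10 * L - 1 : ℝ) ≤ k := by
    push_cast at hk1
    linarith
  have hratio := AA_ratio (n := n) hk (by omega)
  have hpos := AA_pos (n := n) (show 1 ≤ k + 1 by omega)
  set y : ℝ := (3 / 4 : ℝ) ^ k with hy
  have hy0 : 0 < y := by positivity
  have hy1 : y ≤ 1 / 2 := by
    have h4 : y ≤ (3 / 4 : ℝ) ^ 3 := pow_le_pow_of_le_one (by norm_num) (by norm_num) (by omega)
    norm_num at h4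
    linarith
  obtain ⟨m, hm⟩ : ∃ m, n - 2 * k = m := ⟨_, rfl⟩
  rw [hm] at hratio
  have hm2 : 2 ≤ m := by omega
  have hmn : (m : ℝ) ≤ n := by exact_mod_cast (by omega : m ≤ n)
  have hm0 : (2 : ℝ) ≤ m := by exact_mod_cast hm2
  -- the main inequality
  have e1 : 4 * ((k : ℝ) + 1) * 2 ^ (4 * k) * (1 - y) ^ m ≤ (n : ℝ) ^ 2 := by
    have e2 : (m : ℝ) * ((m : ℝ) - 1) * (1 - (3 / 4 : ℝ) ^ (k + 1)) ^ (m - 2) ≤ (n : ℝ) ^ 2 := by
      have e3 : (1 - (3 / 4 : ℝ) ^ (k + 1)) ^ (m - 2) ≤ 1 := by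
        have e4 : (3 / 4 : ℝ) ^ (k + 1) ≤ 1 := pow_le_one₀ (by norm_num) (by norm_num)
        have e5 : (0 : ℝ) < (3 / 4 : ℝ) ^ (k + 1) := by positivity
        exact pow_le_one₀ (by linarith) (by linarith)
      have e4 : (0 : ℝ) ≤ (m : ℝ) * ((m : ℝ) - 1) := mul_nonneg (by linarith) (by linarith)
      have e5 : (m : ℝ) * ((m : ℝ) - 1) ≤ (n : ℝ) ^ 2 := by nlinarith
      calc (m : ℝ) * ((m : ℝ) - 1) * (1 - (3 / 4 : ℝ) ^ (k + 1)) ^ (m - 2)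
          ≤ (m : ℝ) * ((m : ℝ) - 1) * 1 := mul_le_mul_of_nonneg_left e3 e4
        _ ≤ (n : ℝ) ^ 2 := by rw [mul_one]; exact e5
    have e6 : (0 : ℝ) ≤ (m : ℝ) * ((m : ℝ) - 1) * (1 - (3 / 4 : ℝ) ^ (k + 1)) ^ (m - 2) := by
      have e4 : (3 / 4 : ℝ) ^ (k + 1) ≤ 1 := pow_le_one₀ (by norm_num) (by norm_num)
      exact mul_nonneg (mul_nonneg (by linarith) (by linarith)) (pow_nonneg (by linarith) _)
    refine le_of_mul_le_mul_left ?_ hpos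
    calc AA n (k + 1) * (4 * ((k : ℝ) + 1) * 2 ^ (4 * k) * (1 - y) ^ m)
        = AA n k * ((m : ℝ) * ((m : ℝ) - 1) * (1 - (3 / 4 : ℝ) ^ (k + 1)) ^ (m - 2)) := by
          rw [← hratio]
      _ ≤ AA n (k + 1) * ((m : ℝ) * ((m : ℝ) - 1) * (1 - (3 / 4 : ℝ) ^ (k + 1)) ^ (m - 2)) :=
          mul_le_mul_of_nonneg_right hle e6
      _ ≤ AA n (k + 1) * (n : ℝ) ^ 2 := mul_le_mul_of_nonneg_left e2 hpos.le
  have e2 : (2 : ℝ) ^ (4 * k) * (1 - y) ^ m ≤ (n : ℝ) ^ 2 := by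
    refine le_trans ?_ e1
    have e3 : (0 : ℝ) ≤ (2 : ℝ) ^ (4 * k) * (1 - y) ^ m := mul_nonneg (by positivity) (pow_nonneg (by linarith) _)
    have e4 : (1 : ℝ) ≤ 4 * ((k : ℝ) + 1) := by
      have : (0 : ℝ) ≤ k := Nat.cast_nonneg k
      linarith
    calc (2 : ℝ) ^ (4 * k) * (1 - y) ^ m = 1 * ((2 : ℝ) ^ (4 * k) * (1 - y) ^ m) := (one_mul _).symm
      _ ≤ 4 * ((k : ℝ) + 1) * ((2 : ℝ) ^ (4 * k) * (1 - y) ^ m) := mul_le_mul_of_nonneg_right e4 e3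
      _ = _ := by ring
  -- logarithms
  have e3 : 4 * (k : ℝ) * Real.log 2 + m * Real.log (1 - y) ≤ 2 * Real.log n := by
    have hy2 : (0 : ℝ) < 1 - y := by linarith
    have e4 := Real.log_le_log (mul_pos (by positivity) (pow_pos hy2 m)) e2
    rw [Real.log_mul (by positivity) (pow_pos hy2 m).ne', Real.log_pow, Real.log_pow, Real.log_pow] at e4
    push_cast at e4
    linarith
  have e4 : -(2 * y) ≤ Real.log (1 - y) := by
    have hy2 : (0 : ℝ) < 1 - y := by linarith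
    have e5 := Real.one_sub_inv_le_log_of_pos hy2
    refine le_trans ?_ e5
    have e6 : (1 - y)⁻¹ ≤ 1 + 2 * y := by
      rw [inv_le_iff_one_le_mul₀ hy2]
      nlinarith
    linarith
  have e5 : 3 * Real.log n ≤ y * m := by
    have e6 : (m : ℝ) * (-(2 * y)) ≤ m * Real.log (1 - y) := mul_le_mul_of_nonneg_left e4 (by linarith)
    have e7 : (4 * (23 / 10 * L - 1)) * Real.log 2 ≤ 4 * (k : ℝ) * Real.log 2 :=
      mul_le_mul_of_nonneg_right (by linarith) (by linarith)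
    have e8 : Real.log 2 ≤ 1 := by
      have := Real.log_two_lt_d9
      linarith
    nlinarith
  -- the exponent at `k₀`
  have e6 : 2 * Real.log n ≤ (3 / 4 : ℝ) ^ (k + 1) * ((n - 2 * (k + 1) : ℕ) : ℝ) := by
    have e7 : ((n - 2 * (k + 1) : ℕ) : ℝ) = (m : ℝ) - 2 := by
      have e8 : n - 2 * (k + 1) = m - 2 := by omega
      rw [e8, Nat.cast_sub hm2]
      norm_num
    rw [e7, pow_succ, ← hy]
    nlinarith
  have e7 : (3 / 4 : ℝ) ^ (k + 1) * ((n - 2 * (k + 1) : ℕ) : ℝ) ≤ (3 / 4 : ℝ) ^ j * ((n - 2 * j : ℕ) : ℝ) := by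
    have e8 : (3 / 4 : ℝ) ^ (k + 1) ≤ (3 / 4 : ℝ) ^ j := pow_le_pow_of_le_one (by norm_num) (by norm_num) hj2
    have e9 : ((n - 2 * (k + 1) : ℕ) : ℝ) ≤ ((n - 2 * j : ℕ) : ℝ) := by
      exact_mod_cast (by omega : n - 2 * (k + 1) ≤ n - 2 * j)
    exact mul_le_mul e8 e9 (Nat.cast_nonneg _) (by positivity)
  have e8 : (1 - (3 / 4 : ℝ) ^ j / 16) ^ (n - 2 * j) ≤ Real.exp (-((3 / 4 : ℝ) ^ j / 16)) ^ (n - 2 * j) := by
    have e9 : (3 / 4 : ℝ) ^ j ≤ 1 := pow_le_one₀ (by norm_num) (by norm_num)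
    refine pow_le_pow_left₀ (by linarith) ?_ _
    have e10 := Real.add_one_le_exp (-((3 / 4 : ℝ) ^ j / 16))
    linarith
  refine e8.trans ?_
  rw [← Real.exp_nat_mul, Real.rpow_def_of_pos hn0]
  refine Real.exp_le_exp.2 ?_
  nlinarith

end Pool.Agent.Lib.P5135n
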