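import Pool.Agent.Lib.P5135n.Tp2
import Pool.Agent.Lib.P5135n.Tp3

/-!
# Two-point concentration of `Γ` on extremal graphs
-/

set_option autoImplicit false

open Filter Topology

namespace Pool.Agent.Lib.P5135n

open Pool.Agent.Lib.P5135a5

/-- The number of extremal graphs with `Γ = k` is at most `AA n k`. -/
theorem extK_le_AA {n k : ℕ} (hk2 : 2 * k ≤ n) :
    (Nat.card {G : SimpleGraph (Fin n) // Ext G ∧ upperDom G = k} : ℝ) ≤ AA n k := by
  have h0 : Nat.card {G : SimpleGraph (Fin n) // Ext G ∧ upperDom G = k} ≤ Nat.card {G : SimpleGraph (Fin n) // SkG G k} := by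
    refine card_mono' (α := SimpleGraph (Fin n)) (fun G => Ext G ∧ upperDom G = k) (fun G => SkG G k) ?_
    rintro G ⟨h1, h2⟩
    have h3 := ext_SkG h1
    rwa [h2] at h3
  have ha : (0 : ℝ) < autM k := by exact_mod_cast autM_pos k
  have h3 := places_all (k := k) (r := n - 2 * k) (n := n) (by omega)
  have h1 : (Nat.card {G : SimpleGraph (Fin n) // SkG G k} : ℝ) ≤ AA n k := by
    refine le_of_mul_le_mul_right ?_ ha
    rw [AA_mul hk2, mul_comm]
    exact_mod_cast h3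
  exact le_trans (by exact_mod_cast h0) h1

theorem ext_range {n : ℕ} (hn : 1 ≤ n) {G : SimpleGraph (Fin n)} (hG : Ext G) :
    1 ≤ upperDom G ∧ upperDom G ≤ n / 2 := by
  obtain ⟨T, hT, hm, hout⟩ := ext_SkG hG
  have h3 : T.card ≤ n := by
    have := Finset.card_le_univ T
    rwa [Fintype.card_fin] at this
  have h4 : 1 ≤ T.card := by
    by_contra hcon
    have h5 : T = ∅ := by
      rw [← Finset.card_eq_zero]
      omega
    obtain ⟨u, hu, _⟩ := hout ⟨0, by omega⟩ (by rw [h5]; simp)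
    rw [h5] at hu
    simp at hu
  omega

/-- A maximal term lies in every window. -/
theorem max_in_window {δ : ℝ} (hδ : 0 < δ) : ∀ᶠ n : ℕ in atTop, ∀ k₀ : ℕ, 1 ≤ k₀ → k₀ ≤ n / 2 →
    (∀ k, 1 ≤ k → k ≤ n / 2 → AA n k ≤ AA n k₀) → |(k₀ : ℝ) - beta * Real.logb 2 n| ≤ δ * Real.logb 2 n := by
  obtain ⟨η, hη, hw⟩ := num_win hδ
  filter_upwards [hw, extCount_ge (half_pos hη), eventually_ge_atTop 2,
    tendsto_logb.eventually_ge_atTop (4 / η)] with n g1 g2 g3 g4 k₀ h1 h2 hmax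
  set L := Real.logb 2 n with hL
  have hLpos : 0 < L := Real.logb_pos (by norm_num) (by exact_mod_cast g3)
  by_contra hcon
  push Not at hcon
  have hmem : k₀ ∈ (Finset.Icc 1 n).filter (fun k => 2 * k ≤ n ∧ δ * L < |(k : ℝ) - beta * L|) := by
    rw [Finset.mem_filter, Finset.mem_Icc]
    exact ⟨⟨h1, by omega⟩, by omega, hcon⟩
  have hterm0 : ∀ k ∈ (Finset.Icc 1 n).filter (fun k => 2 * k ≤ n ∧ δ * L < |(k : ℝ) - beta * L|), 0 ≤ term n k := by
    intro k _
    unfold term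
    have hle1 : (3 / 4 : ℝ) ^ k ≤ 1 := pow_le_one₀ (by norm_num) (by norm_num)
    have h5 : (0 : ℝ) ≤ (1 - (3 / 4 : ℝ) ^ k) ^ (n - 2 * k) := pow_nonneg (by linarith) _
    positivity
  have h5 : term n k₀ ≤ (2 : ℝ) ^ (-(2 * beta * (beta - 1) + η) * L ^ 2) :=
    (Finset.single_le_sum hterm0 hmem).trans g1
  have h6 : AA n k₀ ≤ (2 : ℝ) ^ (-(2 * beta * (beta - 1) + η) * L ^ 2) * 2 ^ (n.choose 2) :=
    (AA_le_term (by omega)).trans (mul_le_mul_of_nonneg_right h5 (by positivity))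
  have h7 : (extCount n : ℝ) ≤ n * AA n k₀ := by
    refine (ext_le_sum (by omega)).trans ?_
    have h8 : ∑ k ∈ Finset.Icc 1 (n / 2), AA n k ≤ ∑ k ∈ Finset.Icc 1 (n / 2), AA n k₀ := by
      refine Finset.sum_le_sum fun k hk => ?_
      rw [Finset.mem_Icc] at hk
      exact hmax k hk.1 hk.2
    refine h8.trans ?_
    rw [Finset.sum_const, Nat.card_Icc, nsmul_eq_mul]
    refine mul_le_mul_of_nonneg_right ?_ (AA_nonneg n k₀)
    exact_mod_cast (by omega : n / 2 + 1 - 1 ≤ n)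
  have h8 : (2 : ℝ) ^ (-(2 * beta * (beta - 1) + η / 2) * L ^ 2) * 2 ^ (n.choose 2) ≤
      (n : ℝ) * ((2 : ℝ) ^ (-(2 * beta * (beta - 1) + η) * L ^ 2) * 2 ^ (n.choose 2)) :=
    g2.trans (h7.trans (mul_le_mul_of_nonneg_left h6 (Nat.cast_nonneg n)))
  have h9 : (2 : ℝ) ^ (-(2 * beta * (beta - 1) + η / 2) * L ^ 2) ≤
      (n : ℝ) * (2 : ℝ) ^ (-(2 * beta * (beta - 1) + η) * L ^ 2) := by
    have h10 : (0 : ℝ) < 2 ^ (n.choose 2) := by positivity
    refine le_of_mul_le_mul_right (h8.trans (le_of_eq ?_)) h10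
    ring
  have hn : (n : ℝ) = (2 : ℝ) ^ L := (two_rpow_logb (by omega)).symm
  rw [hn, ← Real.rpow_add (by norm_num)] at h9
  have h10 := (Real.rpow_le_rpow_left_iff (by norm_num : (1 : ℝ) < 2)).1 h9
  have h11 : 4 ≤ η * L := by
    rw [div_le_iff₀ hη] at g4
    linarith
  nlinarith

/-- Two-point concentration. -/
theorem two_points : ∃ κ : ℕ → ℕ, Tendsto (fun n : ℕ => (κ n : ℝ) / Real.logb 2 n) atTop (𝓝 beta) ∧
    Tendsto (fun n : ℕ => (Nat.card {G : SimpleGraph (Fin n) // Ext G ∧ (upperDom G = κ n ∨ upperDom G = κ n + 1)} : ℝ) /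
      extCount n) atTop (𝓝 1) := by
  classical
  have hb1 := beta_gt'
  have hb2 := beta_lt_three
  -- the statement for one `n`
  have hone : ∀ᶠ n : ℕ in atTop, ∃ κ k₀ : ℕ, (κ = k₀ ∨ κ + 1 = k₀) ∧ 1 ≤ k₀ ∧ k₀ ≤ n / 2 ∧
      (∀ k, 1 ≤ k → k ≤ n / 2 → AA n k ≤ AA n k₀) ∧
      ∑ k ∈ (Finset.Icc 1 (n / 2)).filter (fun k => k ≠ κ ∧ k ≠ κ + 1), AA n k ≤
        4 * Real.sqrt (1 / 16 * (n : ℝ) ^ (-(1 / 8) : ℝ)) * AA n k₀ := by
    filter_upwards [num_theta, max_in_window (show (0 : ℝ) < 1 / 20 by norm_num), eventually_ge_atTop 2] with n h1 h2 h3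
    have hne : (Finset.Icc 1 (n / 2)).Nonempty := ⟨1, by rw [Finset.mem_Icc]; omega⟩
    obtain ⟨k₀, hk₀, hmax⟩ := Finset.exists_max_image (Finset.Icc 1 (n / 2)) (AA n) hne
    rw [Finset.mem_Icc] at hk₀
    have hmax' : ∀ k, 1 ≤ k → k ≤ n / 2 → AA n k ≤ AA n k₀ := fun k hk hk' => hmax k (by rw [Finset.mem_Icc]; exact ⟨hk, hk'⟩)
    have hw := h2 k₀ hk₀.1 hk₀.2 hmax'
    have hL : 0 ≤ Real.logb 2 n := Real.logb_nonneg (by norm_num) (by exact_mod_cast (by omega : 1 ≤ n))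
    rw [abs_le] at hw
    obtain ⟨h4, h5, h6⟩ := h1 k₀ (by nlinarith) (by nlinarith)
    have h7 := h6 (hmax' (k₀ - 1) (by omega) (by omega))
    have hn1 : (n : ℝ) ^ (-(1 / 8) : ℝ) ≤ 1 :=
      Real.rpow_le_one_of_one_le_of_nonpos (by exact_mod_cast (by omega : 1 ≤ n)) (by norm_num)
    obtain ⟨κ, hκ, hsum⟩ := two_point (N := n / 2) (AA n) k₀ hk₀.1 hk₀.2 (fun k hk _ => AA_pos hk) hmax'
      (θ := 1 / 16 * (n : ℝ) ^ (-(1 / 8) : ℝ)) (by positivity) (by linarith)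
      (fun k hk hk' => by
        refine (AA_lc hk (by omega)).trans ?_
        refine mul_le_mul_of_nonneg_left ?_ (sq_nonneg _)
        have h8 : (1 - (3 / 4 : ℝ) ^ k / 16) ^ (n - 2 * k) ≤ 1 := by
          have h9 : (3 / 4 : ℝ) ^ k ≤ 1 := pow_le_one₀ (by norm_num) (by norm_num)
          have h10 : (0 : ℝ) < (3 / 4 : ℝ) ^ k := by positivity
          exact pow_le_one₀ (by linarith) (by linarith)
        linarith)
      (fun k hk hk' hkk => by
        refine (AA_lc hk (by omega)).trans ?_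
        refine mul_le_mul_of_nonneg_left ?_ (sq_nonneg _)
        exact mul_le_mul_of_nonneg_left (h7 k hk hkk) (by norm_num))
    exact ⟨κ, k₀, hκ, hk₀.1, hk₀.2, hmax', hsum⟩
  obtain ⟨N₀, hN₀⟩ := eventually_atTop.1 hone
  choose! κ k₀ hκ using hN₀
  refine ⟨κ, ?_, ?_⟩
  · -- `κ n / log₂ n → β`
    rw [Metric.tendsto_atTop]
    intro ε hε
    obtain ⟨N₁, hN₁⟩ := eventually_atTop.1 ((max_in_window (half_pos (half_pos hε))).and
      ((tendsto_logb.eventually_ge_atTop (4 / ε)).and (eventually_ge_atTop 2)))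
    refine ⟨max N₀ N₁, fun n hn => ?_⟩
    obtain ⟨h1, h2, h3, h4, _⟩ := hκ n ((le_max_left _ _).trans hn)
    obtain ⟨g1, g2, g3⟩ := hN₁ n ((le_max_right _ _).trans hn)
    have hw := g1 (k₀ n) h2 h3 h4
    have hLpos : 0 < Real.logb 2 n := Real.logb_pos (by norm_num) (by exact_mod_cast g3)
    set L := Real.logb 2 n with hL
    have h5 : |(κ n : ℝ) - beta * L| ≤ ε / 2 / 2 * L + 1 := by
      have h6 : |(κ n : ℝ) - k₀ n| ≤ 1 := by
        rcases h1 with h | h
        · rw [h]; simp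
        · have : (k₀ n : ℝ) = κ n + 1 := by exact_mod_cast h.symm
          rw [this]
          norm_num
      calc |(κ n : ℝ) - beta * L| = |((k₀ n : ℝ) - beta * L) + ((κ n : ℝ) - k₀ n)| := by congr 1; ring
        _ ≤ |(k₀ n : ℝ) - beta * L| + |(κ n : ℝ) - k₀ n| := abs_add_le _ _
        _ ≤ _ := add_le_add hw h6
    have h7 : 1 ≤ ε / 4 * L := by
      rw [div_le_iff₀ hε] at g2
      linarith
    rw [Real.dist_eq]
    have h8 : (κ n : ℝ) / L - beta = ((κ n : ℝ) - beta * L) / L := by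
      field_simp
    rw [h8, abs_div, abs_of_pos hLpos, div_lt_iff₀ hLpos]
    nlinarith
  · -- the proportion
    have hlim : Tendsto (fun n : ℕ => 1 - 2 * (4 * Real.sqrt (1 / 16 * (n : ℝ) ^ (-(1 / 8) : ℝ)))) atTop (𝓝 1) := by
      have h1 : Tendsto (fun n : ℕ => (n : ℝ) ^ (-(1 / 8) : ℝ)) atTop (𝓝 0) :=
        (tendsto_rpow_neg_atTop (by norm_num : (0 : ℝ) < 1 / 8)).comp tendsto_natCast_atTop_atTop
      have h2 : Tendsto (fun n : ℕ => Real.sqrt (1 / 16 * (n : ℝ) ^ (-(1 / 8) : ℝ))) atTop (𝓝 0) := by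
        have h1' : Tendsto (fun n : ℕ => 1 / 16 * (n : ℝ) ^ (-(1 / 8) : ℝ)) atTop (𝓝 0) := by
          have h6 := h1.const_mul (1 / 16 : ℝ)
          rwa [mul_zero] at h6
        have h3 := (Real.continuous_sqrt.tendsto 0).comp h1'
        rw [Real.sqrt_zero] at h3
        exact h3
      have h4 := (h2.const_mul 4).const_mul 2
      have h5 := tendsto_const_nhds (x := (1 : ℝ)) (f := (atTop : Filter ℕ)) |>.sub h4
      simpa using h5
    refine tendsto_of_tendsto_of_tendsto_of_le_of_le' hlim tendsto_const_nhds ?_ ?_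
    · filter_upwards [eventually_ge_atTop N₀, ext_eventually_pos, sum_le_ext (show (0 : ℝ) < 1 by norm_num),
        eventually_ge_atTop 1] with n hn hpos hsum hn1
      obtain ⟨h1, h2, h3, h4, h5⟩ := hκ n hn
      have hE : (0 : ℝ) < extCount n := by exact_mod_cast hpos
      rw [le_div_iff₀ hE, sub_mul, one_mul]
      have e1 : (extCount n : ℝ) ≤
          (Nat.card {G : SimpleGraph (Fin n) // Ext G ∧ (upperDom G = κ n ∨ upperDom G = κ n + 1)} : ℝ) +
          (Nat.card {G : SimpleGraph (Fin n) // Ext G ∧ ¬ (upperDom G = κ n ∨ upperDom G = κ n + 1)} : ℝ) := by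
        exact_mod_cast card_or_le (α := SimpleGraph (Fin n)) Ext
          (fun G => Ext G ∧ (upperDom G = κ n ∨ upperDom G = κ n + 1))
          (fun G => Ext G ∧ ¬ (upperDom G = κ n ∨ upperDom G = κ n + 1)) (fun G h => by tauto)
      have e2 : (Nat.card {G : SimpleGraph (Fin n) // Ext G ∧ ¬ (upperDom G = κ n ∨ upperDom G = κ n + 1)} : ℝ) ≤
          ∑ k ∈ (Finset.Icc 1 (n / 2)).filter (fun k => k ≠ κ n ∧ k ≠ κ n + 1), AA n k := by
        have e3 : Nat.card {G : SimpleGraph (Fin n) // Ext G ∧ ¬ (upperDom G = κ n ∨ upperDom G = κ n + 1)} ≤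
            ∑ k ∈ (Finset.Icc 1 (n / 2)).filter (fun k => k ≠ κ n ∧ k ≠ κ n + 1),
              Nat.card {G : SimpleGraph (Fin n) // Ext G ∧ upperDom G = k} := by
          refine card_le_sum (α := SimpleGraph (Fin n)) _ _ (fun k G => Ext G ∧ upperDom G = k) ?_
          rintro G ⟨hG, hG2⟩
          push Not at hG2
          obtain ⟨h6, h7⟩ := ext_range hn1 hG
          refine ⟨upperDom G, ?_, hG, rfl⟩
          rw [Finset.mem_filter, Finset.mem_Icc]
          exact ⟨⟨h6, h7⟩, hG2.1, hG2.2⟩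
        have e4 : (Nat.card {G : SimpleGraph (Fin n) // Ext G ∧ ¬ (upperDom G = κ n ∨ upperDom G = κ n + 1)} : ℝ) ≤
            ∑ k ∈ (Finset.Icc 1 (n / 2)).filter (fun k => k ≠ κ n ∧ k ≠ κ n + 1),
              (Nat.card {G : SimpleGraph (Fin n) // Ext G ∧ upperDom G = k} : ℝ) := by exact_mod_cast e3
        refine e4.trans (Finset.sum_le_sum fun k hk => ?_)
        rw [Finset.mem_filter, Finset.mem_Icc] at hk
        exact extK_le_AA (by omega)
      have e5 : AA n (k₀ n) ≤ 2 * extCount n := by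
        have e6 : AA n (k₀ n) ≤ ∑ k ∈ Finset.Icc 1 (n / 2), AA n k :=
          Finset.single_le_sum (fun k _ => AA_nonneg n k) (by rw [Finset.mem_Icc]; exact ⟨h2, h3⟩)
        linarith
      have e6 : 4 * Real.sqrt (1 / 16 * (n : ℝ) ^ (-(1 / 8) : ℝ)) * AA n (k₀ n) ≤
          4 * Real.sqrt (1 / 16 * (n : ℝ) ^ (-(1 / 8) : ℝ)) * (2 * extCount n) :=
        mul_le_mul_of_nonneg_left e5 (by positivity)
      nlinarith
    · refine Eventually.of_forall fun n => ?_
      refine div_le_one_of_le₀ ?_ (Nat.cast_nonneg _)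
      exact_mod_cast card_mono' (α := SimpleGraph (Fin n))
        (fun G => Ext G ∧ (upperDom G = κ n ∨ upperDom G = κ n + 1)) Ext (fun G h => h.1)

end Pool.Agent.Lib.P5135n
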